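import Mathlib

set_option autoImplicit false

open Finset Filter Topology
open scoped ENNReal

namespace Pool.Agent.Q198.BS

/-- Schreier sets. -/
def S1 (F : Finset ℕ) : Prop := ∀ i ∈ F, F.card ≤ i + 1

/-- Sets cut into `k ≤ t 0` pieces by thresholds `t 0 ≤ t 1 ≤ …`, the `j`-th piece having at most
`t j` elements. -/
def S2 (G : Finset ℕ) : Prop :=
  ∃ (t : ℕ → ℕ) (k : ℕ), Monotone t ∧ k ≤ t 0 ∧ (∀ i ∈ G, t 0 ≤ i ∧ i < t k) ∧
    ∀ j < k, (G.filter fun i => t j ≤ i ∧ i < t (j + 1)).card ≤ t j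

/-- The norming functionals. -/
def W : Set (ℕ →₀ ℝ) :=
  {g | (S1 g.support ∧ ∀ i, |g i| ≤ 1) ∨ (S2 g.support ∧ ∀ i, |g i| ≤ 1 / 4)}

lemma W_le_one (g : W) (k : ℕ) : |g.1 k| ≤ 1 := by
  rcases g.2 with h | h
  · exact h.2 k
  · exact (h.2 k).trans (by norm_num)

/-- the ambient space -/
abbrev L := lp (fun _ : W => ℝ) ∞

/-- the unit vectors -/
noncomputable def e (k : ℕ) : L :=
  ⟨fun g => g.1 k, memℓp_infty ⟨1, by
    rintro _ ⟨g, rfl⟩
    simpa [Real.norm_eq_abs] using W_le_one g k⟩⟩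

lemma e_apply (k : ℕ) (g : W) : (e k : ∀ _ : W, ℝ) g = g.1 k := rfl

/-- the closed span of the unit vectors -/
noncomputable def Sp : Submodule ℝ L := (Submodule.span ℝ (Set.range e)).topologicalClosure

/-- the space -/
abbrev X : Type := ↥Sp

noncomputable instance : CompleteSpace X :=
  (Submodule.isClosed_topologicalClosure (Submodule.span ℝ (Set.range e))).completeSpace_coe

lemma S1_singleton (k : ℕ) : S1 {k} := by
  intro i _
  simp

/-- the functional `e_k^*` -/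
noncomputable def δ (k : ℕ) : W := ⟨Finsupp.single k 1, Or.inl ⟨by
  rw [Finsupp.support_single _ one_ne_zero]; exact S1_singleton k, fun i => by
  rw [Finsupp.single_apply]; split_ifs <;> simp⟩⟩

/-- coordinates -/
noncomputable def c (k : ℕ) : X →L[ℝ] ℝ := (lp.evalCLM ℝ (fun _ : W => ℝ) ∞ (δ k)).comp Sp.subtypeL

lemma c_apply (k : ℕ) (x : X) : c k x = ((x : L) : ∀ _ : W, ℝ) (δ k) := rfl

/-- the unit vectors in `X` -/
noncomputable def u (k : ℕ) : X :=
  ⟨e k, Submodule.le_topologicalClosure _ (Submodule.subset_span ⟨k, rfl⟩)⟩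

lemma c_u (j k : ℕ) : c j (u k) = if j = k then 1 else 0 := by
  rw [c_apply]
  change (Finsupp.single j (1 : ℝ)) k = _
  rw [Finsupp.single_apply]

lemma eval_eq (x : X) (g : W) : ((x : L) : ∀ _ : W, ℝ) g = ∑ k ∈ g.1.support, g.1 k * c k x := by
  let T : L →L[ℝ] ℝ := lp.evalCLM ℝ (fun _ : W => ℝ) ∞ g
    - ∑ k ∈ g.1.support, g.1 k • lp.evalCLM ℝ (fun _ : W => ℝ) ∞ (δ k)
  have h1 : Sp ≤ LinearMap.ker (T : L →ₗ[ℝ] ℝ) := by
    apply Submodule.topologicalClosure_minimal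
    · rw [Submodule.span_le]
      rintro _ ⟨k, rfl⟩
      change T (e k) = 0
      have : T (e k) = g.1 k - ∑ j ∈ g.1.support, g.1 j * (Finsupp.single j (1 : ℝ)) k := by
        simp only [T, sub_apply, _root_.sum_apply,
          smul_apply, smul_eq_mul]
        rfl
      rw [this]
      simp only [Finsupp.single_apply, mul_ite, mul_one, mul_zero]
      rw [sum_ite_eq' g.1.support k]
      split_ifs with h
      · ring
      · rw [Finsupp.notMem_support_iff.1 h]; ring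
    · exact T.isClosed_ker
  have h2 : T (x : L) = 0 := h1 x.2
  have h3 : T (x : L) = ((x : L) : ∀ _ : W, ℝ) g - ∑ k ∈ g.1.support, g.1 k * c k x := by
    simp only [T, sub_apply, _root_.sum_apply,
      smul_apply, smul_eq_mul]
    rfl
  rw [h3] at h2
  linarith

lemma sum_le_of (x : X) (F : Finset ℕ) (r : ℝ) (hr : 0 < r)
    (h : ∀ g : ℕ →₀ ℝ, g.support = F → (∀ i, |g i| ≤ r) → g ∈ W) :
    r * ∑ i ∈ F, |c i x| ≤ ‖x‖ := by
  classical
  let g : ℕ →₀ ℝ := Finsupp.onFinset F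
    (fun i => if i ∈ F then (if 0 ≤ c i x then r else -r) else 0) (by
      intro i hi
      by_contra h
      simp [h] at hi)
  have hg : ∀ i, g i = if i ∈ F then (if 0 ≤ c i x then r else -r) else 0 := fun i => rfl
  have hsupp : g.support = F := by
    ext i
    rw [Finsupp.mem_support_iff, hg]
    constructor
    · intro h'
      by_contra h''
      simp [h''] at h'
    · intro h'
      rw [if_pos h']
      split_ifs
      · exact hr.ne'
      · exact (neg_neg_of_pos hr).ne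
  have hle : ∀ i, |g i| ≤ r := by
    intro i
    rw [hg]
    split_ifs
    · rw [abs_of_pos hr]
    · rw [abs_neg, abs_of_pos hr]
    · rw [abs_zero]; exact hr.le
  have hW := h g hsupp hle
  have h1 := eval_eq x ⟨g, hW⟩
  have h2 : ∑ k ∈ g.support, g k * c k x = r * ∑ i ∈ F, |c i x| := by
    rw [hsupp, mul_sum]
    refine sum_congr rfl fun i hi => ?_
    rw [hg, if_pos hi]
    split_ifs with h3
    · rw [abs_of_nonneg h3]
    · rw [abs_of_neg (not_le.1 h3)]; ring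
  rw [h2] at h1
  rw [← h1]
  calc _ ≤ ‖((x : L) : ∀ _ : W, ℝ) ⟨g, hW⟩‖ := le_abs_self _
    _ ≤ ‖(x : L)‖ := lp.norm_apply_le_norm ENNReal.top_ne_zero _ _
    _ = ‖x‖ := rfl

lemma sum_S1_le (x : X) {F : Finset ℕ} (hF : S1 F) : ∑ i ∈ F, |c i x| ≤ ‖x‖ := by
  have := sum_le_of x F 1 one_pos fun g hg hle => Or.inl ⟨by rwa [hg], hle⟩
  simpa using this

lemma sum_S2_le (x : X) {G : Finset ℕ} (hG : S2 G) : ∑ i ∈ G, |c i x| ≤ 4 * ‖x‖ := by
  have := sum_le_of x G (1 / 4) (by norm_num) fun g hg hle => Or.inr ⟨by rwa [hg], hle⟩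
  linarith

lemma norm_le_of (x : X) (C : ℝ) (h0 : 0 ≤ C) (h1 : ∀ F, S1 F → ∑ i ∈ F, |c i x| ≤ C)
    (h2 : ∀ G, S2 G → ∑ i ∈ G, |c i x| ≤ 4 * C) : ‖x‖ ≤ C := by
  change ‖(x : L)‖ ≤ C
  refine lp.norm_le_of_forall_le h0 fun g => ?_
  rw [eval_eq x g, Real.norm_eq_abs]
  refine (abs_sum_le_sum_abs _ _).trans ?_
  rcases g.2 with ⟨h, h'⟩ | ⟨h, h'⟩
  · refine (sum_le_sum fun i _ => ?_).trans (h1 _ h)
    rw [abs_mul]
    exact mul_le_of_le_one_left (abs_nonneg _) (h' i)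
  · have h3 : ∑ i ∈ g.1.support, |g.1 i * c i x| ≤ ∑ i ∈ g.1.support, 1 / 4 * |c i x| := by
      refine sum_le_sum fun i _ => ?_
      rw [abs_mul]
      exact mul_le_mul_of_nonneg_right (h' i) (abs_nonneg _)
    rw [← mul_sum] at h3
    have := h2 _ h
    linarith

lemma exists_tail (x : X) (η : ℝ) (hη : 0 < η) : ∃ b : ℕ, ∀ F : Finset ℕ, (∀ i ∈ F, b ≤ i) →
    (S1 F → ∑ i ∈ F, |c i x| ≤ η) ∧ (S2 F → ∑ i ∈ F, |c i x| ≤ 4 * η) := by
  have hx : (x : L) ∈ closure ((Submodule.span ℝ (Set.range e) : Submodule ℝ L) : Set L) := by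
    have h : (x : L) ∈ (Submodule.span ℝ (Set.range e)).topologicalClosure := x.2
    rwa [← SetLike.mem_coe, Submodule.topologicalClosure_coe] at h
  obtain ⟨y, hy, hxy⟩ := Metric.mem_closure_iff.1 hx η hη
  have hb : ∃ b, ∀ i, b ≤ i → (y : ∀ _ : W, ℝ) (δ i) = 0 := by
    refine Submodule.span_induction (p := fun (y : L) _ => ∃ b, ∀ i, b ≤ i → (y : ∀ _ : W, ℝ) (δ i) = 0)
      ?_ ?_ ?_ ?_ hy
    · rintro _ ⟨k, rfl⟩
      refine ⟨k + 1, fun i hi => ?_⟩
      rw [e_apply]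
      change (Finsupp.single i (1 : ℝ)) k = 0
      rw [Finsupp.single_apply, if_neg (by omega)]
    · exact ⟨0, fun i _ => rfl⟩
    · rintro a b _ _ ⟨m, hm⟩ ⟨n, hn⟩
      refine ⟨max m n, fun i hi => ?_⟩
      rw [lp.coeFn_add, Pi.add_apply, hm i (le_trans (le_max_left _ _) hi),
        hn i (le_trans (le_max_right _ _) hi), add_zero]
    · rintro r a _ ⟨m, hm⟩
      refine ⟨m, fun i hi => ?_⟩
      rw [lp.coeFn_smul, Pi.smul_apply, hm i hi, smul_zero]
  obtain ⟨b, hb⟩ := hb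
  let y' : X := ⟨y, Submodule.le_topologicalClosure _ hy⟩
  have hc : ∀ i, b ≤ i → c i x = c i (x - y') := by
    intro i hi
    rw [map_sub, c_apply i y', show ((y' : L) : ∀ _ : W, ℝ) (δ i) = 0 from hb i hi, sub_zero]
  have hn : ‖x - y'‖ ≤ η := by
    rw [dist_eq_norm] at hxy
    exact hxy.le
  refine ⟨b, fun F hF => ⟨fun h => ?_, fun h => ?_⟩⟩
  · rw [sum_congr rfl fun i hi => by rw [hc i (hF i hi)]]
    exact (sum_S1_le _ h).trans hn
  · rw [sum_congr rfl fun i hi => by rw [hc i (hF i hi)]]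
    exact (sum_S2_le _ h).trans (by linarith)

lemma S1.subset {F F' : Finset ℕ} (h : S1 F) (hs : F' ⊆ F) : S1 F' := fun i hi =>
  (card_le_card hs).trans (h i (hs hi))

lemma S2.subset {F F' : Finset ℕ} (h : S2 F) (hs : F' ⊆ F) : S2 F' := by
  obtain ⟨t, k, h1, h2, h3, h4⟩ := h
  exact ⟨t, k, h1, h2, fun i hi => h3 i (hs hi), fun j hj =>
    (card_le_card (filter_subset_filter _ hs)).trans (h4 j hj)⟩

end Pool.Agent.Q198.BS
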