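import Pool.Agent.Q198.BS1

set_option autoImplicit false

open Finset Filter Topology
open scoped ENNReal

namespace Pool.Agent.Q198.BS

/-- convex combinations supported in `A`, beyond `D` -/
def IsConv (A : Set ℕ) (D : ℕ) (w : ℕ →₀ ℝ) : Prop :=
  (∀ k, 0 ≤ w k) ∧ (∀ k ∈ w.support, k ∈ A ∧ D < k) ∧ ∑ k ∈ w.support, w k = 1

/-- mass of `G` -/
noncomputable def val (w : ℕ →₀ ℝ) (G : Finset ℕ) : ℝ := ∑ k ∈ G, w k

lemma val_eq (w : ℕ →₀ ℝ) (G : Finset ℕ) : val w G = ∑ k ∈ G ∩ w.support, w k := by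
  rw [val]
  symm
  apply sum_subset inter_subset_left
  intro x hx hx'
  by_contra h
  exact hx' (mem_inter.2 ⟨hx, Finsupp.mem_support_iff.2 h⟩)

lemma val_nonneg {A : Set ℕ} {D : ℕ} {w : ℕ →₀ ℝ} (h : IsConv A D w) (G : Finset ℕ) :
    0 ≤ val w G := sum_nonneg fun i _ => h.1 i

lemma val_le_one {A : Set ℕ} {D : ℕ} {w : ℕ →₀ ℝ} (h : IsConv A D w) (G : Finset ℕ) :
    val w G ≤ 1 := by
  rw [val_eq, ← h.2.2]
  exact sum_le_sum_of_subset_of_nonneg inter_subset_right fun i _ _ => h.1 i

lemma avg (P : Finset ℕ → Prop) (A : Set ℕ)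
    (h : ∀ (N D : ℕ) (ε : ℝ), 0 < ε → ∃ w, IsConv A D w ∧
      ∀ G, P G → (∃ i ∈ G, i ≤ N) → val w G ≤ ε) (D : ℕ) (ε : ℝ) (hε : 0 < ε) :
    ∃ w, IsConv A D w ∧ ∀ G, P G → val w G ≤ ε := by
  classical
  have h' : ∀ N : ℕ, ∃ w, IsConv A N w ∧ ∀ G, P G → (∃ i ∈ G, i ≤ N) → val w G ≤ ε / 2 :=
    fun N => h N N (ε / 2) (by linarith)
  choose ω hω1 hω2 using h'
  let N : ℕ → ℕ := fun q => Nat.rec D (fun _ n => (ω n).support.sup id) q
  have hNs : ∀ q, N (q + 1) = (ω (N q)).support.sup id := fun q => rfl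
  have hlt : ∀ q, N q < N (q + 1) := by
    intro q
    have hne : (ω (N q)).support.Nonempty := by
      by_contra hcon
      rw [not_nonempty_iff_eq_empty] at hcon
      have := (hω1 (N q)).2.2
      rw [hcon, sum_empty] at this
      exact zero_ne_one this
    obtain ⟨k, hk⟩ := hne
    rw [hNs]
    exact lt_of_lt_of_le ((hω1 (N q)).2.1 k hk).2 (le_sup (f := id) hk)
  have hmono : StrictMono N := strictMono_nat_of_lt_succ hlt
  obtain ⟨R, hR⟩ := exists_nat_gt (2 / ε)
  have hR0 : (0 : ℝ) < R := lt_trans (by positivity) hR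
  have hRne : (R : ℝ) ≠ 0 := hR0.ne'
  let w : ℕ →₀ ℝ := (1 / (R : ℝ)) • ∑ q ∈ range R, ω (N q)
  have hw : ∀ k, w k = (1 / (R : ℝ)) * ∑ q ∈ range R, ω (N q) k := by
    intro k
    simp only [w, Finsupp.smul_apply, Finsupp.finsetSum_apply, smul_eq_mul]
  have hval : ∀ G, val w G = (1 / (R : ℝ)) * ∑ q ∈ range R, val (ω (N q)) G := by
    intro G
    simp only [val, hw]
    rw [← mul_sum, sum_comm]
  have hw0 : ∀ k, 0 ≤ w k := by
    intro k
    rw [hw]
    exact mul_nonneg (by positivity) (sum_nonneg fun q _ => (hω1 (N q)).1 k)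
  refine ⟨w, ⟨hw0, ?_, ?_⟩, ?_⟩
  · intro k hk
    have hk' : w k ≠ 0 := Finsupp.mem_support_iff.1 hk
    rw [hw] at hk'
    have : ∃ q ∈ range R, ω (N q) k ≠ 0 := by
      by_contra hcon
      push Not at hcon
      exact hk' (by rw [sum_eq_zero hcon, mul_zero])
    obtain ⟨q, -, hq⟩ := this
    have := (hω1 (N q)).2.1 k (Finsupp.mem_support_iff.2 hq)
    exact ⟨this.1, lt_of_le_of_lt (hmono.monotone (Nat.zero_le q)) this.2⟩
  · change val w w.support = 1
    rw [hval]
    have : ∀ q ∈ range R, val (ω (N q)) w.support = 1 := by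
      intro q hq
      rw [val_eq, ← (hω1 (N q)).2.2]
      congr 1
      rw [inter_eq_right]
      intro k hk
      rw [Finsupp.mem_support_iff, hw]
      have h0 : 0 < ω (N q) k := lt_of_le_of_ne ((hω1 (N q)).1 k)
        (Ne.symm (Finsupp.mem_support_iff.1 hk))
      have h1 : 0 < ∑ q ∈ range R, ω (N q) k :=
        lt_of_lt_of_le h0 (single_le_sum (f := fun q => ω (N q) k)
          (fun q _ => (hω1 (N q)).1 k) hq)
      positivity
    rw [sum_congr rfl this]
    simp [hRne]
  · intro G hG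
    rw [hval]
    have key : ∑ q ∈ range R, val (ω (N q)) G ≤ 1 + R * (ε / 2) := by
      by_cases hex : ∃ q, val (ω (N q)) G ≠ 0
      · let q0 := Nat.find hex
        have hq0 : val (ω (N q0)) G ≠ 0 := Nat.find_spec hex
        have hbd : ∀ q, q ≠ q0 → val (ω (N q)) G ≤ ε / 2 := by
          intro q hq
          rcases lt_or_gt_of_ne hq with hlt' | hgt
          · have := Nat.find_min hex hlt'
            push Not at this
            rw [this]; linarith
          · have : ∃ i ∈ G, ω (N q0) i ≠ 0 := by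
              by_contra hcon
              push Not at hcon
              exact hq0 (sum_eq_zero hcon)
            obtain ⟨i, hi, hi'⟩ := this
            refine hω2 (N q) G hG ⟨i, hi, ?_⟩
            have h1 : i ≤ N (q0 + 1) := by
              rw [hNs]
              exact le_sup (f := id) (Finsupp.mem_support_iff.2 hi')
            exact h1.trans (hmono.monotone hgt)
        calc ∑ q ∈ range R, val (ω (N q)) G
            ≤ ∑ q ∈ range R, ((if q = q0 then (1 : ℝ) else 0) + ε / 2) := by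
              refine sum_le_sum fun q _ => ?_
              split_ifs with hq
              · have := val_le_one (hω1 (N q)) G
                linarith
              · have := hbd q hq
                linarith
          _ ≤ 1 + R * (ε / 2) := by
              rw [sum_add_distrib, sum_const, card_range, nsmul_eq_mul]
              have : ∑ q ∈ range R, (if q = q0 then (1 : ℝ) else 0) ≤ 1 := by
                rw [sum_ite_eq']
                split_ifs <;> norm_num
              linarith
      · push Not at hex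
        rw [sum_congr rfl fun q _ => hex q, sum_const_zero]
        positivity
    calc (1 / (R : ℝ)) * ∑ q ∈ range R, val (ω (N q)) G ≤ (1 / (R : ℝ)) * (1 + R * (ε / 2)) :=
          mul_le_mul_of_nonneg_left key (by positivity)
      _ = 1 / R + ε / 2 := by field_simp
      _ ≤ ε / 2 + ε / 2 := by
          have : 1 / (R : ℝ) ≤ ε / 2 := by
            rw [div_le_iff₀ hR0]
            rw [div_lt_iff₀ hε] at hR
            linarith
          linarith
      _ = ε := by ring

/-- the sum over an `S2` set is at most the sum over its pieces -/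
lemma sum_pieces (G : Finset ℕ) (t : ℕ → ℕ) (k : ℕ) (ht : ∀ i ∈ G, t 0 ≤ i ∧ i < t k)
    (f : ℕ → ℝ) (hf : ∀ i, 0 ≤ f i) :
    ∑ i ∈ G, f i ≤ ∑ j ∈ range k, ∑ i ∈ G.filter (fun i => t j ≤ i ∧ i < t (j + 1)), f i := by
  classical
  simp only [sum_filter]
  rw [sum_comm]
  refine sum_le_sum fun i hi => ?_
  have hex : ∃ j, i < t (j + 1) := by
    rcases k with _ | k
    · exact absurd (ht i hi) (by omega)
    · exact ⟨k, (ht i hi).2⟩
  have h1 := Nat.find_spec hex
  set j := Nat.find hex with hj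
  have h2 : t j ≤ i := by
    rcases Nat.eq_zero_or_pos j with h0 | h0
    · rw [h0]; exact (ht i hi).1
    · have := Nat.find_min hex (m := j - 1) (by omega)
      rw [Nat.sub_add_cancel h0] at this
      omega
  have h3 : j < k := by
    rcases k with _ | k
    · exact absurd (ht i hi) (by omega)
    · exact Nat.lt_succ_of_le (Nat.find_min' hex (ht i hi).2)
  refine le_trans ?_ (single_le_sum (f := fun j => if t j ≤ i ∧ i < t (j + 1) then f i else 0)
    (fun q _ => ?_) (mem_range.2 h3))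
  · change f i ≤ if t j ≤ i ∧ i < t (j + 1) then f i else 0
    rw [if_pos ⟨h2, h1⟩]
  · change 0 ≤ if _ then f i else 0
    split_ifs
    · exact hf i
    · exact le_rfl

lemma piece_S1 (G : Finset ℕ) (t : ℕ → ℕ) (j : ℕ)
    (h : (G.filter fun i => t j ≤ i ∧ i < t (j + 1)).card ≤ t j) :
    S1 (G.filter fun i => t j ≤ i ∧ i < t (j + 1)) := by
  intro i hi
  have := (mem_filter.1 hi).2.1
  omega

lemma small_S1 (A : Set ℕ) (hA : A.Infinite) (D : ℕ) (ε : ℝ) (hε : 0 < ε) :
    ∃ w, IsConv A D w ∧ ∀ G, S1 G → val w G ≤ ε := by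
  classical
  refine avg S1 A (fun N D ε hε => ?_) D ε hε
  obtain ⟨s, hs⟩ := exists_nat_gt ((N + 1) / ε)
  have hs0 : (0 : ℝ) < s := lt_trans (by positivity) hs
  have hs0' : 0 < s := by exact_mod_cast hs0
  have hA' : (A \ (range (D + 1) : Set ℕ)).Infinite := hA.sdiff (Finset.finite_toSet _)
  obtain ⟨T, hT, hTc⟩ := hA'.exists_subset_card_eq s
  let w : ℕ →₀ ℝ := Finsupp.onFinset T (fun i => if i ∈ T then 1 / (s : ℝ) else 0) (by
    intro i hi
    by_contra h
    simp [h] at hi)
  have hw : ∀ i, w i = if i ∈ T then 1 / (s : ℝ) else 0 := fun i => rfl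
  have hsupp : w.support = T := by
    ext i
    rw [Finsupp.mem_support_iff, hw]
    constructor
    · intro h'
      by_contra h''
      simp [h''] at h'
    · intro h'
      rw [if_pos h']
      positivity
  refine ⟨w, ⟨fun i => ?_, fun i hi => ?_, ?_⟩, ?_⟩
  · rw [hw]; split_ifs <;> positivity
  · rw [hsupp] at hi
    have := hT hi
    refine ⟨this.1, ?_⟩
    have h2 := this.2
    simp only [coe_range, Set.mem_Iio] at h2
    omega
  · rw [hsupp, sum_congr rfl fun i hi => by rw [hw, if_pos hi], sum_const, hTc, nsmul_eq_mul]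
    field_simp
  · rintro G hG ⟨i, hi, hiN⟩
    have h1 : (G.card : ℝ) ≤ N + 1 := by
      have := hG i hi
      exact_mod_cast this.trans (by omega)
    calc val w G ≤ ∑ i ∈ G, 1 / (s : ℝ) := by
          refine sum_le_sum fun i _ => ?_
          rw [hw]; split_ifs
          · exact le_rfl
          · positivity
      _ = G.card * (1 / (s : ℝ)) := by rw [sum_const, nsmul_eq_mul]
      _ ≤ (N + 1) * (1 / (s : ℝ)) := mul_le_mul_of_nonneg_right h1 (by positivity)
      _ = (N + 1) / s := by ring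
      _ ≤ ε := by
          rw [div_le_iff₀ hs0]
          rw [div_lt_iff₀ hε] at hs
          linarith

lemma small_all (A : Set ℕ) (hA : A.Infinite) (D : ℕ) (ε : ℝ) (hε : 0 < ε) :
    ∃ w, IsConv A D w ∧ ∀ G, (S1 G ∨ S2 G) → val w G ≤ ε := by
  refine avg (fun G => S1 G ∨ S2 G) A (fun N D ε hε => ?_) D ε hε
  obtain ⟨w, hw, hw'⟩ := small_S1 A hA D (ε / (N + 1)) (by positivity)
  refine ⟨w, hw, fun G hG hi => ?_⟩
  have hle : ε / (N + 1) ≤ ε := div_le_self hε.le (by
    have : (0 : ℝ) ≤ N := Nat.cast_nonneg N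
    linarith)
  rcases hG with hG | ⟨t, k, h1, h2, h3, h4⟩
  · exact (hw' G hG).trans hle
  · obtain ⟨i, hi, hiN⟩ := hi
    have hk : (k : ℝ) ≤ N := by
      have := (h3 i hi).1
      exact_mod_cast h2.trans (this.trans hiN)
    calc val w G ≤ ∑ j ∈ range k, ∑ i ∈ G.filter (fun i => t j ≤ i ∧ i < t (j + 1)), w i :=
          sum_pieces G t k h3 _ hw.1
      _ ≤ ∑ j ∈ range k, ε / (N + 1) :=
          sum_le_sum fun j hj => hw' _ (piece_S1 G t j (h4 j (mem_range.1 hj)))
      _ = k * (ε / (N + 1)) := by rw [sum_const, card_range, nsmul_eq_mul]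
      _ ≤ (N + 1) * (ε / (N + 1)) := mul_le_mul_of_nonneg_right (by linarith) (by positivity)
      _ = ε := by field_simp

/-- The unit vectors tend weakly to `0`. -/
lemma u_weak (f : X →L[ℝ] ℝ) : Tendsto (fun k => f (u k)) atTop (𝓝 0) := by
  classical
  rw [Metric.tendsto_atTop]
  by_contra hcon
  push Not at hcon
  obtain ⟨ε, hε, hinf⟩ := hcon
  let A : Set ℕ := {k | ε ≤ |f (u k)|}
  have hA : A.Infinite := by
    rw [Set.infinite_iff_exists_gt]
    intro n
    obtain ⟨k, hk, hk'⟩ := hinf (n + 1)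
    refine ⟨k, ?_, hk⟩
    change ε ≤ |f (u k)|
    rwa [Real.dist_eq, sub_zero] at hk'
  obtain ⟨w, hw, hw'⟩ := small_all A hA 0 (ε / (2 * (‖f‖ + 1))) (by positivity)
  let y : X := ∑ k ∈ w.support, (w k * (if 0 ≤ f (u k) then 1 else -1)) • u k
  have hy : ε ≤ f y := by
    have h1 : f y = ∑ k ∈ w.support, w k * |f (u k)| := by
      simp only [y, map_sum, map_smul, smul_eq_mul]
      refine sum_congr rfl fun k _ => ?_
      split_ifs with h
      · rw [abs_of_nonneg h]; ring
      · rw [abs_of_neg (not_le.1 h)]; ring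
    rw [h1]
    calc ε = ∑ k ∈ w.support, w k * ε := by rw [← sum_mul, hw.2.2, one_mul]
      _ ≤ _ := sum_le_sum fun k hk => mul_le_mul_of_nonneg_left (hw.2.1 k hk).1 (hw.1 k)
  have hcy : ∀ i, |c i y| = w i := by
    intro i
    have h1 : c i y = w i * (if 0 ≤ f (u i) then 1 else -1) := by
      simp only [y, map_sum, map_smul, smul_eq_mul, c_u]
      simp only [mul_ite, mul_one, mul_zero]
      rw [sum_ite_eq]
      split_ifs with h2 h3 h3
      · ring
      · ring
      · rw [Finsupp.notMem_support_iff.1 h2]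
      · rw [Finsupp.notMem_support_iff.1 h2]; ring
    rw [h1, abs_mul, abs_of_nonneg (hw.1 i)]
    split_ifs <;> simp
  have hny : ‖y‖ ≤ ε / (2 * (‖f‖ + 1)) := by
    refine norm_le_of y _ (by positivity) (fun F hF => ?_) (fun F hF => ?_)
    · rw [sum_congr rfl fun i _ => hcy i]
      exact hw' F (Or.inl hF)
    · rw [sum_congr rfl fun i _ => hcy i]
      refine (hw' F (Or.inr hF)).trans ?_
      have : 0 < ε / (2 * (‖f‖ + 1)) := by positivity
      linarith
  have h3 : f y ≤ ‖f‖ * ‖y‖ := (le_abs_self _).trans (f.le_opNorm y)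
  have h4 : ‖f‖ * ‖y‖ ≤ ‖f‖ * (ε / (2 * (‖f‖ + 1))) :=
    mul_le_mul_of_nonneg_left hny f.opNorm_nonneg
  have h5 : ‖f‖ * (ε / (2 * (‖f‖ + 1))) < ε := by
    rw [mul_div_assoc', div_lt_iff₀ (by positivity)]
    nlinarith [f.opNorm_nonneg]
  linarith

end Pool.Agent.Q198.BS
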