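import Mathlib

set_option autoImplicit false

open Finset Filter Topology

namespace Pool.Agent.Q198.BSD

/-- The least element of the support of `a`. -/
noncomputable def minSupp (a : ℕ →₀ ℝ) : ℕ := sInf {k | a k ≠ 0}

/-- The repeated averages of order `0` on `M = {m 0 < m 1 < …}`: the `n`-th one is the unit vector
`e_{m n}` (all sequences are indexed from `0` here). -/
noncomputable def zeroAvg (m : ℕ → ℕ) (n : ℕ) : ℕ →₀ ℝ := Finsupp.single (m n) 1

/-- The numbers `k_n` in the passage from order `ζ` to order `ζ + 1`. -/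
noncomputable def start (z : ℕ → (ℕ →₀ ℝ)) : ℕ → ℕ
  | 0 => 0
  | n + 1 => start z n + minSupp (z (start z n))

/-- The passage from the repeated averages `z` of order `ζ` to those of order `ζ + 1`: the average
of the next `s_n` vectors of `z`, where `s_n` is the least element of the support of the first of
them. -/
noncomputable def nextAvg (z : ℕ → (ℕ →₀ ℝ)) (n : ℕ) : ℕ →₀ ℝ :=
  (1 / (minSupp (z (start z n)) : ℝ)) •
    ∑ i ∈ Finset.range (minSupp (z (start z n))), z (start z n + i)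

section

variable {E : Type} [NormedAddCommGroup E] [NormedSpace ℝ E]

/-- `a · (x_k) = ∑ a_k x_k`. -/
noncomputable def app (a : ℕ →₀ ℝ) (x : ℕ → E) : E := a.sum fun k r => r • x k

/-- `ca (y_n) = inf_n sup_{k, l ≥ n} ‖y_k - y_l‖`. -/
noncomputable def ca (y : ℕ → E) : ℝ :=
  ⨅ n : ℕ, ⨆ p : {p : ℕ × ℕ // n ≤ p.1 ∧ n ≤ p.2}, ‖y p.1.1 - y p.1.2‖

/-- `cca (x_n)`: the quantity `ca` of the sequence of the Cesàro means. -/
noncomputable def cca (x : ℕ → E) : ℝ :=
  ca fun n => (1 / ((n : ℝ) + 1)) • ∑ i ∈ Finset.range (n + 1), x i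

/-- The infimum over `M` of `cca (1^M_n · (x_k))`, for the averages of order `1`. -/
noncomputable def ccaOne (x : ℕ → E) : ℝ :=
  ⨅ m : {m : ℕ → ℕ // StrictMono m ∧ 0 < m 0}, cca fun n => app (nextAvg (zeroAvg m.1) n) x

/-- `wbs_1 (A)`. -/
noncomputable def wbsOne (A : Set E) : ℝ :=
  sSup {r | ∃ x : ℕ → E, (∀ k, x k ∈ A) ∧
    (∃ l : E, ∀ f : E →L[ℝ] ℝ, Tendsto (fun k => f (x k)) atTop (𝓝 (f l))) ∧ r = ccaOne x}

end

end Pool.Agent.Q198.BSD
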