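import Pool.Agent.Q198.BS2
import Pool.Agent.Q198.BSD

set_option autoImplicit false

open Finset Filter Topology
open scoped ENNReal

namespace Pool.Agent.Q198.BS

open Pool.Agent.Q198.BSD

section averages

lemma minSupp_single (k : ℕ) : minSupp (Finsupp.single k 1) = k := by
  have : {j : ℕ | (Finsupp.single k (1 : ℝ)) j ≠ 0} = {k} := by
    ext j
    simp only [Set.mem_ofPred_eq, Set.mem_singleton_iff, Finsupp.single_apply, ne_eq,
      ite_eq_right_iff, one_ne_zero, imp_false, not_not]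
    exact eq_comm
  rw [minSupp, this, csInf_singleton]

/-- the first index of the `n`-th block -/
noncomputable def K (m : ℕ → ℕ) (n : ℕ) : ℕ := start (zeroAvg m) n

lemma K_zero (m : ℕ → ℕ) : K m 0 = 0 := rfl

lemma K_succ (m : ℕ → ℕ) (n : ℕ) : K m (n + 1) = K m n + m (K m n) := by
  change start (zeroAvg m) n + minSupp (zeroAvg m (start (zeroAvg m) n)) = _
  rw [zeroAvg, minSupp_single]; rfl

variable {E : Type} [NormedAddCommGroup E] [NormedSpace ℝ E]

lemma app_next (m : ℕ → ℕ) (x : ℕ → E) (n : ℕ) :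
    app (nextAvg (zeroAvg m) n) x
      = (1 / (m (K m n) : ℝ)) • ∑ i ∈ Ico (K m n) (K m (n + 1)), x (m i) := by
  have h1 : ∀ a : ℕ →₀ ℝ, app a x = Finsupp.linearCombination ℝ x a := fun a => rfl
  rw [h1, nextAvg, map_smul, map_sum, K_succ, sum_Ico_eq_sum_range, Nat.add_sub_cancel_left]
  have h2 : minSupp (zeroAvg m (start (zeroAvg m) n)) = m (K m n) := by
    rw [zeroAvg, minSupp_single]; rfl
  rw [h2]
  congr 1
  refine sum_congr rfl fun i _ => ?_
  rw [zeroAvg, Finsupp.linearCombination_single, one_smul]; rfl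

lemma lt_m {m : ℕ → ℕ} (hm : StrictMono m) (h0 : 0 < m 0) (i : ℕ) : i < m i := by
  induction i with
  | zero => exact h0
  | succ i ih => exact lt_of_le_of_lt ih (hm (Nat.lt_succ_self i))

lemma K_lt {m : ℕ → ℕ} (hm : StrictMono m) (h0 : 0 < m 0) (n : ℕ) : K m n < K m (n + 1) := by
  rw [K_succ]
  have := lt_m hm h0 (K m n)
  omega

lemma K_mono {m : ℕ → ℕ} (hm : StrictMono m) (h0 : 0 < m 0) : StrictMono (K m) :=
  strictMono_nat_of_lt_succ (K_lt hm h0)

lemma K_pow {m : ℕ → ℕ} (hm : StrictMono m) (h0 : 0 < m 0) (n : ℕ) : 2 ^ n ≤ K m n + 1 := by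
  induction n with
  | zero => simp [K_zero]
  | succ n ih =>
    rw [K_succ]
    have := lt_m hm h0 (K m n)
    rw [pow_succ]
    omega

lemma sum_blocks (k : ℕ → ℕ) (hk : Monotone k) (h0 : k 0 = 0) (f : ℕ → ℝ) (q : ℕ) :
    ∑ n ∈ range q, ∑ i ∈ Ico (k n) (k (n + 1)), f i = ∑ i ∈ range (k q), f i := by
  induction q with
  | zero => simp [h0]
  | succ q ih =>
    rw [sum_range_succ, ih, range_eq_Ico, sum_Ico_consecutive f (Nat.zero_le _)
      (hk (Nat.le_succ q)), ← range_eq_Ico]

end averages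

section lower

lemma three_mul_le (p : ℕ) (hp : 4 ≤ p) : 3 * p ≤ 2 ^ p := by
  induction p, hp using Nat.le_induction with
  | base => norm_num
  | succ p hp ih => rw [pow_succ]; omega

lemma lower_aux {m : ℕ → ℕ} (hm : StrictMono m) (h0 : 0 < m 0) (p : ℕ) (hp : 4 ≤ p) :
    (3 / 16 : ℝ) ≤ ‖(1 / ((4 * p : ℕ) : ℝ)) • ∑ n ∈ range (4 * p), app (nextAvg (zeroAvg m) n) u
      - (1 / (p : ℝ)) • ∑ n ∈ range p, app (nextAvg (zeroAvg m) n) u‖ := by
  classical
  have hp0 : (0 : ℝ) < p := by exact_mod_cast (by omega : 0 < p)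
  have hKm := K_mono hm h0
  set G : Finset ℕ := (Ico (K m p) (K m (4 * p))).image m with hG
  have hS2 : S2 G := by
    refine ⟨fun j => m (K m (p + j)), 3 * p, ?_, ?_, ?_, ?_⟩
    · intro a b hab
      exact hm.monotone (hKm.monotone (by omega))
    · have h1 := K_pow hm h0 p
      have h2 := lt_m hm h0 (K m p)
      have h3 := three_mul_le p hp
      change 3 * p ≤ m (K m (p + 0))
      rw [add_zero]
      omega
    · intro i hi
      obtain ⟨l, hl, rfl⟩ := mem_image.1 hi
      rw [mem_Ico] at hl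
      refine ⟨hm.monotone hl.1, hm ?_⟩
      rw [show p + 3 * p = 4 * p by ring]
      exact hl.2
    · intro j _
      have hsub : G.filter (fun i => m (K m (p + j)) ≤ i ∧ i < m (K m (p + (j + 1))))
          ⊆ (Ico (K m (p + j)) (K m (p + j + 1))).image m := by
        intro i hi
        rw [mem_filter] at hi
        obtain ⟨l, _, rfl⟩ := mem_image.1 hi.1
        refine mem_image.2 ⟨l, mem_Ico.2 ⟨hm.le_iff_le.1 hi.2.1, hm.lt_iff_lt.1 hi.2.2⟩, rfl⟩
      refine (card_le_card hsub).trans (card_image_le.trans ?_)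
      rw [Nat.card_Ico, K_succ, Nat.add_sub_cancel_left]
  let ψ : X →L[ℝ] ℝ := ∑ j ∈ G, c j
  have hψu : ∀ k, ψ (u k) = if k ∈ G then 1 else 0 := by
    intro k
    simp only [ψ, _root_.sum_apply, c_u]
    rw [sum_ite_eq']
  have hψw : ∀ n, n < 4 * p → ψ (app (nextAvg (zeroAvg m) n) u) = if p ≤ n then 1 else 0 := by
    intro n hn
    rw [app_next, map_smul, map_sum, smul_eq_mul]
    have hmpos : (0 : ℝ) < m (K m n) := by
      exact_mod_cast lt_of_le_of_lt (Nat.zero_le _) (lt_m hm h0 (K m n))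
    split_ifs with h
    · have : ∀ i ∈ Ico (K m n) (K m (n + 1)), ψ (u (m i)) = 1 := by
        intro i hi
        rw [mem_Ico] at hi
        rw [hψu, if_pos]
        refine mem_image.2 ⟨i, mem_Ico.2 ⟨(hKm.monotone h).trans hi.1,
          lt_of_lt_of_le hi.2 (hKm.monotone (by omega))⟩, rfl⟩
      rw [sum_congr rfl this, sum_const, Nat.card_Ico, K_succ, Nat.add_sub_cancel_left,
        nsmul_eq_mul, mul_one]
      field_simp
    · have : ∀ i ∈ Ico (K m n) (K m (n + 1)), ψ (u (m i)) = 0 := by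
        intro i hi
        rw [mem_Ico] at hi
        rw [hψu, if_neg]
        intro hcon
        obtain ⟨l, hl, hl'⟩ := mem_image.1 hcon
        rw [mem_Ico] at hl
        have h1 := hm.injective hl'
        have h2 := hKm.monotone (show n + 1 ≤ p by omega)
        omega
      rw [sum_congr rfl this, sum_const_zero, mul_zero]
  set V : X := (1 / ((4 * p : ℕ) : ℝ)) • ∑ n ∈ range (4 * p), app (nextAvg (zeroAvg m) n) u
      - (1 / (p : ℝ)) • ∑ n ∈ range p, app (nextAvg (zeroAvg m) n) u with hV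
  have h1 : ψ V = 3 / 4 := by
    rw [hV, map_sub, map_smul, map_smul, map_sum, map_sum,
      sum_congr rfl fun n hn => hψw n (mem_range.1 hn),
      sum_congr rfl fun n hn => hψw n (by have := mem_range.1 hn; omega)]
    have h2 : ∑ n ∈ range p, (if p ≤ n then (1 : ℝ) else 0) = 0 :=
      sum_eq_zero fun n hn => if_neg (by have := mem_range.1 hn; omega)
    have h3 : ∑ n ∈ range (4 * p), (if p ≤ n then (1 : ℝ) else 0) = 3 * p := by
      rw [← sum_filter, sum_const, nsmul_eq_mul, mul_one]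
      have : (range (4 * p)).filter (fun n => p ≤ n) = Ico p (4 * p) := by
        ext n
        simp only [mem_filter, mem_range, mem_Ico]
        tauto
      rw [this, Nat.card_Ico, show 4 * p - p = 3 * p by omega]
      push_cast; ring
    rw [h2, h3]
    simp only [smul_eq_mul]
    push_cast
    field_simp
    ring
  have h4 : ψ V ≤ ∑ i ∈ G, |c i V| := by
    simp only [ψ, _root_.sum_apply]
    exact sum_le_sum fun i _ => le_abs_self _
  have h5 := sum_S2_le V hS2
  linarith

end lower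

end Pool.Agent.Q198.BS
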