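import Pool.Agent.Q198.BS3

set_option autoImplicit false

open Finset Filter Topology
open scoped ENNReal

namespace Pool.Agent.Q198.BS

open Pool.Agent.Q198.BSD

lemma exists_idx (b : ℕ → ℕ) (hb : StrictMono b) (h0 : b 0 = 0) (j : ℕ) :
    ∃ i, b i ≤ j ∧ j < b (i + 1) := by
  have hex : ∃ i, j < b (i + 1) := ⟨j, lt_of_lt_of_le (Nat.lt_succ_self j) (hb.id_le (j + 1))⟩
  refine ⟨Nat.find hex, ?_, Nat.find_spec hex⟩
  rcases Nat.eq_zero_or_pos (Nat.find hex) with h | h
  · rw [h, h0]; exact Nat.zero_le _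
  · have := Nat.find_min hex (m := Nat.find hex - 1) (by omega)
    rw [Nat.sub_add_cancel h] at this
    omega

lemma count {m : ℕ → ℕ} (hm : StrictMono m) (h0 : 0 < m 0) (T : Finset ℕ) (i0 : ℕ)
    (hT : ∀ i ∈ T, i0 ≤ i) (hc : T.card ≤ m (i0 + 1)) (q : ℕ) (a : ℕ → ℝ) (κ : ℝ) (hκ : 0 ≤ κ)
    (ha : ∀ n, 0 ≤ a n ∧ a n ≤ κ) :
    ∑ n ∈ range q, a n * ((1 / (m (K m n) : ℝ)) *
      ∑ i ∈ Ico (K m n) (K m (n + 1)), (if i ∈ T then (1 : ℝ) else 0)) ≤ 2 * κ := by
  have hKm := K_mono hm h0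
  obtain ⟨ν, hν1, hν2⟩ := exists_idx (K m) hKm (K_zero m) i0
  have hmpos : ∀ i, (0 : ℝ) < m i := fun i => by
    exact_mod_cast lt_of_le_of_lt (Nat.zero_le _) (lt_m hm h0 i)
  set blk : ℕ → ℝ := fun n => ∑ i ∈ Ico (K m n) (K m (n + 1)), (if i ∈ T then (1 : ℝ) else 0)
    with hblk
  have hblk0 : ∀ n, 0 ≤ blk n := fun n => sum_nonneg fun i _ => by split_ifs <;> norm_num
  have h1 : ∀ n, (1 / (m (K m n) : ℝ)) * blk n
      ≤ (if n = ν then (1 : ℝ) else 0) + blk n / m (i0 + 1) := by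
    intro n
    rcases lt_trichotomy n ν with h | h | h
    · have : blk n = 0 := by
        refine sum_eq_zero fun i hi => if_neg fun hiT => ?_
        rw [mem_Ico] at hi
        have h2 := hT i hiT
        have h3 := hKm.monotone (show n + 1 ≤ ν by omega)
        omega
      rw [this, if_neg (by omega)]
      simp
    · rw [if_pos h]
      have h2 : blk n ≤ m (K m n) := by
        calc blk n ≤ ∑ i ∈ Ico (K m n) (K m (n + 1)), (1 : ℝ) :=
              sum_le_sum fun i _ => by split_ifs <;> norm_num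
          _ = m (K m n) := by
              rw [sum_const, Nat.card_Ico, K_succ, Nat.add_sub_cancel_left, nsmul_eq_mul, mul_one]
      have h3 : (1 / (m (K m n) : ℝ)) * blk n ≤ 1 := by
        rw [one_div, inv_mul_le_iff₀ (hmpos _), mul_one]
        exact h2
      have h4 : 0 ≤ blk n / m (i0 + 1) := div_nonneg (hblk0 n) (hmpos _).le
      linarith
    · rw [if_neg (by omega), zero_add, one_div, div_eq_inv_mul]
      refine mul_le_mul_of_nonneg_right ?_ (hblk0 n)
      refine inv_anti₀ (hmpos _) ?_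
      have h3 := hKm.monotone (show ν + 1 ≤ n by omega)
      exact_mod_cast hm.monotone (show i0 + 1 ≤ K m n by omega)
  have h2 : ∑ n ∈ range q, blk n ≤ T.card := by
    rw [hblk, sum_blocks (K m) hKm.monotone (K_zero m)]
    rw [← sum_filter, sum_const, nsmul_eq_mul, mul_one]
    exact_mod_cast card_le_card (fun i hi => (mem_filter.1 hi).2)
  calc _ ≤ ∑ n ∈ range q, κ * ((if n = ν then (1 : ℝ) else 0) + blk n / m (i0 + 1)) := by
        refine sum_le_sum fun n _ => ?_
        have h3 : 0 ≤ (1 / (m (K m n) : ℝ)) * blk n :=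
          mul_nonneg (one_div_nonneg.2 (hmpos _).le) (hblk0 n)
        calc a n * ((1 / (m (K m n) : ℝ)) * blk n) ≤ κ * ((1 / (m (K m n) : ℝ)) * blk n) :=
              mul_le_mul_of_nonneg_right (ha n).2 h3
          _ ≤ _ := mul_le_mul_of_nonneg_left (h1 n) hκ
    _ = κ * (∑ n ∈ range q, (if n = ν then (1 : ℝ) else 0)
          + (∑ n ∈ range q, blk n) / m (i0 + 1)) := by
        rw [← mul_sum, sum_add_distrib, sum_div]
    _ ≤ κ * (1 + 1) := by
        refine mul_le_mul_of_nonneg_left (add_le_add ?_ ?_) hκ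
        · rw [sum_ite_eq']; split_ifs <;> norm_num
        · rw [div_le_one (hmpos _)]
          exact h2.trans (by exact_mod_cast hc)
    _ = 2 * κ := by ring

/-- a sparse choice -/
structure Good (y : ℕ → X) (m b : ℕ → ℕ) (η : ℝ) : Prop where
  hm : StrictMono m
  m0 : 0 < m 0
  b0 : b 0 = 0
  hb : StrictMono b
  bm : ∀ i, b i < m i
  yle : ∀ i, ‖y i‖ ≤ 2
  head : ∀ i, ∑ j ∈ range (b i), |c j (y (m i))| ≤ η
  tail : ∀ (i : ℕ) (F : Finset ℕ), (∀ j ∈ F, b (i + 1) ≤ j) →
    (S1 F → ∑ j ∈ F, |c j (y (m i))| ≤ η) ∧ (S2 F → ∑ j ∈ F, |c j (y (m i))| ≤ 4 * η)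

/-- the middle part of `F` -/
def mid (b : ℕ → ℕ) (i : ℕ) (F : Finset ℕ) : Finset ℕ := F.filter fun j => b i ≤ j ∧ j < b (i + 1)

lemma split {b : ℕ → ℕ} (hb : StrictMono b) (i : ℕ) (F : Finset ℕ) (f : ℕ → ℝ)
    (hf : ∀ j, 0 ≤ f j) : ∑ j ∈ F, f j ≤ ∑ j ∈ range (b i), f j + ∑ j ∈ mid b i F, f j
      + ∑ j ∈ F.filter (fun j => b (i + 1) ≤ j), f j := by
  have h1 : ∑ j ∈ F, f j = ∑ j ∈ F.filter (fun j => j < b i), f j + ∑ j ∈ mid b i F, f j
      + ∑ j ∈ F.filter (fun j => b (i + 1) ≤ j), f j := by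
    rw [mid]
    simp only [sum_filter, ← sum_add_distrib]
    refine sum_congr rfl fun j _ => ?_
    have := hb (Nat.lt_succ_self i)
    rw [Nat.succ_eq_add_one] at this
    by_cases h : j < b i
    · rw [if_pos h, if_neg (by omega), if_neg (by omega)]; ring
    · by_cases h' : b (i + 1) ≤ j
      · rw [if_neg h, if_neg (by omega), if_pos h']; ring
      · rw [if_neg h, if_pos (by omega), if_neg h']; ring
  have h2 : ∑ j ∈ F.filter (fun j => j < b i), f j ≤ ∑ j ∈ range (b i), f j :=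
    sum_le_sum_of_subset_of_nonneg (fun j hj => mem_range.2 (mem_filter.1 hj).2)
      fun j _ _ => hf j
  linarith

variable {y : ℕ → X} {m b : ℕ → ℕ} {η : ℝ}

lemma sum_V_le (hg : Good y m b η) (F : Finset ℕ) (q : ℕ) (r g : ℕ → ℝ)
    (h : ∀ i < K m q, ∑ j ∈ F, |c j (y (m i))| ≤ g i) :
    ∑ j ∈ F, |c j (∑ n ∈ range q, r n • app (nextAvg (zeroAvg m) n) y)|
      ≤ ∑ n ∈ range q, |r n| * ((1 / (m (K m n) : ℝ)) * ∑ i ∈ Ico (K m n) (K m (n + 1)), g i) := by
  have h1 : ∀ j, |c j (∑ n ∈ range q, r n • app (nextAvg (zeroAvg m) n) y)|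
      ≤ ∑ n ∈ range q, |r n| * ((1 / (m (K m n) : ℝ)) *
        ∑ i ∈ Ico (K m n) (K m (n + 1)), |c j (y (m i))|) := by
    intro j
    rw [map_sum]
    refine (abs_sum_le_sum_abs _ _).trans (sum_le_sum fun n _ => ?_)
    rw [map_smul, smul_eq_mul, abs_mul, app_next, map_smul, smul_eq_mul, abs_mul, map_sum,
      abs_of_nonneg (show (0 : ℝ) ≤ 1 / (m (K m n) : ℝ) by positivity)]
    exact mul_le_mul_of_nonneg_left (mul_le_mul_of_nonneg_left (abs_sum_le_sum_abs _ _)
      (by positivity)) (abs_nonneg _)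
  refine (sum_le_sum fun j _ => h1 j).trans ?_
  rw [sum_comm]
  refine sum_le_sum fun n hn => ?_
  rw [← mul_sum, ← mul_sum, sum_comm]
  refine mul_le_mul_of_nonneg_left (mul_le_mul_of_nonneg_left (sum_le_sum fun i hi => ?_)
    (by positivity)) (abs_nonneg _)
  apply h
  rw [mem_Ico] at hi
  exact lt_of_lt_of_le hi.2 ((K_mono hg.hm hg.m0).monotone (mem_range.1 hn))

lemma sum_const_T (hg : Good y m b η) (T : Finset ℕ) (i0 : ℕ)
    (hT : ∀ i ∈ T, i0 ≤ i) (hc : T.card ≤ m (i0 + 1)) (q : ℕ) (r : ℕ → ℝ) (κ : ℝ) (hκ : 0 ≤ κ)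
    (hr : ∀ n, |r n| ≤ κ) (E B : ℝ) (hB : 0 ≤ B) :
    ∑ n ∈ range q, |r n| * ((1 / (m (K m n) : ℝ)) * ∑ i ∈ Ico (K m n) (K m (n + 1)),
      (E + B * (if i ∈ T then (1 : ℝ) else 0))) ≤ E * ∑ n ∈ range q, |r n| + B * (2 * κ) := by
  have h1 := count hg.hm hg.m0 T i0 hT hc q (fun n => |r n|) κ hκ fun n => ⟨abs_nonneg _, hr n⟩
  have h2 : ∑ n ∈ range q, |r n| * ((1 / (m (K m n) : ℝ)) * ∑ i ∈ Ico (K m n) (K m (n + 1)),
      (E + B * (if i ∈ T then (1 : ℝ) else 0))) = E * ∑ n ∈ range q, |r n|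
      + B * ∑ n ∈ range q, |r n| * ((1 / (m (K m n) : ℝ)) *
        ∑ i ∈ Ico (K m n) (K m (n + 1)), (if i ∈ T then (1 : ℝ) else 0)) := by
    rw [mul_sum, mul_sum, ← sum_add_distrib]
    refine sum_congr rfl fun n _ => ?_
    have hpos : (0 : ℝ) < m (K m n) := by
      exact_mod_cast lt_of_le_of_lt (Nat.zero_le _) (lt_m hg.hm hg.m0 (K m n))
    rw [sum_add_distrib, ← mul_sum, sum_const, Nat.card_Ico, K_succ, Nat.add_sub_cancel_left,
      nsmul_eq_mul]
    field_simp
  rw [h2]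
  have := mul_le_mul_of_nonneg_left h1 hB
  linarith

lemma idx_mono {b : ℕ → ℕ} (hb : StrictMono b) {i i' j j' : ℕ} (h1 : b i ≤ j)
    (h2 : j' < b (i' + 1)) (h : j ≤ j') : i ≤ i' := by
  have : b i < b (i' + 1) := by omega
  exact Nat.lt_succ_iff.1 (hb.lt_iff_lt.1 this)

lemma est_S1 (hη : 0 ≤ η) (hg : Good y m b η) (q : ℕ) (r : ℕ → ℝ) (κ : ℝ) (hκ : 0 ≤ κ)
    (hr : ∀ n, |r n| ≤ κ) (hr2 : ∑ n ∈ range q, |r n| ≤ 2) (F : Finset ℕ) (hF : S1 F) :
    ∑ j ∈ F, |c j (∑ n ∈ range q, r n • app (nextAvg (zeroAvg m) n) y)| ≤ 4 * η + 4 * κ := by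
  classical
  choose idx hidx1 hidx2 using exists_idx b hg.hb hg.b0
  set T : Finset ℕ := F.image idx with hT
  have hE : ∀ i, ∑ j ∈ F, |c j (y (m i))| ≤ 2 * η + 2 * (if i ∈ T then (1 : ℝ) else 0) := by
    intro i
    have h1 := split hg.hb i F (fun j => |c j (y (m i))|) fun j => abs_nonneg _
    have h2 := hg.head i
    have h3 := (hg.tail i (F.filter fun j => b (i + 1) ≤ j)
      fun j hj => (mem_filter.1 hj).2).1 (hF.subset (filter_subset _ _))
    have h4 : ∑ j ∈ mid b i F, |c j (y (m i))| ≤ 2 * (if i ∈ T then (1 : ℝ) else 0) := by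
      split_ifs with hi
      · rw [mul_one]
        exact (sum_S1_le _ (hF.subset (filter_subset _ _))).trans (hg.yle _)
      · have : mid b i F = ∅ := by
          rw [mid, filter_eq_empty_iff]
          intro j hj hj'
          apply hi
          refine mem_image.2 ⟨j, hj, le_antisymm ?_ ?_⟩
          · exact idx_mono hg.hb (hidx1 j) hj'.2 le_rfl
          · exact idx_mono hg.hb hj'.1 (hidx2 j) le_rfl
        rw [this, sum_empty, mul_zero]
    linarith
  have hcount : ∃ i0, (∀ i ∈ T, i0 ≤ i) ∧ T.card ≤ m (i0 + 1) := by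
    rcases F.eq_empty_or_nonempty with he | hne
    · refine ⟨0, ?_, ?_⟩
      · rw [hT, he]; simp
      · rw [hT, he]; simp
    · refine ⟨idx (F.min' hne), ?_, ?_⟩
      · intro i hi
        obtain ⟨j, hj, rfl⟩ := mem_image.1 hi
        exact idx_mono hg.hb (hidx1 _) (hidx2 _) (F.min'_le j hj)
      · have h1 : T.card ≤ F.card := card_image_le
        have h2 := hF _ (F.min'_mem hne)
        have h3 := hidx2 (F.min' hne)
        have h4 := hg.bm (idx (F.min' hne) + 1)
        omega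
  obtain ⟨i0, h1, h2⟩ := hcount
  refine (sum_V_le hg F q r _ fun i _ => hE i).trans ?_
  refine (sum_const_T hg T i0 h1 h2 q r κ hκ hr (2 * η) 2 (by norm_num)).trans ?_
  have : 2 * η * ∑ n ∈ range q, |r n| ≤ 2 * η * 2 :=
    mul_le_mul_of_nonneg_left hr2 (by linarith)
  linarith

lemma est_S2 (hη : 0 ≤ η) (hg : Good y m b η) (q : ℕ) (r : ℕ → ℝ) (κ : ℝ) (hκ : 0 ≤ κ)
    (hr : ∀ n, |r n| ≤ κ) (hr2 : ∑ n ∈ range q, |r n| ≤ 2) (G : Finset ℕ) (hG : S2 G) :
    ∑ j ∈ G, |c j (∑ n ∈ range q, r n • app (nextAvg (zeroAvg m) n) y)|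
      ≤ 4 + 10 * η + 16 * κ := by
  classical
  choose idx hidx1 hidx2 using exists_idx b hg.hb hg.b0
  have hG' := hG
  obtain ⟨t, k, ht, hk, htG, hcard⟩ := hG
  set T : Finset ℕ := (range k).image fun j => idx (t j) with hT
  have hE : ∀ i, ∑ j ∈ G, |c j (y (m i))|
      ≤ (5 * η + 2) + 8 * (if i ∈ T then (1 : ℝ) else 0) := by
    intro i
    have h1 := split hg.hb i G (fun j => |c j (y (m i))|) fun j => abs_nonneg _
    have h2 := hg.head i
    have h3 := (hg.tail i (G.filter fun j => b (i + 1) ≤ j)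
      fun j hj => (mem_filter.1 hj).2).2 (hG'.subset (filter_subset _ _))
    have h4 : ∑ j ∈ mid b i G, |c j (y (m i))| ≤ 2 + 8 * (if i ∈ T then (1 : ℝ) else 0) := by
      split_ifs with hi
      · have h5 : ∑ j ∈ mid b i G, |c j (y (m i))| ≤ 4 * ‖y (m i)‖ :=
          sum_S2_le _ (hG'.subset (filter_subset _ _))
        have h6 := hg.yle (m i)
        linarith
      · rw [mul_zero, add_zero]
        have hS : S1 (mid b i G) := by
          intro j hj
          rw [mid, mem_filter] at hj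
          -- the piece containing j
          have hex : ∃ a, j < t (a + 1) := by
            rcases k with _ | k
            · exact absurd (htG j hj.1) (by omega)
            · exact ⟨k, (htG j hj.1).2⟩
          have ha1 := Nat.find_spec hex
          set a := Nat.find hex with ha
          have ha2 : t a ≤ j := by
            rcases Nat.eq_zero_or_pos a with h0 | h0
            · rw [h0]; exact (htG j hj.1).1
            · have := Nat.find_min hex (m := a - 1) (by omega)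
              rw [Nat.sub_add_cancel h0] at this
              omega
          have hak : a < k := by
            rcases k with _ | k
            · exact absurd (htG j hj.1) (by omega)
            · exact Nat.lt_succ_of_le (Nat.find_min' hex (htG j hj.1).2)
          have hsub : mid b i G ⊆ G.filter fun i => t a ≤ i ∧ i < t (a + 1) := by
            intro j' hj'
            rw [mid, mem_filter] at hj'
            rw [mem_filter]
            refine ⟨hj'.1, ?_, ?_⟩
            · by_contra hcon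
              apply hi
              refine mem_image.2 ⟨a, mem_range.2 hak, le_antisymm ?_ ?_⟩
              · exact idx_mono hg.hb (hidx1 _) hj.2.2 ha2
              · exact idx_mono hg.hb hj'.2.1 (hidx2 _) (by omega)
            · by_contra hcon
              apply hi
              have hak' : a + 1 < k := by
                by_contra hcon'
                have h5 := (htG j' hj'.1).2
                have h6 := ht (show k ≤ a + 1 by omega)
                omega
              refine mem_image.2 ⟨a + 1, mem_range.2 hak', le_antisymm ?_ ?_⟩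
              · exact idx_mono hg.hb (hidx1 _) hj'.2.2 (by omega)
              · exact idx_mono hg.hb hj.2.1 (hidx2 _) (by omega)
          have h5 := (card_le_card hsub).trans (hcard a hak)
          omega
        exact (sum_S1_le _ hS).trans (hg.yle _)
    linarith
  have h1 : ∀ i ∈ T, idx (t 0) ≤ i := by
    intro i hi
    obtain ⟨j, hj, rfl⟩ := mem_image.1 hi
    exact idx_mono hg.hb (hidx1 _) (hidx2 _) (ht (Nat.zero_le j))
  have h2 : T.card ≤ m (idx (t 0) + 1) := by
    have h1 : T.card ≤ (range k).card := card_image_le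
    rw [card_range] at h1
    have h3 := hidx2 (t 0)
    have h4 := hg.bm (idx (t 0) + 1)
    omega
  refine (sum_V_le hg G q r _ fun i _ => hE i).trans ?_
  refine (sum_const_T hg T _ h1 h2 q r κ hκ hr (5 * η + 2) 8 (by norm_num)).trans ?_
  have : (5 * η + 2) * ∑ n ∈ range q, |r n| ≤ (5 * η + 2) * 2 :=
    mul_le_mul_of_nonneg_left hr2 (by linarith)
  linarith

lemma norm_V_le (hη : 0 ≤ η) (hg : Good y m b η) (q : ℕ) (r : ℕ → ℝ) (κ : ℝ) (hκ : 0 ≤ κ)
    (hr : ∀ n, |r n| ≤ κ) (hr2 : ∑ n ∈ range q, |r n| ≤ 2) :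
    ‖∑ n ∈ range q, r n • app (nextAvg (zeroAvg m) n) y‖ ≤ 1 + 4 * η + 4 * κ := by
  refine norm_le_of _ _ (by positivity) (fun F hF => ?_) (fun G hG => ?_)
  · have := est_S1 hη hg q r κ hκ hr hr2 F hF
    linarith
  · have := est_S2 hη hg q r κ hκ hr hr2 G hG
    linarith

lemma exists_good (y : ℕ → X) (hy2 : ∀ k, ‖y k‖ ≤ 2)
    (hyw : ∀ j, Tendsto (fun k => c j (y k)) atTop (𝓝 0)) (η : ℝ) (hη : 0 < η) :
    ∃ m b, Good y m b η := by
  have h1 : ∀ b : ℕ, ∃ m, b < m ∧ ∑ j ∈ range b, |c j (y m)| ≤ η := by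
    intro b
    have h2 : Tendsto (fun k => ∑ j ∈ range b, |c j (y k)|) atTop (𝓝 0) := by
      have := tendsto_finsetSum (range b) fun j _ => (hyw j).abs
      simpa using this
    obtain ⟨m, hm⟩ := ((h2.eventually (gt_mem_nhds hη)).and (eventually_gt_atTop b)).exists
    exact ⟨m, hm.2, hm.1.le⟩
  have h2 : ∀ m : ℕ, ∃ b, m < b ∧ ∀ F : Finset ℕ, (∀ j ∈ F, b ≤ j) →
      (S1 F → ∑ j ∈ F, |c j (y m)| ≤ η) ∧ (S2 F → ∑ j ∈ F, |c j (y m)| ≤ 4 * η) := by
    intro m
    obtain ⟨b, hb⟩ := exists_tail (y m) η hη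
    exact ⟨max b (m + 1), by omega, fun F hF => hb F fun j hj => by
      have := hF j hj
      omega⟩
  choose h hh1 hh2 using h1
  choose τ hτ1 hτ2 using h2
  let b : ℕ → ℕ := fun i => Nat.rec 0 (fun _ n => τ (h n)) i
  have hbs : ∀ i, b (i + 1) = τ (h (b i)) := fun i => rfl
  have hlt : ∀ i, h (b i) < b (i + 1) := fun i => by rw [hbs]; exact hτ1 _
  refine ⟨fun i => h (b i), b, ?_, hh1 _, rfl, ?_, fun i => hh1 _, hy2, fun i => hh2 _,
    fun i F hF => hτ2 _ F hF⟩
  · exact strictMono_nat_of_lt_succ fun i => (hlt i).trans (hh1 _)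
  · exact strictMono_nat_of_lt_succ fun i => (hh1 _).trans (hlt i)

end Pool.Agent.Q198.BS
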