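import Pool.Agent.Q198.BS4

set_option autoImplicit false

open Finset Filter Topology
open scoped ENNReal

namespace Pool.Agent.Q198.BS

open Pool.Agent.Q198.BSD

/-- the Cesàro means of the averages of order `1` -/
noncomputable def C (m : ℕ → ℕ) (x : ℕ → X) (n : ℕ) : X :=
  (1 / ((n : ℝ) + 1)) • ∑ i ∈ range (n + 1), app (nextAvg (zeroAvg m) i) x

lemma app_norm_le {m : ℕ → ℕ} (hm : StrictMono m) (h0 : 0 < m 0) (x : ℕ → X) (B : ℝ)
    (hx : ∀ k, ‖x k‖ ≤ B) (n : ℕ) : ‖app (nextAvg (zeroAvg m) n) x‖ ≤ B := by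
  have hpos : (0 : ℝ) < m (K m n) := by
    exact_mod_cast lt_of_le_of_lt (Nat.zero_le _) (lt_m hm h0 (K m n))
  rw [app_next, norm_smul, Real.norm_of_nonneg (one_div_nonneg.2 hpos.le), one_div,
    inv_mul_le_iff₀ hpos]
  refine (norm_sum_le _ _).trans ((sum_le_sum fun i _ => hx (m i)).trans ?_)
  rw [sum_const, Nat.card_Ico, K_succ, Nat.add_sub_cancel_left, nsmul_eq_mul]

lemma C_norm_le {m : ℕ → ℕ} (hm : StrictMono m) (h0 : 0 < m 0) (x : ℕ → X) (B : ℝ)
    (hx : ∀ k, ‖x k‖ ≤ B) (n : ℕ) : ‖C m x n‖ ≤ B := by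
  have hpos : (0 : ℝ) < (n : ℝ) + 1 := by positivity
  rw [C, norm_smul, Real.norm_of_nonneg (one_div_nonneg.2 hpos.le), one_div,
    inv_mul_le_iff₀ hpos]
  refine (norm_sum_le _ _).trans ((sum_le_sum fun i _ => app_norm_le hm h0 x B hx i).trans ?_)
  rw [sum_const, card_range, nsmul_eq_mul]
  push_cast
  exact le_rfl

lemma bdd {m : ℕ → ℕ} (hm : StrictMono m) (h0 : 0 < m 0) (x : ℕ → X) (B : ℝ)
    (hx : ∀ k, ‖x k‖ ≤ B) (n : ℕ) :
    BddAbove (Set.range fun p : {p : ℕ × ℕ // n ≤ p.1 ∧ n ≤ p.2} =>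
      ‖C m x p.1.1 - C m x p.1.2‖) := by
  refine ⟨B + B, ?_⟩
  rintro _ ⟨p, rfl⟩
  exact (norm_sub_le _ _).trans (add_le_add (C_norm_le hm h0 x B hx _) (C_norm_le hm h0 x B hx _))

lemma u_norm (k : ℕ) : ‖u k‖ ≤ 1 := by
  have h : ∀ F : Finset ℕ, ∑ i ∈ F, |c i (u k)| ≤ 1 := by
    intro F
    have : ∀ i ∈ F, |c i (u k)| = if i = k then 1 else 0 := by
      intro i _
      rw [c_u]; split_ifs <;> simp
    rw [sum_congr rfl this, sum_ite_eq']
    split_ifs <;> norm_num
  exact norm_le_of _ _ zero_le_one (fun F _ => h F) (fun F _ => (h F).trans (by norm_num))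

lemma cca_eq (m : ℕ → ℕ) (x : ℕ → X) :
    cca (fun n => app (nextAvg (zeroAvg m) n) x) = ca (C m x) := rfl

lemma ca_nonneg (y : ℕ → X) : 0 ≤ ca y :=
  Real.iInf_nonneg fun _ => Real.iSup_nonneg fun _ => norm_nonneg _

/-- Lower bound. -/
lemma lower_bound {m : ℕ → ℕ} (hm : StrictMono m) (h0 : 0 < m 0) :
    (3 / 16 : ℝ) ≤ cca (fun n => app (nextAvg (zeroAvg m) n) u) := by
  rw [cca_eq]
  refine le_ciInf fun n => ?_
  set p := n + 4 with hp
  have h1 := lower_aux hm h0 p (by omega)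
  have h2 : (1 / ((4 * p : ℕ) : ℝ)) • ∑ n ∈ range (4 * p), app (nextAvg (zeroAvg m) n) u
      = C m u (4 * p - 1) := by
    rw [C, Nat.sub_add_cancel (by omega)]
    congr 2
    rw [Nat.cast_sub (by omega)]
    push_cast; ring
  have h3 : (1 / (p : ℝ)) • ∑ n ∈ range p, app (nextAvg (zeroAvg m) n) u = C m u (p - 1) := by
    rw [C, Nat.sub_add_cancel (by omega)]
    congr 2
    rw [Nat.cast_sub (by omega)]
    push_cast; ring
  rw [h2, h3] at h1
  exact le_ciSup_of_le (bdd hm h0 u 1 u_norm n) ⟨(4 * p - 1, p - 1), by omega, by omega⟩ h1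

/-- The difference of two Cesàro means. -/
lemma C_diff {y : ℕ → X} {m b : ℕ → ℕ} {η : ℝ} (hη : 0 ≤ η) (hg : Good y m b η) (p q : ℕ)
    (hpq : p ≤ q) : ‖C m y q - C m y p‖ ≤ 1 + 4 * η + 4 / ((p : ℝ) + 1) := by
  set r : ℕ → ℝ := fun n => 1 / ((q : ℝ) + 1) - (if n < p + 1 then 1 / ((p : ℝ) + 1) else 0)
    with hr
  have hpq' : (p : ℝ) ≤ q := by exact_mod_cast hpq
  have hp : (0 : ℝ) < (p : ℝ) + 1 := by positivity
  have hq : (0 : ℝ) < (q : ℝ) + 1 := by positivity
  have hle : 1 / ((q : ℝ) + 1) ≤ 1 / ((p : ℝ) + 1) := by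
    apply one_div_le_one_div_of_le hp
    linarith
  have h1 : C m y q - C m y p
      = ∑ n ∈ range (q + 1), r n • app (nextAvg (zeroAvg m) n) y := by
    simp only [hr, sub_smul, sum_sub_distrib]
    rw [C, C, smul_sum]
    congr 1
    simp only [ite_smul, zero_smul]
    rw [← sum_filter, smul_sum]
    refine sum_congr ?_ fun _ _ => rfl
    ext n
    simp only [mem_range, mem_filter]
    omega
  have h2 : ∀ n, |r n| ≤ 1 / ((p : ℝ) + 1) := by
    intro n
    simp only [hr]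
    have h3 : 0 < 1 / ((q : ℝ) + 1) := by positivity
    split_ifs
    · rw [abs_le]
      constructor <;> linarith
    · rw [sub_zero, abs_of_pos h3]; exact hle
  have h3 : ∑ n ∈ range (q + 1), |r n| ≤ 2 := by
    calc ∑ n ∈ range (q + 1), |r n|
        ≤ ∑ n ∈ range (q + 1), (1 / ((q : ℝ) + 1) + (if n < p + 1 then 1 / ((p : ℝ) + 1) else 0)) := by
          refine sum_le_sum fun n _ => ?_
          simp only [hr]
          have h3 : 0 < 1 / ((q : ℝ) + 1) := by positivity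
          have h4 : 0 < 1 / ((p : ℝ) + 1) := by positivity
          split_ifs
          · rw [abs_le]
            constructor <;> linarith
          · rw [sub_zero, add_zero, abs_of_pos h3]
      _ = 2 := by
          rw [sum_add_distrib, sum_const, card_range, nsmul_eq_mul, ← sum_filter, sum_const,
            nsmul_eq_mul]
          have : (range (q + 1)).filter (fun n => n < p + 1) = range (p + 1) := by
            ext n
            simp only [mem_range, mem_filter]
            omega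
          rw [this, card_range]
          push_cast
          field_simp
          norm_num
  rw [h1]
  have := norm_V_le hη hg (q + 1) r (1 / ((p : ℝ) + 1)) (by positivity) h2 h3
  calc _ ≤ _ := this
    _ = _ := by ring

/-- Upper bound. -/
lemma upper_bound (x : ℕ → X) (hx : ∀ k, x k ∈ Metric.closedBall (0 : X) 1) (l : X)
    (hl : ∀ f : X →L[ℝ] ℝ, Tendsto (fun k => f (x k)) atTop (𝓝 (f l))) : ccaOne x ≤ 1 := by
  have hx' : ∀ k, ‖x k‖ ≤ 1 := fun k => by simpa using hx k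
  have hl1 : ‖l‖ ≤ 1 := by
    refine NormedSpace.norm_le_dual_bound ℝ l zero_le_one fun f => ?_
    rw [one_mul]
    refine le_of_tendsto (hl f).norm (Eventually.of_forall fun k => ?_)
    exact (f.le_opNorm (x k)).trans (mul_le_of_le_one_right f.opNorm_nonneg (hx' k))
  set y : ℕ → X := fun k => x k - l with hy
  have hy2 : ∀ k, ‖y k‖ ≤ 2 := fun k => (norm_sub_le _ _).trans (by linarith [hx' k])
  have hyw : ∀ j, Tendsto (fun k => c j (y k)) atTop (𝓝 0) := by
    intro j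
    have h := (hl (c j)).sub_const (c j l)
    rw [sub_self] at h
    refine h.congr fun k => ?_
    rw [hy]; simp only [map_sub]
  refine le_of_forall_pos_le_add fun ε hε => ?_
  obtain ⟨m, b, hg⟩ := exists_good y hy2 hyw (ε / 8) (by linarith)
  have hC : ∀ n, C m x n = C m y n + l := by
    intro n
    have h1 : ∀ i, app (nextAvg (zeroAvg m) i) x = app (nextAvg (zeroAvg m) i) y + l := by
      intro i
      have hpos : (0 : ℝ) < m (K m i) := by
        exact_mod_cast lt_of_le_of_lt (Nat.zero_le _) (lt_m hg.hm hg.m0 (K m i))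
      rw [app_next, app_next]
      have : ∑ j ∈ Ico (K m i) (K m (i + 1)), x (m j)
          = ∑ j ∈ Ico (K m i) (K m (i + 1)), y (m j) + (m (K m i) : ℝ) • l := by
        have h2 : (m (K m i) : ℝ) • l = ∑ j ∈ Ico (K m i) (K m (i + 1)), l := by
          rw [sum_const, Nat.card_Ico, K_succ, Nat.add_sub_cancel_left, ← Nat.cast_smul_eq_nsmul ℝ]
        rw [h2, ← sum_add_distrib]
        refine sum_congr rfl fun j _ => ?_
        simp only [hy, sub_add_cancel]
      rw [this, smul_add, smul_smul, one_div, inv_mul_cancel₀ hpos.ne', one_smul]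
    rw [C, C, sum_congr rfl fun i _ => h1 i, sum_add_distrib, smul_add, sum_const, card_range,
      ← Nat.cast_smul_eq_nsmul ℝ, smul_smul]
    congr 1
    push_cast
    rw [one_div, inv_mul_cancel₀ (by positivity), one_smul]
  have h1 : ∀ n : ℕ, ca (C m x) ≤ 1 + 4 * (ε / 8) + 4 / ((n : ℝ) + 1) := by
    intro n
    have hbb : BddBelow (Set.range fun n : ℕ => ⨆ p : {p : ℕ × ℕ // n ≤ p.1 ∧ n ≤ p.2},
        ‖C m x p.1.1 - C m x p.1.2‖) := by
      refine ⟨0, ?_⟩
      rintro _ ⟨n, rfl⟩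
      exact Real.iSup_nonneg fun _ => norm_nonneg _
    refine (ciInf_le hbb n).trans ?_
    have : Nonempty {p : ℕ × ℕ // n ≤ p.1 ∧ n ≤ p.2} := ⟨⟨(n, n), le_rfl, le_rfl⟩⟩
    refine ciSup_le fun ⟨⟨k, l'⟩, hk, hl'⟩ => ?_
    have key : ∀ p q : ℕ, n ≤ p → p ≤ q →
        ‖C m x q - C m x p‖ ≤ 1 + 4 * (ε / 8) + 4 / ((n : ℝ) + 1) := by
      intro p q hp hpq
      rw [hC, hC, add_sub_add_right_eq_sub]
      refine (C_diff (by linarith) hg p q hpq).trans ?_
      have : 4 / ((p : ℝ) + 1) ≤ 4 / ((n : ℝ) + 1) := by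
        apply div_le_div_of_nonneg_left (by norm_num) (by positivity)
        have : (n : ℝ) ≤ p := by exact_mod_cast hp
        linarith
      linarith
    rcases le_total k l' with h | h
    · change ‖C m x k - C m x l'‖ ≤ _
      rw [norm_sub_rev]
      exact key k l' hk h
    · exact key l' k hl' h
  have h2 : ca (C m x) ≤ 1 + ε := by
    obtain ⟨n, hn⟩ := exists_nat_gt (8 / ε)
    have h3 : 4 / ((n : ℝ) + 1) ≤ ε / 2 := by
      rw [div_le_iff₀ (by positivity)]
      rw [div_lt_iff₀ hε] at hn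
      nlinarith
    have := h1 n
    linarith
  have h3 : ccaOne x ≤ cca fun n => app (nextAvg (zeroAvg m) n) x := by
    refine ciInf_le (f := fun m : {m : ℕ → ℕ // StrictMono m ∧ 0 < m 0} =>
      cca fun n => app (nextAvg (zeroAvg m.1) n) x) ⟨0, ?_⟩ ⟨m, hg.hm, hg.m0⟩
    rintro _ ⟨m, rfl⟩
    exact ca_nonneg _
  rw [cca_eq] at h3
  exact h3.trans h2

theorem main : 3 / 16 ≤ wbsOne (Metric.closedBall (0 : X) 1) ∧
    wbsOne (Metric.closedBall (0 : X) 1) ≤ 1 := by
  have hub : ∀ r ∈ {r | ∃ x : ℕ → X, (∀ k, x k ∈ Metric.closedBall (0 : X) 1) ∧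
      (∃ l : X, ∀ f : X →L[ℝ] ℝ, Tendsto (fun k => f (x k)) atTop (𝓝 (f l))) ∧ r = ccaOne x},
      r ≤ 1 := by
    rintro r ⟨x, hx, ⟨l, hl⟩, rfl⟩
    exact upper_bound x hx l hl
  constructor
  · have h1 : 3 / 16 ≤ ccaOne u := by
      have : Nonempty {m : ℕ → ℕ // StrictMono m ∧ 0 < m 0} :=
        ⟨⟨fun n => n + 1, fun a b h => Nat.succ_lt_succ h, Nat.succ_pos 0⟩⟩
      exact le_ciInf fun m => lower_bound m.2.1 m.2.2
    refine h1.trans (le_csSup ⟨1, hub⟩ ⟨u, fun k => ?_, ⟨0, fun f => ?_⟩, rfl⟩)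
    · simpa using u_norm k
    · rw [map_zero]; exact u_weak f
  · exact Real.sSup_le hub zero_le_one

end Pool.Agent.Q198.BS
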