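import Pool.Agent.Q198.BlecherCore

/-! Matrices over a C⋆-algebra acting on finite-dimensional Hilbert spaces, and elementary
norm estimates for matrices. -/

set_option autoImplicit false

namespace Pool.Agent.Q198.Blecher

open Finset ComplexConjugate
open scoped InnerProductSpace Kronecker CStarMatrix

section hom

variable {A : Type} [NonUnitalCStarAlgebra A] [PartialOrder A] [StarOrderedRing A]

/-- entrywise evaluation -/
def ev {n : ℕ} (π : A →⋆ₙₐ[ℂ] ℂ) (a : CStarMatrix (Fin n) (Fin n) A) : Matrix (Fin n) (Fin n) ℂ :=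
  Matrix.of fun i j => π (a i j)

lemma ev_mul {n : ℕ} (π : A →⋆ₙₐ[ℂ] ℂ) (a b : CStarMatrix (Fin n) (Fin n) A) :
    ev π (a * b) = ev π a * ev π b := by
  ext i j
  simp [ev, Matrix.mul_apply, CStarMatrix.mul_apply, map_sum, map_mul]

lemma ev_star {n : ℕ} (π : A →⋆ₙₐ[ℂ] ℂ) (a : CStarMatrix (Fin n) (Fin n) A) :
    ev π (star a) = star (ev π a) := by
  ext i j
  simp [ev, Matrix.star_apply, CStarMatrix.star_apply, map_star]

lemma ev_add {n : ℕ} (π : A →⋆ₙₐ[ℂ] ℂ) (a b : CStarMatrix (Fin n) (Fin n) A) :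
    ev π (a + b) = ev π a + ev π b := by
  ext i j
  simp [ev]

lemma ev_smul {n : ℕ} (π : A →⋆ₙₐ[ℂ] ℂ) (c : ℂ) (a : CStarMatrix (Fin n) (Fin n) A) :
    ev π (c • a) = c • ev π a := by
  ext i j
  simp [ev]

lemma ev_zero {n : ℕ} (π : A →⋆ₙₐ[ℂ] ℂ) :
    ev π (0 : CStarMatrix (Fin n) (Fin n) A) = 0 := by
  ext i j
  simp [ev]

/-- left action on the tensor product -/
noncomputable def Lh {n : ℕ} (m : ℕ) (π : A →⋆ₙₐ[ℂ] ℂ) : CStarMatrix (Fin n) (Fin n) A →⋆ₙₐ[ℂ]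
    (EuclideanSpace ℂ (Fin n × Fin m) →L[ℂ] EuclideanSpace ℂ (Fin n × Fin m)) where
  toFun a := Matrix.toEuclideanCLM (𝕜 := ℂ) (ev π a ⊗ₖ (1 : Matrix (Fin m) (Fin m) ℂ))
  map_smul' c a := by
    simp only [ev_smul, Matrix.smul_kronecker, map_smul, MonoidHom.id_apply]
  map_zero' := by
    simp only [ev_zero, Matrix.zero_kronecker, map_zero]
  map_add' a b := by
    simp only [ev_add, Matrix.add_kronecker, map_add]
  map_mul' a b := by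
    rw [ev_mul, ← map_mul, ← Matrix.mul_kronecker_mul, one_mul]
  map_star' a := by
    rw [ev_star, ← map_star, Matrix.star_eq_conjTranspose, Matrix.star_eq_conjTranspose,
      Matrix.conjTranspose_kronecker, Matrix.conjTranspose_one]

/-- right action on the tensor product -/
noncomputable def Rh (n : ℕ) {m : ℕ} (π : A →⋆ₙₐ[ℂ] ℂ) : CStarMatrix (Fin m) (Fin m) A →⋆ₙₐ[ℂ]
    (EuclideanSpace ℂ (Fin n × Fin m) →L[ℂ] EuclideanSpace ℂ (Fin n × Fin m)) where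
  toFun a := Matrix.toEuclideanCLM (𝕜 := ℂ) ((1 : Matrix (Fin n) (Fin n) ℂ) ⊗ₖ ev π a)
  map_smul' c a := by
    simp only [ev_smul, Matrix.kronecker_smul, map_smul, MonoidHom.id_apply]
  map_zero' := by
    simp only [ev_zero, Matrix.kronecker_zero, map_zero]
  map_add' a b := by
    simp only [ev_add, Matrix.kronecker_add, map_add]
  map_mul' a b := by
    rw [ev_mul, ← map_mul, ← Matrix.mul_kronecker_mul, one_mul]
  map_star' a := by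
    rw [ev_star, ← map_star, Matrix.star_eq_conjTranspose, Matrix.star_eq_conjTranspose,
      Matrix.conjTranspose_kronecker, Matrix.conjTranspose_one]

lemma Lh_norm {n : ℕ} (m : ℕ) (π : A →⋆ₙₐ[ℂ] ℂ) (a : CStarMatrix (Fin n) (Fin n) A) :
    ‖Lh m π a‖ ≤ ‖a‖ := NonUnitalStarAlgHom.norm_apply_le _ _

lemma Rh_norm (n : ℕ) {m : ℕ} (π : A →⋆ₙₐ[ℂ] ℂ) (a : CStarMatrix (Fin m) (Fin m) A) :
    ‖Rh n π a‖ ≤ ‖a‖ := NonUnitalStarAlgHom.norm_apply_le _ _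

variable {B : Type} [NonUnitalCStarAlgebra B] [PartialOrder B] [StarOrderedRing B]

lemma LR_mul {n m : ℕ} (π : A →⋆ₙₐ[ℂ] ℂ) (ρ : B →⋆ₙₐ[ℂ] ℂ) (a : CStarMatrix (Fin n) (Fin n) A)
    (b : CStarMatrix (Fin m) (Fin m) B) :
    Lh m π a * Rh n ρ b = Matrix.toEuclideanCLM (𝕜 := ℂ) (ev π a ⊗ₖ ev ρ b) := by
  change Matrix.toEuclideanCLM (𝕜 := ℂ) (ev π a ⊗ₖ (1 : Matrix (Fin m) (Fin m) ℂ)) *
    Matrix.toEuclideanCLM (𝕜 := ℂ) ((1 : Matrix (Fin n) (Fin n) ℂ) ⊗ₖ ev ρ b) = _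
  rw [← map_mul, ← Matrix.mul_kronecker_mul, one_mul, mul_one]

lemma RL_mul {n m : ℕ} (π : A →⋆ₙₐ[ℂ] ℂ) (ρ : B →⋆ₙₐ[ℂ] ℂ) (a : CStarMatrix (Fin n) (Fin n) A)
    (b : CStarMatrix (Fin m) (Fin m) B) :
    Rh n ρ b * Lh m π a = Matrix.toEuclideanCLM (𝕜 := ℂ) (ev π a ⊗ₖ ev ρ b) := by
  change Matrix.toEuclideanCLM (𝕜 := ℂ) ((1 : Matrix (Fin n) (Fin n) ℂ) ⊗ₖ ev ρ b) *
    Matrix.toEuclideanCLM (𝕜 := ℂ) (ev π a ⊗ₖ (1 : Matrix (Fin m) (Fin m) ℂ)) = _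
  rw [← map_mul, ← Matrix.mul_kronecker_mul, one_mul, mul_one]

lemma LR_comm {n m : ℕ} (π : A →⋆ₙₐ[ℂ] ℂ) (ρ : B →⋆ₙₐ[ℂ] ℂ) (a : CStarMatrix (Fin n) (Fin n) A)
    (b : CStarMatrix (Fin m) (Fin m) B) :
    Lh m π a * Rh n ρ b = Rh n ρ b * Lh m π a := by rw [LR_mul, RL_mul]

lemma LR_apply {n m : ℕ} (π : A →⋆ₙₐ[ℂ] ℂ) (ρ : B →⋆ₙₐ[ℂ] ℂ) (a : CStarMatrix (Fin n) (Fin n) A)
    (b : CStarMatrix (Fin m) (Fin m) B) (y : EuclideanSpace ℂ (Fin n × Fin m))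
    (P : Fin n × Fin m) :
    (Lh m π a (Rh n ρ b y)) P = ∑ Q : Fin n × Fin m, π (a P.1 Q.1) * ρ (b P.2 Q.2) * y Q := by
  have : Lh m π a (Rh n ρ b y) = (Lh m π a * Rh n ρ b) y := rfl
  rw [this, LR_mul]
  change (Matrix.mulVec (ev π a ⊗ₖ ev ρ b) (WithLp.ofLp y)) P = _
  rw [Matrix.mulVec, dotProduct]
  rfl

end hom

section small

variable {A : Type} [NonUnitalCStarAlgebra A] [PartialOrder A] [StarOrderedRing A]

lemma norm_le_one_of_idem {n : ℕ} (a : CStarMatrix (Fin n) (Fin n) A)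
    (h : (star a * a) * (star a * a) = star a * a) : ‖a‖ ≤ 1 := by
  have h1 : ‖star a * a‖ ≤ 1 := by
    have h2 : ‖star (star a * a) * (star a * a)‖ = ‖star a * a‖ * ‖star a * a‖ :=
      CStarRing.norm_star_mul_self
    rw [star_mul, star_star, h] at h2
    by_contra hc
    push Not at hc
    nlinarith
  have h3 : ‖star a * a‖ = ‖a‖ * ‖a‖ := CStarRing.norm_star_mul_self
  rw [h3] at h1
  by_contra hc
  push Not at hc
  nlinarith

end small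

end Pool.Agent.Q198.Blecher
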