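import Mathlib

/-! Core estimate for the disproof of `S06189` (decomposition of jointly completely bounded
bilinear maps): the array `ψ(i²j) e_{i+j}`. -/

set_option autoImplicit false

namespace Pool.Agent.Q198.Blecher

open Finset ComplexConjugate
open scoped InnerProductSpace

variable {p : ℕ} [hp : Fact p.Prime]

/-- the standard additive character of `ℤ/p` -/
noncomputable abbrev ψ : AddChar (ZMod p) ℂ := ZMod.stdAddChar

lemma conj_psi (x : ZMod p) : conj (ψ x) = ψ (-x) := by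
  rw [AddChar.map_neg_eq_conj]

lemma psi_norm (x : ZMod p) : ‖ψ x‖ = 1 := AddChar.norm_apply _ _

lemma psi_mul (x y : ZMod p) : ψ x * ψ y = ψ (x + y) := (AddChar.map_add_eq_mul _ _ _).symm

lemma psi_sum (c : ZMod p) (hc : c ≠ 0) : ∑ x : ZMod p, ψ (x * c) = 0 := by
  have := AddChar.sum_mulShift c (ZMod.isPrimitive_stdAddChar p)
  simpa [hc] using this

/-- the phase matrix of the shift `g` -/
noncomputable def W (g i j : ZMod p) : ℂ := ψ ((i - g) ^ 2 * (j + g) - i ^ 2 * j)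

lemma W_orth (h2 : (2 : ZMod p) ≠ 0) {g : ZMod p} (hg : g ≠ 0) (j j' : ZMod p) :
    ∑ i : ZMod p, conj (W g i j) * W g i j' = if j = j' then (p : ℂ) else 0 := by
  have h1 : ∀ i : ZMod p, conj (W g i j) * W g i j'
      = ψ ((j' - j) * g ^ 2) * ψ (i * (-(2 * g * (j' - j)))) := by
    intro i
    unfold W
    rw [conj_psi, psi_mul, psi_mul]
    congr 1
    ring
  simp_rw [h1]
  rw [← Finset.mul_sum]
  split_ifs with h
  · subst h
    simp
  · rw [psi_sum, mul_zero]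
    have : j' - j ≠ 0 := sub_ne_zero.mpr (Ne.symm h)
    exact neg_ne_zero.mpr (mul_ne_zero (mul_ne_zero h2 hg) this)

section inner

variable {K : Type*} [NormedAddCommGroup K] [InnerProductSpace ℂ K]

lemma nsq (x : K) : ((‖x‖ : ℝ) : ℂ) ^ 2 = ⟪x, x⟫_ℂ := by
  rw [inner_self_eq_norm_sq_to_K (𝕜 := ℂ)]
  norm_cast

lemma W_isom (h2 : (2 : ZMod p) ≠ 0) {g : ZMod p} (hg : g ≠ 0) (v : ZMod p → K) :
    ∑ i : ZMod p, ‖∑ j : ZMod p, W g i j • v j‖ ^ 2 = p * ∑ j : ZMod p, ‖v j‖ ^ 2 := by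
  have key : ((∑ i : ZMod p, ‖∑ j : ZMod p, W g i j • v j‖ ^ 2 : ℝ) : ℂ)
      = ((p * ∑ j : ZMod p, ‖v j‖ ^ 2 : ℝ) : ℂ) := by
    push_cast
    have h1 : ∀ i : ZMod p, ((‖∑ j : ZMod p, W g i j • v j‖ : ℂ)) ^ 2
        = ∑ j : ZMod p, ∑ j' : ZMod p, (conj (W g i j) * W g i j') * ⟪v j, v j'⟫_ℂ := by
      intro i
      rw [nsq, sum_inner]
      refine Finset.sum_congr rfl fun j _ => ?_
      rw [inner_sum]
      refine Finset.sum_congr rfl fun j' _ => ?_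
      rw [inner_smul_left, inner_smul_right]
      ring
    simp_rw [h1]
    rw [Finset.sum_comm]
    rw [Finset.mul_sum]
    refine Finset.sum_congr rfl fun j _ => ?_
    rw [Finset.sum_comm]
    have h3 : ∀ j' : ZMod p, ∑ i : ZMod p, (conj (W g i j) * W g i j') * ⟪v j, v j'⟫_ℂ
        = if j = j' then (p : ℂ) * ⟪v j, v j'⟫_ℂ else 0 := by
      intro j'
      rw [← Finset.sum_mul, W_orth h2 hg]
      split_ifs <;> simp
    simp_rw [h3]
    rw [Finset.sum_ite_eq]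
    simp only [Finset.mem_univ, if_true]
    rw [← nsq]
  exact_mod_cast key

lemma W_bound (h2 : (2 : ZMod p) ≠ 0) {g : ZMod p} (hg : g ≠ 0) (u v : ZMod p → K)
    {U V : ℝ} (hU : 0 ≤ U) (hV : 0 ≤ V) (hu : ∀ i, ‖u i‖ ≤ U) (hv : ∀ i, ‖v i‖ ≤ V) :
    ‖∑ i : ZMod p, ∑ j : ZMod p, W g i j * ⟪u i, v j⟫_ℂ‖ ≤ p * √p * (U * V) := by
  have h1 : ∀ i : ZMod p, ∑ j : ZMod p, W g i j * ⟪u i, v j⟫_ℂ
      = ⟪u i, ∑ j : ZMod p, W g i j • v j⟫_ℂ := by
    intro i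
    rw [inner_sum]
    refine Finset.sum_congr rfl fun j _ => ?_
    rw [inner_smul_right]
  simp_rw [h1]
  have h3 : ‖∑ i : ZMod p, ⟪u i, ∑ j : ZMod p, W g i j • v j⟫_ℂ‖
      ≤ U * ∑ i : ZMod p, ‖∑ j : ZMod p, W g i j • v j‖ := by
    refine (norm_sum_le _ _).trans ?_
    rw [Finset.mul_sum]
    refine Finset.sum_le_sum fun i _ => ?_
    exact (norm_inner_le_norm _ _).trans (mul_le_mul_of_nonneg_right (hu i) (norm_nonneg _))
  refine h3.trans ?_
  have hp0 : (0 : ℝ) ≤ p := Nat.cast_nonneg _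
  have h4 : ∑ i : ZMod p, ‖∑ j : ZMod p, W g i j • v j‖ ≤ p * √p * V := by
    apply le_of_sq_le_sq _ (by positivity)
    calc (∑ i : ZMod p, ‖∑ j : ZMod p, W g i j • v j‖) ^ 2
        ≤ (Finset.univ : Finset (ZMod p)).card * ∑ i : ZMod p, ‖∑ j : ZMod p, W g i j • v j‖ ^ 2 :=
          sq_sum_le_card_mul_sum_sq
      _ = p * (p * ∑ j : ZMod p, ‖v j‖ ^ 2) := by
          rw [W_isom h2 hg, Finset.card_univ, ZMod.card]
      _ ≤ p * (p * ∑ j : ZMod p, V ^ 2) := by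
          gcongr with j _
          exact hv j
      _ = (p * √p * V) ^ 2 := by
          rw [Finset.sum_const, Finset.card_univ, ZMod.card, nsmul_eq_mul, mul_pow, mul_pow,
            Real.sq_sqrt hp0]
          ring
  calc U * ∑ i : ZMod p, ‖∑ j : ZMod p, W g i j • v j‖ ≤ U * (p * √p * V) := by gcongr
    _ = p * √p * (U * V) := by ring

variable [CompleteSpace K]

open ContinuousLinearMap in
/-- the main estimate -/
theorem core (h2 : (2 : ZMod p) ≠ 0) (S T : ZMod p → (K →L[ℂ] K))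
    (hST : ∀ i j, S i * T j = T j * S i) (hadj : ∀ i j, star (S i) * T j = T j * star (S i))
    {M N : ℝ} (hM : 0 ≤ M) (hN : 0 ≤ N) (hS : ∀ i, ‖S i‖ ≤ M) (hT : ∀ i, ‖T i‖ ≤ N) (y : K) :
    ∑ t : ZMod p, ‖∑ i : ZMod p, ψ (i ^ 2 * (t - i)) • S i (T (t - i) y)‖ ^ 2
      ≤ 2 * (p : ℝ) ^ 2 * √p * (M * N) ^ 2 * ‖y‖ ^ 2 := by
  have hp0 : (0 : ℝ) ≤ p := Nat.cast_nonneg _
  have hp1 : (1 : ℝ) ≤ p := by exact_mod_cast hp.out.one_lt.le
  have hs1 : 1 ≤ √(p : ℝ) := Real.one_le_sqrt.mpr hp1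
  -- vectors
  set u : ZMod p → ZMod p → K := fun g i => star (S (i - g)) (S i y) with hu
  set v : ZMod p → ZMod p → K := fun g j => star (T j) (T (j + g) y) with hv
  have hsn : ∀ (X : K →L[ℂ] K) (x : K), ‖(star X) x‖ ≤ ‖X‖ * ‖x‖ := by
    intro X x
    calc ‖(star X) x‖ ≤ ‖star X‖ * ‖x‖ := ContinuousLinearMap.le_opNorm _ _
      _ = ‖X‖ * ‖x‖ := by rw [norm_star]
  have hub : ∀ g i, ‖u g i‖ ≤ M ^ 2 * ‖y‖ := by
    intro g i
    calc ‖u g i‖ ≤ ‖S (i - g)‖ * ‖S i y‖ := hsn _ _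
      _ ≤ ‖S (i - g)‖ * (‖S i‖ * ‖y‖) := by gcongr; exact ContinuousLinearMap.le_opNorm _ _
      _ ≤ M * (M * ‖y‖) := by gcongr <;> exact hS _
      _ = M ^ 2 * ‖y‖ := by ring
  have hvb : ∀ g i, ‖v g i‖ ≤ N ^ 2 * ‖y‖ := by
    intro g i
    calc ‖v g i‖ ≤ ‖T i‖ * ‖T (i + g) y‖ := hsn _ _
      _ ≤ ‖T i‖ * (‖T (i + g)‖ * ‖y‖) := by gcongr; exact ContinuousLinearMap.le_opNorm _ _
      _ ≤ N * (N * ‖y‖) := by gcongr <;> exact hT _
      _ = N ^ 2 * ‖y‖ := by ring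
  have hinner : ∀ g i j, ⟪S i (T j y), S (i - g) (T (j + g) y)⟫_ℂ = ⟪u g i, v g j⟫_ℂ := by
    intro g i j
    have e1 : ⟪S i (T j y), S (i - g) (T (j + g) y)⟫_ℂ
        = ⟪star (S (i - g)) (S i (T j y)), T (j + g) y⟫_ℂ := by
      rw [ContinuousLinearMap.star_eq_adjoint, ContinuousLinearMap.adjoint_inner_left]
    have e2 : star (S (i - g)) (S i (T j y)) = T j (star (S (i - g)) (S i y)) := by
      have a1 : S i (T j y) = T j (S i y) := by
        have := congrArg (fun X : K →L[ℂ] K => X y) (hST i j)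
        simpa using this
      have a2 : star (S (i - g)) (T j (S i y)) = T j (star (S (i - g)) (S i y)) := by
        have := congrArg (fun X : K →L[ℂ] K => X (S i y)) (hadj (i - g) j)
        simpa using this
      rw [a1, a2]
    rw [e1, e2]
    simp only [hu, hv]
    rw [ContinuousLinearMap.star_eq_adjoint (T j), ContinuousLinearMap.adjoint_inner_right]
  -- expansion
  have hexp : ((∑ t : ZMod p, ‖∑ i : ZMod p, ψ (i ^ 2 * (t - i)) • S i (T (t - i) y)‖ ^ 2 : ℝ) : ℂ)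
      = ∑ g : ZMod p, ∑ i : ZMod p, ∑ j : ZMod p, W g i j * ⟪u g i, v g j⟫_ℂ := by
    push_cast
    have h1 : ∀ t : ZMod p,
        ((‖∑ i : ZMod p, ψ (i ^ 2 * (t - i)) • S i (T (t - i) y)‖ : ℂ)) ^ 2
        = ∑ i : ZMod p, ∑ g : ZMod p, W g i (t - i) * ⟪u g i, v g (t - i)⟫_ℂ := by
      intro t
      rw [nsq, sum_inner]
      refine Finset.sum_congr rfl fun i _ => ?_
      rw [inner_sum]
      rw [← Equiv.sum_comp (Equiv.subLeft i)]
      refine Finset.sum_congr rfl fun g _ => ?_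
      rw [inner_smul_left, inner_smul_right, conj_psi]
      simp only [Equiv.subLeft_apply]
      have e3 : t - (i - g) = (t - i) + g := by ring
      rw [e3, hinner, ← mul_assoc, psi_mul]
      unfold W
      congr 2
      ring
    simp_rw [h1]
    rw [Finset.sum_comm]
    have h2' : ∀ i : ZMod p, ∑ t : ZMod p, ∑ g : ZMod p, W g i (t - i) * ⟪u g i, v g (t - i)⟫_ℂ
        = ∑ g : ZMod p, ∑ j : ZMod p, W g i j * ⟪u g i, v g j⟫_ℂ := by
      intro i
      rw [Finset.sum_comm]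
      refine Finset.sum_congr rfl fun g _ => ?_
      exact Equiv.sum_comp (Equiv.subRight i) (fun j => W g i j * ⟪u g i, v g j⟫_ℂ)
    simp_rw [h2']
    rw [Finset.sum_comm]
  have hnn : 0 ≤ ∑ t : ZMod p, ‖∑ i : ZMod p, ψ (i ^ 2 * (t - i)) • S i (T (t - i) y)‖ ^ 2 :=
    Finset.sum_nonneg fun _ _ => by positivity
  have hnorm : ∑ t : ZMod p, ‖∑ i : ZMod p, ψ (i ^ 2 * (t - i)) • S i (T (t - i) y)‖ ^ 2
      = ‖∑ g : ZMod p, ∑ i : ZMod p, ∑ j : ZMod p, W g i j * ⟪u g i, v g j⟫_ℂ‖ := by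
    rw [← hexp, Complex.norm_real, Real.norm_of_nonneg hnn]
  rw [hnorm]
  have hg : ∀ g : ZMod p, ‖∑ i : ZMod p, ∑ j : ZMod p, W g i j * ⟪u g i, v g j⟫_ℂ‖
      ≤ (if g = 0 then (p : ℝ) ^ 2 else 0) * (M ^ 2 * ‖y‖ * (N ^ 2 * ‖y‖))
        + p * √p * (M ^ 2 * ‖y‖ * (N ^ 2 * ‖y‖)) := by
    intro g
    split_ifs with h
    · have : ‖∑ i : ZMod p, ∑ j : ZMod p, W g i j * ⟪u g i, v g j⟫_ℂ‖
          ≤ (p : ℝ) ^ 2 * (M ^ 2 * ‖y‖ * (N ^ 2 * ‖y‖)) := by
        refine (norm_sum_le _ _).trans ?_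
        calc ∑ i : ZMod p, ‖∑ j : ZMod p, W g i j * ⟪u g i, v g j⟫_ℂ‖
            ≤ ∑ i : ZMod p, ∑ j : ZMod p, (M ^ 2 * ‖y‖ * (N ^ 2 * ‖y‖)) := by
              refine Finset.sum_le_sum fun i _ => (norm_sum_le _ _).trans ?_
              refine Finset.sum_le_sum fun j _ => ?_
              rw [norm_mul]
              have : ‖W g i j‖ = 1 := psi_norm _
              rw [this, one_mul]
              refine (norm_inner_le_norm _ _).trans ?_
              exact mul_le_mul (hub _ _) (hvb _ _) (norm_nonneg _) (by positivity)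
          _ = (p : ℝ) ^ 2 * (M ^ 2 * ‖y‖ * (N ^ 2 * ‖y‖)) := by
              simp only [Finset.sum_const, Finset.card_univ, ZMod.card, nsmul_eq_mul]
              ring
      have h' : 0 ≤ p * √p * (M ^ 2 * ‖y‖ * (N ^ 2 * ‖y‖)) := by positivity
      linarith
    · rw [zero_mul, zero_add]
      exact W_bound h2 h _ _ (by positivity) (by positivity) (hub g) (hvb g)
  -- the improved count: one `g = 0` term and `p - 1` others
  have hg' : ∀ g : ZMod p, ‖∑ i : ZMod p, ∑ j : ZMod p, W g i j * ⟪u g i, v g j⟫_ℂ‖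
      ≤ (if g = 0 then (p : ℝ) ^ 2 * √p else 0) * (M ^ 2 * ‖y‖ * (N ^ 2 * ‖y‖))
        + p * √p * (M ^ 2 * ‖y‖ * (N ^ 2 * ‖y‖)) := by
    intro g
    refine (hg g).trans ?_
    gcongr
    split_ifs
    · exact le_mul_of_one_le_right (by positivity) hs1
    · exact le_rfl
  calc ‖∑ g : ZMod p, ∑ i : ZMod p, ∑ j : ZMod p, W g i j * ⟪u g i, v g j⟫_ℂ‖
      ≤ ∑ g : ZMod p, ((if g = 0 then (p : ℝ) ^ 2 * √p else 0) * (M ^ 2 * ‖y‖ * (N ^ 2 * ‖y‖))
        + p * √p * (M ^ 2 * ‖y‖ * (N ^ 2 * ‖y‖))) :=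
        (norm_sum_le _ _).trans (Finset.sum_le_sum fun g _ => hg' g)
    _ = 2 * (p : ℝ) ^ 2 * √p * (M * N) ^ 2 * ‖y‖ ^ 2 := by
        rw [Finset.sum_add_distrib, ← Finset.sum_mul, Finset.sum_ite_eq' Finset.univ (0 : ZMod p),
          Finset.sum_const, Finset.card_univ, ZMod.card, nsmul_eq_mul]
        simp only [Finset.mem_univ, if_true]
        ring

end inner

end Pool.Agent.Q198.Blecher
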