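import Pool.Agent.Q198.BlecherMap

/-! The lower bound. -/

set_option autoImplicit false

namespace Pool.Agent.Q198.Blecher

open Finset ComplexConjugate
open scoped InnerProductSpace Kronecker CStarMatrix ENNReal

/-- point masses in the algebra -/
noncomputable def dl (k : ℕ) (i : ZMod (pk k)) : AA := lp.single ∞ (⟨k, i⟩ : I) (1 : ℂ)

lemma dl_apply (k : ℕ) (i j : ZMod (pk k)) : dl k i ⟨k, j⟩ = if j = i then 1 else 0 := by
  classical
  rw [dl, lp.single_apply]
  by_cases h : j = i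
  · subst h; simp
  · rw [if_neg h, Pi.single_eq_of_ne]
    intro h'
    apply h
    simpa using h'

lemma dl_mul (k : ℕ) (i j : ZMod (pk k)) : dl k i * dl k j = if i = j then dl k i else 0 := by
  classical
  ext ι
  rw [lp.infty_coeFn_mul, Pi.mul_apply]
  by_cases h : i = j
  · subst h
    rw [if_pos rfl, dl, lp.single_apply]
    by_cases h' : ι = (⟨k, i⟩ : I)
    · subst h'; simp
    · rw [Pi.single_eq_of_ne h', mul_zero]
  · rw [if_neg h, dl, dl, lp.single_apply, lp.single_apply]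
    by_cases h' : ι = (⟨k, i⟩ : I)
    · subst h'
      have : (⟨k, i⟩ : I) ≠ ⟨k, j⟩ := by
        intro h''; apply h; simpa using h''
      rw [Pi.single_eq_of_ne this, mul_zero]
      rfl
    · rw [Pi.single_eq_of_ne h', zero_mul]
      rfl

lemma dl_star (k : ℕ) (i : ZMod (pk k)) : star (dl k i) = dl k i := by
  classical
  ext ι
  rw [lp.star_apply, dl, lp.single_apply]
  by_cases h' : ι = (⟨k, i⟩ : I)
  · subst h'; simp
  · rw [Pi.single_eq_of_ne h', star_zero]

/-- the unit of the block -/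
noncomputable def ch (k : ℕ) : AA := ∑ i : ZMod (pk k), dl k i

lemma ch_mul (k : ℕ) : ch k * ch k = ch k := by
  unfold ch
  rw [Finset.sum_mul_sum]
  refine Finset.sum_congr rfl fun i _ => ?_
  simp_rw [dl_mul]
  rw [Finset.sum_ite_eq]
  simp

lemma Ff_dl (k : ℕ) (r s : ZMod (pk k)) :
    Ff (dl k (r - s)) (dl k s) ⟨k, r⟩ = (lam k : ℂ) * ψ ((r - s) ^ 2 * s) := by
  unfold Ff
  simp only [dl_apply]
  congr 1
  rw [Finset.sum_eq_single (r - s)]
  · simp
  · intro i _ hi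
    rw [if_neg hi]
    simp
  · simp

/-- the enumeration of the block -/
noncomputable def en (k : ℕ) : Fin (pk k) ≃ ZMod (pk k) :=
  (Fintype.equivFinOfCardEq (ZMod.card (pk k))).symm

section low

attribute [local instance] CStarAlgebra.spectralOrder CStarAlgebra.spectralOrderedRing

/-- the big test matrix, with phases `c r s` -/
noncomputable def mA (k : ℕ) (c : ZMod (pk k) → ZMod (pk k) → ℂ) :
    CStarMatrix (Fin (pk k)) (Fin (pk k)) AA :=
  CStarMatrix.ofMatrix fun r s => c (en k r) (en k s) • dl k (en k r - en k s)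

lemma mA_apply (k : ℕ) (c : ZMod (pk k) → ZMod (pk k) → ℂ) (r s : Fin (pk k)) :
    mA k c r s = c (en k r) (en k s) • dl k (en k r - en k s) := rfl

/-- the column test matrix -/
noncomputable def mB (k : ℕ) : CStarMatrix (Fin (pk k)) (Fin (pk k)) AA :=
  CStarMatrix.ofMatrix fun r s => if s = (en k).symm 0 then dl k (en k r) else 0

lemma mB_apply (k : ℕ) (r s : Fin (pk k)) :
    mB k r s = if s = (en k).symm 0 then dl k (en k r) else 0 := rfl

lemma mA_star_mul (k : ℕ) (c : ZMod (pk k) → ZMod (pk k) → ℂ) (hc : ∀ r s, conj (c r s) * c r s = 1)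
    (r s : Fin (pk k)) : (star (mA k c) * mA k c) r s = if r = s then ch k else 0 := by
  rw [CStarMatrix.mul_apply]
  simp only [CStarMatrix.star_apply, mA_apply, star_smul, dl_star]
  have h1 : ∀ t : Fin (pk k), (star (c (en k t) (en k r)) • dl k (en k t - en k r)) *
      (c (en k t) (en k s) • dl k (en k t - en k s))
      = if r = s then dl k (en k t - en k r) else 0 := by
    intro t
    rw [smul_mul_smul_comm, dl_mul]
    by_cases h : r = s
    · subst h
      rw [if_pos rfl, if_pos rfl]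
      have := hc (en k t) (en k r)
      rw [starRingEnd_apply] at this
      rw [this, one_smul]
    · rw [if_neg h, if_neg, smul_zero]
      intro h'
      apply h
      have := sub_right_injective h'
      exact (en k).injective this
  simp_rw [h1]
  split_ifs with h
  · unfold ch
    rw [← Equiv.sum_comp (Equiv.subRight (en k r)) (dl k), ← Equiv.sum_comp (en k)]
    rfl
  · simp

lemma mA_norm (k : ℕ) (c : ZMod (pk k) → ZMod (pk k) → ℂ) (hc : ∀ r s, conj (c r s) * c r s = 1) :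
    ‖mA k c‖ ≤ 1 := by
  apply norm_le_one_of_idem
  refine CStarMatrix.ext fun r s => ?_
  rw [CStarMatrix.mul_apply]
  simp_rw [mA_star_mul k c hc]
  rw [Finset.sum_eq_single r]
  · simp only [if_true]
    split_ifs
    · exact ch_mul k
    · exact mul_zero _
  · intro t _ ht
    rw [if_neg (Ne.symm ht), zero_mul]
  · simp

lemma mB_star_mul (k : ℕ) (r s : Fin (pk k)) :
    (star (mB k) * mB k) r s = if r = (en k).symm 0 ∧ s = (en k).symm 0 then ch k else 0 := by
  rw [CStarMatrix.mul_apply]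
  simp only [CStarMatrix.star_apply, mB_apply]
  by_cases hr : r = (en k).symm 0
  · by_cases hs : s = (en k).symm 0
    · rw [if_pos ⟨hr, hs⟩]
      simp only [if_pos hr, if_pos hs, dl_star]
      unfold ch
      rw [← Equiv.sum_comp (en k) (dl k)]
      refine Finset.sum_congr rfl fun t _ => ?_
      rw [dl_mul, if_pos rfl]
    · rw [if_neg (fun h => hs h.2)]
      simp only [if_neg hs, mul_zero, Finset.sum_const_zero]
  · rw [if_neg (fun h => hr h.1)]
    simp only [if_neg hr, star_zero, zero_mul, Finset.sum_const_zero]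

lemma mB_norm (k : ℕ) : ‖mB k‖ ≤ 1 := by
  apply norm_le_one_of_idem
  refine CStarMatrix.ext fun r s => ?_
  rw [CStarMatrix.mul_apply]
  simp_rw [mB_star_mul]
  rw [Finset.sum_eq_single ((en k).symm 0)]
  · by_cases hr : r = (en k).symm 0
    · by_cases hs : s = (en k).symm 0
      · simp only [hr, hs, and_self, if_true, ch_mul]
      · simp only [hs, and_false, if_false, mul_zero]
    · simp only [hr, false_and, if_false, zero_mul]
  · intro t _ ht
    rw [if_neg (fun h => ht h.2), zero_mul]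
  · simp

/-- the consequence of the bound for one multiplicatively bounded map -/
lemma col_bound {C : ℝ} (φ : AA →ₗ[ℂ] AA →ₗ[ℂ] (HH →L[ℂ] HH))
    (h : ∀ (n : ℕ) (a : CStarMatrix (Fin n) (Fin n) AA)
            (b : CStarMatrix (Fin n) (Fin n) AA) (x : Fin n → HH),
            ∑ i : Fin n, ‖∑ j : Fin n, ∑ k : Fin n, φ (a i k) (b k j) (x j)‖ ^ 2
              ≤ (C * ‖a‖ * ‖b‖) ^ 2 * ∑ j : Fin n, ‖x j‖ ^ 2)
    (k : ℕ) (c : ZMod (pk k) → ZMod (pk k) → ℂ) (hc : ∀ r s, conj (c r s) * c r s = 1) :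
    ∑ r : ZMod (pk k), ‖∑ s : ZMod (pk k), c r s • φ (dl k (r - s)) (dl k s) h0‖ ^ 2 ≤ C ^ 2 := by
  have h1 := h (pk k) (mA k c) (mB k) (fun j => if j = (en k).symm 0 then h0 else 0)
  have h2 : ∀ i : Fin (pk k), ∑ j : Fin (pk k), ∑ l : Fin (pk k),
      φ (mA k c i l) (mB k l j) (if j = (en k).symm 0 then h0 else 0)
      = ∑ s : ZMod (pk k), c (en k i) s • φ (dl k (en k i - s)) (dl k s) h0 := by
    intro i
    rw [Finset.sum_eq_single ((en k).symm 0)]
    · rw [if_pos rfl, ← Equiv.sum_comp (en k)]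
      refine Finset.sum_congr rfl fun l _ => ?_
      rw [mA_apply, mB_apply, if_pos rfl, map_smul]
      rfl
    · intro j _ hj
      rw [if_neg hj]
      simp
    · simp
  simp_rw [h2] at h1
  rw [Equiv.sum_comp (en k) (fun r => ‖∑ s : ZMod (pk k),
    c r s • φ (dl k (r - s)) (dl k s) h0‖ ^ 2)] at h1
  refine h1.trans ?_
  have h3 : ∑ j : Fin (pk k), ‖(if j = (en k).symm 0 then h0 else 0 : HH)‖ ^ 2 = 1 := by
    rw [Finset.sum_eq_single ((en k).symm 0)]
    · rw [if_pos rfl, h0_norm, one_pow]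
    · intro j _ hj
      rw [if_neg hj]
      simp
    · simp
  rw [h3, mul_one, mul_pow, mul_pow]
  have ha := mA_norm k c hc
  have hb := mB_norm k
  have ha' : ‖mA k c‖ ^ 2 ≤ 1 := pow_le_one₀ (norm_nonneg _) ha
  have hb' : ‖mB k‖ ^ 2 ≤ 1 := pow_le_one₀ (norm_nonneg _) hb
  calc C ^ 2 * ‖mA k c‖ ^ 2 * ‖mB k‖ ^ 2 ≤ C ^ 2 * 1 * 1 := by gcongr
    _ = C ^ 2 := by ring

theorem main_low (φ₁ φ₂ : AA →ₗ[ℂ] AA →ₗ[ℂ] (HH →L[ℂ] HH)) {C₁ C₂ : ℝ}
    (h1 : ∀ (n : ℕ) (a : CStarMatrix (Fin n) (Fin n) AA)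
            (b : CStarMatrix (Fin n) (Fin n) AA) (x : Fin n → HH),
            ∑ i : Fin n, ‖∑ j : Fin n, ∑ k : Fin n, φ₁ (a i k) (b k j) (x j)‖ ^ 2
              ≤ (C₁ * ‖a‖ * ‖b‖) ^ 2 * ∑ j : Fin n, ‖x j‖ ^ 2)
    (h2 : ∀ (n : ℕ) (b : CStarMatrix (Fin n) (Fin n) AA)
            (a : CStarMatrix (Fin n) (Fin n) AA) (x : Fin n → HH),
            ∑ i : Fin n, ‖∑ j : Fin n, ∑ k : Fin n, φ₂ (b i k) (a k j) (x j)‖ ^ 2
              ≤ (C₂ * ‖b‖ * ‖a‖) ^ 2 * ∑ j : Fin n, ‖x j‖ ^ 2)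
    (h3 : ∀ a b : AA, Φ a b = φ₁ a b + φ₂ b a) : False := by
  have key : ∀ k : ℕ, (2 : ℝ) ^ k ≤ 2 * C₁ ^ 2 + 2 * C₂ ^ 2 := by
    intro k
    have hpsi : ∀ x : ZMod (pk k), conj (conj (ψ x)) * conj (ψ x) = 1 := by
      intro x
      rw [conj_psi, conj_psi, psi_mul]
      simp
    have b1 := col_bound φ₁ h1 k (fun r s => conj (ψ ((r - s) ^ 2 * s))) (fun r s => hpsi _)
    have b2 := col_bound φ₂ h2 k (fun r s => conj (ψ (s ^ 2 * (r - s)))) (fun r s => hpsi _)
    -- reindex the second sum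
    have e2 : ∀ r : ZMod (pk k), ∑ s : ZMod (pk k),
        conj (ψ (s ^ 2 * (r - s))) • φ₂ (dl k (r - s)) (dl k s) h0
        = ∑ s : ZMod (pk k), conj (ψ ((r - s) ^ 2 * s)) • φ₂ (dl k s) (dl k (r - s)) h0 := by
      intro r
      rw [← Equiv.sum_comp (Equiv.subLeft r)]
      refine Finset.sum_congr rfl fun s _ => ?_
      simp only [Equiv.subLeft_apply, sub_sub_cancel]
    simp only [e2] at b2
    have e3 : ∀ r : ZMod (pk k), (pk k : ℝ) * lam k
        ≤ ‖∑ s : ZMod (pk k), conj (ψ ((r - s) ^ 2 * s)) • φ₁ (dl k (r - s)) (dl k s) h0‖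
          + ‖∑ s : ZMod (pk k), conj (ψ ((r - s) ^ 2 * s)) • φ₂ (dl k s) (dl k (r - s)) h0‖ := by
      intro r
      refine le_trans ?_ (norm_add_le _ _)
      have e4 : ∑ s : ZMod (pk k), conj (ψ ((r - s) ^ 2 * s)) • φ₁ (dl k (r - s)) (dl k s) h0
          + ∑ s : ZMod (pk k), conj (ψ ((r - s) ^ 2 * s)) • φ₂ (dl k s) (dl k (r - s)) h0
          = ∑ s : ZMod (pk k), conj (ψ ((r - s) ^ 2 * s)) • FL (dl k (r - s)) (dl k s) := by
        rw [← Finset.sum_add_distrib]
        refine Finset.sum_congr rfl fun s _ => ?_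
        rw [← smul_add]
        congr 1
        have := congrArg (fun X : HH →L[ℂ] HH => X h0) (h3 (dl k (r - s)) (dl k s))
        simp only [Φ_apply] at this
        rw [inner_self_eq_norm_sq_to_K, h0_norm] at this
        simpa using this.symm
      rw [e4]
      refine le_trans ?_ (lp.norm_apply_le_norm (by norm_num) _ (⟨k, r⟩ : I))
      rw [lp.coeFn_sum, Finset.sum_apply]
      have e5 : ∀ s : ZMod (pk k),
          (conj (ψ ((r - s) ^ 2 * s)) • FL (dl k (r - s)) (dl k s) : HH) ⟨k, r⟩ = (lam k : ℂ) := by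
        intro s
        rw [lp.coeFn_smul, Pi.smul_apply, FL_apply, Ff_dl, smul_eq_mul, conj_psi]
        calc ψ (-((r - s) ^ 2 * s)) * ((lam k : ℂ) * ψ ((r - s) ^ 2 * s))
            = (lam k : ℂ) * (ψ (-((r - s) ^ 2 * s)) * ψ ((r - s) ^ 2 * s)) := by ring
          _ = (lam k : ℂ) := by rw [psi_mul]; simp
      simp_rw [e5]
      rw [Finset.sum_const, Finset.card_univ, ZMod.card, nsmul_eq_mul, norm_mul,
        Complex.norm_real, Complex.norm_natCast]
      gcongr
      exact le_abs_self _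
    have e6 : ∑ r : ZMod (pk k), ((pk k : ℝ) * lam k) ^ 2 ≤ 2 * C₁ ^ 2 + 2 * C₂ ^ 2 := by
      calc ∑ r : ZMod (pk k), ((pk k : ℝ) * lam k) ^ 2
          ≤ ∑ r : ZMod (pk k), (2 * ‖∑ s : ZMod (pk k),
              conj (ψ ((r - s) ^ 2 * s)) • φ₁ (dl k (r - s)) (dl k s) h0‖ ^ 2
            + 2 * ‖∑ s : ZMod (pk k),
              conj (ψ ((r - s) ^ 2 * s)) • φ₂ (dl k s) (dl k (r - s)) h0‖ ^ 2) := by
            refine Finset.sum_le_sum fun r _ => ?_
            have := e3 r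
            have h0' : 0 ≤ (pk k : ℝ) * lam k := mul_nonneg (pk_pos k).le (Real.sqrt_nonneg _)
            calc ((pk k : ℝ) * lam k) ^ 2 ≤ (‖∑ s : ZMod (pk k),
              conj (ψ ((r - s) ^ 2 * s)) • φ₁ (dl k (r - s)) (dl k s) h0‖ + ‖∑ s : ZMod (pk k),
              conj (ψ ((r - s) ^ 2 * s)) • φ₂ (dl k s) (dl k (r - s)) h0‖) ^ 2 := by gcongr
              _ ≤ _ := by
                nlinarith [sq_nonneg (‖∑ s : ZMod (pk k),
              conj (ψ ((r - s) ^ 2 * s)) • φ₁ (dl k (r - s)) (dl k s) h0‖ - ‖∑ s : ZMod (pk k),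
              conj (ψ ((r - s) ^ 2 * s)) • φ₂ (dl k s) (dl k (r - s)) h0‖)]
        _ ≤ 2 * C₁ ^ 2 + 2 * C₂ ^ 2 := by
            rw [Finset.sum_add_distrib, ← Finset.mul_sum, ← Finset.mul_sum]
            gcongr
    refine le_trans ?_ e6
    rw [Finset.sum_const, Finset.card_univ, ZMod.card, nsmul_eq_mul, mul_pow, lam_sq, lam2]
    have hp0 := pk_pos k
    have hs : 0 < √(pk k : ℝ) := Real.sqrt_pos.mpr hp0
    have hs4 : (4 : ℝ) ^ k ≤ √(pk k : ℝ) := by
      apply Real.le_sqrt_of_sq_le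
      have : (16 : ℝ) ^ k + 3 ≤ pk k := by exact_mod_cast pk_ge k
      calc ((4 : ℝ) ^ k) ^ 2 = 16 ^ k := by rw [← pow_mul, mul_comm, pow_mul]; norm_num
        _ ≤ pk k := by linarith
    have e7 : (pk k : ℝ) * ((pk k : ℝ) ^ 2 * (1 / (2 ^ k * ((pk k : ℝ) ^ 2 * √(pk k)))))
        = √(pk k : ℝ) / 2 ^ k := by
      have hsq : √(pk k : ℝ) * √(pk k : ℝ) = pk k := Real.mul_self_sqrt hp0.le
      field_simp
      nlinarith [hsq]
    rw [e7, le_div_iff₀ (by positivity), ← mul_pow]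
    norm_num
    exact hs4
  obtain ⟨k, hk⟩ := pow_unbounded_of_one_lt (2 * C₁ ^ 2 + 2 * C₂ ^ 2) (by norm_num : (1 : ℝ) < 2)
  exact absurd (key k) (not_le.mpr hk)

end low

end Pool.Agent.Q198.Blecher
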