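import Pool.Agent.Q198.BlecherAlg

/-! The bilinear map on `ℓ_∞ × ℓ_∞`. -/

set_option autoImplicit false

namespace Pool.Agent.Q198.Blecher

open Finset ComplexConjugate
open scoped InnerProductSpace Kronecker CStarMatrix ENNReal

section block

variable {A : Type} [NonUnitalCStarAlgebra A] [PartialOrder A] [StarOrderedRing A]
variable {B : Type} [NonUnitalCStarAlgebra B] [PartialOrder B] [StarOrderedRing B]
variable {p : ℕ} [hp : Fact p.Prime]

lemma block_est (h2 : (2 : ZMod p) ≠ 0) {n m : ℕ} (π : ZMod p → (A →⋆ₙₐ[ℂ] ℂ))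
    (ρ : ZMod p → (B →⋆ₙₐ[ℂ] ℂ)) (a : CStarMatrix (Fin n) (Fin n) A)
    (b : CStarMatrix (Fin m) (Fin m) B) (y : Fin n × Fin m → ℂ) :
    ∑ t : ZMod p, ∑ P : Fin n × Fin m, ‖∑ i : ZMod p, ψ (i ^ 2 * (t - i)) *
      ∑ Q : Fin n × Fin m, π i (a P.1 Q.1) * ρ (t - i) (b P.2 Q.2) * y Q‖ ^ 2
      ≤ 2 * (p : ℝ) ^ 2 * √p * (‖a‖ * ‖b‖) ^ 2 * ∑ Q : Fin n × Fin m, ‖y Q‖ ^ 2 := by
  have h := core h2 (fun i => Lh (n := n) m (π i) a) (fun j => Rh n (m := m) (ρ j) b)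
    (fun i j => LR_comm _ _ _ _)
    (fun i j => by rw [← map_star]; exact LR_comm _ _ _ _)
    (norm_nonneg a) (norm_nonneg b) (fun i => Lh_norm _ _ _) (fun i => Rh_norm _ _ _)
    (WithLp.toLp 2 y)
  rw [EuclideanSpace.norm_sq_eq (WithLp.toLp 2 y)] at h
  refine le_trans (le_of_eq ?_) h
  refine Finset.sum_congr rfl fun t _ => ?_
  rw [EuclideanSpace.norm_sq_eq]
  refine Finset.sum_congr rfl fun P _ => ?_
  congr 2
  rw [WithLp.ofLp_sum, Finset.sum_apply]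
  refine Finset.sum_congr rfl fun i _ => ?_
  rw [WithLp.ofLp_smul, Pi.smul_apply, smul_eq_mul]
  congr 1
  exact (LR_apply (π i) (ρ (t - i)) a b (WithLp.toLp 2 y) P).symm

end block

/-- a rapidly growing sequence of primes -/
noncomputable def pk (k : ℕ) : ℕ := (Nat.exists_infinite_primes (16 ^ k + 3)).choose

lemma pk_ge (k : ℕ) : 16 ^ k + 3 ≤ pk k := (Nat.exists_infinite_primes (16 ^ k + 3)).choose_spec.1

lemma pk_prime (k : ℕ) : (pk k).Prime := (Nat.exists_infinite_primes (16 ^ k + 3)).choose_spec.2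

instance (k : ℕ) : Fact (pk k).Prime := ⟨pk_prime k⟩

lemma two_ne (k : ℕ) : (2 : ZMod (pk k)) ≠ 0 := by
  intro h
  have h1 : ((2 : ℕ) : ZMod (pk k)) = 0 := by exact_mod_cast h
  rw [ZMod.natCast_eq_zero_iff] at h1
  have := Nat.le_of_dvd (by norm_num) h1
  have := pk_ge k
  have : 0 < 16 ^ k := by positivity
  omega

/-- the index set -/
abbrev I : Type := Σ k : ℕ, ZMod (pk k)

/-- the algebra `ℓ_∞` -/
abbrev AA : Type := lp (fun _ : I => ℂ) ∞

/-- the Hilbert space `ℓ_2` -/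
abbrev HH : Type := lp (fun _ : I => ℂ) 2

/-- evaluation at a point -/
noncomputable def evI (ι : I) : AA →⋆ₙₐ[ℂ] ℂ where
  toFun f := f ι
  map_smul' c f := by simp [lp.coeFn_smul]
  map_zero' := by simp
  map_add' f g := by simp
  map_mul' f g := by simp [lp.infty_coeFn_mul]
  map_star' f := by simp

lemma evI_apply (ι : I) (f : AA) : evI ι f = f ι := rfl

/-- the weights, squared -/
noncomputable def lam2 (k : ℕ) : ℝ := 1 / (2 ^ k * ((pk k : ℝ) ^ 2 * √(pk k)))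

lemma pk_pos (k : ℕ) : (0 : ℝ) < pk k := by exact_mod_cast (pk_prime k).pos

lemma lam2_pos (k : ℕ) : 0 < lam2 k := by
  unfold lam2
  have := pk_pos k
  positivity

/-- the weights -/
noncomputable def lam (k : ℕ) : ℝ := √(lam2 k)

lemma lam_sq (k : ℕ) : lam k ^ 2 = lam2 k := Real.sq_sqrt (lam2_pos k).le

lemma lam_mul (k : ℕ) : lam k ^ 2 * (2 * (pk k : ℝ) ^ 2 * √(pk k)) = 2 * (1 / 2) ^ k := by
  rw [lam_sq, lam2]
  have h1 := pk_pos k
  have h2 : 0 < √(pk k : ℝ) := Real.sqrt_pos.mpr h1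
  field_simp
  rw [← mul_pow]
  norm_num

/-- the coordinates of the bilinear map -/
noncomputable def Ff (a b : AA) (ι : I) : ℂ :=
  (lam ι.1 : ℂ) * ∑ i : ZMod (pk ι.1), ψ (i ^ 2 * (ι.2 - i)) * (a ⟨ι.1, i⟩ * b ⟨ι.1, ι.2 - i⟩)

section est

attribute [local instance] CStarAlgebra.spectralOrder CStarAlgebra.spectralOrderedRing

lemma est_gen {n m : ℕ} (a : CStarMatrix (Fin n) (Fin n) AA)
    (b : CStarMatrix (Fin m) (Fin m) AA) (y : Fin n × Fin m → ℂ) (k : ℕ) :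
    ∑ t : ZMod (pk k), ∑ P : Fin n × Fin m,
      ‖∑ Q : Fin n × Fin m, y Q * Ff (a P.1 Q.1) (b P.2 Q.2) ⟨k, t⟩‖ ^ 2
      ≤ 2 * (1 / 2) ^ k * ((‖a‖ * ‖b‖) ^ 2 * ∑ Q : Fin n × Fin m, ‖y Q‖ ^ 2) := by
  have h := block_est (two_ne k) (fun i => evI ⟨k, i⟩) (fun i => evI ⟨k, i⟩) a b y
  have h1 : ∑ t : ZMod (pk k), ∑ P : Fin n × Fin m,
      ‖∑ Q : Fin n × Fin m, y Q * Ff (a P.1 Q.1) (b P.2 Q.2) ⟨k, t⟩‖ ^ 2
      = lam k ^ 2 * ∑ t : ZMod (pk k), ∑ P : Fin n × Fin m,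
        ‖∑ i : ZMod (pk k), ψ (i ^ 2 * (t - i)) *
        ∑ Q : Fin n × Fin m, evI ⟨k, i⟩ (a P.1 Q.1) * evI ⟨k, t - i⟩ (b P.2 Q.2) * y Q‖ ^ 2 := by
    rw [Finset.mul_sum]
    refine Finset.sum_congr rfl fun t _ => ?_
    rw [Finset.mul_sum]
    refine Finset.sum_congr rfl fun P _ => ?_
    have : ∑ Q : Fin n × Fin m, y Q * Ff (a P.1 Q.1) (b P.2 Q.2) ⟨k, t⟩
        = (lam k : ℂ) * ∑ i : ZMod (pk k), ψ (i ^ 2 * (t - i)) *
        ∑ Q : Fin n × Fin m, evI ⟨k, i⟩ (a P.1 Q.1) * evI ⟨k, t - i⟩ (b P.2 Q.2) * y Q := by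
      simp only [Ff, evI_apply]
      simp_rw [Finset.mul_sum]
      rw [Finset.sum_comm]
      refine Finset.sum_congr rfl fun i _ => ?_
      refine Finset.sum_congr rfl fun Q _ => ?_
      ring
    rw [this, norm_mul, mul_pow, Complex.norm_real, Real.norm_eq_abs, sq_abs]
  rw [h1]
  calc lam k ^ 2 * ∑ t : ZMod (pk k), ∑ P : Fin n × Fin m,
        ‖∑ i : ZMod (pk k), ψ (i ^ 2 * (t - i)) *
        ∑ Q : Fin n × Fin m, evI ⟨k, i⟩ (a P.1 Q.1) * evI ⟨k, t - i⟩ (b P.2 Q.2) * y Q‖ ^ 2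
      ≤ lam k ^ 2 * (2 * (pk k : ℝ) ^ 2 * √(pk k) * (‖a‖ * ‖b‖) ^ 2 *
        ∑ Q : Fin n × Fin m, ‖y Q‖ ^ 2) := by
        gcongr
    _ = (lam k ^ 2 * (2 * (pk k : ℝ) ^ 2 * √(pk k))) * ((‖a‖ * ‖b‖) ^ 2 *
        ∑ Q : Fin n × Fin m, ‖y Q‖ ^ 2) := by ring
    _ = _ := by rw [lam_mul]

lemma est_one (a b : AA) : ∃ C : ℝ, ∀ k : ℕ,
    ∑ t : ZMod (pk k), ‖Ff a b ⟨k, t⟩‖ ^ 2 ≤ (1 / 2) ^ k * C := by
  let a' : CStarMatrix (Fin 1) (Fin 1) AA := CStarMatrix.ofMatrix fun _ _ => a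
  let b' : CStarMatrix (Fin 1) (Fin 1) AA := CStarMatrix.ofMatrix fun _ _ => b
  refine ⟨2 * (‖a'‖ * ‖b'‖) ^ 2, fun k => ?_⟩
  have h := est_gen a' b' (fun _ => 1) k
  have e : ∀ P : Fin 1 × Fin 1, P = (0, 0) := fun P => Subsingleton.elim _ _
  simp only [Fintype.sum_subsingleton _ ((0, 0) : Fin 1 × Fin 1), one_mul, norm_one, one_pow,
    mul_one] at h
  refine le_trans (le_of_eq ?_) (h.trans (le_of_eq ?_))
  · rfl
  · ring

end est

lemma Ff_mem (a b : AA) : Memℓp (Ff a b : (ι : I) → ℂ) 2 := by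
  apply memℓp_gen
  have h2 : (2 : ℝ≥0∞).toReal = 2 := by norm_num
  rw [h2]
  obtain ⟨C, hC⟩ := est_one a b
  rw [summable_sigma_of_nonneg (fun _ => by positivity)]
  refine ⟨fun k => (hasSum_fintype _).summable, ?_⟩
  have hs : Summable fun k : ℕ => (1 / 2 : ℝ) ^ k * C :=
    (summable_geometric_of_lt_one (by norm_num) (by norm_num)).mul_right C
  refine hs.of_nonneg_of_le (fun k => tsum_nonneg fun _ => by positivity) (fun k => ?_)
  rw [tsum_fintype]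
  have := hC k
  simpa only [Real.rpow_two] using this

/-- the bilinear map with values in the Hilbert space -/
noncomputable def F2 (a b : AA) : HH := ⟨Ff a b, Ff_mem a b⟩

lemma F2_apply (a b : AA) (ι : I) : F2 a b ι = Ff a b ι := rfl

/-- the bilinear map with values in the Hilbert space, bundled -/
noncomputable def FL : AA →ₗ[ℂ] AA →ₗ[ℂ] HH :=
  LinearMap.mk₂ ℂ F2
    (fun a a' b => by
      ext ι
      simp only [F2_apply, lp.coeFn_add, Pi.add_apply, Ff]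
      rw [← mul_add, ← Finset.sum_add_distrib]
      congr 1
      refine Finset.sum_congr rfl fun i _ => ?_
      ring)
    (fun c a b => by
      ext ι
      simp only [F2_apply, lp.coeFn_smul, Pi.smul_apply, Ff, smul_eq_mul]
      rw [Finset.mul_sum, Finset.mul_sum, Finset.mul_sum]
      refine Finset.sum_congr rfl fun i _ => ?_
      ring)
    (fun a b b' => by
      ext ι
      simp only [F2_apply, lp.coeFn_add, Pi.add_apply, Ff]
      rw [← mul_add, ← Finset.sum_add_distrib]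
      congr 1
      refine Finset.sum_congr rfl fun i _ => ?_
      ring)
    (fun c a b => by
      ext ι
      simp only [F2_apply, lp.coeFn_smul, Pi.smul_apply, Ff, smul_eq_mul]
      rw [Finset.mul_sum, Finset.mul_sum, Finset.mul_sum]
      refine Finset.sum_congr rfl fun i _ => ?_
      ring)

lemma FL_apply (a b : AA) (ι : I) : FL a b ι = Ff a b ι := rfl

/-- a unit vector -/
noncomputable def h0 : HH := lp.single 2 (⟨0, 0⟩ : I) (1 : ℂ)

lemma h0_norm : ‖h0‖ = 1 := by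
  rw [h0, lp.norm_single (by norm_num)]
  simp

/-- the bilinear map into the operators of rank one -/
noncomputable def Φ : AA →ₗ[ℂ] AA →ₗ[ℂ] (HH →L[ℂ] HH) :=
  LinearMap.mk₂ ℂ (fun a b => (innerSL ℂ h0).smulRight (FL a b))
    (fun a a' b => by ext x : 1; simp [smul_add])
    (fun c a b => by
      ext x : 1
      simp only [ContinuousLinearMap.smulRight_apply, map_smul, LinearMap.smul_apply,
        _root_.smul_apply]
      rw [smul_comm])
    (fun a b b' => by ext x : 1; simp [smul_add])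
    (fun c a b => by
      ext x : 1
      simp only [ContinuousLinearMap.smulRight_apply, map_smul, LinearMap.smul_apply,
        _root_.smul_apply]
      rw [smul_comm])

lemma Φ_apply (a b : AA) (x : HH) : Φ a b x = ⟪h0, x⟫_ℂ • FL a b := rfl

section est2

attribute [local instance] CStarAlgebra.spectralOrder CStarAlgebra.spectralOrderedRing

lemma jcb {n m : ℕ} (a : CStarMatrix (Fin n) (Fin n) AA)
    (b : CStarMatrix (Fin m) (Fin m) AA) (x : Fin n × Fin m → HH) :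
    ∑ P : Fin n × Fin m, ‖∑ Q : Fin n × Fin m, Φ (a P.1 Q.1) (b P.2 Q.2) (x Q)‖ ^ 2
      ≤ (2 * ‖a‖ * ‖b‖) ^ 2 * ∑ Q : Fin n × Fin m, ‖x Q‖ ^ 2 := by
  set y : Fin n × Fin m → ℂ := fun Q => ⟪h0, x Q⟫_ℂ with hy
  set G : Fin n × Fin m → HH := fun P => ∑ Q : Fin n × Fin m, Φ (a P.1 Q.1) (b P.2 Q.2) (x Q)
    with hG
  have hGι : ∀ P ι, G P ι = ∑ Q : Fin n × Fin m, y Q * Ff (a P.1 Q.1) (b P.2 Q.2) ι := by
    intro P ι
    simp only [hG]
    rw [lp.coeFn_sum, Finset.sum_apply]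
    refine Finset.sum_congr rfl fun Q _ => ?_
    rw [Φ_apply, lp.coeFn_smul, Pi.smul_apply, FL_apply, smul_eq_mul]
  have hnorm : ∀ P, ‖G P‖ ^ 2 = ∑' ι : I, ‖G P ι‖ ^ 2 := by
    intro P
    have := lp.norm_rpow_eq_tsum (p := 2) (by norm_num) (G P)
    have h2 : (2 : ℝ≥0∞).toReal = 2 := by norm_num
    rw [h2] at this
    simpa only [Real.rpow_two] using this
  have hsum : ∀ P, Summable fun ι : I => ‖G P ι‖ ^ 2 := by
    intro P
    have := (lp.memℓp (G P)).summable (p := 2) (by norm_num)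
    have h2 : (2 : ℝ≥0∞).toReal = 2 := by norm_num
    rw [h2] at this
    simpa only [Real.rpow_two] using this
  have hsum' : Summable fun ι : I => ∑ P : Fin n × Fin m, ‖G P ι‖ ^ 2 :=
    summable_sum fun P _ => hsum P
  set E : ℝ := (‖a‖ * ‖b‖) ^ 2 * ∑ Q : Fin n × Fin m, ‖y Q‖ ^ 2 with hE
  have hgeo : HasSum (fun k : ℕ => 2 * (1 / 2 : ℝ) ^ k * E) (4 * E) := by
    have := (hasSum_geometric_of_lt_one (r := (1 / 2 : ℝ)) (by norm_num) (by norm_num)).mul_left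
      (2 * E)
    have e1 : (fun k : ℕ => 2 * (1 / 2 : ℝ) ^ k * E) = fun k => 2 * E * (1 / 2) ^ k := by
      ext k; ring
    have e2 : 4 * E = 2 * E * (1 - 1 / 2)⁻¹ := by
      rw [show ((1 : ℝ) - 1 / 2)⁻¹ = 2 by norm_num]; ring
    rw [e1, e2]
    exact this
  have hmain : ∑ P : Fin n × Fin m, ‖G P‖ ^ 2 ≤ 4 * E := by
    simp_rw [hnorm]
    rw [← Summable.tsum_finsetSum (fun P _ => hsum P)]
    rw [Summable.tsum_sigma' (fun k => (hasSum_fintype _).summable) hsum']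
    rw [← hgeo.tsum_eq]
    refine Summable.tsum_le_tsum (fun k => ?_) hsum'.sigma hgeo.summable
    rw [tsum_fintype]
    have := est_gen a b y k
    simp_rw [hGι]
    exact this
  refine hmain.trans ?_
  have hyx : ∑ Q : Fin n × Fin m, ‖y Q‖ ^ 2 ≤ ∑ Q : Fin n × Fin m, ‖x Q‖ ^ 2 := by
    refine Finset.sum_le_sum fun Q _ => ?_
    have : ‖y Q‖ ≤ ‖x Q‖ := by
      calc ‖y Q‖ ≤ ‖h0‖ * ‖x Q‖ := norm_inner_le_norm _ _
        _ = ‖x Q‖ := by rw [h0_norm, one_mul]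
    gcongr
  calc 4 * E ≤ 4 * ((‖a‖ * ‖b‖) ^ 2 * ∑ Q : Fin n × Fin m, ‖x Q‖ ^ 2) := by
        rw [hE]; gcongr
    _ = (2 * ‖a‖ * ‖b‖) ^ 2 * ∑ Q : Fin n × Fin m, ‖x Q‖ ^ 2 := by ring

end est2

end Pool.Agent.Q198.Blecher
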