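import Mathlib

set_option autoImplicit false

/-!
# Helpers on the real Banach space `c_0 = C₀(ℕ, ℝ)`
-/

namespace Pool.Agent.Q198.C0

open Filter Topology ZeroAtInfty

lemma abs_le (u : C₀(ℕ, ℝ)) (n : ℕ) : |u n| ≤ ‖u‖ := by
  have := u.toBCF.norm_coe_le_norm n
  simpa using this

lemma norm_le (u : C₀(ℕ, ℝ)) {C : ℝ} (hC : 0 ≤ C) (h : ∀ n, |u n| ≤ C) : ‖u‖ ≤ C := by
  have : ‖u.toBCF‖ ≤ C := (BoundedContinuousFunction.norm_le hC).2 fun n => by
    rw [Real.norm_eq_abs]; exact h n
  simpa using this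

lemma tendsto (u : C₀(ℕ, ℝ)) : Tendsto (fun n => u n) atTop (𝓝 0) := by
  have h := u.zero_at_infty'
  rw [cocompact_eq_cofinite, Nat.cofinite_eq_atTop] at h
  exact h

/-- Evaluation functionals. -/
noncomputable def ev (n : ℕ) : C₀(ℕ, ℝ) →L[ℝ] ℝ :=
  LinearMap.mkContinuous
    { toFun := fun u => u n
      map_add' := fun _ _ => rfl
      map_smul' := fun _ _ => rfl } 1 (fun u => by
    rw [one_mul]; exact abs_le u n)

lemma ev_apply (n : ℕ) (u : C₀(ℕ, ℝ)) : ev n u = u n := rfl

/-- A null sequence as an element of `c_0`. -/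
noncomputable def mk (a : ℕ → ℝ) (ha : Tendsto a atTop (𝓝 0)) : C₀(ℕ, ℝ) where
  toFun := a
  continuous_toFun := continuous_of_discreteTopology
  zero_at_infty' := by
    rw [cocompact_eq_cofinite, Nat.cofinite_eq_atTop]; exact ha

lemma mk_apply (a : ℕ → ℝ) (ha : Tendsto a atTop (𝓝 0)) (n : ℕ) : mk a ha n = a n := rfl

/-- A finitely supported element of `c_0`. -/
noncomputable def fin (F : Finset ℕ) (a : ℕ → ℝ) : C₀(ℕ, ℝ) where
  toFun n := if n ∈ F then a n else 0
  continuous_toFun := continuous_of_discreteTopology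
  zero_at_infty' := by
    rw [cocompact_eq_cofinite]
    refine tendsto_const_nhds.congr' ?_
    have : {n : ℕ | n ∉ F} ∈ (cofinite : Filter ℕ) := by
      rw [mem_cofinite]
      refine F.finite_toSet.subset ?_
      intro n hn
      simpa using hn
    filter_upwards [this] with n hn
    rw [if_neg hn]

lemma fin_apply (F : Finset ℕ) (a : ℕ → ℝ) (n : ℕ) : fin F a n = if n ∈ F then a n else 0 := rfl

/-- Unit vectors. -/
noncomputable def e (n : ℕ) : C₀(ℕ, ℝ) := fin {n} (fun _ => 1)

lemma e_apply (n m : ℕ) : e n m = if m = n then 1 else 0 := by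
  rw [e, fin_apply]; simp

lemma sum_apply (F : Finset ℕ) (a : ℕ → ℝ) (m : ℕ) :
    (∑ n ∈ F, a n • e n) m = if m ∈ F then a m else 0 := by
  have h : (∑ n ∈ F, a n • e n) m = ∑ n ∈ F, a n * (if m = n then 1 else 0) := by
    have h1 := map_sum (ev m) (fun n => a n • e n) F
    rw [ev_apply] at h1
    rw [h1]
    refine Finset.sum_congr rfl fun n _ => ?_
    rw [map_smul, ev_apply, e_apply, smul_eq_mul]
  rw [h]; simp

lemma norm_e (n : ℕ) : ‖e n‖ = 1 := by
  apply le_antisymm
  · refine norm_le _ zero_le_one fun m => ?_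
    rw [e_apply]; split_ifs <;> simp
  · have := abs_le (e n) n
    rw [e_apply] at this
    simpa using this

end Pool.Agent.Q198.C0
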