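import Mathlib

set_option autoImplicit false

open Finset Filter Topology

namespace Pool.Agent.Q198.CB

/-- `v` is the sum of the `a i • x i` along the family `𝒟` of finite sets. -/
def SumTo {I E : Type} [NormedAddCommGroup E] [NormedSpace ℝ E] (𝒟 : Set (Finset I)) (x : I → E)
    (a : I → ℝ) (v : E) : Prop :=
  ∀ ε : ℝ, 0 < ε → ∃ d ∈ 𝒟, ∀ d' ∈ 𝒟, d ⊆ d' → ‖v - ∑ i ∈ d', a i • x i‖ < ε

/-- The abstract data. -/
structure Data (F : Type) [NormedAddCommGroup F] [NormedSpace ℝ F] (K Q J : Type) where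
  X : Q → F
  y : K → F
  κ : K → Q × Q
  α : J → K → ℚ
  z : J → F
  φ : F →L[ℝ] ℝ
  B : ℝ
  φ_le : ∀ f, |φ f| ≤ ‖f‖
  φ_y : ∀ i, φ (y i) = 1
  φ_X : ∀ a, φ (X a) = 1
  y_le : ∀ i, ‖y i‖ ≤ B
  X_indep : ∀ a b, a ≠ b → ∀ r s : ℝ, r • X a + s • X b = 0 → r = 0 ∧ s = 0
  indep : ∀ β : K → ℝ, Summable (fun i => |β i|) → ∑' i, β i • y i = 0 → β = 0
  decomp : ∀ f : F, ∃ (β : K → ℝ) (c : J →₀ ℝ), Summable (fun i => |β i|) ∧
    f = ∑' i, β i • y i + c.sum fun j r => r • z j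
  indep2 : ∀ (β : K → ℝ) (c : J →₀ ℝ), Summable (fun i => |β i|) →
    ∑' i, β i • y i + c.sum (fun j r => r • z j) = 0 → c = 0
  err : ∀ j, Summable fun i =>
    (1 + |(α j i : ℝ)|) * ‖y i - (1 / 2 : ℝ) • (X (κ i).1 + X (κ i).2)‖
  err0 : Summable fun i => ‖y i - (1 / 2 : ℝ) • (X (κ i).1 + X (κ i).2)‖
  rich : ∀ (J0 : Finset J) (c : J → ℚ) (k : Q × Q), {i | κ i = k ∧ ∀ j ∈ J0, α j i = c j}.Infinite
  dense : ∀ (f : F) (ε : ℝ), 0 < ε → ∃ (S : Finset (Q × Q)) (q : Q × Q → ℚ),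
    ‖f - ∑ k ∈ S, (q k : ℝ) • ((1 / 2 : ℝ) • (X k.1 + X k.2))‖ < ε

/-- Distinct choices from infinite sets, avoiding a finite set. -/
lemma exists_choice {τ K : Type} (T : Finset τ) (S : τ → Set K) (hS : ∀ t, (S t).Infinite)
    (D : Finset K) : ∃ g : τ → K, (∀ t ∈ T, g t ∈ S t ∧ g t ∉ D) ∧ Set.InjOn g T := by
  classical
  induction T using Finset.induction_on with
  | empty =>
    rcases isEmpty_or_nonempty τ with h | h
    · exact ⟨fun t => (h.false t).elim, by simp, by simp⟩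
    · obtain ⟨i, -⟩ := (hS h.some).nonempty
      exact ⟨fun _ => i, by simp, by simp⟩
  | insert t T ht ih =>
    obtain ⟨g, hg, hinj⟩ := ih
    obtain ⟨i, hi, hiD⟩ := (hS t).exists_notMem_finset (D ∪ T.image g)
    rw [mem_union, not_or] at hiD
    refine ⟨Function.update g t i, ?_, ?_⟩
    · intro s hs
      by_cases hst : s = t
      · subst hst
        simp [hi, hiD.1]
      · rw [Function.update_of_ne hst]
        exact hg s (by simpa [hst] using hs)
    · intro s hs s' hs' he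
      rw [coe_insert, Set.mem_insert_iff] at hs hs'
      by_cases h1 : s = t
      · by_cases h2 : s' = t
        · rw [h1, h2]
        · exfalso
          have h3 : s' ∈ T := by simpa [h2] using hs'
          rw [h1, Function.update_self, Function.update_of_ne h2] at he
          exact hiD.2 (mem_image.2 ⟨s', h3, he.symm⟩)
      · by_cases h2 : s' = t
        · exfalso
          have h3 : s ∈ T := by simpa [h1] using hs
          rw [h2, Function.update_self, Function.update_of_ne h1] at he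
          exact hiD.2 (mem_image.2 ⟨s, h3, he⟩)
        · rw [Function.update_of_ne h1, Function.update_of_ne h2] at he
          exact hinj (by simpa [h1] using hs) (by simpa [h2] using hs') he

/-- Bounded functions on an infinite set have a cluster value. -/
lemma exists_cluster {K : Type} (S : Set K) (hS : S.Infinite) (f : K → ℝ) (M : ℝ)
    (hM : ∀ i ∈ S, |f i| ≤ M) : ∃ C : ℝ, ∀ δ : ℝ, 0 < δ → {i | i ∈ S ∧ |f i - C| < δ}.Infinite := by
  by_contra hcon
  push Not at hcon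
  choose δ hδ hfin using hcon
  have hK : IsCompact (Set.Icc (-M) M) := isCompact_Icc
  obtain ⟨t, -, ht⟩ := hK.elim_nhds_subcover (fun C => Metric.ball C (δ C))
    (fun C _ => Metric.ball_mem_nhds C (hδ C))
  apply hS
  have : S ⊆ ⋃ C ∈ t, {i | i ∈ S ∧ |f i - C| < δ C} := by
    intro i hi
    have h1 : f i ∈ Set.Icc (-M) M := abs_le.1 (hM i hi)
    have h2 := ht h1
    simp only [Set.mem_iUnion] at h2 ⊢
    obtain ⟨C, hC, h3⟩ := h2
    exact ⟨C, hC, hi, by rwa [Metric.mem_ball, Real.dist_eq] at h3⟩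
  refine Set.Finite.subset (Set.Finite.biUnion t.finite_toSet fun C _ => ?_) this
  exact hfin C

/-- Tails of a summable nonnegative family. -/
lemma exists_tail {K : Type} (f : K → ℝ) (hf : Summable f) (h0 : ∀ i, 0 ≤ f i) (ε : ℝ)
    (hε : 0 < ε) : ∃ D : Finset K, ∀ A : Finset K, Disjoint A D → ∑ i ∈ A, f i < ε := by
  obtain ⟨D, hD⟩ := summable_iff_vanishing_norm.1 hf ε hε
  refine ⟨D, fun A hA => ?_⟩
  have := hD A hA
  rwa [Real.norm_of_nonneg (sum_nonneg fun i _ => h0 i)] at this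

section

variable {F : Type} [NormedAddCommGroup F] [NormedSpace ℝ F] {K Q J : Type} (P : Data F K Q J)

/-- the vectors `v_k` -/
noncomputable def v (k : Q × Q) : F := (1 / 2 : ℝ) • (P.X k.1 + P.X k.2)

/-- partial sums of the expansion of `z_j` -/
noncomputable def A (j : J) (d : Finset K) : F := ∑ i ∈ d, (P.α j i : ℝ) • P.y i

lemma φ_v (k : Q × Q) : P.φ (v P k) = 1 := by
  rw [v, map_smul, map_add, P.φ_X, P.φ_X, smul_eq_mul]; norm_num

lemma v_norm (k : Q × Q) : 1 ≤ ‖v P k‖ := by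
  have h := P.φ_le (v P k)
  rwa [φ_v, abs_one] at h

/-- Simultaneous approximation. -/
lemma approx (d0 : Finset K) (J0 : Finset J) (ε : ℝ) (hε : 0 < ε) :
    ∃ d : Finset K, d0 ⊆ d ∧ ∀ j ∈ J0, ‖A P j d - P.z j‖ < ε := by
  classical
  have h1 : ∀ j, ∃ (S : Finset (Q × Q)) (q : Q × Q → ℚ),
      ‖(P.z j - A P j d0) - ∑ k ∈ S, (q k : ℝ) • v P k‖ < ε / 2 := fun j =>
    P.dense _ _ (by linarith)
  choose S q hq using h1
  set U : Finset (Q × Q) := J0.biUnion S with hU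
  let q' : J → Q × Q → ℚ := fun j k => if k ∈ S j then q j k else 0
  have hsum : ∀ j ∈ J0, ∑ k ∈ S j, (q j k : ℝ) • v P k = ∑ k ∈ U, (q' j k : ℝ) • v P k := by
    intro j hj
    have hsub : S j ⊆ U := fun k hk => mem_biUnion.2 ⟨j, hj, hk⟩
    rw [← sum_subset hsub]
    · refine sum_congr rfl fun k hk => ?_
      simp only [q', if_pos hk]
    · intro k _ hk
      simp only [q', if_neg hk, Rat.cast_zero, zero_smul]
  -- tails
  have h2 : ∀ j, ∃ D : Finset K, ∀ A : Finset K, Disjoint A D →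
      ∑ i ∈ A, (1 + |(P.α j i : ℝ)|) * ‖P.y i - v P (P.κ i)‖ < ε / 2 := fun j =>
    exists_tail _ (P.err j) (fun i => by positivity) _ (by linarith)
  choose D hD using h2
  obtain ⟨g, hg, hinj⟩ := exists_choice U (fun k => {i | P.κ i = k ∧ ∀ j ∈ J0, P.α j i = q' j k})
    (fun k => P.rich J0 (fun j => q' j k) k) (d0 ∪ J0.biUnion D)
  have hdisj0 : Disjoint d0 (U.image g) := by
    rw [disjoint_left]
    intro i hi hi'
    obtain ⟨k, hk, rfl⟩ := mem_image.1 hi'
    exact (hg k hk).2 (mem_union_left _ hi)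
  refine ⟨d0 ∪ U.image g, subset_union_left, fun j hj => ?_⟩
  have h3 : A P j (d0 ∪ U.image g) = A P j d0 + ∑ i ∈ U.image g, (P.α j i : ℝ) • P.y i := by
    rw [A, sum_union hdisj0]; rfl
  have h4 : ∑ i ∈ U.image g, (P.α j i : ℝ) • v P (P.κ i) = ∑ k ∈ U, (q' j k : ℝ) • v P k := by
    rw [sum_image hinj]
    refine sum_congr rfl fun k hk => ?_
    rw [(hg k hk).1.1, (hg k hk).1.2 j hj]
  have h5 : ‖∑ i ∈ U.image g, (P.α j i : ℝ) • P.y i - ∑ k ∈ U, (q' j k : ℝ) • v P k‖ < ε / 2 := by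
    rw [← h4, ← sum_sub_distrib]
    refine lt_of_le_of_lt (norm_sum_le _ _) (lt_of_le_of_lt (sum_le_sum fun i _ => ?_)
      (hD j (U.image g) ?_))
    · rw [← smul_sub, norm_smul, Real.norm_eq_abs]
      exact mul_le_mul_of_nonneg_right (by linarith) (norm_nonneg _)
    · rw [disjoint_left]
      intro i hi hi'
      obtain ⟨k, hk, rfl⟩ := mem_image.1 hi
      exact (hg k hk).2 (mem_union_right _ (mem_biUnion.2 ⟨j, hj, hi'⟩))
  have h6 := hq j
  rw [hsum j hj] at h6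
  calc ‖A P j (d0 ∪ U.image g) - P.z j‖
      = ‖(∑ i ∈ U.image g, (P.α j i : ℝ) • P.y i - ∑ k ∈ U, (q' j k : ℝ) • v P k)
        - ((P.z j - A P j d0) - ∑ k ∈ U, (q' j k : ℝ) • v P k)‖ := by
        rw [h3]; congr 1; abel
    _ ≤ _ := norm_sub_le _ _
    _ < ε / 2 + ε / 2 := add_lt_add h5 h6
    _ = ε := by ring

end

end Pool.Agent.Q198.CB
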