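import Pool.Agent.Q198.CB1

set_option autoImplicit false

open Finset Filter Topology
open scoped ENNReal Classical

namespace Pool.Agent.Q198.CB

variable {F : Type} [NormedAddCommGroup F] [NormedSpace ℝ F] {K Q J : Type} (P : Data F K Q J)

/-- the `ℓ₁` part -/
abbrev L1 (J : Type) := lp (fun _ : J × ℕ => ℝ) 1

/-- markers -/
noncomputable def mk (m : J × ℕ) : L1 J := lp.single (E := fun _ : J × ℕ => ℝ) 1 m (1 : ℝ)

lemma mk_apply (m m' : J × ℕ) : (mk m : ∀ _ : J × ℕ, ℝ) m' = if m' = m then 1 else 0 := by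
  change Pi.single (M := fun _ : J × ℕ => ℝ) m (1 : ℝ) m' = _
  rw [Pi.single_apply]

/-- the basis vectors -/
noncomputable def xv : K ⊕ (J × ℕ) → F × L1 J :=
  Sum.elim (fun i => (P.y i, 0)) (fun m => (0, mk m))

/-- the directed family -/
def Fam : Set (Finset (K ⊕ (J × ℕ))) :=
  {d | ∀ m ∈ d.toRight, ‖A P m.1 d.toLeft - P.z m.1‖ < 1 / ((m.2 : ℝ) + 2)}

lemma cofinal (d0 : Finset (K ⊕ (J × ℕ))) : ∃ d ∈ Fam P, d0 ⊆ d := by
  obtain ⟨N, hN⟩ : ∃ N : ℕ, ∀ m ∈ d0.toRight, m.2 ≤ N :=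
    ⟨d0.toRight.sup Prod.snd, fun m hm => le_sup (f := Prod.snd) hm⟩
  obtain ⟨d, hd, hd'⟩ := approx P d0.toLeft (d0.toRight.image Prod.fst) (1 / ((N : ℝ) + 2))
    (by positivity)
  refine ⟨d.disjSum d0.toRight, ?_, ?_⟩
  · intro m hm
    rw [toRight_disjSum] at hm
    rw [toLeft_disjSum]
    refine lt_of_lt_of_le (hd' m.1 (mem_image_of_mem _ hm)) ?_
    apply one_div_le_one_div_of_le (by positivity)
    have : (m.2 : ℝ) ≤ N := by exact_mod_cast hN m hm
    linarith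
  · conv_lhs => rw [← toLeft_disjSum_toRight (u := d0)]
    exact disjSum_mono hd subset_rfl

lemma sum_xv (a : K ⊕ (J × ℕ) → ℝ) (d : Finset (K ⊕ (J × ℕ))) :
    ∑ i ∈ d, a i • xv P i
      = (∑ i ∈ d.toLeft, a (Sum.inl i) • P.y i, ∑ m ∈ d.toRight, a (Sum.inr m) • mk m) := by
  conv_lhs => rw [← toLeft_disjSum_toRight (u := d)]
  rw [sum_disjSum]
  have h1 : ∑ i ∈ d.toLeft, a (Sum.inl i) • xv P (Sum.inl i)
      = ((∑ i ∈ d.toLeft, a (Sum.inl i) • P.y i, 0) : F × L1 J) := by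
    rw [Prod.ext_iff]
    constructor
    · rw [Prod.fst_sum]
      exact sum_congr rfl fun i _ => rfl
    · rw [Prod.snd_sum]
      exact sum_eq_zero fun i _ => smul_zero _
  have h2 : ∑ m ∈ d.toRight, a (Sum.inr m) • xv P (Sum.inr m)
      = ((0, ∑ m ∈ d.toRight, a (Sum.inr m) • mk m) : F × L1 J) := by
    rw [Prod.ext_iff]
    constructor
    · rw [Prod.fst_sum]
      exact sum_eq_zero fun i _ => smul_zero _
    · rw [Prod.snd_sum]
      exact sum_congr rfl fun i _ => rfl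
  rw [h1, h2, Prod.mk_add_mk, add_zero, zero_add]

section sumto

variable {I E : Type} [NormedAddCommGroup E] [NormedSpace ℝ E] {𝒟 : Set (Finset I)}
  (hco : ∀ d0 : Finset I, ∃ d ∈ 𝒟, d0 ⊆ d) {x : I → E}

include hco in
lemma SumTo.add {a a' : I → ℝ} {v v' : E} (h : SumTo 𝒟 x a v) (h' : SumTo 𝒟 x a' v') :
    SumTo 𝒟 x (fun i => a i + a' i) (v + v') := by
  intro ε hε
  obtain ⟨d, hd, hd'⟩ := h (ε / 2) (by linarith)
  obtain ⟨e, he, he'⟩ := h' (ε / 2) (by linarith)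
  obtain ⟨g, hg, hg'⟩ := hco (d ∪ e)
  refine ⟨g, hg, fun d'' hd'' hsub => ?_⟩
  have h1 := hd' d'' hd'' ((subset_union_left.trans hg').trans hsub)
  have h2 := he' d'' hd'' ((subset_union_right.trans hg').trans hsub)
  have h3 : v + v' - ∑ i ∈ d'', (a i + a' i) • x i
      = (v - ∑ i ∈ d'', a i • x i) + (v' - ∑ i ∈ d'', a' i • x i) := by
    simp only [add_smul, sum_add_distrib]
    abel
  rw [h3]
  exact (norm_add_le _ _).trans_lt (by linarith)

lemma SumTo.smul (r : ℝ) {a : I → ℝ} {v : E} (h : SumTo 𝒟 x a v) :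
    SumTo 𝒟 x (fun i => r * a i) (r • v) := by
  intro ε hε
  obtain ⟨d, hd, hd'⟩ := h (ε / (|r| + 1)) (by positivity)
  refine ⟨d, hd, fun d'' hd'' hsub => ?_⟩
  have h1 := hd' d'' hd'' hsub
  have h3 : r • v - ∑ i ∈ d'', (r * a i) • x i = r • (v - ∑ i ∈ d'', a i • x i) := by
    rw [smul_sub, smul_sum]
    simp only [mul_smul]
  rw [h3, norm_smul, Real.norm_eq_abs]
  have h4 : (0 : ℝ) < |r| + 1 := by positivity
  rw [lt_div_iff₀ h4] at h1
  have := norm_nonneg (v - ∑ i ∈ d'', a i • x i)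
  nlinarith [abs_nonneg r]

end sumto

/-- Existence of expansions. -/
lemma exists_expansion [CompleteSpace F] (v : F × L1 J) : ∃ a, SumTo (Fam P) (xv P) a v := by
  obtain ⟨f, lam⟩ := v
  obtain ⟨β, c, hβ, hf⟩ := P.decomp f
  have hβs : Summable fun i => β i • P.y i := by
    refine Summable.of_norm_bounded (hβ.mul_right P.B) fun i => ?_
    rw [norm_smul, Real.norm_eq_abs]
    exact mul_le_mul_of_nonneg_left (P.y_le i) (abs_nonneg _)
  refine ⟨Sum.elim (fun i => β i + ∑ j ∈ c.support, c j * (P.α j i : ℝ))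
    (fun m => (lam : ∀ _ : J × ℕ, ℝ) m), ?_⟩
  intro ε hε
  have h1 : ∃ D1 : Finset K, ∀ D : Finset K, D1 ⊆ D →
      ‖∑ i ∈ D, β i • P.y i - ∑' i, β i • P.y i‖ < ε / 2 := by
    have := (Metric.tendsto_atTop.1 hβs.hasSum) (ε / 2) (by linarith)
    obtain ⟨D1, hD1⟩ := this
    exact ⟨D1, fun D hD => by rw [← dist_eq_norm]; exact hD1 D hD⟩
  obtain ⟨D1, hD1⟩ := h1
  have h2 : ∃ D2 : Finset (J × ℕ), ∀ D : Finset (J × ℕ), D2 ⊆ D →
      ‖∑ m ∈ D, (lam : ∀ _ : J × ℕ, ℝ) m • mk m - lam‖ < ε := by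
    have h3 := lp.hasSum_single (E := fun _ : J × ℕ => ℝ) (p := 1) ENNReal.one_ne_top lam
    obtain ⟨D2, hD2⟩ := (Metric.tendsto_atTop.1 h3) ε hε
    refine ⟨D2, fun D hD => ?_⟩
    have h4 := hD2 D hD
    rw [dist_eq_norm] at h4
    have e : ∀ m : J × ℕ, (lam : ∀ _ : J × ℕ, ℝ) m • (mk m : L1 J)
        = lp.single (E := fun _ : J × ℕ => ℝ) 1 m ((lam : ∀ _ : J × ℕ, ℝ) m) := by
      intro m
      ext m'
      change (lam : ∀ _ : J × ℕ, ℝ) m * (mk m : ∀ _ : J × ℕ, ℝ) m'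
        = Pi.single (M := fun _ : J × ℕ => ℝ) m ((lam : ∀ _ : J × ℕ, ℝ) m) m'
      rw [mk_apply, Pi.single_apply]
      split_ifs <;> simp
    rw [sum_congr rfl fun m _ => e m]
    exact h4
  obtain ⟨D2, hD2⟩ := h2
  set M : ℝ := ∑ j ∈ c.support, |c j| with hM
  have hM0 : 0 ≤ M := sum_nonneg fun _ _ => abs_nonneg _
  obtain ⟨n, hn⟩ := exists_nat_gt (2 * M / ε)
  obtain ⟨d, hd, hdsub⟩ := cofinal P (D1.disjSum (D2 ∪ c.support.image fun j => (j, n)))
  refine ⟨d, hd, fun d' hd' hsub => ?_⟩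
  have hsub' := hdsub.trans hsub
  have hL : D1 ⊆ d'.toLeft := by
    have := toLeft_subset_toLeft hsub'
    rwa [toLeft_disjSum] at this
  have hR : D2 ∪ c.support.image (fun j => (j, n)) ⊆ d'.toRight := by
    have := toRight_subset_toRight hsub'
    rwa [toRight_disjSum] at this
  rw [sum_xv, Prod.mk_sub_mk, Prod.norm_def, max_lt_iff]
  simp only [Sum.elim_inl, Sum.elim_inr]
  constructor
  · have h5 : f - ∑ i ∈ d'.toLeft, (β i + ∑ j ∈ c.support, c j * (P.α j i : ℝ)) • P.y i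
        = (∑' i, β i • P.y i - ∑ i ∈ d'.toLeft, β i • P.y i)
          + ∑ j ∈ c.support, c j • (P.z j - A P j d'.toLeft) := by
      have h6 : ∑ i ∈ d'.toLeft, (β i + ∑ j ∈ c.support, c j * (P.α j i : ℝ)) • P.y i
          = ∑ i ∈ d'.toLeft, β i • P.y i + ∑ j ∈ c.support, c j • A P j d'.toLeft := by
        simp only [add_smul, sum_add_distrib, sum_smul]
        congr 1
        rw [sum_comm]
        refine sum_congr rfl fun j _ => ?_
        rw [A, smul_sum]
        refine sum_congr rfl fun i _ => ?_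
        rw [mul_smul]
      rw [h6, hf]
      simp only [smul_sub, sum_sub_distrib, Finsupp.sum]
      abel
    rw [h5]
    refine (norm_add_le _ _).trans_lt ?_
    have h7 := hD1 _ hL
    rw [norm_sub_rev] at h7
    have h8 : ‖∑ j ∈ c.support, c j • (P.z j - A P j d'.toLeft)‖ ≤ M * (1 / ((n : ℝ) + 2)) := by
      refine (norm_sum_le _ _).trans ?_
      rw [hM, sum_mul]
      refine sum_le_sum fun j hj => ?_
      rw [norm_smul, Real.norm_eq_abs, norm_sub_rev]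
      refine mul_le_mul_of_nonneg_left ?_ (abs_nonneg _)
      have := hd' (j, n) (hR (mem_union_right _ (mem_image_of_mem _ hj)))
      exact this.le
    have h9 : M * (1 / ((n : ℝ) + 2)) ≤ ε / 2 := by
      rw [mul_one_div, div_le_iff₀ (by positivity)]
      rw [div_lt_iff₀ hε] at hn
      nlinarith
    linarith
  · rw [norm_sub_rev]
    exact hD2 _ (subset_union_left.trans hR)

/-- marker coefficients of an expansion of zero -/
lemma marker_zero {a : K ⊕ (J × ℕ) → ℝ} (h : SumTo (Fam P) (xv P) a 0) (m : J × ℕ) :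
    a (Sum.inr m) = 0 := by
  by_contra hne
  obtain ⟨d, hd, hd'⟩ := h |a (Sum.inr m)| (abs_pos.2 hne)
  obtain ⟨g, hg, hg'⟩ := cofinal P (d ∪ {Sum.inr m})
  have h1 := hd' g hg (subset_union_left.trans hg')
  have hm : m ∈ g.toRight := by
    rw [mem_toRight]
    exact hg' (mem_union_right _ (mem_singleton_self _))
  rw [sum_xv, zero_sub, norm_neg] at h1
  have h2 : |a (Sum.inr m)| ≤ ‖∑ m' ∈ g.toRight, a (Sum.inr m') • mk m'‖ := by
    have h3 := lp.norm_apply_le_norm (E := fun _ : J × ℕ => ℝ) (p := 1) one_ne_zero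
      (∑ m' ∈ g.toRight, a (Sum.inr m') • mk m') m
    have h4 : ((∑ m' ∈ g.toRight, a (Sum.inr m') • mk m' : L1 J) : ∀ _ : J × ℕ, ℝ) m
        = a (Sum.inr m) := by
      rw [lp.coeFn_sum, Finset.sum_apply]
      have h5 : ∀ m' ∈ g.toRight, ((a (Sum.inr m') • mk m' : L1 J) : ∀ _ : J × ℕ, ℝ) m
          = if m = m' then a (Sum.inr m') else 0 := by
        intro m' _
        change a (Sum.inr m') * (mk m' : ∀ _ : J × ℕ, ℝ) m = _
        rw [mk_apply]
        split_ifs <;> simp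
      rw [sum_congr rfl h5, sum_ite_eq, if_pos hm]
    rw [h4] at h3
    exact h3
  have h3 := h2.trans (norm_snd_le (∑ i ∈ g.toLeft, a (Sum.inl i) • P.y i,
    ∑ m' ∈ g.toRight, a (Sum.inr m') • mk m'))
  exact absurd h1 (not_lt.2 h3)

end Pool.Agent.Q198.CB
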