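import Pool.Agent.Q198.CB2

set_option autoImplicit false

open Finset Filter Topology
open scoped ENNReal Classical

namespace Pool.Agent.Q198.CB

variable {F : Type} [NormedAddCommGroup F] [NormedSpace ℝ F] {K Q J : Type} (P : Data F K Q J)

/-- indices of a given type -/
def Ty (J0 : Finset J) (τ : (Q × Q) × (J → ℚ)) : Set K :=
  {i | P.κ i = τ.1 ∧ ∀ j ∈ J0, P.α j i = τ.2 j}

lemma Ty_inf (J0 : Finset J) (τ : (Q × Q) × (J → ℚ)) : (Ty P J0 τ).Infinite :=
  P.rich J0 τ.2 τ.1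

def Star (J0 : Finset J) (D : Finset K) (g : K → ℝ) : Prop :=
  ∀ A : Finset K, Disjoint A D → (∀ j ∈ J0, ∑ i ∈ A, (P.α j i : ℝ) • v P (P.κ i) = 0) →
    ‖∑ i ∈ A, g i • P.y i‖ ≤ 2

lemma exists_pos_le {ι : Type} (S : Finset ι) (s : ι → ℝ) (hs : ∀ m ∈ S, 0 < s m) :
    ∃ η : ℝ, 0 < η ∧ ∀ m ∈ S, η ≤ s m := by
  induction S using Finset.induction_on with
  | empty => exact ⟨1, one_pos, by simp⟩
  | insert a S ha ih =>
    obtain ⟨η, hη, hη'⟩ := ih fun m hm => hs m (mem_insert_of_mem hm)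
    refine ⟨min η (s a), lt_min hη (hs a (mem_insert_self _ _)), fun m hm => ?_⟩
    rcases mem_insert.1 hm with rfl | hm
    · exact min_le_right _ _
    · exact (min_le_left _ _).trans (hη' m hm)

lemma fst_lt {a : K ⊕ (J × ℕ) → ℝ} {d : Finset (K ⊕ (J × ℕ))} {ε : ℝ}
    (h : ‖(0 : F × L1 J) - ∑ i ∈ d, a i • xv P i‖ < ε) :
    ‖∑ i ∈ d.toLeft, a (Sum.inl i) • P.y i‖ < ε := by
  rw [sum_xv, zero_sub, norm_neg] at h
  exact (norm_fst_le _).trans_lt h

lemma star_of {γ : K ⊕ (J × ℕ) → ℝ} (h : SumTo (Fam P) (xv P) γ 0) :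
    ∃ (J0 : Finset J) (D : Finset K), Star P J0 D fun i => γ (Sum.inl i) := by
  obtain ⟨d1, hd1, hd1'⟩ := h 1 one_pos
  obtain ⟨η, hη, hη'⟩ := exists_pos_le d1.toRight
    (fun m => 1 / ((m.2 : ℝ) + 2) - ‖A P m.1 d1.toLeft - P.z m.1‖)
    (fun m hm => sub_pos.2 (hd1 m hm))
  have h2 : ∀ j, ∃ D : Finset K, ∀ A : Finset K, Disjoint A D →
      ∑ i ∈ A, (1 + |(P.α j i : ℝ)|) * ‖P.y i - v P (P.κ i)‖ < η := fun j =>
    exists_tail _ (P.err j) (fun i => by positivity) _ hη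
  choose D hD using h2
  set J0 := d1.toRight.image Prod.fst with hJ0
  refine ⟨J0, d1.toLeft ∪ J0.biUnion D, fun A' hA hsum => ?_⟩
  have hAL : Disjoint d1.toLeft A' :=
    (disjoint_left.2 fun i hi hi' => disjoint_left.1 hA hi' (mem_union_left _ hi))
  have hsmall : ∀ j ∈ J0, ‖∑ i ∈ A', (P.α j i : ℝ) • P.y i‖ < η := by
    intro j hj
    have h3 : ∑ i ∈ A', (P.α j i : ℝ) • P.y i
        = ∑ i ∈ A', (P.α j i : ℝ) • (P.y i - v P (P.κ i)) := by
      simp only [smul_sub, sum_sub_distrib]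
      rw [hsum j hj, sub_zero]
    rw [h3]
    refine lt_of_le_of_lt (norm_sum_le _ _) (lt_of_le_of_lt (sum_le_sum fun i _ => ?_)
      (hD j A' ?_))
    · rw [norm_smul, Real.norm_eq_abs]
      exact mul_le_mul_of_nonneg_right (by linarith) (norm_nonneg _)
    · rw [disjoint_left]
      intro i hi hi'
      exact disjoint_left.1 hA hi (mem_union_right _ (mem_biUnion.2 ⟨j, hj, hi'⟩))
  set d' : Finset (K ⊕ (J × ℕ)) := (d1.toLeft ∪ A').disjSum d1.toRight with hd'
  have hd'F : d' ∈ Fam P := by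
    intro m hm
    rw [hd', toRight_disjSum] at hm
    rw [hd', toLeft_disjSum]
    have h3 := hη' m hm
    have h4 := hsmall m.1 (mem_image_of_mem _ hm)
    have h5 : A P m.1 (d1.toLeft ∪ A') = A P m.1 d1.toLeft + ∑ i ∈ A', (P.α m.1 i : ℝ) • P.y i := by
      rw [A, sum_union hAL]; rfl
    have h6 : A P m.1 (d1.toLeft ∪ A') - P.z m.1
        = (A P m.1 d1.toLeft - P.z m.1) + ∑ i ∈ A', (P.α m.1 i : ℝ) • P.y i := by
      rw [h5]; abel
    rw [h6]
    exact (norm_add_le _ _).trans_lt (by linarith)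
  have hsub : d1 ⊆ d' := by
    conv_lhs => rw [← toLeft_disjSum_toRight (u := d1)]
    exact disjSum_mono subset_union_left subset_rfl
  have h7 := fst_lt P (hd1' d1 hd1 subset_rfl)
  have h8 := fst_lt P (hd1' d' hd'F hsub)
  rw [hd', toLeft_disjSum, sum_union hAL] at h8
  have h9 : ∑ i ∈ A', γ (Sum.inl i) • P.y i
      = (∑ i ∈ d1.toLeft, γ (Sum.inl i) • P.y i + ∑ i ∈ A', γ (Sum.inl i) • P.y i)
        - ∑ i ∈ d1.toLeft, γ (Sum.inl i) • P.y i := by abel
  rw [h9]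
  exact (norm_sub_le _ _).trans (by linarith)

lemma phi_sum (A' : Finset K) (g : K → ℝ) : P.φ (∑ i ∈ A', g i • P.y i) = ∑ i ∈ A', g i := by
  rw [map_sum]
  refine sum_congr rfl fun i _ => ?_
  rw [map_smul, P.φ_y, smul_eq_mul, mul_one]

variable {P} {J0 : Finset J} {D : Finset K} {g : K → ℝ}

lemma Star.abs_le (hS : Star P J0 D g) (A' : Finset K) (hA : Disjoint A' D)
    (h : ∀ j ∈ J0, ∑ i ∈ A', (P.α j i : ℝ) • v P (P.κ i) = 0) : |∑ i ∈ A', g i| ≤ 2 := by
  rw [← phi_sum P A' g]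
  exact (P.φ_le _).trans (hS A' hA h)

lemma Star.bdd (hS : Star P J0 D g) (τ : (Q × Q) × (J → ℚ)) :
    ∃ M, ∀ i ∈ Ty P J0 τ, i ∉ D → |g i| ≤ M := by
  obtain ⟨i', hi', hi'D⟩ := (Ty_inf P J0 (τ.1, -τ.2)).exists_notMem_finset D
  refine ⟨2 + |g i'|, fun i hi hiD => ?_⟩
  by_cases h : i = i'
  · rw [h]; linarith
  · have h1 := hS.abs_le {i, i'} (by
      rw [disjoint_left]
      intro a ha
      rcases mem_insert.1 ha with rfl | ha
      · exact hiD
      · rw [mem_singleton.1 ha]; exact hi'D) (fun j hj => by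
      rw [sum_pair h, hi.1, hi'.1, hi.2 j hj, hi'.2 j hj, ← add_smul]
      simp)
    rw [sum_pair h] at h1
    have h2 : g i = (g i + g i') - g i' := by ring
    rw [h2]
    exact (abs_sub _ _).trans (by linarith)

lemma Star.cluster (hS : Star P J0 D g) (τ : (Q × Q) × (J → ℚ)) : ∃ C : ℝ, ∀ δ : ℝ, 0 < δ →
    {i | (i ∈ Ty P J0 τ ∧ i ∉ D) ∧ |g i - C| < δ}.Infinite := by
  obtain ⟨M, hM⟩ := hS.bdd τ
  have hinf : (Ty P J0 τ \ (D : Set K)).Infinite := (Ty_inf P J0 τ).sdiff D.finite_toSet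
  exact exists_cluster (Ty P J0 τ \ (D : Set K)) hinf g M fun i hi => hM i hi.1 hi.2

/-- cluster values -/
def IsC (P : Data F K Q J) (J0 : Finset J) (D : Finset K) (g : K → ℝ)
    (C : (Q × Q) × (J → ℚ) → ℝ) : Prop :=
  ∀ τ, ∀ δ : ℝ, 0 < δ → {i | (i ∈ Ty P J0 τ ∧ i ∉ D) ∧ |g i - C τ| < δ}.Infinite

lemma rel (hS : Star P J0 D g) {C : (Q × Q) × (J → ℚ) → ℝ} (hC : IsC P J0 D g C) (r : ℕ)
    (τ : Fin r → (Q × Q) × (J → ℚ))
    (h : ∀ j ∈ J0, ∑ l, (((τ l).2 j : ℚ) : ℝ) • v P (τ l).1 = 0) :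
    ∑ l, C (τ l) • v P (τ l).1 = 0 := by
  set w := ∑ l, C (τ l) • v P (τ l).1 with hw
  have key : ∀ N : ℕ, (N : ℝ) * ‖w‖ ≤ 4 := by
    intro N
    set Cm : ℝ := ∑ l, |C (τ l)| with hCm
    have hCm0 : 0 ≤ Cm := sum_nonneg fun _ _ => abs_nonneg _
    have hCle : ∀ l, |C (τ l)| ≤ Cm := fun l =>
      single_le_sum (f := fun l => |C (τ l)|) (fun _ _ => abs_nonneg _) (mem_univ l)
    obtain ⟨D', hD'⟩ := exists_tail _ P.err0 (fun i => norm_nonneg _) (1 / (Cm + 1)) (by positivity)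
    set B' : ℝ := |P.B| with hB'
    have hyB : ∀ i, ‖P.y i‖ ≤ B' := fun i => (P.y_le i).trans (le_abs_self _)
    have hB'0 : 0 ≤ B' := abs_nonneg _
    set δ : ℝ := 1 / ((r : ℝ) * N * B' + 1) with hδ
    have hδ0 : 0 < δ := by positivity
    obtain ⟨h', hh, hinj⟩ := exists_choice (univ : Finset (Fin r × Fin N))
      (fun p => {i | (i ∈ Ty P J0 (τ p.1) ∧ i ∉ D) ∧ |g i - C (τ p.1)| < δ})
      (fun p => hC (τ p.1) δ hδ0) D'
    set A' : Finset K := univ.image h' with hA'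
    have hsumA : ∀ (f : K → F), ∑ i ∈ A', f i = ∑ p, f (h' p) := by
      intro f
      rw [hA', sum_image hinj]
    have hdisj : Disjoint A' D := by
      rw [disjoint_left]
      intro i hi
      obtain ⟨p, hp, rfl⟩ := mem_image.1 hi
      exact (hh p hp).1.1.2
    have hdisj' : Disjoint A' D' := by
      rw [disjoint_left]
      intro i hi
      obtain ⟨p, hp, rfl⟩ := mem_image.1 hi
      exact (hh p hp).2
    have hprod : ∀ f : Fin r → F, ∑ p : Fin r × Fin N, f p.1 = (N : ℝ) • ∑ l, f l := by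
      intro f
      rw [Fintype.sum_prod_type, smul_sum]
      refine sum_congr rfl fun l _ => ?_
      change ∑ _y : Fin N, f l = _
      rw [sum_const, card_univ, Fintype.card_fin, ← Nat.cast_smul_eq_nsmul ℝ]
    have h1 := hS A' hdisj (fun j hj => by
      rw [hsumA]
      have : ∀ p : Fin r × Fin N, (P.α j (h' p) : ℝ) • v P (P.κ (h' p))
          = (((τ p.1).2 j : ℚ) : ℝ) • v P (τ p.1).1 := by
        intro p
        have := (hh p (mem_univ p)).1.1.1
        rw [this.1, this.2 j hj]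
      rw [sum_congr rfl fun p _ => this p,
        hprod fun l => (((τ l).2 j : ℚ) : ℝ) • v P (τ l).1, h j hj, smul_zero])
    rw [hsumA] at h1
    have h2 : (N : ℝ) • w = ∑ p : Fin r × Fin N, C (τ p.1) • v P (τ p.1).1 := by
      rw [hw, hprod fun l => C (τ l) • v P (τ l).1]
    have h3 : (N : ℝ) • w = ∑ p, g (h' p) • P.y (h' p)
        - ∑ p, ((g (h' p) - C (τ p.1)) • P.y (h' p)
          + C (τ p.1) • (P.y (h' p) - v P (P.κ (h' p)))) := by
      rw [h2, ← sum_sub_distrib]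
      refine sum_congr rfl fun p _ => ?_
      rw [(hh p (mem_univ p)).1.1.1.1, sub_smul, smul_sub]
      abel
    have h4 : ‖∑ p, ((g (h' p) - C (τ p.1)) • P.y (h' p)
          + C (τ p.1) • (P.y (h' p) - v P (P.κ (h' p))))‖ ≤ 2 := by
      have h5 : ∀ p, ‖(g (h' p) - C (τ p.1)) • P.y (h' p)
          + C (τ p.1) • (P.y (h' p) - v P (P.κ (h' p)))‖
          ≤ δ * B' + Cm * ‖P.y (h' p) - v P (P.κ (h' p))‖ := by
        intro p
        refine (norm_add_le _ _).trans (add_le_add ?_ ?_)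
        · rw [norm_smul, Real.norm_eq_abs]
          exact mul_le_mul (hh p (mem_univ p)).1.2.le (hyB _) (norm_nonneg _) hδ0.le
        · rw [norm_smul, Real.norm_eq_abs]
          exact mul_le_mul_of_nonneg_right (hCle _) (norm_nonneg _)
      refine (norm_sum_le _ _).trans ((sum_le_sum fun p _ => h5 p).trans ?_)
      rw [sum_add_distrib, sum_const, card_univ, Fintype.card_prod, Fintype.card_fin,
        Fintype.card_fin, nsmul_eq_mul, ← mul_sum]
      have h6 : ∑ p : Fin r × Fin N, ‖P.y (h' p) - v P (P.κ (h' p))‖ < 1 / (Cm + 1) := by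
        have := hD' A' hdisj'
        rw [hA', sum_image hinj] at this
        exact this
      have h7 : Cm * ∑ p : Fin r × Fin N, ‖P.y (h' p) - v P (P.κ (h' p))‖ ≤ 1 := by
        refine (mul_le_mul_of_nonneg_left h6.le hCm0).trans ?_
        rw [mul_one_div, div_le_one (by positivity)]
        linarith
      have h8 : ((r * N : ℕ) : ℝ) * (δ * B') ≤ 1 := by
        rw [hδ]
        push_cast
        have h9 : (0 : ℝ) < (r : ℝ) * N * B' + 1 := by positivity
        rw [show (r : ℝ) * N * (1 / ((r : ℝ) * N * B' + 1) * B')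
          = ((r : ℝ) * N * B') / ((r : ℝ) * N * B' + 1) by ring, div_le_one h9]
        linarith
      linarith
    have h10 : ‖(N : ℝ) • w‖ ≤ 4 := by
      rw [h3]
      exact (norm_sub_le _ _).trans (by linarith)
    rwa [norm_smul, Real.norm_natCast] at h10
  by_contra hne
  have hpos : 0 < ‖w‖ := norm_pos_iff.2 hne
  obtain ⟨N, hN⟩ := exists_nat_gt (4 / ‖w‖)
  rw [div_lt_iff₀ hpos] at hN
  exact absurd (key N) (not_le.2 hN)

/-- the scalar version -/
lemma rel' (hS : Star P J0 D g) {C : (Q × Q) × (J → ℚ) → ℝ} (hC : IsC P J0 D g C) (r : ℕ)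
    (τ : Fin r → (Q × Q) × (J → ℚ))
    (h : ∀ j ∈ J0, ∑ l, (((τ l).2 j : ℚ) : ℝ) • v P (τ l).1 = 0) : ∑ l, C (τ l) = 0 := by
  have h1 := congrArg P.φ (rel hS hC r τ h)
  rw [map_sum, map_zero] at h1
  rw [← h1]
  refine sum_congr rfl fun l _ => ?_
  rw [map_smul, φ_v, smul_eq_mul, mul_one]

lemma C_neg (hS : Star P J0 D g) {C : (Q × Q) × (J → ℚ) → ℝ} (hC : IsC P J0 D g C)
    (k : Q × Q) (a a' : J → ℚ) (haa : ∀ j ∈ J0, a j = a' j) : C (k, a) = -C (k, -a') := by
  have h1 := rel' hS hC 2 ![(k, a), (k, -a')] (fun j hj => by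
    rw [Fin.sum_univ_two]
    simp only [Matrix.cons_val_zero, Matrix.cons_val_one]
    rw [← add_smul, haa j hj]
    simp)
  rw [Fin.sum_univ_two] at h1
  simp only [Matrix.cons_val_zero, Matrix.cons_val_one] at h1
  linarith

lemma C_add (hS : Star P J0 D g) {C : (Q × Q) × (J → ℚ) → ℝ} (hC : IsC P J0 D g C)
    (k : Q × Q) (a b : J → ℚ) : C (k, a + b) = C (k, a) + C (k, b) := by
  have h1 := rel' hS hC 3 ![(k, a), (k, b), (k, -(a + b))] (fun j hj => by
    rw [Fin.sum_univ_three]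
    simp only [Matrix.cons_val_zero, Matrix.cons_val_one, Matrix.cons_val_two, Matrix.tail_cons,
      Matrix.head_cons, Matrix.cons_val]
    rw [← add_smul, ← add_smul]
    simp)
  rw [Fin.sum_univ_three] at h1
  simp only [Matrix.cons_val_zero, Matrix.cons_val_one, Matrix.cons_val_two, Matrix.tail_cons,
      Matrix.head_cons, Matrix.cons_val] at h1
  have h2 := C_neg hS hC k (a + b) (a + b) (fun _ _ => rfl)
  linarith

/-- the cluster values do not depend on `k` -/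
lemma C_diag (hS : Star P J0 D g) {C : (Q × Q) × (J → ℚ) → ℝ} (hC : IsC P J0 D g C)
    (a b : Q) (hab : a ≠ b) (q : J → ℚ) :
    C ((a, a), q) = C ((a, b), q) ∧ C ((b, b), q) = C ((a, b), q) := by
  have h1 := rel hS hC 3 ![((a, a), q), ((b, b), q), ((a, b), -(q + q))] (fun j hj => by
    rw [Fin.sum_univ_three]
    simp only [Matrix.cons_val_zero, Matrix.cons_val_one, Matrix.cons_val_two, Matrix.tail_cons,
      Matrix.head_cons, Matrix.cons_val]
    rw [v, v, v]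
    simp only [Pi.neg_apply, Pi.add_apply, Rat.cast_neg, Rat.cast_add]
    module)
  rw [Fin.sum_univ_three] at h1
  simp only [Matrix.cons_val_zero, Matrix.cons_val_one, Matrix.cons_val_two, Matrix.tail_cons,
      Matrix.head_cons, Matrix.cons_val] at h1
  have h2 : C ((a, b), -(q + q)) = -(2 * C ((a, b), q)) := by
    have h3 := C_neg hS hC (a, b) (q + q) (q + q) (fun _ _ => rfl)
    have h4 := C_add hS hC (a, b) q q
    linarith
  rw [h2, v, v, v] at h1
  have h5 : (C ((a, a), q) - C ((a, b), q)) • P.X a + (C ((b, b), q) - C ((a, b), q)) • P.X b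
      = 0 := by
    rw [← h1]
    module
  obtain ⟨h6, h7⟩ := P.X_indep a b hab _ _ h5
  exact ⟨by linarith, by linarith⟩

lemma C_const (hS : Star P J0 D g) {C : (Q × Q) × (J → ℚ) → ℝ} (hC : IsC P J0 D g C)
    (a0 : Q) (k : Q × Q) (q : J → ℚ) : C (k, q) = C ((a0, a0), q) := by
  have h1 : ∀ a b : Q, C ((a, a), q) = C ((b, b), q) := by
    intro a b
    by_cases h : a = b
    · rw [h]
    · have := C_diag hS hC a b h q
      rw [this.1, this.2]
  obtain ⟨a, b⟩ := k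
  by_cases h : a = b
  · subst h; exact h1 _ _
  · rw [← (C_diag hS hC a b h q).1]; exact h1 _ _

/-- the linear form -/
lemma C_lin (hS : Star P J0 D g) {C : (Q × Q) × (J → ℚ) → ℝ} (hC : IsC P J0 D g C) (a0 : Q) :
    ∃ c : J → ℝ, ∀ k q, C (k, q) = ∑ j ∈ J0, c j * (q j : ℝ) := by
  let f : (J → ℚ) →+ ℝ :=
    { toFun := fun q => C ((a0, a0), q)
      map_zero' := by
        have := C_add hS hC (a0, a0) 0 0
        rw [add_zero] at this
        linarith
      map_add' := fun q q' => C_add hS hC (a0, a0) q q' }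
  refine ⟨fun j => f (Pi.single j 1), fun k q => ?_⟩
  rw [C_const hS hC a0 k q]
  have h1 : C ((a0, a0), q) = C ((a0, a0), ∑ j ∈ J0, q j • (Pi.single j 1 : J → ℚ)) := by
    have h2 := C_neg hS hC (a0, a0) q (∑ j ∈ J0, q j • (Pi.single j 1 : J → ℚ)) (fun j hj => by
      rw [Finset.sum_apply]
      have : ∀ j' ∈ J0, (q j' • (Pi.single j' 1 : J → ℚ)) j = if j = j' then q j' else 0 := by
        intro j' _
        rw [Pi.smul_apply, Pi.single_apply]
        split_ifs <;> simp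
      rw [sum_congr rfl this, sum_ite_eq, if_pos hj])
    have h3 := C_neg hS hC (a0, a0) (∑ j ∈ J0, q j • (Pi.single j 1 : J → ℚ))
      (∑ j ∈ J0, q j • (Pi.single j 1 : J → ℚ)) (fun _ _ => rfl)
    rw [h2, h3]
  have h4 : f (∑ j ∈ J0, q j • (Pi.single j 1 : J → ℚ)) = ∑ j ∈ J0, f (Pi.single j 1) * (q j : ℝ) := by
    rw [map_sum]
    refine sum_congr rfl fun j _ => ?_
    rw [map_rat_smul f]
    rw [Rat.smul_def, mul_comm]
  rw [h1]
  exact h4

end Pool.Agent.Q198.CB
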