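import Pool.Agent.Q198.CB3

set_option autoImplicit false

open Finset Filter Topology
open scoped ENNReal Classical

namespace Pool.Agent.Q198.CB

variable {F : Type} [NormedAddCommGroup F] [NormedSpace ℝ F] {K Q J : Type} {P : Data F K Q J}
  {J0 : Finset J} {D : Finset K} {g : K → ℝ}

lemma abs_of_sum (x : K → ℝ) (D : Finset K) (M : ℝ)
    (h : ∀ A' : Finset K, Disjoint A' D → |∑ i ∈ A', x i| ≤ M) : Summable fun i => |x i| := by
  have h1 : ∀ A' : Finset K, Disjoint A' D → ∑ i ∈ A', |x i| ≤ 2 * M := by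
    intro A' hA
    rw [← sum_filter_add_sum_filter_not A' (fun i => 0 ≤ x i)]
    have h2 := h (A'.filter fun i => 0 ≤ x i) (disjoint_of_subset_left (filter_subset _ _) hA)
    have h3 := h (A'.filter fun i => ¬ 0 ≤ x i) (disjoint_of_subset_left (filter_subset _ _) hA)
    have h4 : ∑ i ∈ A'.filter (fun i => 0 ≤ x i), |x i| = ∑ i ∈ A'.filter (fun i => 0 ≤ x i), x i :=
      sum_congr rfl fun i hi => abs_of_nonneg (mem_filter.1 hi).2
    have h5 : ∑ i ∈ A'.filter (fun i => ¬ 0 ≤ x i), |x i|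
        = -∑ i ∈ A'.filter (fun i => ¬ 0 ≤ x i), x i := by
      rw [← sum_neg_distrib]
      exact sum_congr rfl fun i hi => abs_of_neg (not_le.1 (mem_filter.1 hi).2)
    rw [h4, h5]
    have h6 := abs_le.1 h2
    have h7 := abs_le.1 h3
    linarith [h6.2, h7.1]
  refine summable_of_sum_le (c := 2 * M + ∑ i ∈ D, |x i|) (fun i => abs_nonneg _) fun u => ?_
  rw [← sum_filter_add_sum_filter_not u (fun i => i ∈ D), add_comm]
  refine add_le_add (h1 _ ?_) ?_
  · rw [disjoint_left]
    intro i hi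
    exact (mem_filter.1 hi).2
  · exact sum_le_sum_of_subset_of_nonneg (fun i hi => (mem_filter.1 hi).2)
      fun _ _ _ => abs_nonneg _

lemma summ (hS : Star P J0 D g) {C : (Q × Q) × (J → ℚ) → ℝ} (hC : IsC P J0 D g C) (c : J → ℝ)
    (hc : ∀ k q, C (k, q) = ∑ j ∈ J0, c j * (q j : ℝ)) :
    Summable fun i => |g i - ∑ j ∈ J0, c j * (P.α j i : ℝ)| := by
  refine abs_of_sum (fun i => g i - ∑ j ∈ J0, c j * (P.α j i : ℝ)) D 3 fun A' hA => ?_
  set δ : ℝ := 1 / ((A'.card : ℝ) + 1) with hδ
  have hδ0 : 0 < δ := by positivity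
  obtain ⟨h', hh, hinj⟩ := exists_choice A'
    (fun i => {i' | (i' ∈ Ty P J0 (P.κ i, -fun j => P.α j i) ∧ i' ∉ D) ∧
      |g i' - C (P.κ i, -fun j => P.α j i)| < δ})
    (fun i => hC (P.κ i, -fun j => P.α j i) δ hδ0) A'
  have hdisj : Disjoint A' (A'.image h') := by
    rw [disjoint_left]
    intro i hi hi'
    obtain ⟨p, hp, rfl⟩ := mem_image.1 hi'
    exact (hh p hp).2 hi
  have h1 := hS.abs_le (A' ∪ A'.image h') (by
    rw [disjoint_left]
    intro i hi
    rcases mem_union.1 hi with hi | hi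
    · exact disjoint_left.1 hA hi
    · obtain ⟨p, hp, rfl⟩ := mem_image.1 hi
      exact (hh p hp).1.1.2) (fun j hj => by
    rw [sum_union hdisj, sum_image hinj, ← sum_add_distrib]
    refine sum_eq_zero fun i hi => ?_
    have := (hh i hi).1.1.1
    rw [this.1, this.2 j hj]
    simp)
  rw [sum_union hdisj, sum_image hinj, ← sum_add_distrib] at h1
  have h2 : ∑ i ∈ A', (g i - ∑ j ∈ J0, c j * (P.α j i : ℝ))
      = ∑ i ∈ A', (g i + g (h' i)) - ∑ i ∈ A', (g (h' i) + ∑ j ∈ J0, c j * (P.α j i : ℝ)) := by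
    rw [← sum_sub_distrib]
    exact sum_congr rfl fun i _ => by ring
  have h3 : |∑ i ∈ A', (g (h' i) + ∑ j ∈ J0, c j * (P.α j i : ℝ))| ≤ 1 := by
    refine (abs_sum_le_sum_abs _ _).trans ?_
    have h4 : ∀ i ∈ A', |g (h' i) + ∑ j ∈ J0, c j * (P.α j i : ℝ)| ≤ δ := by
      intro i hi
      have h5 := (hh i hi).1.2
      rw [hc] at h5
      have h6 : ∑ j ∈ J0, c j * (((-fun j => P.α j i : J → ℚ) j : ℚ) : ℝ)
          = -∑ j ∈ J0, c j * (P.α j i : ℝ) := by
        rw [← sum_neg_distrib]
        refine sum_congr rfl fun j _ => ?_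
        simp
      rw [h6, sub_neg_eq_add] at h5
      exact h5.le
    refine (sum_le_sum h4).trans ?_
    rw [sum_const, nsmul_eq_mul, hδ, mul_one_div, div_le_one (by positivity)]
    linarith
  rw [h2]
  exact (abs_sub _ _).trans (by linarith)

/-- Uniqueness of the expansion of zero. -/
theorem uniq_zero [CompleteSpace F] {γ : K ⊕ (J × ℕ) → ℝ} (h : SumTo (Fam P) (xv P) γ 0) :
    γ = 0 := by
  funext x
  rcases x with i0 | m
  swap
  · exact marker_zero P h m
  obtain ⟨J0, D, hS⟩ := star_of P h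
  set g : K → ℝ := fun i => γ (Sum.inl i) with hg
  choose C hC using fun τ => hS.cluster τ
  have hC' : IsC P J0 D g C := hC
  obtain ⟨c, hc⟩ := C_lin hS hC' (P.κ i0).1
  have hs := summ hS hC' c hc
  set δ : K → ℝ := fun i => g i - ∑ j ∈ J0, c j * (P.α j i : ℝ) with hδ
  have hδs : Summable fun i => δ i • P.y i := by
    refine Summable.of_norm_bounded (hs.mul_right P.B) fun i => ?_
    rw [norm_smul, Real.norm_eq_abs]
    exact mul_le_mul_of_nonneg_left (P.y_le i) (abs_nonneg _)
  let c0 : J →₀ ℝ := Finsupp.onFinset J0 (fun j => if j ∈ J0 then c j else 0) (by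
    intro j hj
    by_contra hcon
    simp [hcon] at hj)
  have hc0 : ∀ j, c0 j = if j ∈ J0 then c j else 0 := fun j => rfl
  have hc0sum : c0.sum (fun j r => r • P.z j) = ∑ j ∈ J0, c j • P.z j := by
    rw [Finsupp.sum_of_support_subset c0 (s := J0)]
    · refine sum_congr rfl fun j hj => ?_
      rw [hc0, if_pos hj]
    · intro j hj
      by_contra hcon
      rw [Finsupp.mem_support_iff, hc0, if_neg hcon] at hj
      exact hj rfl
    · intro j _; rw [zero_smul]
  set w : F := ∑' i, δ i • P.y i + ∑ j ∈ J0, c j • P.z j with hw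
  have hw0 : w = 0 := by
    by_contra hne
    have hpos : 0 < ‖w‖ := norm_pos_iff.2 hne
    set ε := ‖w‖ / 3 with hε
    have hε0 : 0 < ε := by positivity
    obtain ⟨d, hd, hd'⟩ := h ε hε0
    obtain ⟨D1, hD1⟩ := (Metric.tendsto_atTop.1 hδs.hasSum) ε hε0
    set M : ℝ := ∑ j ∈ J0, |c j| with hM
    have hM0 : 0 ≤ M := sum_nonneg fun _ _ => abs_nonneg _
    obtain ⟨n, hn⟩ := exists_nat_gt (M / ε)
    obtain ⟨d', hd'F, hsub⟩ := cofinal P (d ∪ D1.disjSum (J0.image fun j => (j, n)))
    have h1 := fst_lt P (hd' d' hd'F (subset_union_left.trans hsub))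
    have hL : D1 ⊆ d'.toLeft := by
      have := toLeft_subset_toLeft (subset_union_right.trans hsub)
      rwa [toLeft_disjSum] at this
    have hR : J0.image (fun j => (j, n)) ⊆ d'.toRight := by
      have := toRight_subset_toRight (subset_union_right.trans hsub)
      rwa [toRight_disjSum] at this
    have h2 := hD1 d'.toLeft hL
    rw [dist_eq_norm, norm_sub_rev] at h2
    have h3 : w = (∑' i, δ i • P.y i - ∑ i ∈ d'.toLeft, δ i • P.y i)
        + ∑ j ∈ J0, c j • (P.z j - A P j d'.toLeft) + ∑ i ∈ d'.toLeft, g i • P.y i := by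
      have h6 : ∑ i ∈ d'.toLeft, δ i • P.y i
          = ∑ i ∈ d'.toLeft, g i • P.y i - ∑ j ∈ J0, c j • A P j d'.toLeft := by
        simp only [hδ, sub_smul, sum_sub_distrib, sum_smul]
        congr 1
        rw [sum_comm]
        refine sum_congr rfl fun j _ => ?_
        rw [A, smul_sum]
        refine sum_congr rfl fun i _ => ?_
        rw [mul_smul]
      rw [h6, hw]
      simp only [smul_sub, sum_sub_distrib]
      abel
    have h4 : ‖∑ j ∈ J0, c j • (P.z j - A P j d'.toLeft)‖ ≤ M * (1 / ((n : ℝ) + 2)) := by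
      refine (norm_sum_le _ _).trans ?_
      rw [hM, sum_mul]
      refine sum_le_sum fun j hj => ?_
      rw [norm_smul, Real.norm_eq_abs, norm_sub_rev]
      refine mul_le_mul_of_nonneg_left ?_ (abs_nonneg _)
      exact (hd'F (j, n) (hR (mem_image_of_mem _ hj))).le
    have h5 : M * (1 / ((n : ℝ) + 2)) ≤ ε := by
      rw [mul_one_div, div_le_iff₀ (by positivity)]
      rw [div_lt_iff₀ hε0] at hn
      nlinarith
    have h6 : ‖w‖ < ε + ε + ε := by
      calc ‖w‖ = ‖_‖ := by rw [h3]
        _ ≤ _ := norm_add_le _ _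
        _ < ε + ε + ε := by
          have := norm_add_le (∑' i, δ i • P.y i - ∑ i ∈ d'.toLeft, δ i • P.y i)
            (∑ j ∈ J0, c j • (P.z j - A P j d'.toLeft))
          linarith
    rw [hε] at h6
    linarith
  have h1 := P.indep2 δ c0 hs (by rw [hc0sum]; exact hw0)
  have h2 : ∀ j ∈ J0, c j = 0 := by
    intro j hj
    have := hc0 j
    rw [h1, if_pos hj] at this
    exact this.symm
  have h3 : ∑ j ∈ J0, c j • P.z j = 0 := sum_eq_zero fun j hj => by rw [h2 j hj, zero_smul]
  have h4 := P.indep δ hs (by rw [hw, h3, add_zero] at hw0; exact hw0)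
  have h5 := congrFun h4 i0
  have h6 : ∑ j ∈ J0, c j * (P.α j i0 : ℝ) = 0 :=
    sum_eq_zero fun j hj => by rw [h2 j hj, zero_mul]
  rw [hδ] at h5
  dsimp only at h5
  rw [h6, sub_zero] at h5
  exact h5

/-- The basis property. -/
theorem basis [CompleteSpace F] (x : F × L1 J) : ∃! a, SumTo (Fam P) (xv P) a x := by
  obtain ⟨a, ha⟩ := exists_expansion P x
  refine ⟨a, ha, fun a' ha' => ?_⟩
  have h1 := SumTo.add (cofinal P) ha' (SumTo.smul (-1) ha)
  have h2 : x + (-1 : ℝ) • x = 0 := by rw [neg_one_smul, add_neg_cancel]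
  rw [h2] at h1
  have h3 := uniq_zero h1
  funext i
  have := congrFun h3 i
  simp only [Pi.zero_apply] at this
  linarith

/-- Discontinuity of the coefficient functionals. -/
theorem disc [CompleteSpace F] (i0 : K) (f : F × L1 J → ℝ)
    (hf : ∀ x a, SumTo (Fam P) (xv P) a x → f x = a (Sum.inl i0)) : ¬ Continuous f := by
  intro hcont
  have hadd : ∀ x x', f (x + x') = f x + f x' := by
    intro x x'
    obtain ⟨a, ha⟩ := exists_expansion P x
    obtain ⟨a', ha'⟩ := exists_expansion P x'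
    rw [hf _ _ (SumTo.add (cofinal P) ha ha'), hf _ _ ha, hf _ _ ha']
  have hsmul : ∀ (r : ℝ) x, f (r • x) = r * f x := by
    intro r x
    obtain ⟨a, ha⟩ := exists_expansion P x
    rw [hf _ _ (SumTo.smul r ha), hf _ _ ha]
  have hy : ∀ i, f (P.y i, 0) = if i = i0 then 1 else 0 := by
    intro i
    have h1 : SumTo (Fam P) (xv P) (fun l => if l = Sum.inl i then 1 else 0) (P.y i, 0) := by
      intro ε hε
      obtain ⟨d, hd, hd'⟩ := cofinal P {Sum.inl i}
      refine ⟨d, hd, fun d' _ hsub => ?_⟩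
      have h2 : Sum.inl i ∈ d' := hsub (hd' (mem_singleton_self _))
      have h3 : ∑ l ∈ d', (if l = Sum.inl i then (1 : ℝ) else 0) • xv P l = (P.y i, 0) := by
        simp only [ite_smul, one_smul, zero_smul]
        rw [sum_ite_eq', if_pos h2]
        rfl
      rw [h3, sub_self, norm_zero]
      exact hε
    rw [hf _ _ h1]
    by_cases h : i = i0
    · rw [if_pos h, if_pos (by rw [h])]
    · rw [if_neg h, if_neg (fun h' => h (Sum.inl_injective h').symm)]
  set S : Set F := {u | f (u, 0) = 0} with hS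
  have hSc : IsClosed S :=
    isClosed_eq (hcont.comp (continuous_id.prodMk continuous_const)) continuous_const
  have hv : ∀ k, v P k ∈ S := by
    intro k
    rw [← hSc.closure_eq, Metric.mem_closure_iff]
    intro ε hε
    obtain ⟨D, hD⟩ := CB.exists_tail _ P.err0 (fun i => norm_nonneg _) ε hε
    have hinf := P.rich ∅ (fun _ => 0) k
    obtain ⟨i, hi, hiD⟩ := hinf.exists_notMem_finset (D ∪ {i0})
    rw [mem_union, not_or, mem_singleton] at hiD
    refine ⟨P.y i, ?_, ?_⟩
    · change f (P.y i, 0) = 0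
      rw [hy, if_neg hiD.2]
    · have h1 := hD {i} (disjoint_singleton_left.2 hiD.1)
      rw [sum_singleton, hi.1] at h1
      rw [dist_comm, dist_eq_norm]
      exact h1
  have hzero : f (0, 0) = 0 := by
    have := hsmul 0 (0, 0)
    rwa [zero_smul, zero_mul] at this
  have hSadd : ∀ u u', u ∈ S → u' ∈ S → u + u' ∈ S := by
    intro u u' hu hu'
    change f (u + u', 0) = 0
    have := hadd (u, 0) (u', 0)
    rw [Prod.mk_add_mk, add_zero] at this
    rw [this, show f (u, 0) = 0 from hu, show f (u', 0) = 0 from hu', add_zero]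
  have hSsmul : ∀ (r : ℝ) u, u ∈ S → r • u ∈ S := by
    intro r u hu
    change f (r • u, 0) = 0
    have := hsmul r (u, 0)
    rw [Prod.smul_mk, smul_zero] at this
    rw [this, show f (u, 0) = 0 from hu, mul_zero]
  have hsum : ∀ (T : Finset (Q × Q)) (q : Q × Q → ℚ), ∑ k ∈ T, (q k : ℝ) • v P k ∈ S := by
    intro T q
    induction T using Finset.induction_on with
    | empty => rw [sum_empty]; exact hzero
    | insert a T ha ih =>
      rw [sum_insert ha]
      exact hSadd _ _ (hSsmul _ _ (hv a)) ih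
  have hall : P.y i0 ∈ S := by
    rw [← hSc.closure_eq, Metric.mem_closure_iff]
    intro ε hε
    obtain ⟨T, q, hT⟩ := P.dense (P.y i0) ε hε
    exact ⟨_, hsum T q, by rw [dist_eq_norm]; exact hT⟩
  have h1 : f (P.y i0, 0) = 0 := hall
  rw [hy, if_pos rfl] at h1
  exact one_ne_zero h1

end Pool.Agent.Q198.CB
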