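import Pool.Agent.Q198.CB4

set_option autoImplicit false

open Finset Filter Topology
open scoped ENNReal Classical

namespace Pool.Agent.Q198.CB

/-- the interval -/
abbrev Uu : Type := Set.Icc (0 : ℝ) 2

abbrev CC : Type := C(Uu, ℝ)

/-- distance functions -/
noncomputable def Xf (t : ℝ) : CC := ⟨fun u => |(u : ℝ) - t|, by fun_prop⟩

lemma Xf_apply (t : ℝ) (u : Uu) : Xf t u = |(u : ℝ) - t| := rfl

lemma Xf_lip (s t : ℝ) : ‖Xf s - Xf t‖ ≤ |s - t| := by
  rw [ContinuousMap.norm_le _ (abs_nonneg _)]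
  intro u
  rw [ContinuousMap.sub_apply, Xf_apply, Xf_apply, Real.norm_eq_abs]
  refine (abs_abs_sub_abs_le_abs_sub _ _).trans (le_of_eq ?_)
  rw [show (u : ℝ) - s - (u - t) = -(s - t) by ring, abs_neg]

lemma Xf_norm (t : ℝ) (h0 : 0 ≤ t) (h2 : t ≤ 2) : ‖Xf t‖ ≤ 2 := by
  rw [ContinuousMap.norm_le _ (by norm_num)]
  intro u
  rw [Xf_apply, Real.norm_eq_abs, abs_abs, abs_le]
  have h3 := u.2.1
  have h4 := u.2.2
  constructor <;> linarith

/-- rational points of the interval -/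
abbrev Q0 : Type := {q : ℚ // 0 ≤ q ∧ q ≤ 2}

lemma Q0_mem (a : Q0) : (0 : ℝ) ≤ (a.1 : ℝ) ∧ ((a.1 : ℚ) : ℝ) ≤ 2 := by
  constructor
  · exact_mod_cast a.2.1
  · exact_mod_cast a.2.2

/-- a rational point as a point -/
noncomputable def pt (a : Q0) : Uu := ⟨(a.1 : ℝ), Q0_mem a⟩

/-- the space -/
noncomputable def Fs : Submodule ℝ CC :=
  (Submodule.span ℝ (Set.range fun a : Q0 => Xf (a.1 : ℝ))).topologicalClosure

def FF : Type := ↥Fs

noncomputable instance : NormedAddCommGroup FF := Submodule.normedAddCommGroup Fs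

noncomputable instance : NormedSpace ℝ FF := Submodule.normedSpace Fs

noncomputable instance : CompleteSpace FF :=
  (Submodule.isClosed_topologicalClosure
    (Submodule.span ℝ (Set.range fun a : Q0 => Xf (a.1 : ℝ)))).completeSpace_coe

lemma exists_rat (t : ℝ) (h0 : 0 ≤ t) (h2 : t < 2) (ε : ℝ) (hε : 0 < ε) :
    ∃ a : Q0, |t - (a.1 : ℝ)| < ε := by
  obtain ⟨q, hq1, hq2⟩ := exists_rat_btwn (show t < min (t + ε) 2 from lt_min (by linarith) h2)
  have h3 := lt_min_iff.1 hq2
  refine ⟨⟨q, ?_, ?_⟩, ?_⟩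
  · exact_mod_cast (h0.trans hq1.le)
  · exact_mod_cast h3.2.le
  · dsimp only
    rw [abs_lt]
    constructor <;> linarith [h3.1]

lemma Xf_mem (t : ℝ) (h0 : 0 ≤ t) (h2 : t < 2) : Xf t ∈ Fs := by
  rw [Fs, ← SetLike.mem_coe, Submodule.topologicalClosure_coe, Metric.mem_closure_iff]
  intro ε hε
  obtain ⟨a, ha⟩ := exists_rat t h0 h2 ε hε
  exact ⟨Xf (a.1 : ℝ), Submodule.subset_span ⟨a, rfl⟩, by
    rw [dist_eq_norm]; exact (Xf_lip _ _).trans_lt ha⟩

lemma Xf_mem' (a : Q0) : Xf (a.1 : ℝ) ∈ Fs :=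
  Submodule.le_topologicalClosure _ (Submodule.subset_span ⟨a, rfl⟩)

/-- index set -/
abbrev KK : Type := (Q0 × Q0) × (Σ n : ℕ, ((Fin n → Bool) → ℚ))

lemma exists_enc : ∃ enc : KK → ℕ, Function.Injective enc := exists_injective_nat KK

/-- a coding of the index set -/
noncomputable def enc : KK → ℕ := exists_enc.choose

lemma enc_inj : Function.Injective enc := exists_enc.choose_spec

/-- a bound for the values of the table -/
noncomputable def Nn (i : KK) : ℕ := ⌈∑ s, |(i.2.2 s : ℝ)|⌉₊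

lemma Nn_le (i : KK) (s : Fin i.2.1 → Bool) : |((i.2.2 s : ℚ) : ℝ)| ≤ Nn i :=
  (single_le_sum (f := fun s => |((i.2.2 s : ℚ) : ℝ)|) (fun _ _ => abs_nonneg _)
    (mem_univ s)).trans (Nat.le_ceil _)

/-- exponents -/
noncomputable def pe (i : KK) (b : Bool) : ℕ := Nat.pair (2 * enc i + b.toNat) (Nn i)

lemma pe_inj {i i' : KK} {b b' : Bool} (h : pe i b = pe i' b') : i = i' ∧ b = b' := by
  have h1 := (Nat.pair_eq_pair.1 h).1
  have h2 : b.toNat < 2 := by cases b <;> decide
  have h3 : b'.toNat < 2 := by cases b' <;> decide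
  refine ⟨enc_inj (by omega), ?_⟩
  have h4 : b.toNat = b'.toNat := by omega
  revert h4
  cases b <;> cases b' <;> decide

/-- weights -/
noncomputable def wt (i : KK) (b : Bool) : ℚ := (1 / 2) ^ pe i b

lemma wt_pos (i : KK) (b : Bool) : (0 : ℝ) < (wt i b : ℝ) := by
  rw [wt]; push_cast; positivity

lemma wt_le_one (i : KK) (b : Bool) : (wt i b : ℝ) ≤ 1 := by
  rw [wt]; push_cast; exact pow_le_one₀ (by norm_num) (by norm_num)

lemma wt_inj {i i' : KK} {b b' : Bool} (h : wt i b = wt i' b') : i = i' ∧ b = b' := by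
  apply pe_inj
  exact pow_right_injective₀ (by norm_num : (0 : ℚ) < 1 / 2) (by norm_num) h

lemma wt_le (i : KK) (b : Bool) : (wt i b : ℝ) ≤ (1 / 2) ^ enc i * (1 / 2) ^ Nn i := by
  rw [wt, ← pow_add]
  push_cast
  apply pow_le_pow_of_le_one (by norm_num) (by norm_num)
  have := Nat.add_le_pair (2 * enc i + b.toNat) (Nn i)
  rw [pe]
  omega

/-- the endpoint of the type -/
noncomputable def en (i : KK) (b : Bool) : ℚ := if b then i.1.2.1 else i.1.1.1

lemma en_mem (i : KK) (b : Bool) : (0 : ℝ) ≤ (en i b : ℝ) ∧ (en i b : ℝ) ≤ 2 := by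
  rw [en]; split_ifs
  · exact Q0_mem _
  · exact Q0_mem _

/-- the perturbed points -/
noncomputable def sp (i : KK) (b : Bool) : ℝ := (1 - wt i b) * en i b + wt i b * √2

lemma sqrt_two_lt : √2 < 2 := by
  rw [Real.sqrt_lt' (by norm_num)]; norm_num

lemma sqrt_two_pos : (0 : ℝ) < √2 := by positivity

lemma sp_pos (i : KK) (b : Bool) : 0 < sp i b := by
  have h1 := wt_pos i b
  have h2 := wt_le_one i b
  have h3 := (en_mem i b).1
  have h4 := mul_pos h1 sqrt_two_pos
  have h5 : 0 ≤ (1 - (wt i b : ℝ)) * en i b := mul_nonneg (by linarith) h3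
  rw [sp]; linarith

lemma sp_lt (i : KK) (b : Bool) : sp i b < 2 := by
  have h1 := wt_pos i b
  have h2 := wt_le_one i b
  have h3 := (en_mem i b).2
  have h4 := mul_lt_mul_of_pos_left sqrt_two_lt h1
  have h5 : (1 - (wt i b : ℝ)) * en i b ≤ (1 - (wt i b : ℝ)) * 2 :=
    mul_le_mul_of_nonneg_left h3 (by linarith)
  rw [sp]; linarith

lemma sp_inj {i i' : KK} {b b' : Bool} (h : sp i b = sp i' b') : i = i' ∧ b = b' := by
  by_cases hw : wt i b = wt i' b'
  · exact wt_inj hw
  · exfalso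
    rw [sp, sp] at h
    have hne : wt i b - wt i' b' ≠ 0 := sub_ne_zero.2 hw
    have h1 : √2 = ((((1 - wt i' b') * en i' b' - (1 - wt i b) * en i b)
        / (wt i b - wt i' b') : ℚ) : ℝ) := by
      push_cast
      have hne' : (wt i b : ℝ) - wt i' b' ≠ 0 := by
        have : ((wt i b - wt i' b' : ℚ) : ℝ) ≠ 0 := by exact_mod_cast hne
        push_cast at this
        exact this
      rw [eq_div_iff hne']
      linarith
    exact irrational_sqrt_two ⟨_, h1.symm⟩

lemma sp_near (i : KK) (b : Bool) : |sp i b - en i b| ≤ 2 * wt i b := by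
  have h1 : sp i b - en i b = wt i b * (√2 - en i b) := by rw [sp]; ring
  have h2 := en_mem i b
  have h3 : |√2 - en i b| ≤ 2 := by
    rw [abs_le]
    constructor <;> linarith [sqrt_two_lt, sqrt_two_pos]
  rw [h1, abs_mul, abs_of_pos (wt_pos i b)]
  have := mul_le_mul_of_nonneg_left h3 (wt_pos i b).le
  linarith

/-- the vectors `y i` -/
noncomputable def yf (i : KK) : CC := (1 / 2 : ℝ) • (Xf (sp i false) + Xf (sp i true))

lemma yf_mem (i : KK) : yf i ∈ Fs :=
  Fs.smul_mem _ (Fs.add_mem (Xf_mem _ (sp_pos _ _).le (sp_lt _ _))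
    (Xf_mem _ (sp_pos _ _).le (sp_lt _ _)))

noncomputable def yF (i : KK) : FF := ⟨yf i, yf_mem i⟩

noncomputable def XF (a : Q0) : FF := ⟨Xf (a.1 : ℝ), Xf_mem' a⟩

lemma yF_norm (i : KK) : ‖yF i‖ ≤ 2 := by
  change ‖yf i‖ ≤ 2
  rw [yf, norm_smul, Real.norm_of_nonneg (by norm_num)]
  have h1 := Xf_norm _ (sp_pos i false).le (sp_lt i false).le
  have h2 := Xf_norm _ (sp_pos i true).le (sp_lt i true).le
  have h3 := norm_add_le (Xf (sp i false)) (Xf (sp i true))
  linarith

lemma y_near (i : KK) : ‖yF i - (1 / 2 : ℝ) • (XF i.1.1 + XF i.1.2)‖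
    ≤ 2 * ((1 / 2) ^ enc i * (1 / 2) ^ Nn i) := by
  change ‖yf i - (1 / 2 : ℝ) • (Xf (i.1.1.1 : ℝ) + Xf (i.1.2.1 : ℝ))‖ ≤ _
  have h1 : yf i - (1 / 2 : ℝ) • (Xf (i.1.1.1 : ℝ) + Xf (i.1.2.1 : ℝ))
      = (1 / 2 : ℝ) • ((Xf (sp i false) - Xf (i.1.1.1 : ℝ)) + (Xf (sp i true) - Xf (i.1.2.1 : ℝ))) := by
    rw [yf, ← smul_sub]
    congr 1
    abel
  have h2 : ‖Xf (sp i false) - Xf (i.1.1.1 : ℝ)‖ ≤ 2 * wt i false :=
    (Xf_lip _ _).trans (sp_near i false)
  have h3 : ‖Xf (sp i true) - Xf (i.1.2.1 : ℝ)‖ ≤ 2 * wt i true :=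
    (Xf_lip _ _).trans (sp_near i true)
  have h4 := wt_le i false
  have h5 := wt_le i true
  rw [h1, norm_smul, Real.norm_of_nonneg (by norm_num)]
  have h6 := norm_add_le (Xf (sp i false) - Xf (i.1.1.1 : ℝ)) (Xf (sp i true) - Xf (i.1.2.1 : ℝ))
  linarith

lemma enc_summable : Summable fun i : KK => ((1 : ℝ) / 2) ^ enc i :=
  summable_geometric_two.comp_injective enc_inj

/-- evaluation -/
noncomputable def evF (u : Uu) : FF →L[ℝ] ℝ := (ContinuousMap.evalCLM ℝ u).comp Fs.subtypeL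

lemma evF_apply (u : Uu) (f : FF) : evF u f = f.1 u := rfl

lemma ev_y (u : Uu) (i : KK) : evF u (yF i) = (|(u : ℝ) - sp i false| + |(u : ℝ) - sp i true|) / 2 := by
  change (1 / 2 : ℝ) * (|(u : ℝ) - sp i false| + |(u : ℝ) - sp i true|) = _
  ring

lemma summ_y (β : KK → ℝ) (hβ : Summable fun i => |β i|) : Summable fun i => β i • yF i := by
  refine Summable.of_norm_bounded (hβ.mul_right 2) fun i => ?_
  rw [norm_smul, Real.norm_eq_abs]
  exact mul_le_mul_of_nonneg_left (yF_norm i) (abs_nonneg _)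

/-- second difference quotient -/
noncomputable def ps (δ x : ℝ) : ℝ := (|x + δ| + |x - δ| - 2 * |x|) / δ

lemma ps_bound (δ x : ℝ) (hδ : 0 < δ) : |ps δ x| ≤ 2 := by
  rw [ps, abs_le]
  constructor
  · rw [le_div_iff₀ hδ]
    rcases abs_cases (x + δ) with h1 | h1 <;> rcases abs_cases (x - δ) with h2 | h2 <;>
      rcases abs_cases x with h3 | h3 <;> linarith [h1.1, h1.2, h2.1, h2.2, h3.1, h3.2]
  · rw [div_le_iff₀ hδ]
    rcases abs_cases (x + δ) with h1 | h1 <;> rcases abs_cases (x - δ) with h2 | h2 <;>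
      rcases abs_cases x with h3 | h3 <;> linarith [h1.1, h1.2, h2.1, h2.2, h3.1, h3.2]

lemma ps_zero (δ : ℝ) (hδ : 0 < δ) : ps δ 0 = 2 := by
  rw [ps, zero_add, zero_sub, abs_neg, abs_zero, abs_of_pos hδ]
  field_simp
  ring

lemma ps_far (δ x : ℝ) (hδ : 0 < δ) (hx : δ ≤ |x|) : ps δ x = 0 := by
  have h : |x + δ| + |x - δ| - 2 * |x| = 0 := by
    rcases abs_cases (x + δ) with h1 | h1 <;> rcases abs_cases (x - δ) with h2 | h2 <;>
      rcases abs_cases x with h3 | h3 <;> linarith [h1.1, h1.2, h2.1, h2.2, h3.1, h3.2]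
  rw [ps, h, zero_div]

lemma ps_tendsto (x : ℝ) : Tendsto (fun n : ℕ => ps (1 / ((n : ℝ) + 1)) x) atTop
    (𝓝 (if x = 0 then 2 else 0)) := by
  by_cases hx : x = 0
  · rw [if_pos hx, hx]
    refine tendsto_const_nhds.congr fun n => ?_
    rw [ps_zero _ (by positivity)]
  · rw [if_neg hx]
    refine tendsto_const_nhds.congr' ?_
    have h1 : Tendsto (fun n : ℕ => 1 / ((n : ℝ) + 1)) atTop (𝓝 0) :=
      tendsto_one_div_add_atTop_nhds_zero_nat
    filter_upwards [h1.eventually (gt_mem_nhds (abs_pos.2 hx))] with n hn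
    rw [ps_far _ _ (by positivity) hn.le]

/-- independence -/
lemma indepF (β : KK → ℝ) (hβ : Summable fun i => |β i|) (h : ∑' i, β i • yF i = 0) : β = 0 := by
  funext i0
  have hs := summ_y β hβ
  have hev : ∀ u : Uu, ∑' i, β i * ((|(u : ℝ) - sp i false| + |(u : ℝ) - sp i true|) / 2) = 0 := by
    intro u
    have h1 := (evF u).map_tsum hs
    rw [h, map_zero] at h1
    refine Eq.trans (tsum_congr fun i => ?_) h1.symm
    rw [map_smul, ev_y, smul_eq_mul]
  have hevs : ∀ u : Uu, Summable fun i =>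
      β i * ((|(u : ℝ) - sp i false| + |(u : ℝ) - sp i true|) / 2) := by
    intro u
    have h1 := (evF u).summable hs
    refine h1.congr fun i => ?_
    rw [map_smul, ev_y, smul_eq_mul]
  set s := sp i0 false with hsdef
  have hs0 : 0 < s := sp_pos _ _
  have hs2 : s < 2 := sp_lt _ _
  let fn : ℕ → KK → ℝ := fun n i => β i * ((ps (1 / ((n : ℝ) + 1)) (s - sp i false)
    + ps (1 / ((n : ℝ) + 1)) (s - sp i true)) / 2)
  let gn : KK → ℝ := fun i => β i * (((if s - sp i false = 0 then 2 else 0)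
    + (if s - sp i true = 0 then 2 else 0)) / 2)
  have hlim : Tendsto (fun n => ∑' i, fn n i) atTop (𝓝 (∑' i, gn i)) := by
    refine tendsto_tsum_of_dominated_convergence (bound := fun i => |β i| * 2) (hβ.mul_right 2)
      (fun i => ?_) (Eventually.of_forall fun n i => ?_)
    · exact (((ps_tendsto _).add (ps_tendsto _)).div_const 2).const_mul (β i)
    · have hpos : (0 : ℝ) < 1 / ((n : ℝ) + 1) := by positivity
      have h1 := ps_bound _ (s - sp i false) hpos
      have h2 := ps_bound _ (s - sp i true) hpos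
      simp only [fn]
      rw [norm_mul, Real.norm_eq_abs, Real.norm_eq_abs]
      refine mul_le_mul_of_nonneg_left ?_ (abs_nonneg _)
      rw [abs_div, abs_two]
      have h3 := abs_add_le (ps (1 / ((n : ℝ) + 1)) (s - sp i false))
        (ps (1 / ((n : ℝ) + 1)) (s - sp i true))
      linarith
  have hzero : ∀ᶠ n : ℕ in atTop, ∑' i, fn n i = 0 := by
    have h1 : Tendsto (fun n : ℕ => 1 / ((n : ℝ) + 1)) atTop (𝓝 0) :=
      tendsto_one_div_add_atTop_nhds_zero_nat
    filter_upwards [h1.eventually (gt_mem_nhds (show 0 < min s (2 - s) from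
      lt_min hs0 (by linarith)))] with n hn
    have hpos : (0 : ℝ) < 1 / ((n : ℝ) + 1) := by positivity
    set δ := 1 / ((n : ℝ) + 1) with hδ
    have h2 := lt_min_iff.1 hn
    have e1 := hev ⟨s, hs0.le, hs2.le⟩
    have e2 := hev ⟨s + δ, by linarith, by linarith [h2.2]⟩
    have e3 := hev ⟨s - δ, by linarith [h2.1], by linarith⟩
    have t1 := hevs ⟨s, hs0.le, hs2.le⟩
    have t2 := hevs ⟨s + δ, by linarith, by linarith [h2.2]⟩
    have t3 := hevs ⟨s - δ, by linarith [h2.1], by linarith⟩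
    have h3 : ∑' i, fn n i = (∑' i, β i * ((|s + δ - sp i false| + |s + δ - sp i true|) / 2)
        + ∑' i, β i * ((|s - δ - sp i false| + |s - δ - sp i true|) / 2)
        - 2 * ∑' i, β i * ((|s - sp i false| + |s - sp i true|) / 2)) / δ := by
      rw [← tsum_mul_left, ← Summable.tsum_add t2 t3, ← Summable.tsum_sub (t2.add t3) (t1.mul_left 2),
        ← tsum_div_const]
      refine tsum_congr fun i => ?_
      simp only [fn, ps]
      rw [show s - sp i false + δ = s + δ - sp i false by ring,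
        show s - sp i false - δ = s - δ - sp i false by ring,
        show s - sp i true + δ = s + δ - sp i true by ring,
        show s - sp i true - δ = s - δ - sp i true by ring]
      ring
    rw [h3]
    dsimp only at e1 e2 e3
    rw [e1, e2, e3]
    simp
  have hg0 : ∑' i, gn i = 0 :=
    tendsto_nhds_unique (hlim.congr' hzero) tendsto_const_nhds
  have hgn : ∀ i, gn i = if i = i0 then β i0 else 0 := by
    intro i
    simp only [gn]
    have h2 : ¬ (s - sp i true = 0) := by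
      intro h'
      have := (sp_inj (show sp i0 false = sp i true by linarith)).2
      exact absurd this (by decide)
    rw [if_neg h2]
    by_cases hi : i = i0
    · subst hi
      rw [if_pos (by rw [hsdef, sub_self]), if_pos rfl]
      ring
    · rw [if_neg hi, if_neg]
      · ring
      · intro h'
        exact hi (sp_inj (show sp i0 false = sp i false by linarith)).1.symm
  rw [tsum_congr hgn, tsum_ite_eq] at hg0
  exact hg0

end Pool.Agent.Q198.CB
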