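import Pool.Agent.Q198.CB5

set_option autoImplicit false

open Finset Filter Topology
open scoped ENNReal Classical

namespace Pool.Agent.Q198.CB

instance : Nonempty Q0 := ⟨⟨0, le_rfl, by norm_num⟩⟩

lemma exists_enum : ∃ e : ℕ → Q0 × ℚ, Function.Surjective e := exists_surjective_nat _

/-- enumeration of the tests -/
noncomputable def tst : ℕ → Q0 × ℚ := exists_enum.choose

lemma tst_surj : Function.Surjective tst := exists_enum.choose_spec

/-- the bits of a function -/
noncomputable def iota (f : CC) (m : ℕ) : Bool :=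
  decide ((((tst m).2 : ℚ) : ℝ) < f (pt (tst m).1))

lemma dense_pt : Dense (Set.range pt) := by
  intro u
  rw [Metric.mem_closure_iff]
  intro ε hε
  rcases lt_or_eq_of_le u.2.2 with h | h
  · obtain ⟨a, ha⟩ := exists_rat u u.2.1 h ε hε
    refine ⟨pt a, ⟨a, rfl⟩, ?_⟩
    rw [Subtype.dist_eq, Real.dist_eq]
    exact ha
  · refine ⟨pt ⟨2, by norm_num, le_rfl⟩, ⟨_, rfl⟩, ?_⟩
    have : u = pt ⟨2, by norm_num, le_rfl⟩ := by
      apply Subtype.ext
      rw [h, pt]; norm_num
    rw [← this, dist_self]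
    exact hε

lemma iota_lt (f g : CC) (a : Q0) (h : f (pt a) < g (pt a)) : iota f ≠ iota g := by
  obtain ⟨q, hq1, hq2⟩ := exists_rat_btwn h
  obtain ⟨m, hm⟩ := tst_surj (a, q)
  intro he
  have h1 := congrFun he m
  rw [iota, iota, hm] at h1
  rw [decide_eq_decide] at h1
  exact absurd (h1.2 hq2) (not_lt.2 hq1.le)

lemma iota_inj : Function.Injective iota := by
  intro f g he
  apply ContinuousMap.coe_injective
  refine Continuous.ext_on dense_pt f.continuous g.continuous ?_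
  rintro _ ⟨a, rfl⟩
  rcases lt_trichotomy (f (pt a)) (g (pt a)) with h | h | h
  · exact absurd he (iota_lt f g a h)
  · exact h
  · exact absurd he.symm (iota_lt g f a h)

/-- the absolutely convergent sums -/
noncomputable def Lsub : Submodule ℝ FF where
  carrier := {f | ∃ β : KK → ℝ, Summable (fun i => |β i|) ∧ f = ∑' i, β i • yF i}
  add_mem' := by
    rintro _ _ ⟨β, hβ, rfl⟩ ⟨β', hβ', rfl⟩
    refine ⟨fun i => β i + β' i, ?_, ?_⟩
    · exact Summable.of_nonneg_of_le (fun _ => abs_nonneg _) (fun i => abs_add_le _ _)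
        (hβ.add hβ')
    · rw [← Summable.tsum_add (summ_y β hβ) (summ_y β' hβ')]
      exact tsum_congr fun i => (add_smul _ _ _).symm
  zero_mem' := ⟨fun _ => 0, by simp, by simp⟩
  smul_mem' := by
    rintro r _ ⟨β, hβ, rfl⟩
    refine ⟨fun i => r * β i, ?_, ?_⟩
    · refine (hβ.mul_left |r|).congr fun i => ?_
      rw [abs_mul]
    · rw [← Summable.tsum_const_smul r (summ_y β hβ)]
      exact tsum_congr fun i => (mul_smul _ _ _).symm

/-- rational combinations -/
noncomputable def comb (c : (Q0 × Q0) →₀ ℚ) : CC :=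
  c.sum fun k r => (r : ℝ) • ((1 / 2 : ℝ) • (Xf (k.1.1 : ℝ) + Xf (k.2.1 : ℝ)))

lemma comb_add (c c' : (Q0 × Q0) →₀ ℚ) : comb (c + c') = comb c + comb c' := by
  rw [comb, Finsupp.sum_add_index']
  · rfl
  · intro k; simp
  · intro k r r'; rw [Rat.cast_add, add_smul]

lemma comb_smul (q : ℚ) (c : (Q0 × Q0) →₀ ℚ) : comb (q • c) = (q : ℝ) • comb c := by
  rw [comb, Finsupp.sum_smul_index, comb, Finsupp.smul_sum]
  · refine Finsupp.sum_congr fun k _ => ?_
    rw [Rat.cast_mul, mul_smul]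
  · intro k; simp

lemma approx_comb (g : CC)
    (hg : g ∈ Submodule.span ℝ (Set.range fun a : Q0 => Xf (a.1 : ℝ))) :
    ∀ ε : ℝ, 0 < ε → ∃ c, ‖g - comb c‖ < ε := by
  refine Submodule.span_induction (p := fun (g : CC) _ => ∀ ε : ℝ, 0 < ε → ∃ c, ‖g - comb c‖ < ε)
    ?_ ?_ ?_ ?_ hg
  · rintro _ ⟨a, rfl⟩ ε hε
    refine ⟨Finsupp.single (a, a) 1, ?_⟩
    have : comb (Finsupp.single (a, a) 1) = Xf (a.1 : ℝ) := by
      rw [comb, Finsupp.sum_single_index]
      · rw [Rat.cast_one, one_smul, ← two_smul ℝ, smul_smul]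
        norm_num
      · simp
    rw [this, sub_self, norm_zero]
    exact hε
  · intro ε hε
    refine ⟨0, ?_⟩
    have : comb 0 = 0 := by rw [comb, Finsupp.sum_zero_index]
    rw [this, sub_self, norm_zero]
    exact hε
  · intro g g' _ _ h h' ε hε
    obtain ⟨c, hc⟩ := h (ε / 2) (by linarith)
    obtain ⟨c', hc'⟩ := h' (ε / 2) (by linarith)
    refine ⟨c + c', ?_⟩
    have : g + g' - comb (c + c') = (g - comb c) + (g' - comb c') := by
      rw [comb_add]; abel
    rw [this]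
    exact (norm_add_le _ _).trans_lt (by linarith)
  · intro r g _ h ε hε
    obtain ⟨c, hc⟩ := h (ε / 2 / (|r| + 1)) (by positivity)
    obtain ⟨q, hq1, hq2⟩ := exists_rat_btwn
      (show r - ε / 2 / (‖comb c‖ + 1) < r by
        have : 0 < ε / 2 / (‖comb c‖ + 1) := by positivity
        linarith)
    refine ⟨q • c, ?_⟩
    have h1 : r • g - comb (q • c) = r • (g - comb c) + (r - (q : ℝ)) • comb c := by
      rw [comb_smul, smul_sub, sub_smul]; abel
    rw [h1]
    refine (norm_add_le _ _).trans_lt ?_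
    rw [norm_smul, norm_smul, Real.norm_eq_abs, Real.norm_eq_abs]
    have h2 : |r| * ‖g - comb c‖ ≤ ε / 2 := by
      rw [lt_div_iff₀ (by positivity)] at hc
      nlinarith [abs_nonneg r, norm_nonneg (g - comb c)]
    have h3 : |r - (q : ℝ)| * ‖comb c‖ < ε / 2 := by
      have h4 : |r - (q : ℝ)| < ε / 2 / (‖comb c‖ + 1) := by
        rw [abs_of_pos (by linarith)]; linarith
      rw [lt_div_iff₀ (by positivity)] at h4
      have h5 : 0 < |r - (q : ℝ)| := abs_pos.2 (by linarith)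
      linarith
    linarith

/-- the functional -/
noncomputable def phi : FF →L[ℝ] ℝ :=
  (1 / 2 : ℝ) • (evF ⟨0, le_rfl, by norm_num⟩ + evF ⟨2, by norm_num, le_rfl⟩)

lemma phi_apply (f : FF) : phi f
    = (1 / 2 : ℝ) * (f.1 ⟨0, le_rfl, by norm_num⟩ + f.1 ⟨2, by norm_num, le_rfl⟩) := rfl

lemma phi_le (f : FF) : |phi f| ≤ ‖f‖ := by
  rw [phi_apply, abs_mul, abs_of_pos (by norm_num)]
  have h1 : |f.1 ⟨0, le_rfl, by norm_num⟩| ≤ ‖f‖ := ContinuousMap.norm_coe_le_norm f.1 _
  have h2 : |f.1 ⟨2, by norm_num, le_rfl⟩| ≤ ‖f‖ := ContinuousMap.norm_coe_le_norm f.1 _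
  have h3 := abs_add_le (f.1 ⟨0, le_rfl, by norm_num⟩) (f.1 ⟨2, by norm_num, le_rfl⟩)
  linarith

lemma half_ends (t : ℝ) (h0 : 0 ≤ t) (h2 : t ≤ 2) : |(0 : ℝ) - t| + |(2 : ℝ) - t| = 2 := by
  rw [zero_sub, abs_neg, abs_of_nonneg h0, abs_of_nonneg (by linarith)]; ring

lemma phi_X (a : Q0) : phi (XF a) = 1 := by
  have h := half_ends _ (Q0_mem a).1 (Q0_mem a).2
  rw [phi_apply]
  change (1 / 2 : ℝ) * (|(0 : ℝ) - (a.1 : ℝ)| + |(2 : ℝ) - (a.1 : ℝ)|) = 1
  rw [h]; norm_num

lemma phi_y (i : KK) : phi (yF i) = 1 := by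
  have h1 := half_ends _ (sp_pos i false).le (sp_lt i false).le
  have h2 := half_ends _ (sp_pos i true).le (sp_lt i true).le
  rw [phi_apply]
  change (1 / 2 : ℝ) * ((1 / 2 : ℝ) * (|(0 : ℝ) - sp i false| + |(0 : ℝ) - sp i true|)
    + (1 / 2 : ℝ) * (|(2 : ℝ) - sp i false| + |(2 : ℝ) - sp i true|)) = 1
  linarith

theorem exists_data : ∃ J : Type, Nonempty (Data FF KK Q0 J) := by
  obtain ⟨W, hW⟩ := Submodule.exists_isCompl Lsub
  let b := Module.Basis.ofVectorSpace ℝ W
  let J : Type := Module.Basis.ofVectorSpaceIndex ℝ W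
  let z : J → FF := fun j => ((b j : W) : FF)
  have hz : Function.Injective z := fun j j' h => b.injective (Subtype.ext h)
  have hzsum : ∀ c : J →₀ ℝ, c.sum (fun j r => r • z j) = ((Finsupp.linearCombination ℝ b c : W) : FF) := by
    intro c
    rw [Finsupp.linearCombination_apply, Finsupp.sum, Finsupp.sum, Submodule.coe_sum]
    rfl
  refine ⟨J, ⟨{
    X := XF
    y := yF
    κ := fun i => i.1
    α := fun j i => i.2.2 fun m => iota (z j).1 m
    z := z
    φ := phi
    B := 2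
    φ_le := phi_le
    φ_y := phi_y
    φ_X := phi_X
    y_le := yF_norm
    X_indep := ?_
    indep := indepF
    decomp := ?_
    indep2 := ?_
    err := ?_
    err0 := ?_
    rich := ?_
    dense := ?_ }⟩⟩
  · intro a b hab r s h
    have hab' : ((a.1 : ℚ) : ℝ) ≠ b.1 := by
      intro h'
      exact hab (Subtype.ext (by exact_mod_cast h'))
    have h1 : ∀ u : Uu, r * |(u : ℝ) - (a.1 : ℝ)| + s * |(u : ℝ) - (b.1 : ℝ)| = 0 := by
      intro u
      exact congrArg (fun f : FF => f.1 u) h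
    have h2 := h1 (pt a)
    have h3 := h1 (pt b)
    change r * |(a.1 : ℝ) - (a.1 : ℝ)| + s * |(a.1 : ℝ) - (b.1 : ℝ)| = 0 at h2
    change r * |(b.1 : ℝ) - (a.1 : ℝ)| + s * |(b.1 : ℝ) - (b.1 : ℝ)| = 0 at h3
    rw [sub_self, abs_zero, mul_zero, zero_add] at h2
    rw [sub_self, abs_zero, mul_zero, add_zero] at h3
    constructor
    · rcases mul_eq_zero.1 h3 with h | h
      · exact h
      · exact absurd (abs_eq_zero.1 h) (sub_ne_zero.2 hab'.symm)
    · rcases mul_eq_zero.1 h2 with h | h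
      · exact h
      · exact absurd (abs_eq_zero.1 h) (sub_ne_zero.2 hab')
  · intro f
    have h1 : f ∈ Lsub ⊔ W := by rw [hW.sup_eq_top]; exact Submodule.mem_top
    obtain ⟨l, ⟨β, hβ, rfl⟩, w, hw, hlw⟩ := Submodule.mem_sup.1 h1
    refine ⟨β, b.repr ⟨w, hw⟩, hβ, ?_⟩
    rw [hzsum, b.linearCombination_repr]
    exact hlw.symm
  · intro β c hβ h
    rw [hzsum] at h
    have h1 : ((Finsupp.linearCombination ℝ b c : W) : FF) ∈ Lsub := by
      have : ((Finsupp.linearCombination ℝ b c : W) : FF) = -∑' i, β i • yF i :=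
        eq_neg_of_add_eq_zero_right h
      rw [this]
      exact Lsub.neg_mem ⟨β, hβ, rfl⟩
    have h2 : ((Finsupp.linearCombination ℝ b c : W) : FF) = 0 :=
      Submodule.disjoint_def.1 hW.disjoint _ h1 (Finsupp.linearCombination ℝ b c).2
    exact linearIndependent_iff.1 b.linearIndependent c (Subtype.ext h2)
  · intro j
    refine Summable.of_nonneg_of_le (fun i => by positivity) (fun i => ?_)
      (enc_summable.mul_left 2)
    have h1 := y_near i
    have h2 := Nn_le i (fun m => iota (z j).1 m)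
    have h3 : (1 : ℝ) + Nn i ≤ 2 ^ Nn i := by
      have : Nn i + 1 ≤ 2 ^ Nn i := Nat.lt_two_pow_self
      exact_mod_cast (by omega : 1 + Nn i ≤ 2 ^ Nn i)
    have h4 : (1 : ℝ) + |((i.2.2 (fun m => iota (z j).1 m) : ℚ) : ℝ)| ≤ 2 ^ Nn i := by linarith
    calc (1 + |((i.2.2 (fun m => iota (z j).1 m) : ℚ) : ℝ)|)
          * ‖yF i - (1 / 2 : ℝ) • (XF i.1.1 + XF i.1.2)‖
        ≤ 2 ^ Nn i * (2 * ((1 / 2) ^ enc i * (1 / 2) ^ Nn i)) :=
          mul_le_mul h4 h1 (norm_nonneg _) (by positivity)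
      _ = 2 * (1 / 2) ^ enc i := by
          have : (2 : ℝ) ^ Nn i * (1 / 2) ^ Nn i = 1 := by rw [← mul_pow]; norm_num
          linear_combination (2 * (1 / 2 : ℝ) ^ enc i) * this
  · refine Summable.of_nonneg_of_le (fun i => norm_nonneg _) (fun i => ?_)
      (enc_summable.mul_left 2)
    refine (y_near i).trans ?_
    have : ((1 : ℝ) / 2) ^ Nn i ≤ 1 := pow_le_one₀ (by norm_num) (by norm_num)
    have h2 : (0 : ℝ) < (1 / 2) ^ enc i := by positivity
    nlinarith
  · intro J0 c k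
    have hn : ∃ N : ℕ, ∀ n, N ≤ n → ∀ j ∈ J0, ∀ j' ∈ J0,
        (fun m : Fin n => iota (z j).1 m) = (fun m : Fin n => iota (z j').1 m) → j = j' := by
      have h1 : ∀ p : J × J, ∃ m : ℕ, p.1 ≠ p.2 → iota (z p.1).1 m ≠ iota (z p.2).1 m := by
        intro p
        by_cases h : p.1 = p.2
        · exact ⟨0, fun h' => absurd h h'⟩
        · have h2 : iota (z p.1).1 ≠ iota (z p.2).1 := fun h' =>
            h (hz (Subtype.ext (iota_inj h')))
          obtain ⟨m, hm⟩ := Function.ne_iff.1 h2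
          exact ⟨m, fun _ => hm⟩
      choose f hf using h1
      refine ⟨(J0 ×ˢ J0).sup f + 1, fun n hn j hj j' hj' he => ?_⟩
      by_contra hne
      have h3 : f (j, j') ≤ (J0 ×ˢ J0).sup f := le_sup (mem_product.2 ⟨hj, hj'⟩)
      have h4 : f (j, j') < n := by omega
      exact hf (j, j') hne (congrFun he ⟨_, h4⟩)
    obtain ⟨N, hN⟩ := hn
    let tab : ℕ → KK := fun t => (k, ⟨N + t, fun s =>
      ∑ j ∈ J0, if (fun m : Fin (N + t) => iota (z j).1 m) = s then c j else 0⟩)
    refine Set.infinite_of_injective_forall_mem (f := tab) ?_ ?_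
    · intro t t' h
      have : N + t = N + t' := congrArg (fun i : KK => i.2.1) h
      omega
    · intro t
      refine ⟨rfl, fun j hj => ?_⟩
      change ∑ j' ∈ J0, (if (fun m : Fin (N + t) => iota (z j').1 m)
        = (fun m : Fin (N + t) => iota (z j).1 m) then c j' else 0) = c j
      rw [sum_eq_single j]
      · rw [if_pos rfl]
      · intro j' hj' hne
        rw [if_neg]
        intro he
        exact hne (hN (N + t) (by omega) j' hj' j hj he)
      · intro h; exact absurd hj h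
  · intro f ε hε
    have hf : f.1 ∈ closure ((Submodule.span ℝ (Set.range fun a : Q0 => Xf (a.1 : ℝ)) :
        Submodule ℝ CC) : Set CC) := by
      have h : f.1 ∈ (Submodule.span ℝ (Set.range fun a : Q0 => Xf (a.1 : ℝ))).topologicalClosure :=
        f.2
      rwa [← SetLike.mem_coe, Submodule.topologicalClosure_coe] at h
    obtain ⟨g, hg, hfg⟩ := Metric.mem_closure_iff.1 hf (ε / 2) (by linarith)
    obtain ⟨c, hc⟩ := approx_comb g hg (ε / 2) (by linarith)
    refine ⟨c.support, c, ?_⟩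
    have h1 : ‖f.1 - comb c‖ < ε := by
      have : f.1 - comb c = (f.1 - g) + (g - comb c) := by abel
      rw [this]
      rw [dist_eq_norm] at hfg
      exact (norm_add_le _ _).trans_lt (by linarith)
    have h2 : (∑ k ∈ c.support, ((c k : ℚ) : ℝ) • ((1 / 2 : ℝ) • (XF k.1 + XF k.2)) : FF).1
        = comb c := by
      change Fs.subtype (∑ k ∈ c.support, ((c k : ℚ) : ℝ) • ((1 / 2 : ℝ) • (XF k.1 + XF k.2))) = _
      rw [map_sum]
      rfl
    change ‖(f - ∑ k ∈ c.support, ((c k : ℚ) : ℝ) • ((1 / 2 : ℝ) • (XF k.1 + XF k.2)) : FF).1‖ < ε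
    have h3 : (f - ∑ k ∈ c.support, ((c k : ℚ) : ℝ) • ((1 / 2 : ℝ) • (XF k.1 + XF k.2)) : FF).1
        = f.1 - (∑ k ∈ c.support, ((c k : ℚ) : ℝ) • ((1 / 2 : ℝ) • (XF k.1 + XF k.2)) : FF).1 := rfl
    rw [h3, h2]
    exact h1

end Pool.Agent.Q198.CB
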