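import Mathlib

set_option autoImplicit false

/-!
# Combinatorial Banach spaces
-/

namespace Pool.Agent.Q198.Comb

open Filter Topology Set
open scoped ENNReal

/-- The family `𝓕` is closed under subsets and contains all singletons. -/
def HereditaryCover (𝓕 : Set (Finset ℕ)) : Prop :=
  (∀ F ∈ 𝓕, ∀ G ⊆ F, G ∈ 𝓕) ∧ ∀ n, {n} ∈ 𝓕

/-- The closure of a hereditary family `𝓕` in the power set of `ℕ`: the sets all of whose finite
subsets belong to `𝓕`. -/
def closureFam (𝓕 : Set (Finset ℕ)) : Set (Set ℕ) :=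
  {A | ∀ F : Finset ℕ, (F : Set ℕ) ⊆ A → F ∈ 𝓕}

/-- `X` with the sequence `e` is the combinatorial space `X_𝓕` with its unit vectors: `X` is
complete, the span of the `e n` is dense, and `‖∑ a_n e_n‖ = sup {∑_{i ∈ F} |a_i| : F ∈ 𝓕}` for
finitely supported `a`. -/
structure IsCombSpace (𝓕 : Set (Finset ℕ)) (X : Type) [NormedAddCommGroup X] [NormedSpace ℝ X]
    (e : ℕ → X) : Prop where
  complete : CompleteSpace X
  dense : Dense (Submodule.span ℝ (Set.range e) : Set X)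
  norm_eq : ∀ a : ℕ →₀ ℝ, IsLUB {r : ℝ | ∃ F ∈ 𝓕, r = ∑ k ∈ F, |a k|}
    ‖Finsupp.linearCombination ℝ e a‖

/-! ### Existence -/

section exist

variable (𝓕 : Set (Finset ℕ))

/-- The index set of the norming functionals. -/
def Om : Type := {p : Finset ℕ × (ℕ → ℝ) // p.1 ∈ 𝓕 ∧ ∀ k, |p.2 k| ≤ 1}

/-- The value of the functional `p` at `e n`. -/
noncomputable def Om.val {𝓕 : Set (Finset ℕ)} (p : Om 𝓕) (n : ℕ) : ℝ :=
  if n ∈ p.1.1 then p.1.2 n else 0

theorem Om.abs_val_le {𝓕 : Set (Finset ℕ)} (p : Om 𝓕) (n : ℕ) : |p.val n| ≤ 1 := by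
  unfold Om.val
  split_ifs
  · exact p.2.2 n
  · simp

/-- The vector `e n` in `ℓ_∞`. -/
noncomputable def uvec (n : ℕ) : lp (fun _ : Om 𝓕 => ℝ) ∞ :=
  ⟨fun p => p.val n, memℓp_infty ⟨1, by
    rintro _ ⟨p, rfl⟩
    exact p.abs_val_le n⟩⟩

theorem uvec_apply (n : ℕ) (p : Om 𝓕) : uvec 𝓕 n p = p.val n := rfl

/-- The space `X_𝓕`, as a subspace of `ℓ_∞`. -/
noncomputable abbrev XF : Submodule ℝ (lp (fun _ : Om 𝓕 => ℝ) ∞) :=
  (Submodule.span ℝ (Set.range (uvec 𝓕))).topologicalClosure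

/-- The unit vectors. -/
noncomputable def evec (n : ℕ) : XF 𝓕 :=
  ⟨uvec 𝓕 n, Submodule.le_topologicalClosure _ (Submodule.subset_span ⟨n, rfl⟩)⟩

theorem comb_evec (a : ℕ →₀ ℝ) : ((Finsupp.linearCombination ℝ (evec 𝓕) a : XF 𝓕) :
    lp (fun _ : Om 𝓕 => ℝ) ∞) = Finsupp.linearCombination ℝ (uvec 𝓕) a := by
  rw [Finsupp.linearCombination_apply, Finsupp.linearCombination_apply, Finsupp.sum, Finsupp.sum,
    Submodule.coe_sum]
  rfl

theorem comb_apply (a : ℕ →₀ ℝ) (p : Om 𝓕) :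
    (Finsupp.linearCombination ℝ (uvec 𝓕) a : lp (fun _ : Om 𝓕 => ℝ) ∞) p =
      ∑ k ∈ p.1.1, a k * p.1.2 k := by
  rw [Finsupp.linearCombination_apply, Finsupp.sum, lp.coeFn_sum, Finset.sum_apply]
  have h1 : ∀ k ∈ a.support, (a k • uvec 𝓕 k : lp (fun _ : Om 𝓕 => ℝ) ∞) p =
      a k * p.val k := fun k _ => rfl
  rw [Finset.sum_congr rfl h1]
  simp only [Om.val, mul_ite, mul_zero]
  rw [← Finset.sum_filter]
  refine Finset.sum_subset_zero_on_sdiff ?_ ?_ (fun _ _ => rfl)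
  · intro k hk
    exact (Finset.mem_filter.1 hk).2
  · intro k hk
    rw [Finset.mem_sdiff, Finset.mem_filter, not_and] at hk
    have : a k = 0 := by
      by_contra h
      exact hk.2 (Finsupp.mem_support_iff.2 h) hk.1
    rw [this, zero_mul]

theorem exists_combSpace (h : HereditaryCover 𝓕) :
    ∃ (X : Type) (_ : NormedAddCommGroup X) (_ : NormedSpace ℝ X) (e : ℕ → X),
      IsCombSpace 𝓕 X e := by
  refine ⟨XF 𝓕, inferInstance, inferInstance, evec 𝓕, ?_, ?_, ?_⟩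
  · exact (Submodule.isClosed_topologicalClosure _).completeSpace_coe
  · rw [Metric.dense_iff]
    rintro ⟨x, hx⟩ r hr
    have hx' : x ∈ closure (Submodule.span ℝ (Set.range (uvec 𝓕)) :
        Set (lp (fun _ : Om 𝓕 => ℝ) ∞)) := hx
    obtain ⟨y, hy, hxy⟩ := Metric.mem_closure_iff.1 hx' r hr
    obtain ⟨c, rfl⟩ := (Finsupp.mem_span_range_iff_exists_finsupp (R := ℝ)).1 hy
    refine ⟨Finsupp.linearCombination ℝ (evec 𝓕) c, ?_, ?_⟩
    · rw [Metric.mem_ball, Subtype.dist_eq, comb_evec, dist_comm]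
      exact hxy
    · exact (Finsupp.mem_span_range_iff_exists_finsupp (R := ℝ)).2 ⟨c, rfl⟩
  · intro a
    rw [Submodule.coe_norm, comb_evec]
    constructor
    · rintro _ ⟨F, hF, rfl⟩
      let p : Om 𝓕 := ⟨(F, fun k => SignType.sign (a k)), hF, fun k => by
        rcases lt_trichotomy (a k) 0 with h | h | h
        · simp [sign_neg h]
        · simp [h]
        · simp [sign_pos h]⟩
      have h1 := lp.norm_apply_le_norm ENNReal.top_ne_zero
        (Finsupp.linearCombination ℝ (uvec 𝓕) a) p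
      rw [comb_apply] at h1
      refine le_trans (le_of_eq ?_) ((Real.le_norm_self _).trans h1)
      refine Finset.sum_congr rfl fun k _ => ?_
      exact (mul_comm _ _).trans (sign_mul_self (a k)) |>.symm
    · intro b hb
      have hb0 : 0 ≤ b := by
        refine le_trans ?_ (hb ⟨{0}, h.2 0, rfl⟩)
        exact Finset.sum_nonneg fun _ _ => abs_nonneg _
      refine lp.norm_le_of_forall_le hb0 fun p => ?_
      rw [comb_apply, Real.norm_eq_abs]
      refine (Finset.abs_sum_le_sum_abs _ _).trans ?_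
      refine le_trans (Finset.sum_le_sum fun k _ => ?_) (hb ⟨p.1.1, p.2.1, rfl⟩)
      rw [abs_mul]
      exact mul_le_of_le_one_right (abs_nonneg _) (p.2.2 k)

end exist

end Pool.Agent.Q198.Comb
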