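import Mathlib

set_option autoImplicit false

open Polynomial Finset

namespace Pool.Agent.Q198.Crown

/-- Nonnegative sequences, positive on an initial interval, with `k! a_k` log-concave. -/
structure Good (a : ℕ → ℝ) : Prop where
  nonneg : ∀ k, 0 ≤ a k
  ulc : ∀ k : ℕ, ((k : ℝ) + 2) * (a k * a (k + 2)) ≤ ((k : ℝ) + 1) * a (k + 1) ^ 2
  gap : ∀ k, a k = 0 → a (k + 1) = 0

lemma Good.cross {a : ℕ → ℝ} (h : Good a) (k : ℕ) :
    ((k : ℝ) + 3) * (a k * a (k + 3)) ≤ ((k : ℝ) + 1) * (a (k + 1) * a (k + 2)) := by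
  have h0 := h.nonneg k
  have h1 := h.nonneg (k + 1)
  have h2 := h.nonneg (k + 2)
  have h3 := h.nonneg (k + 3)
  have hk : (0 : ℝ) ≤ k := Nat.cast_nonneg k
  have u1 := h.ulc k
  have u2 := h.ulc (k + 1)
  push_cast at u2
  have e3 : k + 1 + 2 = k + 3 := rfl
  have e2 : k + 1 + 1 = k + 2 := rfl
  rw [e3, e2] at u2
  rcases eq_or_lt_of_le h1 with hz | hp1
  · have z2 := h.gap (k + 1) hz.symm
    have z3 := h.gap (k + 2) z2
    rw [show k + 2 + 1 = k + 3 from rfl] at z3
    rw [z3, ← hz]; simp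
  rcases eq_or_lt_of_le h2 with hz | hp2
  · have z3 := h.gap (k + 2) hz.symm
    rw [show k + 2 + 1 = k + 3 from rfl] at z3
    rw [z3, ← hz]; simp
  have hpp : 0 < ((k : ℝ) + 2) * (a (k + 1) * a (k + 2)) := by positivity
  have hm : (((k : ℝ) + 2) * (a k * a (k + 2))) * (((k : ℝ) + 1 + 2) * (a (k + 1) * a (k + 3)))
      ≤ (((k : ℝ) + 1) * a (k + 1) ^ 2) * (((k : ℝ) + 1 + 1) * a (k + 2) ^ 2) := by
    apply mul_le_mul u1 u2 <;> positivity
  have hm' : (((k : ℝ) + 2) * (a (k + 1) * a (k + 2))) * (((k : ℝ) + 3) * (a k * a (k + 3)))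
      ≤ (((k : ℝ) + 2) * (a (k + 1) * a (k + 2))) *
        (((k : ℝ) + 1) * (a (k + 1) * a (k + 2))) := by
    nlinarith [hm]
  exact le_of_mul_le_mul_left hm' hpp

/-- Multiplication by `X + e`. -/
lemma Good.mul_linear {p : ℝ[X]} (h : Good p.coeff) {e : ℝ} (he : 0 < e) :
    Good (p * (X + C e)).coeff := by
  have c0 : (p * (X + C e)).coeff 0 = e * p.coeff 0 := by
    simp [mul_add, mul_comm]
  have cs : ∀ k, (p * (X + C e)).coeff (k + 1) = e * p.coeff (k + 1) + p.coeff k := by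
    intro k
    rw [mul_add, coeff_add, coeff_mul_X, coeff_mul_C]; ring
  refine ⟨?_, ?_, ?_⟩
  · rintro (_ | k)
    · rw [c0]; exact mul_nonneg he.le (h.nonneg 0)
    · rw [cs]; exact add_nonneg (mul_nonneg he.le (h.nonneg _)) (h.nonneg _)
  · rintro (_ | k)
    · rw [c0, cs, show 0 + 2 = 1 + 1 from rfl, cs]
      have u := h.ulc 0
      have a0 := h.nonneg 0
      have a1 := h.nonneg 1
      have a2 := h.nonneg 2
      simp only [Nat.cast_zero, zero_add] at u ⊢
      norm_num at u ⊢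
      nlinarith [mul_le_mul_of_nonneg_left u (sq_nonneg e), sq_nonneg (p.coeff 0)]
    · rw [cs, cs, show k + 1 + 2 = (k + 2) + 1 from rfl, cs]
      have u1 := h.ulc k
      have u2 := h.ulc (k + 1)
      have cr := h.cross k
      have hk : (0 : ℝ) ≤ k := Nat.cast_nonneg k
      push_cast at u2 ⊢
      rw [show k + 1 + 2 = k + 3 from rfl, show k + 1 + 1 = k + 2 from rfl] at u2
      rw [show k + 1 + 1 = k + 2 from rfl, show k + 2 + 1 = k + 3 from rfl]
      have a0 := h.nonneg k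
      have a1 := h.nonneg (k + 1)
      have a2 := h.nonneg (k + 2)
      have a3 := h.nonneg (k + 3)
      generalize p.coeff k = w0 at *
      generalize p.coeff (k + 1) = w1 at *
      generalize p.coeff (k + 2) = w2 at *
      generalize p.coeff (k + 3) = w3 at *
      generalize (k : ℝ) = t at *
      have q2 : (t + 3) * (w0 * w2) ≤ (t + 2) * w1 ^ 2 := by
        have : (t + 2) * ((t + 3) * (w0 * w2)) ≤ (t + 2) * ((t + 2) * w1 ^ 2) := by
          have h1 : (t + 3) * ((t + 2) * (w0 * w2)) ≤ (t + 3) * ((t + 1) * w1 ^ 2) :=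
            mul_le_mul_of_nonneg_left u1 (by linarith)
          nlinarith [sq_nonneg w1]
        exact le_of_mul_le_mul_left this (by linarith)
      have q0 : e ^ 2 * ((t + 3) * (w1 * w3)) ≤ e ^ 2 * ((t + 2) * w2 ^ 2) := by
        apply mul_le_mul_of_nonneg_left _ (sq_nonneg e)
        nlinarith [u2]
      have q1 : e * ((t + 3) * (w0 * w3)) ≤ e * ((t + 1) * (w1 * w2)) :=
        mul_le_mul_of_nonneg_left cr he.le
      nlinarith [q0, q1, q2]
  · rintro (_ | k) hk
    · rw [c0] at hk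
      have z0 : p.coeff 0 = 0 := by
        rcases mul_eq_zero.1 hk with h' | h'
        · exact absurd h' he.ne'
        · exact h'
      rw [cs, h.gap 0 z0, z0]; simp
    · rw [cs] at hk
      have n1 := h.nonneg (k + 1)
      have n0 := h.nonneg k
      have z1 : e * p.coeff (k + 1) = 0 := by
        have := mul_nonneg he.le n1
        linarith
      have z1' : p.coeff (k + 1) = 0 := by
        rcases mul_eq_zero.1 z1 with h' | h'
        · exact absurd h' he.ne'
        · exact h'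
      rw [cs, h.gap (k + 1) z1', z1']; simp

lemma good_one : Good (1 : ℝ[X]).coeff := by
  refine ⟨?_, ?_, ?_⟩
  · intro k; rw [coeff_one]; split_ifs <;> norm_num
  · intro k; rw [coeff_one, coeff_one, coeff_one]; simp
  · intro k hk
    rw [coeff_one, if_neg (by omega)]

lemma good_prod {ι : Type*} (s : Finset ι) (e : ι → ℝ) (he : ∀ i ∈ s, 0 < e i) :
    Good (∏ i ∈ s, (X + C (e i)) : ℝ[X]).coeff := by
  classical
  induction s using Finset.induction_on with
  | empty => simpa using good_one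
  | insert i s hi ih =>
    rw [prod_insert hi, mul_comm]
    exact (ih fun j hj => he j (mem_insert_of_mem hj)).mul_linear (he i (mem_insert_self _ _))

lemma Good.mul_pow {p : ℝ[X]} (h : Good p.coeff) (m : ℕ) : Good (p * (X + C 1) ^ m).coeff := by
  induction m with
  | zero => simpa using h
  | succ m ih =>
    rw [pow_succ, ← mul_assoc]
    exact ih.mul_linear one_pos

/-- Lucas type polynomials: `L_n(u + 1/u - 2) = u^n + u^(-n)`. -/
noncomputable def L : ℕ → ℝ[X]
  | 0 => 2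
  | 1 => X + 2
  | n + 2 => (X + 2) * L (n + 1) - L n

/-- The factorisation of `L_n - 2`. -/
noncomputable def H (n : ℕ) : ℝ[X] :=
  ∏ k ∈ range n, (X + C (2 - 2 * Real.cos (2 * Real.pi * k / n)))

lemma eval_L (u : ℂ) (hu : u ≠ 0) (n : ℕ) :
    ((L n).map (algebraMap ℝ ℂ)).eval (u + u⁻¹ - 2) = u ^ n + (u⁻¹) ^ n := by
  induction n using Nat.twoStepInduction with
  | zero => simp [L]; norm_num
  | one => simp [L]
  | more n h1 h2 =>
    rw [L]
    simp only [Polynomial.map_sub, Polynomial.map_mul, Polynomial.map_add, map_X,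
      Polynomial.map_ofNat, eval_sub, eval_mul, eval_add, eval_X, eval_ofNat, h1, h2]
    have h : u * u⁻¹ = 1 := mul_inv_cancel₀ hu
    have e1 : u ^ (n + 2) = u * u ^ (n + 1) := by ring
    have e2 : u⁻¹ ^ (n + 2) = u⁻¹ * u⁻¹ ^ (n + 1) := by ring
    have e3 : u⁻¹ * u ^ (n + 1) = u ^ n := by
      rw [pow_succ', ← mul_assoc, inv_mul_cancel₀ hu, one_mul]
    have e4 : u * u⁻¹ ^ (n + 1) = u⁻¹ ^ n := by
      rw [pow_succ', ← mul_assoc, h, one_mul]
    rw [e1, e2]
    linear_combination e3 + e4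

lemma prod_root (n : ℕ) (ζ : ℂ) (hprim : IsPrimitiveRoot ζ n) (hn : 0 < n) (z : ℂ) :
    ∏ k ∈ range n, (z - ζ ^ k) = z ^ n - 1 := by
  have h := X_pow_sub_one_eq_prod hn hprim
  have h2 := congrArg (eval z) h
  simp only [eval_sub, eval_pow, eval_X, eval_one, eval_prod, eval_C] at h2
  have hset : nthRootsFinset n (1 : ℂ) = (range n).image (fun k => ζ ^ k) := by
    ext w
    rw [mem_nthRootsFinset hn, mem_image]
    constructor
    · intro hw
      have : NeZero n := ⟨hn.ne'⟩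
      obtain ⟨i, hi, rfl⟩ := hprim.eq_pow_of_pow_eq_one hw
      exact ⟨i, mem_range.2 hi, rfl⟩
    · rintro ⟨i, _, rfl⟩
      rw [← pow_mul, mul_comm, pow_mul, hprim.pow_eq_one, one_pow]
  rw [h2, hset, prod_image]
  intro i hi j hj hij
  exact hprim.pow_inj (mem_range.1 hi) (mem_range.1 hj) hij

lemma eval_H (u : ℂ) (hu : u ≠ 0) (n : ℕ) (hn : 0 < n) :
    ((H n).map (algebraMap ℝ ℂ)).eval (u + u⁻¹ - 2) = u ^ n + (u⁻¹) ^ n - 2 := by
  set ζ : ℂ := Complex.exp (2 * Real.pi * Complex.I / n) with hζ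
  have hprim : IsPrimitiveRoot ζ n := Complex.isPrimitiveRoot_exp n hn.ne'
  have hζ0 : ζ ≠ 0 := Complex.exp_ne_zero _
  have hcos : ∀ k : ℕ, ((2 * Real.cos (2 * Real.pi * k / n) : ℝ) : ℂ) = ζ ^ k + (ζ ^ k)⁻¹ := by
    intro k
    rw [hζ, ← Complex.exp_nat_mul, ← Complex.exp_neg]
    push_cast
    rw [Complex.cos]
    have e1 : (2 * (Real.pi : ℂ) * k / n) * Complex.I
        = (k : ℂ) * (2 * Real.pi * Complex.I / n) := by ring
    have e2 : -(2 * (Real.pi : ℂ) * k / n) * Complex.I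
        = -((k : ℂ) * (2 * Real.pi * Complex.I / n)) := by ring
    rw [e1, e2]; ring
  have hfac : ∀ k : ℕ, (u + u⁻¹ - 2 + ((2 - 2 * Real.cos (2 * Real.pi * k / n) : ℝ) : ℂ))
      = u⁻¹ * ((u - ζ ^ k) * (u - (ζ⁻¹) ^ k)) := by
    intro k
    have h1 : ((2 - 2 * Real.cos (2 * Real.pi * k / n) : ℝ) : ℂ)
        = 2 - (ζ ^ k + (ζ ^ k)⁻¹) := by
      rw [Complex.ofReal_sub, hcos k]; norm_num
    rw [h1, inv_pow]
    have hz : ζ ^ k ≠ 0 := pow_ne_zero _ hζ0
    field_simp
    ring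
  rw [H, Polynomial.map_prod, eval_prod]
  have : ∀ k ∈ range n, eval (u + u⁻¹ - 2)
      (Polynomial.map (algebraMap ℝ ℂ) (X + C (2 - 2 * Real.cos (2 * Real.pi * k / n))))
      = u⁻¹ * ((u - ζ ^ k) * (u - (ζ⁻¹) ^ k)) := by
    intro k _
    rw [← hfac k]
    simp
  rw [prod_congr rfl this, prod_mul_distrib, prod_mul_distrib, prod_root n ζ hprim hn,
    prod_root n ζ⁻¹ hprim.inv hn, prod_const, card_range]
  have h : u⁻¹ ^ n * u ^ n = 1 := by rw [← mul_pow, inv_mul_cancel₀ hu, one_pow]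
  linear_combination (u ^ n - 2) * h

lemma H_eq (n : ℕ) (hn : 0 < n) : H n = L n - 2 := by
  have hinj : Function.Injective (Polynomial.map (algebraMap ℝ ℂ)) :=
    Polynomial.map_injective _ (algebraMap ℝ ℂ).injective
  apply hinj
  apply Polynomial.funext
  intro y
  -- choose u with u + 1/u - 2 = y
  obtain ⟨u, hu⟩ : ∃ u : ℂ, u * u - (y + 2) * u + 1 = 0 := by
    obtain ⟨s, hs⟩ := IsAlgClosed.exists_pow_nat_eq ((y + 2) ^ 2 - 4) (n := 2) (by norm_num)
    refine ⟨((y + 2) + s) / 2, ?_⟩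
    linear_combination (1 / 4 : ℂ) * hs
  have hu0 : u ≠ 0 := by
    rintro rfl
    simp at hu
  have hy : y = u + u⁻¹ - 2 := by
    field_simp
    linear_combination -hu
  rw [hy, eval_H u hu0 n hn, Polynomial.map_sub, eval_sub, eval_L u hu0]
  simp

/-- The real rooted part `G_n(x) = (1+x)^n H_n(1+x)`. -/
noncomputable def G (n : ℕ) : ℝ[X] :=
  (∏ k ∈ range n, (X + C (3 - 2 * Real.cos (2 * Real.pi * k / n)))) * (X + C 1) ^ n

lemma G_eq (n : ℕ) (hn : 0 < n) : G n = (X + 1) ^ n * ((L n).comp (X + 1) - 2) := by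
  have h : (H n).comp (X + 1) = (L n).comp (X + 1) - 2 := by
    rw [H_eq n hn, sub_comp]
    congr 1
    simp
  rw [← h, G, mul_comm, H, Polynomial.prod_comp, C_1]
  congr 1
  refine prod_congr rfl fun k _ => ?_
  simp only [add_comp, X_comp, C_comp]
  rw [add_assoc, ← C_1, ← C_add]
  congr 2
  ring

lemma good_G (n : ℕ) : Good (G n).coeff := by
  apply Good.mul_pow
  apply good_prod
  intro k _
  have := Real.cos_le_one (2 * Real.pi * k / n)
  linarith

end Pool.Agent.Q198.Crown
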