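import Pool.Agent.Q198.CrownA

set_option autoImplicit false

open Polynomial Finset

namespace Pool.Agent.Q198.Crown

/-- values at one -/
noncomputable def ell (n : ℕ) : ℝ := (L n).eval 1

lemma ell_zero : ell 0 = 2 := by simp [ell, L]

lemma ell_one : ell 1 = 3 := by simp [ell, L]; norm_num

lemma ell_rec (n : ℕ) : ell (n + 2) = 3 * ell (n + 1) - ell n := by
  simp only [ell]
  rw [L]
  simp only [eval_sub, eval_mul, eval_add, eval_X, eval_ofNat]
  norm_num

lemma ell_ge (n : ℕ) : 2 * ((n : ℝ) + 2) + 3 ≤ ell (n + 2) ∧ 2 * ell (n + 2) ≤ ell (n + 3) := by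
  induction n with
  | zero =>
    have h2 : ell 2 = 7 := by rw [ell_rec, ell_one, ell_zero]; norm_num
    have h3 : ell 3 = 18 := by rw [ell_rec 1, h2, ell_one]; norm_num
    constructor
    · rw [h2]; norm_num
    · rw [h2, h3]; norm_num
  | succ n ih =>
    obtain ⟨h1, h2⟩ := ih
    have hn : (0 : ℝ) ≤ n := Nat.cast_nonneg n
    have h3 := ell_rec (n + 2)
    push_cast
    refine ⟨?_, ?_⟩
    · rw [show n + 1 + 2 = n + 3 from rfl]; linarith
    · rw [show n + 1 + 3 = n + 2 + 2 from rfl, show n + 1 + 2 = n + 3 from rfl, h3,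
        show n + 2 + 1 = n + 3 from rfl]
      linarith

lemma G_coeff_zero (n : ℕ) (hn : 0 < n) : (G n).coeff 0 = ell n - 2 := by
  rw [coeff_zero_eq_eval_zero, G_eq n hn]
  simp [ell]

/-- first coefficient bound -/
lemma first_coeff {ι : Type*} (s : Finset ι) (e : ι → ℝ) (he : ∀ i ∈ s, 1 ≤ e i) :
    0 ≤ (∏ i ∈ s, (X + C (e i)) : ℝ[X]).coeff 0 ∧
    (∏ i ∈ s, (X + C (e i)) : ℝ[X]).coeff 1 ≤
      s.card * (∏ i ∈ s, (X + C (e i)) : ℝ[X]).coeff 0 := by
  classical
  induction s using Finset.induction_on with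
  | empty => simp [coeff_one]
  | insert i s hi ih =>
    obtain ⟨h0, h1⟩ := ih fun j hj => he j (mem_insert_of_mem hj)
    have hi1 := he i (mem_insert_self _ _)
    rw [prod_insert hi, card_insert_of_notMem hi]
    set p := (∏ i ∈ s, (X + C (e i)) : ℝ[X])
    have c0 : ((X + C (e i)) * p).coeff 0 = e i * p.coeff 0 := by
      simp [add_mul]
    have c1 : ((X + C (e i)) * p).coeff 1 = e i * p.coeff 1 + p.coeff 0 := by
      rw [add_mul, coeff_add, coeff_C_mul, show (1 : ℕ) = 0 + 1 from rfl, coeff_X_mul]; ring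
    rw [c0, c1]
    push_cast
    refine ⟨by positivity, ?_⟩
    nlinarith [mul_le_mul_of_nonneg_left h1 (by linarith : (0 : ℝ) ≤ e i)]

lemma first_coeff_pow (p : ℝ[X]) (c : ℝ) (h0 : 0 ≤ p.coeff 0) (h1 : p.coeff 1 ≤ c * p.coeff 0)
    (m : ℕ) : (p * (X + C 1) ^ m).coeff 0 = p.coeff 0 ∧
    (p * (X + C 1) ^ m).coeff 1 ≤ (c + m) * p.coeff 0 := by
  induction m with
  | zero => simp [h1]
  | succ m ih =>
    obtain ⟨a, b⟩ := ih
    rw [pow_succ, ← mul_assoc]
    set q := p * (X + C 1) ^ m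
    have c0 : (q * (X + C 1)).coeff 0 = q.coeff 0 := by simp [mul_add]
    have c1 : (q * (X + C 1)).coeff 1 = q.coeff 1 + q.coeff 0 := by
      rw [mul_add, coeff_add, coeff_mul_C, show (1 : ℕ) = 0 + 1 from rfl, coeff_mul_X]; ring
    rw [c0, c1, a]
    refine ⟨rfl, ?_⟩
    push_cast
    linarith

lemma G_coeff_one_le (n : ℕ) : (G n).coeff 1 ≤ (2 * n) * (G n).coeff 0 := by
  have he : ∀ k ∈ range n, (1 : ℝ) ≤ 3 - 2 * Real.cos (2 * Real.pi * k / n) := by
    intro k _
    have := Real.cos_le_one (2 * Real.pi * k / n)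
    linarith
  obtain ⟨h0, h1⟩ := first_coeff (range n) _ he
  obtain ⟨a, b⟩ := first_coeff_pow _ _ h0 h1 n
  rw [card_range] at b
  rw [G, a]
  linarith

lemma G_coeff_one_ge (n : ℕ) (hn : 0 < n) : (G n).coeff 0 ≤ (G n).coeff 1 := by
  obtain ⟨m, rfl⟩ := Nat.exists_eq_succ_of_ne_zero hn.ne'
  have hg : Good ((∏ k ∈ range (m + 1), (X + C (3 - 2 * Real.cos (2 * Real.pi * k / (m + 1 : ℕ)))))
      * (X + C 1) ^ m : ℝ[X]).coeff := by
    apply Good.mul_pow
    apply good_prod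
    intro k _
    have := Real.cos_le_one (2 * Real.pi * k / (m + 1 : ℕ))
    linarith
  rw [G, Nat.succ_eq_add_one, pow_succ, ← mul_assoc]
  set q := (∏ k ∈ range (m + 1), (X + C (3 - 2 * Real.cos (2 * Real.pi * k / (m + 1 : ℕ)))))
      * (X + C 1) ^ m
  have c0 : (q * (X + C 1)).coeff 0 = q.coeff 0 := by simp [mul_add]
  have c1 : (q * (X + C 1)).coeff 1 = q.coeff 1 + q.coeff 0 := by
    rw [mul_add, coeff_add, coeff_mul_C, show (1 : ℕ) = 0 + 1 from rfl, coeff_mul_X]; ring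
  rw [c0, c1]
  linarith [hg.nonneg 1]

/-- the coefficients of the f-polynomial -/
noncomputable def fr (n k : ℕ) : ℝ :=
  (if k = 0 then 2 else if k = 1 then 1 else 0) + (G n).coeff k

lemma G_one : G 1 = X ^ 2 + C 2 * X + C 1 := by
  rw [G_eq 1 one_pos, map_ofNat C 2, C_1]
  simp [L]
  ring

lemma fr_zero (n : ℕ) : fr n 0 = 2 + (G n).coeff 0 := by simp [fr]
lemma fr_one (n : ℕ) : fr n 1 = 1 + (G n).coeff 1 := by simp [fr]
lemma fr_big (n k : ℕ) : fr n (k + 2) = (G n).coeff (k + 2) := by simp [fr]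

theorem logconcave (n : ℕ) (hn : 0 < n) :
    fr n 1 ≤ fr n 0 ^ 2 ∧ ∀ k, fr n k * fr n (k + 2) ≤ fr n (k + 1) ^ 2 := by
  have hG := good_G n
  rcases Nat.lt_or_ge n 2 with h1 | h2
  · obtain rfl : n = 1 := by omega
    have e0 : (G 1).coeff 0 = 1 := by rw [G_one]; simp [coeff_X, coeff_X_pow, coeff_one]
    have e1 : (G 1).coeff 1 = 2 := by
      rw [G_one]
      simp [coeff_X, coeff_X_pow, coeff_one]
    have e2 : (G 1).coeff 2 = 1 := by
      rw [G_one]
      simp [coeff_X, coeff_X_pow, coeff_one]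
    have e3 : ∀ k, (G 1).coeff (k + 3) = 0 := by
      intro k
      rw [G_one]
      simp [coeff_X, coeff_X_pow, coeff_one]
    refine ⟨?_, ?_⟩
    · rw [fr_zero, fr_one, e0, e1]; norm_num
    · rintro (_ | _ | k)
      · rw [fr_zero, fr_one, fr_big, e0, e1, e2]; norm_num
      · have z : fr 1 (0 + 1 + 2) = 0 := by
          rw [show 0 + 1 + 2 = 1 + 2 from rfl, fr_big, show 1 + 2 = 0 + 3 from rfl, e3]
        rw [z, mul_zero]; positivity
      · have z : fr 1 (k + 1 + 1 + 2) = 0 := by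
          rw [show k + 1 + 1 + 2 = (k + 2) + 2 from rfl, fr_big,
            show k + 2 + 2 = (k + 1) + 3 from rfl, e3]
        rw [z, mul_zero]; positivity
  · obtain ⟨m, rfl⟩ := Nat.exists_eq_add_of_le' h2
    have g0 := G_coeff_zero (m + 2) hn
    have hl := (ell_ge m).1
    have g1 := G_coeff_one_le (m + 2)
    have g1' := G_coeff_one_ge (m + 2) hn
    push_cast at g1
    have hm : (0 : ℝ) ≤ m := Nat.cast_nonneg m
    have hg0 : 2 * ((m : ℝ) + 2) + 1 ≤ (G (m + 2)).coeff 0 := by linarith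
    refine ⟨?_, ?_⟩
    · rw [fr_zero, fr_one]
      nlinarith
    · rintro (_ | _ | k)
      · rw [fr_zero, fr_one, fr_big]
        have u := hG.ulc 0
        have n2 := hG.nonneg 2
        have n1 := hG.nonneg 1
        norm_num at u ⊢
        nlinarith [mul_nonneg (by linarith : (0 : ℝ) ≤ (G (m + 2)).coeff 0 - 2) n2]
      · rw [show 0 + 1 + 2 = 1 + 2 from rfl, show 0 + 1 + 1 = 0 + 2 from rfl, zero_add, fr_one,
          fr_big, fr_big]
        have u := hG.ulc 1
        have n3 := hG.nonneg (1 + 2)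
        norm_num at u n3 ⊢
        nlinarith [mul_nonneg (by linarith : (0 : ℝ) ≤ (G (m + 2)).coeff 1 - 2) n3]
      · rw [show k + 1 + 1 = k + 2 from rfl, show k + 2 + 1 = (k + 1) + 2 from rfl,
          fr_big, fr_big, fr_big]
        have u := hG.ulc (k + 2)
        rw [show k + 2 + 1 = k + 1 + 2 from rfl] at u
        have n2 := hG.nonneg (k + 2)
        have n4 := hG.nonneg (k + 2 + 2)
        push_cast at u
        have hk : (0 : ℝ) ≤ k := Nat.cast_nonneg k
        have hp := mul_nonneg n2 n4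
        nlinarith

end Pool.Agent.Q198.Crown
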