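import Pool.Agent.Q198.CrownB

set_option autoImplicit false

open Polynomial Finset

namespace Pool.Agent.Q198.Crown

def aN (n s : ℕ) : ℕ := (n + s).choose (2 * s) + (n + s - 1).choose (2 * s)

lemma aN_rec (n s : ℕ) : aN (n + 2) (s + 1) + aN n (s + 1) = aN (n + 1) s + 2 * aN (n + 1) (s + 1) := by
  have e1 : n + 2 + (s + 1) = (n + s) + 1 + 1 + 1 := by ring
  have e3 : n + (s + 1) = (n + s) + 1 := by ring
  have e5 : n + 1 + s = (n + s) + 1 := by ring
  have e6 : n + 1 + (s + 1) = (n + s) + 1 + 1 := by ring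
  have e8 : 2 * (s + 1) = 2 * s + 1 + 1 := by ring
  simp only [aN]
  rw [e1, e3, e5, e6, e8]
  generalize n + s = m
  generalize 2 * s = j
  simp only [Nat.add_sub_cancel]
  have p1 := Nat.choose_succ_succ (m + 1 + 1) (j + 1)
  have p2 := Nat.choose_succ_succ (m + 1) (j + 1)
  have p3 := Nat.choose_succ_succ m (j + 1)
  have p4 := Nat.choose_succ_succ (m + 1) j
  have p5 := Nat.choose_succ_succ m j
  simp only [Nat.succ_eq_add_one] at p1 p2 p3 p4 p5
  rw [p1, p2, p4, p3, p5]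
  ring

lemma aN_zero (n : ℕ) : aN n 0 = 2 := by simp [aN]

lemma coeff_L (n s : ℕ) : (L n).coeff s = aN n s := by
  induction n using Nat.twoStepInduction generalizing s with
  | zero =>
    rw [L]
    rcases s with _ | s
    · simp [aN]
    · have h : aN 0 (s + 1) = 0 := by
        simp only [aN]
        rw [Nat.choose_eq_zero_of_lt (by omega), Nat.choose_eq_zero_of_lt (by omega)]
      rw [h, show (2 : ℝ[X]) = C 2 from (map_ofNat C 2).symm, coeff_C]
      simp
  | one =>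
    rw [L, show (2 : ℝ[X]) = C 2 from (map_ofNat C 2).symm]
    rcases s with _ | _ | s
    · simp [aN]
    · simp [aN, coeff_X, coeff_C]
    · have h : aN 1 (s + 1 + 1) = 0 := by
        simp only [aN]
        rw [Nat.choose_eq_zero_of_lt (by omega), Nat.choose_eq_zero_of_lt (by omega)]
      rw [h]
      simp [coeff_X, coeff_C]
  | more n h1 h2 =>
    rw [L, show (2 : ℝ[X]) = C 2 from (map_ofNat C 2).symm]
    rcases s with _ | s
    · rw [coeff_sub, add_mul, coeff_add, coeff_C_mul, h1, h2, aN_zero, aN_zero, aN_zero]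
      simp
      norm_num
    · rw [coeff_sub, add_mul, coeff_add, coeff_C_mul, h1, h2, coeff_X_mul, h2]
      have := aN_rec n s
      have h3 : ((aN (n + 2) (s + 1) : ℕ) : ℝ) + aN n (s + 1)
          = aN (n + 1) s + 2 * aN (n + 1) (s + 1) := by exact_mod_cast this
      linarith

lemma L_natDegree (n : ℕ) : (L n).natDegree ≤ n := by
  rw [natDegree_le_iff_coeff_eq_zero]
  intro s hs
  rw [coeff_L]
  simp only [aN]
  rw [Nat.choose_eq_zero_of_lt (by omega), Nat.choose_eq_zero_of_lt (by omega)]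
  simp

lemma G_sum (n : ℕ) (hn : 0 < n) :
    G n = ∑ s ∈ Icc 1 n, C (aN n s : ℝ) * (1 + X) ^ (n + s) := by
  rw [G_eq n hn]
  have h := (L n).as_sum_range_C_mul_X_pow' (Nat.lt_succ_of_le (L_natDegree n))
  have h2 : (L n).comp (X + 1) = ∑ s ∈ range (n + 1), C (aN n s : ℝ) * (1 + X) ^ s := by
    conv_lhs => rw [h]
    rw [Polynomial.sum_comp]
    refine sum_congr rfl fun s _ => ?_
    rw [coeff_L]
    simp [add_comm]
  rw [h2, Finset.range_eq_Ico, Finset.sum_eq_sum_Ico_succ_bot (Nat.succ_pos n)]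
  rw [aN_zero]
  have h3 : C (((2 : ℕ) : ℝ)) * (1 + X : ℝ[X]) ^ 0 = 2 := by
    rw [pow_zero, mul_one, Nat.cast_ofNat, map_ofNat]
  rw [h3, add_sub_cancel_left, mul_sum]
  have h4 : Ico (0 + 1) n.succ = Icc 1 n := by
    ext i; simp only [mem_Ico, mem_Icc]; omega
  rw [h4]
  refine sum_congr rfl fun s _ => ?_
  rw [pow_add, add_comm X 1]; ring

lemma G_coeff (n : ℕ) (hn : 0 < n) (k : ℕ) :
    (G n).coeff k = ∑ s ∈ Icc 1 n, (aN n s : ℝ) * (n + s).choose k := by
  rw [G_sum n hn, finsetSum_coeff]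
  refine sum_congr rfl fun s _ => ?_
  rw [coeff_C_mul, coeff_one_add_X_pow]

/-- The binomial coefficient `C(a, r - k)`, zero when `k > r`. -/
def binSub (a r k : ℕ) : ℕ := if k ≤ r then a.choose (r - k) else 0

/-- `N_n(r,s) = (2 n / r) C(r, 2 s) C(n + s - 1, r - 1)`. -/
def N (n r s : ℕ) : ℚ :=
  2 * n / r * (r.choose (2 * s)) * ((n + s - 1).choose (r - 1))

/-- The face numbers. -/
def f (n k : ℕ) : ℚ :=
  (if k = 0 then 2 else if k = 1 then 1 else 0) +
    ∑ s ∈ Icc 1 n, ∑ r ∈ Icc (2 * s) (2 * n), N n r s * binSub (2 * s) r k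

lemma N_eq (n s i : ℕ) (hs : 1 ≤ s) (hsn : s ≤ n) :
    N n (2 * s + i) s = aN n s * (n - s).choose i := by
  obtain ⟨t, rfl⟩ := Nat.exists_eq_add_of_le' hs
  obtain ⟨m, rfl⟩ := Nat.exists_eq_add_of_le hsn
  -- s = t + 1, n = t + 1 + m, 2 s = 2 t + 2, n + s - 1 = 2 t + 1 + m, r - 1 = 2 t + 1 + i
  have i1 : t + 1 + m + (t + 1) - 1 = 2 * t + 1 + m := by omega
  have i2 : 2 * (t + 1) + i - 1 = 2 * t + 1 + i := by omega
  have i3 : t + 1 + m + (t + 1) = 2 * t + 1 + m + 1 := by omega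
  have i4 : t + 1 + m - (t + 1) = m := by omega
  have i5 : 2 * (t + 1) = 2 * t + 1 + 1 := by omega
  have i6 : 2 * (t + 1) + i = 2 * t + 1 + i + 1 := by omega
  have k1 : ((2 * t + 1 + i + 1 : ℕ) : ℚ) * (2 * t + 1 + i).choose (2 * t + 1)
      = (2 * t + 1 + i + 1).choose (2 * t + 1 + 1) * ((2 * t + 1 + 1 : ℕ) : ℚ) := by
    exact_mod_cast Nat.add_one_mul_choose_eq (2 * t + 1 + i) (2 * t + 1)
  have k2 : ((2 * t + 1 + m + 1 : ℕ) : ℚ) * (2 * t + 1 + m).choose (2 * t + 1)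
      = (2 * t + 1 + m + 1).choose (2 * t + 1 + 1) * ((2 * t + 1 + 1 : ℕ) : ℚ) := by
    exact_mod_cast Nat.add_one_mul_choose_eq (2 * t + 1 + m) (2 * t + 1)
  have k3 : ((2 * t + 1 + m).choose (2 * t + 1 + 1) : ℚ) * ((2 * t + 1 + 1 : ℕ) : ℚ)
      = (2 * t + 1 + m).choose (2 * t + 1) * m := by
    have := Nat.choose_succ_right_eq (2 * t + 1 + m) (2 * t + 1)
    rw [show 2 * t + 1 + m - (2 * t + 1) = m by omega] at this
    exact_mod_cast this
  have k4 : ((2 * t + 1 + m).choose (2 * t + 1 + i) : ℚ) * (2 * t + 1 + i).choose (2 * t + 1)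
      = (2 * t + 1 + m).choose (2 * t + 1) * m.choose i := by
    by_cases him : i ≤ m
    · have := Nat.choose_mul (n := 2 * t + 1 + m) (k := 2 * t + 1 + i) (s := 2 * t + 1)
        (by omega)
      rw [show 2 * t + 1 + m - (2 * t + 1) = m by omega,
        show 2 * t + 1 + i - (2 * t + 1) = i by omega] at this
      exact_mod_cast this
    · rw [Nat.choose_eq_zero_of_lt (show 2 * t + 1 + m < 2 * t + 1 + i by omega),
        Nat.choose_eq_zero_of_lt (show m < i by omega)]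
      simp
  unfold N aN
  rw [i2, i1, i3, i4, i6, i5]
  have hr : ((2 * t + 1 + i + 1 : ℕ) : ℚ) ≠ 0 := by positivity
  have hs' : ((2 * t + 1 + 1 : ℕ) : ℚ) ≠ 0 := by positivity
  have e1 : ((2 * t + 1 + i + 1).choose (2 * t + 1 + 1) : ℚ)
      = ((2 * t + 1 + i + 1 : ℕ) : ℚ) * (2 * t + 1 + i).choose (2 * t + 1)
        / ((2 * t + 1 + 1 : ℕ) : ℚ) := by
    rw [k1]; field_simp
  have e2 : ((2 * t + 1 + m + 1).choose (2 * t + 1 + 1) : ℚ)
      = ((2 * t + 1 + m + 1 : ℕ) : ℚ) * (2 * t + 1 + m).choose (2 * t + 1)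
        / ((2 * t + 1 + 1 : ℕ) : ℚ) := by
    rw [k2]; field_simp
  have e3 : ((2 * t + 1 + m).choose (2 * t + 1 + 1) : ℚ)
      = (2 * t + 1 + m).choose (2 * t + 1) * m / ((2 * t + 1 + 1 : ℕ) : ℚ) := by
    rw [← k3]; field_simp
  rw [Nat.cast_add ((2 * t + 1 + m + 1).choose (2 * t + 1 + 1)), e1, e2, e3]
  have e4 : (2 : ℚ) * ((t + 1 + m : ℕ) : ℚ) / ((2 * t + 1 + i + 1 : ℕ) : ℚ)
      * (((2 * t + 1 + i + 1 : ℕ) : ℚ) * (2 * t + 1 + i).choose (2 * t + 1)
        / ((2 * t + 1 + 1 : ℕ) : ℚ)) * (2 * t + 1 + m).choose (2 * t + 1 + i)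
      = 2 * ((t + 1 + m : ℕ) : ℚ) / ((2 * t + 1 + 1 : ℕ) : ℚ)
        * ((2 * t + 1 + m).choose (2 * t + 1 + i) * (2 * t + 1 + i).choose (2 * t + 1)) := by
    field_simp
  rw [e4, k4]
  push_cast
  field_simp
  ring

lemma vandermonde (m s k : ℕ) : ∑ i ∈ range (m + 1), m.choose i * binSub (2 * s) (2 * s + i) k
    = (m + 2 * s).choose k := by
  rw [Nat.add_choose_eq, Finset.Nat.sum_antidiagonal_eq_sum_range_succ_mk]
  have h1 : ∀ i, m.choose i * binSub (2 * s) (2 * s + i) k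
      = if i ≤ k then m.choose i * (2 * s).choose (k - i) else 0 := by
    intro i
    unfold binSub
    by_cases hik : i ≤ k
    · rw [if_pos hik]
      by_cases hk : k ≤ 2 * s + i
      · rw [if_pos hk]
        congr 1
        rw [← Nat.choose_symm (show k - i ≤ 2 * s by omega)]
        congr 1
        omega
      · rw [if_neg hk, Nat.choose_eq_zero_of_lt (show 2 * s < k - i by omega)]
    · rw [if_neg hik, if_pos (by omega),
        Nat.choose_eq_zero_of_lt (show 2 * s < 2 * s + i - k by omega), mul_zero]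
  rw [sum_congr rfl fun i _ => h1 i]
  rw [← Finset.sum_filter]
  have hsub1 : (range (m + 1)).filter (fun i => i ≤ k) ⊆ range (k + 1) := by
    intro i hi
    rw [mem_filter] at hi
    rw [mem_range]; omega
  refine Finset.sum_subset hsub1 ?_
  intro i hi hni
  rw [mem_range] at hi
  rw [mem_filter, mem_range] at hni
  rw [Nat.choose_eq_zero_of_lt (show m < i by omega), zero_mul]

theorem f_eq (n k : ℕ) (hn : 0 < n) : ((f n k : ℚ) : ℝ) = fr n k := by
  unfold f fr
  rw [G_coeff n hn k]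
  have h1 : ∑ s ∈ Icc 1 n, ∑ r ∈ Icc (2 * s) (2 * n), N n r s * binSub (2 * s) r k
      = ∑ s ∈ Icc 1 n, (aN n s : ℚ) * (n + s).choose k := by
    refine sum_congr rfl fun s hs => ?_
    rw [mem_Icc] at hs
    obtain ⟨hs1, hs2⟩ := hs
    have h2 : Icc (2 * s) (2 * n) = (range (2 * n - 2 * s + 1)).map
        ⟨fun i => 2 * s + i, fun a b hab => by simpa using hab⟩ := by
      ext r
      simp only [mem_Icc, mem_map, mem_range, Function.Embedding.coeFn_mk]
      constructor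
      · rintro ⟨h1, h2⟩
        exact ⟨r - 2 * s, by omega, by omega⟩
      · rintro ⟨i, hi, rfl⟩
        omega
    rw [h2, sum_map]
    simp only [Function.Embedding.coeFn_mk]
    have h3 : ∀ i, N n (2 * s + i) s * binSub (2 * s) (2 * s + i) k
        = aN n s * (((n - s).choose i * binSub (2 * s) (2 * s + i) k : ℕ) : ℚ) := by
      intro i
      rw [N_eq n s i hs1 hs2]
      push_cast
      ring
    rw [sum_congr rfl fun i _ => h3 i, ← mul_sum, ← Nat.cast_sum]
    have h4 : ∑ i ∈ range (2 * n - 2 * s + 1), (n - s).choose i * binSub (2 * s) (2 * s + i) k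
        = ∑ i ∈ range (n - s + 1), (n - s).choose i * binSub (2 * s) (2 * s + i) k := by
      symm
      apply sum_subset
      · intro i hi
        rw [mem_range] at hi ⊢
        omega
      · intro i _ hi
        rw [mem_range] at hi
        rw [Nat.choose_eq_zero_of_lt (by omega), zero_mul]
    rw [h4, vandermonde, show n - s + 2 * s = n + s by omega]
  rw [h1]
  push_cast
  congr 1
  split_ifs <;> norm_num

theorem main (n : ℕ) (hn : 0 < n) :
    f n 1 ≤ f n 0 ^ 2 ∧ ∀ k, f n k * f n (k + 2) ≤ f n (k + 1) ^ 2 := by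
  obtain ⟨h1, h2⟩ := logconcave n hn
  refine ⟨?_, fun k => ?_⟩
  · have : ((f n 1 : ℚ) : ℝ) ≤ ((f n 0 ^ 2 : ℚ) : ℝ) := by
      push_cast; rw [f_eq n 1 hn, f_eq n 0 hn]; exact h1
    exact_mod_cast this
  · have : ((f n k * f n (k + 2) : ℚ) : ℝ) ≤ ((f n (k + 1) ^ 2 : ℚ) : ℝ) := by
      push_cast; rw [f_eq n k hn, f_eq n (k + 2) hn, f_eq n (k + 1) hn]; exact h2 k
    exact_mod_cast this

end Pool.Agent.Q198.Crown
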