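import Pool.Agent.Q198.WeakBasis

set_option autoImplicit false

/-!
# The classes of spaces with the D2P and the DD2P are `G_δ` subsets of `𝒫_∞`
-/

namespace Pool.Agent.Q198.D2GD

open Filter Topology Set Pool.Agent.Q198.Weak

/-- The vector space over `ℚ` with countable Hamel basis. -/
abbrev V : Type := ℕ →₀ ℚ

/-- Pseudonorms on `V`. -/
structure IsPseudonorm (μ : V → ℝ) : Prop where
  nonneg : ∀ v, 0 ≤ μ v
  add_le : ∀ u v, μ (u + v) ≤ μ u + μ v
  smul : ∀ (q : ℚ) (v : V), μ (q • v) = |(q : ℝ)| * μ v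

/-- `X` is the space `X_μ` coded by `μ`: there is an additive (hence `ℚ`-linear) map `V → X` with
dense range and `‖J v‖ = μ v`. For complete `X` this determines `X` up to isometry. -/
def Codes (μ : V → ℝ) (X : Type) [NormedAddCommGroup X] [NormedSpace ℝ X] : Prop :=
  ∃ J : V →+ X, (∀ v, ‖J v‖ = μ v) ∧ DenseRange J

/-- The pseudonorms `μ` for which `X_μ` is infinite-dimensional. -/
def PInf : Set (V → ℝ) :=
  {μ | IsPseudonorm μ ∧ ∃ (X : Type) (_ : NormedAddCommGroup X) (_ : NormedSpace ℝ X),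
    CompleteSpace X ∧ Codes μ X ∧ ¬ FiniteDimensional ℝ X}

/-- The diameter two property. -/
def D2P (X : Type) [NormedAddCommGroup X] [NormedSpace ℝ X] : Prop :=
  ∀ W : Set X, RelWeaklyOpen W → W.Nonempty → Metric.diam W = 2

/-- The diametral diameter two property. -/
def DD2P (X : Type) [NormedAddCommGroup X] [NormedSpace ℝ X] : Prop :=
  ∀ W : Set X, RelWeaklyOpen W → ∀ x ∈ W, ∀ ε : ℝ, 0 < ε → ∃ y ∈ W, 1 + ‖x‖ - ε ≤ ‖x - y‖

/-- The class of the spaces with property `Q` in `𝒫_∞`. -/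
def classOf (Q : ∀ (X : Type) [NormedAddCommGroup X] [NormedSpace ℝ X], Prop) : Set PInf :=
  {μ | ∃ (X : Type) (_ : NormedAddCommGroup X) (_ : NormedSpace ℝ X),
    CompleteSpace X ∧ Codes μ.1 X ∧ Q X}

/-! ### Weak closures and colourings -/

section key

variable {U : Type} [AddCommGroup U] [Module ℚ U] {E : Type} [NormedAddCommGroup E]
  [NormedSpace ℝ E]

theorem map_ratsmul (J : U →+ E) (q : ℚ) (u : U) : J (q • u) = (q : ℝ) • J u := by
  have := map_ratCast_smul J ℚ ℝ q u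
  simpa using this

theorem convex_closure_image (J : U →+ E) {T : Set U} (hT : Convex ℚ T) :
    Convex ℝ (closure (J '' T)) := by
  have hrat : ∀ q : ℚ, 0 ≤ q → q ≤ 1 → ∀ a ∈ closure (J '' T), ∀ b ∈ closure (J '' T),
      (1 - (q : ℝ)) • a + (q : ℝ) • b ∈ closure (J '' T) := by
    intro q hq0 hq1 a ha b hb
    refine map_mem_closure₂ (f := fun a b : E => (1 - (q : ℝ)) • a + (q : ℝ) • b)
      (by fun_prop) ha hb ?_
    rintro _ ⟨u, hu, rfl⟩ _ ⟨v, hv, rfl⟩
    refine ⟨(1 - q) • u + q • v, hT hu hv (by linarith) hq0 (by ring), ?_⟩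
    rw [map_add, map_ratsmul, map_ratsmul]
    push_cast
    rfl
  rw [convex_iff_segment_subset]
  intro a ha b hb y hy
  rw [segment_eq_image] at hy
  obtain ⟨t, ⟨ht0, ht1⟩, rfl⟩ := hy
  rcases ht0.eq_or_lt with rfl | ht0
  · simpa using ha
  rcases ht1.eq_or_lt with rfl | ht1
  · simpa using hb
  have hcl : IsClosed {t : ℝ | (1 - t) • a + t • b ∈ closure (J '' T)} :=
    isClosed_closure.preimage (by fun_prop)
  have hd : t ∈ closure (Set.Ioo (0 : ℝ) 1 ∩ Set.range ((↑) : ℚ → ℝ)) :=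
    Rat.denseRange_cast.open_subset_closure_inter isOpen_Ioo ⟨ht0, ht1⟩
  refine hcl.closure_subset_iff.2 ?_ hd
  rintro _ ⟨⟨h0, h1⟩, q, rfl⟩
  exact hrat q (by exact_mod_cast h0.le) (by exact_mod_cast h1.le) a ha b hb

/-- `x` belongs to the weak closure of `J(S)`. -/
def WeakClosure (J : U →+ E) (S : Set U) (x : E) : Prop :=
  ∀ (F : Finset (StrongDual ℝ E)) (η : ℝ), 0 < η → ∃ u ∈ S, ∀ f ∈ F, |f (J u) - f x| < η

/-- The colouring condition. -/
def Colouring (J : U →+ E) (S : Set U) (x : E) : Prop :=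
  ∀ (n : ℕ) (δ : ℝ), 0 < δ → ∃ F : Finset U, (∀ u ∈ F, u ∈ S) ∧ ∀ c : F → Fin n, ∃ k : Fin n,
    ∃ u ∈ convexHull ℚ {v : U | ∃ h : v ∈ F, c ⟨v, h⟩ = k}, ‖J u - x‖ < δ

theorem colouring_of_weakClosure {J : U →+ E} {S : Set U} {x : E} (h : WeakClosure J S x) :
    Colouring J S x := by
  classical
  intro n δ hδ
  by_contra hcon
  push Not at hcon
  obtain ⟨u₀, hu₀, -⟩ := h ∅ 1 one_pos
  obtain ⟨c₀, -⟩ := hcon {u₀} (by simpa using hu₀)
  let k₀ : Fin n := c₀ ⟨u₀, Finset.mem_singleton_self u₀⟩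
  -- a bad colouring of the whole of `S` for each finite subset
  have h1 : ∀ F : Finset S, ∃ c : S → Fin n, ∀ k : Fin n,
      ∀ u ∈ convexHull ℚ {v : U | ∃ h : v ∈ S, (⟨v, h⟩ : S) ∈ F ∧ c ⟨v, h⟩ = k},
        δ ≤ ‖J u - x‖ := by
    intro F
    obtain ⟨c, hc⟩ := hcon (F.map (Function.Embedding.subtype _)) (by
      intro u hu
      simp only [Finset.mem_map, Function.Embedding.subtype_apply] at hu
      obtain ⟨a, -, rfl⟩ := hu
      exact a.2)
    refine ⟨fun s => if h : (s : U) ∈ F.map (Function.Embedding.subtype _) then c ⟨s, h⟩ else k₀,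
      fun k u hu => hc k u ?_⟩
    refine convexHull_mono ?_ hu
    rintro v ⟨hv, hvF, hck⟩
    have hvm : v ∈ F.map (Function.Embedding.subtype _) :=
      Finset.mem_map.2 ⟨⟨v, hv⟩, hvF, rfl⟩
    refine ⟨hvm, ?_⟩
    simp only at hck
    rw [dif_pos hvm] at hck
    exact hck
  choose c hc using h1
  let 𝒰 : Ultrafilter (Finset S) := Ultrafilter.of atTop
  have h𝒰 : (𝒰 : Filter (Finset S)) ≤ atTop := Ultrafilter.of_le _
  have h2 : ∀ s : S, ∃ k : Fin n, ∀ᶠ F in (𝒰 : Filter (Finset S)), c F s = k := by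
    intro s
    obtain ⟨k, hk⟩ := Ultrafilter.eq_pure_of_finite (𝒰.map fun F => c F s)
    refine ⟨k, ?_⟩
    have : {k} ∈ 𝒰.map fun F => c F s := by
      rw [hk]
      exact Set.mem_singleton k
    exact this
  choose d hd using h2
  -- the limit colouring is bad
  have h3 : ∀ k : Fin n, ∀ u ∈ convexHull ℚ {v : U | ∃ h : v ∈ S, d ⟨v, h⟩ = k},
      δ ≤ ‖J u - x‖ := by
    intro k u hu
    rw [convexHull_eq_union_convexHull_finite_subsets] at hu
    simp only [Set.mem_iUnion] at hu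
    obtain ⟨T, hT, hu⟩ := hu
    have hTS : ∀ v ∈ T, v ∈ S := fun v hv => (hT hv).1
    have h4 : ∀ᶠ F in (𝒰 : Filter (Finset S)), ∀ v : T, (⟨v, hTS v v.2⟩ : S) ∈ F ∧
        c F ⟨v, hTS v v.2⟩ = k := by
      rw [eventually_all]
      intro v
      have h5 : ∀ᶠ F in (𝒰 : Filter (Finset S)), {(⟨v, hTS v v.2⟩ : S)} ⊆ F :=
        h𝒰 (eventually_ge_atTop _)
      obtain ⟨_, h6⟩ := hT v.2
      filter_upwards [h5, hd ⟨v, hTS v v.2⟩] with F hF hF'
      exact ⟨hF (Finset.mem_singleton_self _), hF'.trans h6⟩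
    obtain ⟨F, hF⟩ := h4.exists
    refine hc F k u (convexHull_mono ?_ hu)
    intro v hv
    exact ⟨hTS v hv, hF ⟨v, hv⟩⟩
  -- separation
  have h4 : ∀ k : Fin n, ∃ (f : StrongDual ℝ E) (η : ℝ), 0 < η ∧
      ∀ s : S, d s = k → η ≤ f (J s) - f x := by
    intro k
    let C := closure (J '' convexHull ℚ {v : U | ∃ h : v ∈ S, d ⟨v, h⟩ = k})
    have hxC : x ∉ C := by
      intro hx
      obtain ⟨_, ⟨u, hu, rfl⟩, hlt⟩ := Metric.mem_closure_iff.1 hx δ hδ
      rw [dist_comm, dist_eq_norm] at hlt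
      exact absurd hlt (not_lt.2 (h3 k u hu))
    obtain ⟨f, t, h5, h6⟩ := geometric_hahn_banach_point_closed
      (convex_closure_image J (convex_convexHull ℚ _)) isClosed_closure hxC
    refine ⟨f, t - f x, sub_pos.2 h5, fun s hs => ?_⟩
    have := h6 (J s) (subset_closure ⟨s, subset_convexHull ℚ _ ⟨s.2, hs⟩, rfl⟩)
    linarith
  choose f η hη hf using h4
  have : Nonempty (Fin n) := ⟨k₀⟩
  obtain ⟨k₁, hk₁⟩ := Finite.exists_min η
  obtain ⟨u, hu, hfu⟩ := h (Finset.univ.image f) (η k₁) (hη k₁)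
  have h5 := hfu (f (d ⟨u, hu⟩)) (Finset.mem_image_of_mem _ (Finset.mem_univ _))
  have h6 := hf (d ⟨u, hu⟩) ⟨u, hu⟩ rfl
  have h7 := hk₁ (d ⟨u, hu⟩)
  have h8 := le_abs_self (f (d ⟨u, hu⟩) (J u) - f (d ⟨u, hu⟩) x)
  simp only at h6
  linarith

theorem weakClosure_of_colouring {J : U →+ E} {S : Set U} {x : E} (h : Colouring J S x) :
    WeakClosure J S x := by
  classical
  intro F₀ η hη
  by_contra hcon
  push Not at hcon
  have hcol : ∀ u : U, ∃ p : F₀ × Bool, u ∈ S →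
      η ≤ (if p.2 then (1 : ℝ) else -1) * ((p.1 : StrongDual ℝ E) (J u) -
        (p.1 : StrongDual ℝ E) x) := by
    intro u
    by_cases hu : u ∈ S
    · obtain ⟨f, hf, hfu⟩ := hcon u hu
      rcases le_abs.1 hfu with h1 | h1
      · exact ⟨(⟨f, hf⟩, true), fun _ => by simpa using h1⟩
      · exact ⟨(⟨f, hf⟩, false), fun _ => by simpa using h1⟩
    · rcases F₀.eq_empty_or_nonempty with h0 | ⟨f, hf⟩
      · exfalso
        obtain ⟨F, hF, hF'⟩ := h 1 1 one_pos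
        obtain ⟨k, v, hv, -⟩ := hF' (fun _ => 0)
        have : {v : U | ∃ h : v ∈ F, (fun _ : F => (0 : Fin 1)) ⟨v, h⟩ = k}.Nonempty := by
          rw [← convexHull_nonempty_iff (𝕜 := ℚ)]
          exact ⟨v, hv⟩
        obtain ⟨w, hw, -⟩ := this
        obtain ⟨f, hf, -⟩ := hcon w (hF w hw)
        rw [h0] at hf
        exact absurd hf (Finset.notMem_empty _)
      · exact ⟨(⟨f, hf⟩, true), fun h => absurd h hu⟩
  choose p hp using hcol
  let e := Fintype.equivFin (F₀ × Bool)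
  set K : ℝ := 1 + ∑ f ∈ F₀, ‖f‖ with hK
  have hK1 : 0 < K := by
    have : 0 ≤ ∑ f ∈ F₀, ‖f‖ := Finset.sum_nonneg fun f _ => norm_nonneg f
    linarith
  obtain ⟨F, hFS, hF⟩ := h (Fintype.card (F₀ × Bool)) (η / K) (div_pos hη hK1)
  obtain ⟨k, u, hu, hlt⟩ := hF fun v => e (p v)
  obtain ⟨⟨⟨g, hg⟩, b⟩, hq⟩ : ∃ q, e.symm k = q := ⟨_, rfl⟩
  have h1 : {v : U | ∃ h : v ∈ F, e (p v) = k} ⊆
      {v : U | η ≤ (if b then (1 : ℝ) else -1) * (g (J v) - g x)} := by
    rintro v ⟨hv, hvk⟩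
    have h2 : p v = e.symm k := by rw [← hvk, Equiv.symm_apply_apply]
    have h3 := hp v (hFS v hv)
    rw [h2, hq] at h3
    exact h3
  have h2 : Convex ℚ {v : U | η ≤ (if b then (1 : ℝ) else -1) * (g (J v) - g x)} := by
    intro v hv w hw s t hs ht hst
    simp only [Set.mem_ofPred_eq] at hv hw ⊢
    rw [map_add, map_add, map_ratsmul, map_ratsmul, map_smul, map_smul, smul_eq_mul, smul_eq_mul]
    have hs' : (0 : ℝ) ≤ s := by exact_mod_cast hs
    have ht' : (0 : ℝ) ≤ t := by exact_mod_cast ht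
    have hst' : (s : ℝ) + t = 1 := by exact_mod_cast hst
    have e1 := mul_le_mul_of_nonneg_left hv hs'
    have e2 := mul_le_mul_of_nonneg_left hw ht'
    have e3 : (if b then (1 : ℝ) else -1) * ((s : ℝ) * g (J v) + (t : ℝ) * g (J w) - g x) =
        s * ((if b then (1 : ℝ) else -1) * (g (J v) - g x)) +
        t * ((if b then (1 : ℝ) else -1) * (g (J w) - g x)) := by
      have : g x = ((s : ℝ) + t) * g x := by rw [hst', one_mul]
      conv_lhs => rw [this]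
      ring
    rw [e3]
    calc η = ((s : ℝ) + t) * η := by rw [hst', one_mul]
      _ = s * η + t * η := by ring
      _ ≤ _ := add_le_add e1 e2
  have h3 : η ≤ (if b then (1 : ℝ) else -1) * (g (J u) - g x) := convexHull_min h1 h2 hu
  have h4 : |g (J u) - g x| < η := by
    rw [← map_sub]
    have hgK : ‖g‖ < K := by
      have : ‖g‖ ≤ ∑ f ∈ F₀, ‖f‖ :=
        Finset.single_le_sum (f := fun f : StrongDual ℝ E => ‖f‖) (fun f _ => norm_nonneg f) hg
      linarith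
    calc |g (J u - x)| ≤ ‖g‖ * ‖J u - x‖ := g.le_opNorm _
      _ ≤ K * ‖J u - x‖ := mul_le_mul_of_nonneg_right hgK.le (norm_nonneg _)
      _ < K * (η / K) := mul_lt_mul_of_pos_left hlt hK1
      _ = η := mul_div_cancel₀ _ hK1.ne'
  have h5 : (if b then (1 : ℝ) else -1) * (g (J u) - g x) ≤ |g (J u) - g x| := by
    cases b
    · simpa using neg_le_abs (g (J u) - g x)
    · simpa using le_abs_self (g (J u) - g x)
  linarith

theorem weakClosure_iff {J : U →+ E} {S : Set U} {x : E} :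
    WeakClosure J S x ↔ Colouring J S x :=
  ⟨colouring_of_weakClosure, weakClosure_of_colouring⟩

end key

/-! ### Borel complexity -/

section gdelta

theorem isGδ_ge (x : V) : IsGδ {μ : V → ℝ | 1 ≤ μ x} := by
  have h1 : IsGδ (Set.Ici (1 : ℝ)) := isClosed_Ici.isGδ
  exact IsGδ.preimage (continuous_apply x) h1

variable {U : Type} [AddCommGroup U] [Module ℚ U]

theorem isGδ_colouring [Countable U] (S : (V → ℝ) → V → ℝ → Set U)
    (hS : ∀ x ε u, IsOpen {μ : V → ℝ | u ∈ S μ x ε})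
    (hmono : ∀ μ x ε ε', ε ≤ ε' → S μ x ε ⊆ S μ x ε') (N : (V → ℝ) → V → U → ℝ)
    (hN : ∀ x u, Continuous fun μ => N μ x u) :
    IsGδ {μ : V → ℝ | ∀ x, μ x < 1 → ∀ ε : ℝ, 0 < ε → ∀ (n : ℕ) (δ : ℝ), 0 < δ →
      ∃ F : Finset U, (∀ u ∈ F, u ∈ S μ x ε) ∧ ∀ c : F → Fin n, ∃ k : Fin n,
        ∃ u ∈ convexHull ℚ {v : U | ∃ h : v ∈ F, c ⟨v, h⟩ = k}, N μ x u < δ} := by
  let A : V → ℕ → ℕ → ℕ → Set (V → ℝ) := fun x m n l =>
    ⋃ F : Finset U, (⋂ u : F, {μ : V → ℝ | (u : U) ∈ S μ x (1 / ((m : ℝ) + 1))}) ∩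
      ⋂ c : F → Fin n, ⋃ k : Fin n, ⋃ u ∈ convexHull ℚ {v : U | ∃ h : v ∈ F, c ⟨v, h⟩ = k},
        {μ : V → ℝ | N μ x u < 1 / ((l : ℝ) + 1)}
  have hA : ∀ x m n l, IsOpen (A x m n l) := by
    intro x m n l
    refine isOpen_iUnion fun F => IsOpen.inter (isOpen_iInter_of_finite fun u => hS _ _ _) ?_
    refine isOpen_iInter_of_finite fun c => isOpen_iUnion fun k => isOpen_biUnion fun u _ => ?_
    exact isOpen_lt (hN x u) continuous_const
  have hset : {μ : V → ℝ | ∀ x, μ x < 1 → ∀ ε : ℝ, 0 < ε → ∀ (n : ℕ) (δ : ℝ), 0 < δ →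
      ∃ F : Finset U, (∀ u ∈ F, u ∈ S μ x ε) ∧ ∀ c : F → Fin n, ∃ k : Fin n,
        ∃ u ∈ convexHull ℚ {v : U | ∃ h : v ∈ F, c ⟨v, h⟩ = k}, N μ x u < δ} =
      ⋂ x : V, ⋂ m : ℕ, ⋂ n : ℕ, ⋂ l : ℕ, ({μ : V → ℝ | 1 ≤ μ x} ∪ A x m n l) := by
    ext μ
    simp only [Set.mem_ofPred_eq, Set.mem_iInter, Set.mem_union, A, Set.mem_iUnion,
      Set.mem_inter_iff]
    constructor
    · intro h x m n l
      by_cases hx : μ x < 1
      · right
        obtain ⟨F, hF, hF'⟩ := h x hx (1 / ((m : ℝ) + 1)) Nat.one_div_pos_of_nat n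
          (1 / ((l : ℝ) + 1)) Nat.one_div_pos_of_nat
        refine ⟨F, fun u => hF u u.2, fun c => ?_⟩
        obtain ⟨k, u, hu, hlt⟩ := hF' c
        exact ⟨k, u, hu, hlt⟩
      · exact Or.inl (not_lt.1 hx)
    · intro h x hx ε hε n δ hδ
      obtain ⟨m, hm⟩ := exists_nat_one_div_lt hε
      obtain ⟨l, hl⟩ := exists_nat_one_div_lt hδ
      rcases h x m n l with h1 | ⟨F, hF, hF'⟩
      · exact absurd hx (not_lt.2 h1)
      · refine ⟨F, fun u hu => hmono μ x _ _ hm.le (hF ⟨u, hu⟩), fun c => ?_⟩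
        obtain ⟨k, u, hu, hlt⟩ := hF' c
        exact ⟨k, u, hu, lt_trans hlt hl⟩
  rw [hset]
  refine IsGδ.iInter fun x => IsGδ.iInter fun m => IsGδ.iInter fun n => IsGδ.iInter fun l => ?_
  exact (isGδ_ge x).union (hA x m n l).isGδ

end gdelta

/-! ### The combinatorial conditions -/

/-- Pairs of almost antipodal elements. -/
def S₁ (μ : V → ℝ) (_x : V) (ε : ℝ) : Set (V × V) :=
  {u | μ u.1 < 1 ∧ μ u.2 < 1 ∧ 2 - ε < μ (u.1 - u.2)}

/-- The points almost diametral to `x`. -/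
def S₂ (μ : V → ℝ) (x : V) (ε : ℝ) : Set V := {y | μ y < 1 ∧ 1 + μ x - ε < μ (x - y)}

/-- The colouring condition for the D2P. -/
def C₁ : Set (V → ℝ) := {μ : V → ℝ | ∀ x, μ x < 1 → ∀ ε : ℝ, 0 < ε → ∀ (n : ℕ) (δ : ℝ), 0 < δ →
      ∃ F : Finset (V × V), (∀ u ∈ F, u ∈ S₁ μ x ε) ∧ ∀ c : F → Fin n, ∃ k : Fin n,
        ∃ u ∈ convexHull ℚ {v : V × V | ∃ h : v ∈ F, c ⟨v, h⟩ = k},
          max (μ (u.1 - x)) (μ (u.2 - x)) < δ}

/-- The colouring condition for the DD2P. -/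
def C₂ : Set (V → ℝ) := {μ : V → ℝ | ∀ x, μ x < 1 → ∀ ε : ℝ, 0 < ε → ∀ (n : ℕ) (δ : ℝ), 0 < δ →
      ∃ F : Finset V, (∀ u ∈ F, u ∈ S₂ μ x ε) ∧ ∀ c : F → Fin n, ∃ k : Fin n,
        ∃ u ∈ convexHull ℚ {v : V | ∃ h : v ∈ F, c ⟨v, h⟩ = k}, μ (u - x) < δ}

theorem isGδ_C₁ : IsGδ C₁ := by
  refine isGδ_colouring S₁ (fun x ε u => ?_) (fun μ x ε ε' h u hu => ?_)
    (fun μ x u => max (μ (u.1 - x)) (μ (u.2 - x))) (fun x u => ?_)
  · have h1 : IsOpen {μ : V → ℝ | μ u.1 < 1} := isOpen_lt (continuous_apply _) continuous_const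
    have h2 : IsOpen {μ : V → ℝ | μ u.2 < 1} := isOpen_lt (continuous_apply _) continuous_const
    have h3 : IsOpen {μ : V → ℝ | 2 - ε < μ (u.1 - u.2)} :=
      isOpen_lt continuous_const (continuous_apply _)
    exact h1.inter (h2.inter h3)
  · exact ⟨hu.1, hu.2.1, by linarith [hu.2.2]⟩
  · exact (continuous_apply _).max (continuous_apply _)

theorem isGδ_C₂ : IsGδ C₂ := by
  refine isGδ_colouring S₂ (fun x ε u => ?_) (fun μ x ε ε' h u hu => ?_)
    (fun μ x u => μ (u - x)) (fun x u => continuous_apply _)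
  · have h1 : IsOpen {μ : V → ℝ | μ u < 1} := isOpen_lt (continuous_apply _) continuous_const
    have h2 : IsOpen {μ : V → ℝ | 1 + μ x - ε < μ (x - u)} :=
      isOpen_lt ((continuous_const.add (continuous_apply _)).sub continuous_const)
        (continuous_apply _)
    exact h1.inter h2
  · exact ⟨hu.1, by linarith [hu.2]⟩

section model

variable {μ : V → ℝ} {X : Type} [NormedAddCommGroup X] [NormedSpace ℝ X] {J : V →+ X}
  (hJ : ∀ v, ‖J v‖ = μ v) (hd : DenseRange J)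

include hJ in
theorem mem_C₁_iff : μ ∈ C₁ ↔ ∀ x, μ x < 1 → ∀ ε : ℝ, 0 < ε →
    WeakClosure (J.prodMap J) (S₁ μ x ε) (J x, J x) := by
  have h : ∀ (u : V × V) (x : V), ‖J.prodMap J u - (J x, J x)‖ =
      max (μ (u.1 - x)) (μ (u.2 - x)) := by
    intro u x
    rw [Prod.norm_def, ← hJ, ← hJ, map_sub, map_sub]
    rfl
  constructor
  · intro hμ x hx ε hε
    rw [weakClosure_iff]
    intro n δ hδ
    obtain ⟨F, hF, hF'⟩ := hμ x hx ε hε n δ hδ
    refine ⟨F, hF, fun c => ?_⟩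
    obtain ⟨k, u, hu, hlt⟩ := hF' c
    exact ⟨k, u, hu, by rwa [h]⟩
  · intro hμ x hx ε hε n δ hδ
    obtain ⟨F, hF, hF'⟩ := weakClosure_iff.1 (hμ x hx ε hε) n δ hδ
    refine ⟨F, hF, fun c => ?_⟩
    obtain ⟨k, u, hu, hlt⟩ := hF' c
    exact ⟨k, u, hu, by rwa [← h]⟩

include hJ in
theorem mem_C₂_iff : μ ∈ C₂ ↔ ∀ x, μ x < 1 → ∀ ε : ℝ, 0 < ε →
    WeakClosure J (S₂ μ x ε) (J x) := by
  have h : ∀ (u x : V), ‖J u - J x‖ = μ (u - x) := by
    intro u x
    rw [← map_sub, hJ]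
  constructor
  · intro hμ x hx ε hε
    rw [weakClosure_iff]
    intro n δ hδ
    obtain ⟨F, hF, hF'⟩ := hμ x hx ε hε n δ hδ
    refine ⟨F, hF, fun c => ?_⟩
    obtain ⟨k, u, hu, hlt⟩ := hF' c
    exact ⟨k, u, hu, by rwa [h]⟩
  · intro hμ x hx ε hε n δ hδ
    obtain ⟨F, hF, hF'⟩ := weakClosure_iff.1 (hμ x hx ε hε) n δ hδ
    refine ⟨F, hF, fun c => ?_⟩
    obtain ⟨k, u, hu, hlt⟩ := hF' c
    exact ⟨k, u, hu, by rwa [← h]⟩

/-- The intersection of the ball with a basic weak neighbourhood. -/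
theorem relWeaklyOpen_basic (F : Finset (StrongDual ℝ X)) (a : X) (η : ℝ) :
    RelWeaklyOpen {y : X | ‖y‖ ≤ 1 ∧ ∀ f ∈ F, |f y - f a| < η} := by
  refine ⟨⋂ f ∈ F, {w | |f ((toWeakSpace ℝ X).symm w) - f a| < η}, ?_, ?_⟩
  · refine isOpen_biInter_finset fun f _ => ?_
    exact isOpen_lt (((continuous_eval f).sub continuous_const).abs) continuous_const
  · ext y
    simp

include hd in
/-- A norm-open set that contains a point of the weak neighbourhood contains some `J v` with norm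
less than one. -/
theorem exists_J {O : Set X} (hO : IsOpen O) {a : X} (ha : ‖a‖ ≤ 1) (haO : a ∈ O) :
    ∃ v, J v ∈ O ∧ ‖J v‖ < 1 := by
  -- push `a` inside the ball
  have h1 : Tendsto (fun t : ℝ => t • a) (𝓝[<] 1) (𝓝 a) := by
    have : Tendsto (fun t : ℝ => t • a) (𝓝 1) (𝓝 ((1 : ℝ) • a)) :=
      (continuous_id.smul continuous_const).tendsto 1
    rw [one_smul] at this
    exact this.mono_left nhdsWithin_le_nhds
  have h2 : ∀ᶠ t : ℝ in 𝓝[<] 1, t • a ∈ O := h1.eventually (hO.mem_nhds haO)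
  have h3 : ∀ᶠ t : ℝ in 𝓝[<] 1, t ∈ Set.Ioo (0 : ℝ) 1 := Ioo_mem_nhdsLT one_pos
  obtain ⟨t, ht, ht0, ht1⟩ := (h2.and h3).exists
  have h4 : t • a ∈ O ∩ Metric.ball 0 1 := by
    refine ⟨ht, ?_⟩
    rw [mem_ball_zero_iff, norm_smul, Real.norm_of_nonneg ht0.le]
    calc t * ‖a‖ ≤ t * 1 := mul_le_mul_of_nonneg_left ha ht0.le
      _ < 1 := by linarith
  obtain ⟨v, hv⟩ := hd.exists_mem_open (hO.inter Metric.isOpen_ball) ⟨_, h4⟩
  exact ⟨v, hv.1, by simpa using hv.2⟩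

include hJ hd in
theorem d2p_iff : D2P X ↔ μ ∈ C₁ := by
  rw [mem_C₁_iff hJ]
  constructor
  · intro hX x hx ε hε F η hη
    classical
    let Fl : Finset (StrongDual ℝ X) :=
      F.image (fun f => f.comp (ContinuousLinearMap.inl ℝ X X)) ∪
      F.image (fun f => f.comp (ContinuousLinearMap.inr ℝ X X))
    let W : Set X := {y : X | ‖y‖ ≤ 1 ∧ ∀ f ∈ Fl, |f y - f (J x)| < η / 2}
    have hW : RelWeaklyOpen W := relWeaklyOpen_basic _ _ _
    have hxW : J x ∈ W := ⟨by rw [hJ]; exact hx.le, fun f _ => by simpa using half_pos hη⟩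
    have hdiam := hX W hW ⟨_, hxW⟩
    obtain ⟨a, haW, b, hbW, hab⟩ : ∃ a ∈ W, ∃ b ∈ W, 2 - ε < dist a b := by
      by_contra hcon
      push Not at hcon
      have h0 : 0 ≤ 2 - ε := by
        have := hcon (J x) hxW (J x) hxW
        rwa [dist_self] at this
      have := Metric.diam_le_of_forall_dist_le h0 hcon
      linarith
    -- approximate the pair
    let O : Set (X × X) := {p | ‖p.1‖ < 1 ∧ ‖p.2‖ < 1 ∧ 2 - ε < ‖p.1 - p.2‖ ∧
      ∀ f ∈ F, |f p - f (J x, J x)| < η}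
    have hO : IsOpen O := by
      have h1 : IsOpen {p : X × X | ‖p.1‖ < 1} := isOpen_lt continuous_fst.norm continuous_const
      have h2 : IsOpen {p : X × X | ‖p.2‖ < 1} := isOpen_lt continuous_snd.norm continuous_const
      have h3 : IsOpen {p : X × X | 2 - ε < ‖p.1 - p.2‖} :=
        isOpen_lt continuous_const (continuous_fst.sub continuous_snd).norm
      have h4 : IsOpen {p : X × X | ∀ f ∈ F, |f p - f (J x, J x)| < η} := by
        have : {p : X × X | ∀ f ∈ F, |f p - f (J x, J x)| < η} =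
            ⋂ f ∈ F, {p : X × X | |f p - f (J x, J x)| < η} := by
          ext p
          simp
        rw [this]
        exact isOpen_biInter_finset fun f _ =>
          isOpen_lt ((f.continuous.sub continuous_const).abs) continuous_const
      exact h1.inter (h2.inter (h3.inter h4))
    have hfab : ∀ f ∈ F, |f (a, b) - f (J x, J x)| < η := by
      intro f hf
      have e1 := haW.2 (f.comp (ContinuousLinearMap.inl ℝ X X))
        (Finset.mem_union_left _ (Finset.mem_image_of_mem _ hf))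
      have e2 := hbW.2 (f.comp (ContinuousLinearMap.inr ℝ X X))
        (Finset.mem_union_right _ (Finset.mem_image_of_mem _ hf))
      have e3 : f (a, b) - f (J x, J x) =
          (f.comp (ContinuousLinearMap.inl ℝ X X) a -
            f.comp (ContinuousLinearMap.inl ℝ X X) (J x)) +
          (f.comp (ContinuousLinearMap.inr ℝ X X) b -
            f.comp (ContinuousLinearMap.inr ℝ X X) (J x)) := by
        have h1 : ((a, b) : X × X) = (a, 0) + (0, b) := by simp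
        have h2 : ((J x, J x) : X × X) = (J x, 0) + (0, J x) := by simp
        rw [h1, h2, map_add, map_add]
        simp only [ContinuousLinearMap.comp_apply, ContinuousLinearMap.inl_apply,
          ContinuousLinearMap.inr_apply]
        ring
      rw [e3]
      refine (abs_add_le _ _).trans_lt ?_
      linarith
    have h1 : Tendsto (fun t : ℝ => (t • a, t • b)) (𝓝[<] 1) (𝓝 (a, b)) := by
      have : Tendsto (fun t : ℝ => (t • a, t • b)) (𝓝 1) (𝓝 ((1 : ℝ) • a, (1 : ℝ) • b)) :=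
        ((continuous_id.smul continuous_const).prodMk
          (continuous_id.smul continuous_const)).tendsto 1
      rw [one_smul, one_smul] at this
      exact this.mono_left nhdsWithin_le_nhds
    have h2 : ∀ᶠ t : ℝ in 𝓝[<] 1, 2 - ε < ‖t • a - t • b‖ := by
      have : Tendsto (fun t : ℝ => ‖t • a - t • b‖) (𝓝[<] 1) (𝓝 ‖a - b‖) :=
        ((continuous_fst.sub continuous_snd).norm.tendsto (a, b)).comp h1
      refine this.eventually_const_lt ?_
      rwa [dist_eq_norm] at hab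
    have h3 : ∀ᶠ t : ℝ in 𝓝[<] 1, ∀ f ∈ F, |f (t • a, t • b) - f (J x, J x)| < η := by
      rw [Filter.eventually_all_finset]
      intro f hf
      have : Tendsto (fun t : ℝ => |f (t • a, t • b) - f (J x, J x)|) (𝓝[<] 1)
          (𝓝 |f (a, b) - f (J x, J x)|) :=
        ((f.continuous.sub continuous_const).abs.tendsto (a, b)).comp h1
      exact this.eventually_lt_const (hfab f hf)
    have h4 : ∀ᶠ t : ℝ in 𝓝[<] 1, t ∈ Set.Ioo (0 : ℝ) 1 := Ioo_mem_nhdsLT one_pos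
    obtain ⟨t, ht2, ht3, ht0, ht1⟩ := (h2.and (h3.and h4)).exists
    have hball : ∀ c : X, ‖c‖ ≤ 1 → ‖t • c‖ < 1 := by
      intro c hc
      rw [norm_smul, Real.norm_of_nonneg ht0.le]
      calc t * ‖c‖ ≤ t * 1 := mul_le_mul_of_nonneg_left hc ht0.le
        _ < 1 := by linarith
    obtain ⟨u, hu⟩ := (hd.prodMap hd).exists_mem_open hO
      ⟨(t • a, t • b), hball a haW.1, hball b hbW.1, ht2, ht3⟩
    refine ⟨u, ⟨?_, ?_, ?_⟩, hu.2.2.2⟩
    · rw [← hJ]
      exact hu.1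
    · rw [← hJ]
      exact hu.2.1
    · rw [← hJ, map_sub]
      exact hu.2.2.1
  · intro h W hW hne
    obtain ⟨U, hU, rfl⟩ := hW
    obtain ⟨x₀, hx₀, hx₀U⟩ := hne
    obtain ⟨v, hvU, hv1⟩ := exists_J hd (O := {y : X | toWeakSpace ℝ X y ∈ U})
      (hU.preimage (toWeakSpaceCLM ℝ X).continuous) hx₀ hx₀U
    obtain ⟨F, η, hη, hF⟩ := exists_basic hU hvU
    classical
    have hbdd : Bornology.IsBounded {y : X | ‖y‖ ≤ 1 ∧ toWeakSpace ℝ X y ∈ U} :=
      (Metric.isBounded_closedBall (x := (0 : X)) (r := 1)).subset fun y hy => by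
        simpa using hy.1
    refine le_antisymm ?_ ?_
    · refine Metric.diam_le_of_forall_dist_le (by norm_num) fun a ha b hb => ?_
      rw [dist_eq_norm]
      refine (norm_sub_le _ _).trans ?_
      have := ha.1
      have := hb.1
      linarith
    · refine le_of_forall_pos_le_add fun ε hε => ?_
      obtain ⟨u, ⟨hu1, hu2, hu3⟩, hu⟩ := h v (by rw [← hJ]; exact hv1) ε hε
        (F.image (fun f => f.comp (ContinuousLinearMap.fst ℝ X X)) ∪
          F.image (fun f => f.comp (ContinuousLinearMap.snd ℝ X X))) η hη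
      have m1 : J u.1 ∈ {y : X | ‖y‖ ≤ 1 ∧ toWeakSpace ℝ X y ∈ U} := by
        refine ⟨by rw [hJ]; exact hu1.le, hF _ fun f hf => ?_⟩
        exact hu _ (Finset.mem_union_left _ (Finset.mem_image_of_mem _ hf))
      have m2 : J u.2 ∈ {y : X | ‖y‖ ≤ 1 ∧ toWeakSpace ℝ X y ∈ U} := by
        refine ⟨by rw [hJ]; exact hu2.le, hF _ fun f hf => ?_⟩
        exact hu _ (Finset.mem_union_right _ (Finset.mem_image_of_mem _ hf))
      have := Metric.dist_le_diam_of_mem hbdd m1 m2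
      rw [dist_eq_norm, ← map_sub, hJ] at this
      linarith

include hJ hd in
theorem dd2p_iff : DD2P X ↔ μ ∈ C₂ := by
  rw [mem_C₂_iff hJ]
  constructor
  · intro hX x hx ε hε F η hη
    let W : Set X := {y : X | ‖y‖ ≤ 1 ∧ ∀ f ∈ F, |f y - f (J x)| < η}
    have hW : RelWeaklyOpen W := relWeaklyOpen_basic _ _ _
    have hxW : J x ∈ W := ⟨by rw [hJ]; exact hx.le, fun f _ => by simpa using hη⟩
    obtain ⟨a, haW, ha⟩ := hX W hW (J x) hxW (ε / 2) (half_pos hε)
    let O : Set X := {y | 1 + ‖J x‖ - ε < ‖J x - y‖ ∧ ∀ f ∈ F, |f y - f (J x)| < η}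
    have hO : IsOpen O := by
      have h3 : IsOpen {y : X | 1 + ‖J x‖ - ε < ‖J x - y‖} :=
        isOpen_lt continuous_const (continuous_const.sub continuous_id).norm
      have h4 : IsOpen {p : X | ∀ f ∈ F, |f p - f (J x)| < η} := by
        have : {p : X | ∀ f ∈ F, |f p - f (J x)| < η} =
            ⋂ f ∈ F, {p : X | |f p - f (J x)| < η} := by
          ext p
          simp
        rw [this]
        exact isOpen_biInter_finset fun f _ =>
          isOpen_lt ((f.continuous.sub continuous_const).abs) continuous_const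
      exact h3.inter h4
    obtain ⟨u, hu, hu1⟩ := exists_J hd hO haW.1 (show a ∈ O from ⟨by linarith, haW.2⟩)
    refine ⟨u, ⟨?_, ?_⟩, hu.2⟩
    · rw [← hJ]
      exact hu1
    · rw [← hJ, ← hJ, map_sub]
      exact hu.1
  · intro h W hW x₀ hx₀ ε hε
    obtain ⟨U, hU, rfl⟩ := hW
    obtain ⟨hx₀1, hx₀U⟩ := hx₀
    obtain ⟨v, ⟨hvU, hvx⟩, hv1⟩ := exists_J hd
      (O := {y : X | toWeakSpace ℝ X y ∈ U} ∩ Metric.ball x₀ (ε / 4))
      ((hU.preimage (toWeakSpaceCLM ℝ X).continuous).inter Metric.isOpen_ball) hx₀1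
      ⟨hx₀U, Metric.mem_ball_self (by positivity)⟩
    obtain ⟨F, η, hη, hF⟩ := exists_basic hU hvU
    obtain ⟨u, ⟨hu1, hu2⟩, hu⟩ := h v (by rw [← hJ]; exact hv1) (ε / 2) (half_pos hε) F η hη
    refine ⟨J u, ⟨by rw [hJ]; exact hu1.le, hF _ hu⟩, ?_⟩
    rw [← hJ, ← hJ, map_sub] at hu2
    rw [Metric.mem_ball, dist_eq_norm] at hvx
    have h1 : ‖J v - J u‖ ≤ ‖J v - x₀‖ + ‖x₀ - J u‖ := by
      have : J v - J u = (J v - x₀) + (x₀ - J u) := by abel
      rw [this]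
      exact norm_add_le _ _
    have h2 : ‖x₀‖ ≤ ‖J v‖ + ‖J v - x₀‖ := by
      have : x₀ = J v - (J v - x₀) := by abel
      conv_lhs => rw [this]
      exact norm_sub_le _ _
    linarith

end model

/-- For infinite-dimensional models, the class of a property that is described by a set of
pseudonorms is the trace of this set. -/
theorem classOf_eq (Q : ∀ (X : Type) [NormedAddCommGroup X] [NormedSpace ℝ X], Prop)
    (C : Set (V → ℝ)) (h : ∀ (X : Type) [NormedAddCommGroup X] [NormedSpace ℝ X] (μ : V → ℝ)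
      (J : V →+ X), (∀ v, ‖J v‖ = μ v) → DenseRange J → (Q X ↔ μ ∈ C)) :
    classOf Q = Subtype.val ⁻¹' C := by
  ext ⟨μ, hμ⟩
  constructor
  · rintro ⟨X, _, _, _, ⟨J, hJ, hd⟩, hQ⟩
    exact (h X μ J hJ hd).1 hQ
  · intro hC
    have hμ' := hμ
    obtain ⟨-, X, _, _, hX, ⟨J, hJ, hd⟩, -⟩ := hμ'
    exact ⟨X, _, _, hX, ⟨J, hJ, hd⟩, (h X μ J hJ hd).2 hC⟩

/-- The classes of spaces with the D2P and with the DD2P are `G_δ` subsets of `𝒫_∞`; membership
in them does not depend on the choice of the model `X_μ`. -/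
theorem both : IsGδ (classOf D2P) ∧ IsGδ (classOf DD2P) ∧
    ∀ (μ : PInf) (X : Type) [NormedAddCommGroup X] [NormedSpace ℝ X], Codes μ.1 X →
      (μ ∈ classOf D2P ↔ D2P X) ∧ (μ ∈ classOf DD2P ↔ DD2P X) := by
  have h1 : classOf D2P = Subtype.val ⁻¹' C₁ :=
    classOf_eq _ _ fun X _ _ μ J hJ hd => d2p_iff hJ hd
  have h2 : classOf DD2P = Subtype.val ⁻¹' C₂ :=
    classOf_eq _ _ fun X _ _ μ J hJ hd => dd2p_iff hJ hd
  refine ⟨?_, ?_, ?_⟩
  · rw [h1]
    exact IsGδ.preimage continuous_subtype_val isGδ_C₁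
  · rw [h2]
    exact IsGδ.preimage continuous_subtype_val isGδ_C₂
  · rintro μ X _ _ ⟨J, hJ, hd⟩
    rw [h1, h2, d2p_iff hJ hd, dd2p_iff hJ hd]
    exact ⟨Iff.rfl, Iff.rfl⟩

end Pool.Agent.Q198.D2GD
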