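import Mathlib

set_option autoImplicit false

open Polynomial

namespace Pool.Agent.Q198.ISA

/-- value of `F ∈ ℂ[x][y]` at `(x,y)` -/
noncomputable def ev (F : ℂ[X][X]) (x y : ℂ) : ℂ := (F.map (evalRingHom x)).eval y

lemma exists_prim {R : Type*} [CommRing R] [IsDomain R] [NormalizedGCDMonoid R]
    (G : (FractionRing R)[X]) (hG : G ≠ 0) :
    ∃ G0 : R[X], G0.IsPrimitive ∧
      (∃ c : FractionRing R, c ≠ 0 ∧ G = C c * G0.map (algebraMap R (FractionRing R))) := by
  classical
  obtain ⟨b, hb, hb'⟩ := IsLocalization.integerNormalization_spec (nonZeroDivisors R) G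
  set N := IsLocalization.integerNormalization (nonZeroDivisors R) G with hN
  have hb0 : (algebraMap R (FractionRing R)) (b : R) ≠ 0 := by
    have : (b : R) ≠ 0 := nonZeroDivisors.ne_zero hb
    simpa using this
  have hmap : N.map (algebraMap R (FractionRing R)) =
      C (algebraMap R (FractionRing R) (b : R)) * G := by
    rw [hb']
    ext i
    rw [coeff_smul, coeff_C_mul, Algebra.smul_def]
  have hN0 : N ≠ 0 := by
    intro h0
    rw [h0, Polynomial.map_zero] at hmap
    rcases mul_eq_zero.mp hmap.symm with h | h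
    · exact hb0 (by simpa using h)
    · exact hG h
  refine ⟨N.primPart, N.isPrimitive_primPart, ?_⟩
  have hcont : N.content ≠ 0 := by
    rwa [Ne, content_eq_zero_iff]
  have hc0 : (algebraMap R (FractionRing R)) N.content ≠ 0 := by simpa using hcont
  refine ⟨(algebraMap R (FractionRing R) (b : R))⁻¹ * algebraMap R (FractionRing R) N.content,
    mul_ne_zero (inv_ne_zero hb0) hc0, ?_⟩
  have h1 : N.map (algebraMap R (FractionRing R)) =
      C (algebraMap R (FractionRing R) N.content) *
        N.primPart.map (algebraMap R (FractionRing R)) := by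
    conv_lhs => rw [N.eq_C_content_mul_primPart]
    rw [Polynomial.map_mul, map_C]
  have h2 : C (algebraMap R (FractionRing R) (b : R)) * G =
      C (algebraMap R (FractionRing R) N.content) *
        N.primPart.map (algebraMap R (FractionRing R)) := by rw [← hmap, h1]
  have h3 : G = C ((algebraMap R (FractionRing R) (b : R))⁻¹) *
      (C (algebraMap R (FractionRing R) (b : R)) * G) := by
    rw [← mul_assoc, ← C_mul, inv_mul_cancel₀ hb0, C_1, one_mul]
  rw [h3, h2, C_mul, mul_assoc]

lemma squarefree_map {R : Type*} [CommRing R] [IsDomain R] [NormalizedGCDMonoid R]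
    (F : R[X]) (hF : Squarefree F) (hF0 : F ≠ 0) :
    Squarefree (F.map (algebraMap R (FractionRing R))) := by
  classical
  intro G hG
  have hinj : Function.Injective (algebraMap R (FractionRing R)) := IsFractionRing.injective R _
  have hF0' : F.map (algebraMap R (FractionRing R)) ≠ 0 := by
    rwa [Ne, Polynomial.map_eq_zero_iff hinj]
  have hG0 : G ≠ 0 := by
    rintro rfl
    rw [zero_mul, zero_dvd_iff] at hG
    exact hF0' hG
  obtain ⟨G0, hp, c, hc, rfl⟩ := exists_prim G hG0
  have hcont : F.content ≠ 0 := by rwa [Ne, content_eq_zero_iff]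
  have h1 : (G0 * G0).map (algebraMap R (FractionRing R)) ∣
      F.primPart.map (algebraMap R (FractionRing R)) := by
    have h2 : F.map (algebraMap R (FractionRing R)) =
        C (algebraMap R (FractionRing R) F.content) *
          F.primPart.map (algebraMap R (FractionRing R)) := by
      conv_lhs => rw [F.eq_C_content_mul_primPart]
      rw [Polynomial.map_mul, map_C]
    rw [h2] at hG
    have hu : IsUnit (C (algebraMap R (FractionRing R) F.content)) := by
      rw [isUnit_C, isUnit_iff_ne_zero]
      simpa using hcont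
    have h3 : (G0 * G0).map (algebraMap R (FractionRing R)) ∣
        C c * G0.map (algebraMap R (FractionRing R)) *
          (C c * G0.map (algebraMap R (FractionRing R))) := by
      rw [Polynomial.map_mul]
      exact ⟨C c * C c, by ring⟩
    exact hu.dvd_mul_left.mp (h3.trans hG)
  have h4 : G0 * G0 ∣ F.primPart :=
    IsPrimitive.dvd_of_fraction_map_dvd_fraction_map (K := FractionRing R) (hp.mul hp) h1
  have h5 : IsUnit G0 := hF G0 (h4.trans F.primPart_dvd)
  have h6 : IsUnit (G0.map (algebraMap R (FractionRing R))) :=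
    h5.map (mapRingHom (algebraMap R (FractionRing R)))
  exact IsUnit.mul (by rw [isUnit_C, isUnit_iff_ne_zero]; exact hc) h6

/-- A squarefree `F ∈ ℂ[x][y]` has only finitely many vertical lines `x = k` on which
`F` and `∂F/∂y` have a common zero. -/
lemma main (F : ℂ[X][X]) (hF : Squarefree F) (hF0 : F ≠ 0) :
    ∃ r : ℂ[X], r ≠ 0 ∧ ∀ k y : ℂ, ev F k y = 0 →
      (derivative (F.map (evalRingHom k))).eval y = 0 → r.eval k = 0 := by
  classical
  have hinj : Function.Injective (algebraMap ℂ[X] (FractionRing ℂ[X])) :=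
    IsFractionRing.injective _ _
  have hsq := squarefree_map F hF hF0
  have : CharZero (FractionRing ℂ[X]) := by
    exact charZero_of_injective_algebraMap hinj
  have hsep : (F.map (algebraMap ℂ[X] (FractionRing ℂ[X]))).Separable :=
    PerfectField.separable_iff_squarefree.mpr hsq
  obtain ⟨a, b, hab⟩ := hsep
  rw [derivative_map] at hab
  obtain ⟨s, hs0, hs⟩ := IsLocalization.integerNormalization_spec (nonZeroDivisors ℂ[X]) a
  obtain ⟨t, ht0, ht⟩ := IsLocalization.integerNormalization_spec (nonZeroDivisors ℂ[X]) b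
  set A := IsLocalization.integerNormalization (nonZeroDivisors ℂ[X]) a with hA
  set B := IsLocalization.integerNormalization (nonZeroDivisors ℂ[X]) b with hB
  have hAm : A.map (algebraMap ℂ[X] (FractionRing ℂ[X])) =
      C (algebraMap ℂ[X] (FractionRing ℂ[X]) (s : ℂ[X])) * a := by
    rw [hs]
    ext i
    rw [coeff_smul, coeff_C_mul, Algebra.smul_def]
  have hBm : B.map (algebraMap ℂ[X] (FractionRing ℂ[X])) =
      C (algebraMap ℂ[X] (FractionRing ℂ[X]) (t : ℂ[X])) * b := by
    rw [ht]
    ext i
    rw [coeff_smul, coeff_C_mul, Algebra.smul_def]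
  have key : C (t : ℂ[X]) * A * F + C (s : ℂ[X]) * B * derivative F =
      C ((s : ℂ[X]) * (t : ℂ[X])) := by
    apply Polynomial.map_injective _ hinj
    rw [Polynomial.map_add, Polynomial.map_mul, Polynomial.map_mul, Polynomial.map_mul,
      Polynomial.map_mul, map_C, map_C, map_C, hAm, hBm, map_mul, C_mul]
    linear_combination (C (algebraMap ℂ[X] (FractionRing ℂ[X]) (s : ℂ[X])) *
      C (algebraMap ℂ[X] (FractionRing ℂ[X]) (t : ℂ[X]))) * hab
  refine ⟨(s : ℂ[X]) * (t : ℂ[X]),
    mul_ne_zero (nonZeroDivisors.ne_zero hs0) (nonZeroDivisors.ne_zero ht0), ?_⟩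
  intro k y h1 h2
  have h3 := congrArg (fun P : ℂ[X][X] => (P.map (evalRingHom k)).eval y) key
  simp only [Polynomial.map_add, Polynomial.map_mul, eval_add, eval_mul, map_C, eval_C] at h3
  have h1' : (F.map (evalRingHom k)).eval y = 0 := h1
  rw [← derivative_map, h1', h2] at h3
  simp only [mul_zero, add_zero] at h3
  have h4 := h3.symm
  simpa using h4

end Pool.Agent.Q198.ISA
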