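import Mathlib

set_option autoImplicit false

/-!
# The second polynomial numerical index
-/

namespace Pool.Agent.Q198.N2

variable (𝕜 : Type*) [RCLike 𝕜] (X : Type*) [NormedAddCommGroup X] [NormedSpace 𝕜 X]

/-- `P` is a continuous 2-homogeneous polynomial: `P x = B (x, x)` for a bounded bilinear `B`. -/
def IsQuad (P : X → X) : Prop := ∃ B : X →L[𝕜] X →L[𝕜] X, ∀ x, P x = B x x

/-- The norm of `P`: supremum of `‖P x‖` over the unit sphere. -/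
noncomputable def polyNorm {X : Type*} [NormedAddCommGroup X] (P : X → X) : ℝ :=
  sSup {r | ∃ x : X, ‖x‖ = 1 ∧ r = ‖P x‖}

/-- The numerical radius of `P`. -/
noncomputable def numRad (P : X → X) : ℝ :=
  sSup {r | ∃ (x : X) (f : X →L[𝕜] 𝕜), ‖x‖ = 1 ∧ ‖f‖ = 1 ∧ f x = 1 ∧ r = ‖f (P x)‖}

/-- The second polynomial numerical index: the infimum of the numerical radii of the continuous
2-homogeneous polynomials of norm one. -/
noncomputable def index2 : ℝ :=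
  sInf {r | ∃ P : X → X, IsQuad 𝕜 X P ∧ polyNorm P = 1 ∧ r = numRad 𝕜 X P}

variable {𝕜 X}

lemma numRad_nonneg (P : X → X) : 0 ≤ numRad 𝕜 X P := by
  apply Real.sSup_nonneg
  rintro r ⟨x, f, -, -, -, rfl⟩
  exact norm_nonneg _

/-- Upper bound for the index from one polynomial (not normalised). -/
lemma index2_le {P : X → X} (hP : IsQuad 𝕜 X P) {c v : ℝ} (hv : 0 ≤ v) (hc : 0 < c)
    (x₀ : X) (hx₀ : ‖x₀‖ = 1) (h₀ : c ≤ ‖P x₀‖)
    (h : ∀ (x : X) (f : X →L[𝕜] 𝕜), ‖x‖ = 1 → ‖f‖ = 1 → f x = 1 → ‖f (P x)‖ ≤ v) :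
    index2 𝕜 X ≤ v / c := by
  obtain ⟨B, hB⟩ := hP
  have hbdd : BddAbove {r | ∃ x : X, ‖x‖ = 1 ∧ r = ‖P x‖} := by
    refine ⟨‖B‖, ?_⟩
    rintro r ⟨x, hx, rfl⟩
    rw [hB]
    have := B.le_opNorm₂ x x
    rwa [hx, mul_one, mul_one] at this
  set N : ℝ := polyNorm P with hN
  have hcN : c ≤ N := h₀.trans (le_csSup hbdd ⟨x₀, hx₀, rfl⟩)
  have hN0 : 0 < N := lt_of_lt_of_le hc hcN
  let Q : X → X := fun x => ((N⁻¹ : ℝ) : 𝕜) • P x
  have hQ : IsQuad 𝕜 X Q := by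
    refine ⟨((N⁻¹ : ℝ) : 𝕜) • B, fun x => ?_⟩
    simp only [Q, hB]
    rfl
  have hnorm : ∀ y : X, ‖((N⁻¹ : ℝ) : 𝕜) • y‖ = N⁻¹ * ‖y‖ := by
    intro y
    rw [norm_smul, RCLike.norm_ofReal, abs_of_pos (inv_pos.2 hN0)]
  have hQn : polyNorm Q = 1 := by
    have hneQ : Set.Nonempty {r | ∃ x : X, ‖x‖ = 1 ∧ r = ‖Q x‖} := ⟨‖Q x₀‖, x₀, hx₀, rfl⟩
    apply le_antisymm
    · refine csSup_le hneQ ?_
      rintro r ⟨x, hx, rfl⟩
      simp only [Q]
      rw [hnorm, inv_mul_le_one₀ hN0]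
      exact le_csSup hbdd ⟨x, hx, rfl⟩
    · have hbddQ : BddAbove {r | ∃ x : X, ‖x‖ = 1 ∧ r = ‖Q x‖} := by
        refine ⟨1, ?_⟩
        rintro r ⟨x, hx, rfl⟩
        simp only [Q]
        rw [hnorm, inv_mul_le_one₀ hN0]
        exact le_csSup hbdd ⟨x, hx, rfl⟩
      refine le_of_forall_lt fun s hs => ?_
      have hs' : N * s < N := by nlinarith
      have hne : Set.Nonempty {r | ∃ x : X, ‖x‖ = 1 ∧ r = ‖P x‖} := ⟨‖P x₀‖, x₀, hx₀, rfl⟩
      obtain ⟨r, ⟨x, hx, rfl⟩, hr⟩ := exists_lt_of_lt_csSup hne hs'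
      have h1 : s < ‖Q x‖ := by
        simp only [Q]
        rw [hnorm, inv_mul_eq_div, lt_div_iff₀ hN0]
        linarith
      exact h1.trans_le (le_csSup hbddQ ⟨x, hx, rfl⟩)
  have hle : numRad 𝕜 X Q ≤ v / N := by
    apply Real.sSup_le
    · rintro r ⟨x, f, hx, hf, hfx, rfl⟩
      simp only [Q]
      rw [map_smul, norm_smul, RCLike.norm_ofReal, abs_of_pos (inv_pos.2 hN0), inv_mul_eq_div]
      exact div_le_div_of_nonneg_right (h x f hx hf hfx) hN0.le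
    · positivity
  have hfin : index2 𝕜 X ≤ numRad 𝕜 X Q := by
    apply csInf_le
    · refine ⟨0, ?_⟩
      rintro r ⟨P, -, -, rfl⟩
      exact numRad_nonneg P
    · exact ⟨Q, hQ, hQn, rfl⟩
  refine hfin.trans (hle.trans ?_)
  exact div_le_div_of_nonneg_left hv hc hcN

end Pool.Agent.Q198.N2
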