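import Mathlib

/-! Abstract part: orthogonal systems of continuous functions and a functional. -/

set_option autoImplicit false

namespace Pool.Agent.Q198.Ortho

open Set Filter Topology

/-- Gram–Schmidt for a positive definite bilinear form. -/
theorem gs {V : Type*} [AddCommGroup V] [Module ℝ V] (B : V →ₗ[ℝ] V →ₗ[ℝ] ℝ)
    (hsymm : ∀ x y, B x y = B y x) (hpos : ∀ x, x ≠ 0 → 0 < B x x) (d : ℕ → V) :
    ∃ e : ℕ → V, (∀ i j, i ≠ j → B (e i) (e j) = 0) ∧
      Submodule.span ℝ (Set.range e) = Submodule.span ℝ (Set.range d) := by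
  have hnn : ∀ x, 0 ≤ B x x := by
    intro x
    by_cases hx : x = 0
    · subst hx; simp
    · exact (hpos x hx).le
  let core : InnerProductSpace.Core ℝ V :=
    { inner := fun x y => B x y
      conj_inner_symm := fun x y => by
        simp only [conj_trivial]
        exact hsymm y x
      re_inner_nonneg := fun x => by simpa using hnn x
      add_left := fun x y z => by simp
      smul_left := fun x y r => by simp
      definite := fun x hx => by
        by_contra hne
        exact absurd hx (hpos x hne).ne' }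
  letI : NormedAddCommGroup V := core.toNormedAddCommGroup
  letI : InnerProductSpace ℝ V := InnerProductSpace.ofCore core.toCore
  refine ⟨InnerProductSpace.gramSchmidt ℝ d, fun i j hij => ?_, ?_⟩
  · exact InnerProductSpace.gramSchmidt_orthogonal ℝ d hij
  · exact InnerProductSpace.span_gramSchmidt ℝ d

section main

variable {V : Type*} [NormedAddCommGroup V] [NormedSpace ℝ V] [CompleteSpace V]
  [SecondCountableTopology V]

structure Data (B : V →ₗ[ℝ] V →ₗ[ℝ] ℝ) (μ : V →L[ℝ] ℝ) (h r : ℕ → V) : Prop where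
  symm : ∀ x y, B x y = B y x
  pos : ∀ x, x ≠ 0 → 0 < B x x
  cont : ∀ i, Continuous fun F => B F (h i)
  hh : ∀ j k, j ≠ k → B (h j) (h k) = 0
  muh : ∀ k, μ (h k) = 1
  mur : ∀ k, μ (r k) = 0
  rh : ∀ j k, j ≠ k → B (r j) (h k) = 0
  kpos : ∀ k, 0 < B (r k) (h k)
  tau : ∀ F, Tendsto (fun k => B F (h k) / B (r k) (h k)) atTop (𝓝 0)
  kap : Tendsto (fun k => B (h k) (h k) / B (r k) (h k)) atTop (𝓝 0)
  sum : ∀ (s : Finset ℕ) (τ : ℕ → ℝ) (M : ℝ), 0 ≤ M → (∀ k ∈ s, |τ k| ≤ M) →
    ‖∑ k ∈ s, τ k • r k‖ ≤ M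

variable {B : V →ₗ[ℝ] V →ₗ[ℝ] ℝ} {μ : V →L[ℝ] ℝ} {h r : ℕ → V}

omit [SecondCountableTopology V] in
lemma Data.summable (D : Data B μ h r) {τ : ℕ → ℝ} (hτ : Tendsto τ atTop (𝓝 0)) :
    Summable fun k => τ k • r k := by
  rw [summable_iff_vanishing_norm]
  intro ε hε
  have h1 : ∀ᶠ k in atTop, |τ k| ≤ ε / 2 := by
    have := (tendsto_zero_iff_abs_tendsto_zero _).mp hτ
    filter_upwards [this.eventually (gt_mem_nhds (half_pos hε))] with k hk
    exact hk.le
  obtain ⟨N, hN⟩ := eventually_atTop.mp h1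
  refine ⟨Finset.range N, fun t ht => ?_⟩
  refine (D.sum t τ (ε / 2) (by positivity) fun k hk => hN k ?_).trans_lt (by linarith)
  by_contra hc
  exact Finset.disjoint_left.mp ht hk (Finset.mem_range.mpr (not_le.mp hc))

/-- the correction -/
noncomputable def corr (B : V →ₗ[ℝ] V →ₗ[ℝ] ℝ) (h r : ℕ → V) (F : V) : V :=
  ∑' k, (B F (h k) / B (r k) (h k)) • r k

omit [SecondCountableTopology V] in
lemma Data.corr_norm (D : Data B μ h r) (F : V) {M : ℝ} (hM : 0 ≤ M)
    (hb : ∀ k, |B F (h k) / B (r k) (h k)| ≤ M) : ‖corr B h r F‖ ≤ M := by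
  have hs := (D.summable (D.tau F)).hasSum
  refine le_of_tendsto hs.norm (Eventually.of_forall fun s => ?_)
  exact D.sum s _ M hM fun k _ => hb k

omit [SecondCountableTopology V] in
lemma Data.corr_mu (D : Data B μ h r) (F : V) : μ (corr B h r F) = 0 := by
  have hs := (D.summable (D.tau F)).hasSum.mapL μ
  change μ (∑' k, (B F (h k) / B (r k) (h k)) • r k) = 0
  rw [← hs.tsum_eq]
  simp [D.mur]

omit [SecondCountableTopology V] in
lemma Data.corr_B (D : Data B μ h r) (F : V) (i : ℕ) : B (corr B h r F) (h i) = B F (h i) := by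
  let L : V →L[ℝ] ℝ := ⟨B.flip (h i), D.cont i⟩
  have hs := (D.summable (D.tau F)).hasSum.mapL L
  have hL : ∀ x, L x = B x (h i) := fun x => rfl
  have h1 := hs.tsum_eq
  rw [hL] at h1
  change B (∑' k, (B F (h k) / B (r k) (h k)) • r k) (h i) = _
  rw [← h1, tsum_eq_single i]
  · rw [map_smul, hL, smul_eq_mul]
    exact div_mul_cancel₀ _ (D.kpos i).ne'
  · intro k hk
    rw [map_smul, hL, D.rh k i hk, smul_zero]

/-- the subspace of functions orthogonal to all `h k` and killed by `μ` -/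
def DN (B : V →ₗ[ℝ] V →ₗ[ℝ] ℝ) (μ : V →L[ℝ] ℝ) (h : ℕ → V) : Submodule ℝ V where
  carrier := {g | μ g = 0 ∧ ∀ k, B g (h k) = 0}
  zero_mem' := by simp
  add_mem' := by
    rintro a b ⟨ha, ha'⟩ ⟨hb, hb'⟩
    exact ⟨by simp [ha, hb], fun k => by simp [ha' k, hb' k]⟩
  smul_mem' := by
    rintro c a ⟨ha, ha'⟩
    exact ⟨by simp [ha], fun k => by simp [ha' k]⟩

omit [SecondCountableTopology V] in
lemma Data.dense (D : Data B μ h r) (G : V) {ε : ℝ} (hε : 0 < ε) :
    ∃ g ∈ DN B μ h, ∃ x ∈ Submodule.span ℝ (Set.range h), ‖G - (g + x)‖ < ε := by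
  have hhpos : ∀ k, 0 < B (h k) (h k) := fun k => D.pos _ (fun h0 => by
    have := D.muh k
    rw [h0, map_zero] at this
    exact zero_ne_one this)
  have h1 : ∀ᶠ k in atTop, |B G (h k) / B (r k) (h k)| ≤ ε / 3 := by
    have := (tendsto_zero_iff_abs_tendsto_zero _).mp (D.tau G)
    filter_upwards [this.eventually (gt_mem_nhds (by positivity : (0 : ℝ) < ε / 3))] with k hk
    exact hk.le
  obtain ⟨K, hK⟩ := eventually_atTop.mp h1
  set β : ℕ → ℝ := fun k => B G (h k) / B (h k) (h k) with hβ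
  set h' : V := ∑ k ∈ Finset.range K, β k • h k with hh'
  set b : ℝ := μ G - μ h' with hb
  have h2 : ∀ᶠ k in atTop, |b| * (B (h k) (h k) / B (r k) (h k)) ≤ ε / 3 := by
    have := D.kap.const_mul |b|
    rw [mul_zero] at this
    filter_upwards [this.eventually (gt_mem_nhds (by positivity : (0 : ℝ) < ε / 3))] with k hk
    exact hk.le
  obtain ⟨J, hJ, hJK⟩ := (h2.and (eventually_ge_atTop K)).exists
  set G' : V := G - h' - b • h J with hG'
  have hBh' : ∀ i, B h' (h i) = if i < K then B G (h i) else 0 := by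
    intro i
    rw [hh', map_sum, LinearMap.sum_apply]
    simp only [map_smul, LinearMap.smul_apply, smul_eq_mul]
    split_ifs with hi
    · rw [Finset.sum_eq_single i]
      · exact div_mul_cancel₀ _ (hhpos i).ne'
      · intro k _ hk
        rw [D.hh k i hk, mul_zero]
      · intro hi'
        exact absurd (Finset.mem_range.mpr hi) hi'
    · refine Finset.sum_eq_zero fun k hk => ?_
      rw [D.hh k i (fun hki => hi (hki ▸ Finset.mem_range.mp hk)), mul_zero]
  have hBG' : ∀ i, B G' (h i) = B G (h i) - B h' (h i) - b * B (h J) (h i) := by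
    intro i
    simp [hG']
  have hbound : ∀ i, |B G' (h i) / B (r i) (h i)| ≤ 2 * ε / 3 := by
    intro i
    rw [hBG', hBh']
    by_cases hi : i < K
    · rw [if_pos hi, D.hh J i (fun hJi => by omega)]
      simp
      positivity
    · rw [if_neg hi]
      push Not at hi
      have e1 := hK i hi
      by_cases hiJ : i = J
      · subst hiJ
        have : (B G (h i) - 0 - b * B (h i) (h i)) / B (r i) (h i)
            = B G (h i) / B (r i) (h i) - b * (B (h i) (h i) / B (r i) (h i)) := by ring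
        rw [this]
        have e2 : |b * (B (h i) (h i) / B (r i) (h i))| ≤ ε / 3 := by
          rw [abs_mul, abs_of_pos (div_pos (hhpos i) (D.kpos i))]
          exact hJ
        calc _ ≤ |B G (h i) / B (r i) (h i)| + |b * (B (h i) (h i) / B (r i) (h i))| :=
              abs_sub _ _
          _ ≤ 2 * ε / 3 := by linarith
      · rw [D.hh J i (Ne.symm hiJ)]
        simp only [sub_zero, mul_zero]
        linarith
  refine ⟨G' - corr B h r G', ⟨?_, fun k => ?_⟩, h' + b • h J, ?_, ?_⟩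
  · rw [map_sub, D.corr_mu, sub_zero, hG', map_sub, map_sub, map_smul, D.muh, smul_eq_mul, hb]
    ring
  · rw [map_sub, LinearMap.sub_apply, D.corr_B, sub_self]
  · refine Submodule.add_mem _ ?_ (Submodule.smul_mem _ _ (Submodule.subset_span ⟨J, rfl⟩))
    exact Submodule.sum_mem _ fun k _ => Submodule.smul_mem _ _ (Submodule.subset_span ⟨k, rfl⟩)
  · have : G - (G' - corr B h r G' + (h' + b • h J)) = corr B h r G' := by
      rw [hG']; abel
    rw [this]
    exact (D.corr_norm G' (by positivity) hbound).trans_lt (by linarith)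

theorem main_abstract (D : Data B μ h r) (one : V) (hone : μ one ≠ 0) :
    ∃ φ : ℕ → V, (∀ n, φ n ≠ 0) ∧ (∀ m n, m ≠ n → B (φ m) (φ n) = 0) ∧
      (∀ G : V, ∀ ε : ℝ, 0 < ε → ∃ x ∈ Submodule.span ℝ (Set.range φ), ‖G - x‖ < ε) ∧
      ∃ f : V, ∃ δ : ℝ, 0 < δ ∧
        ∀ x ∈ Submodule.span ℝ {y | ∃ n, B f (φ n) ≠ 0 ∧ φ n = y}, δ ≤ ‖f - x‖ := by
  classical
  have hhne : ∀ k, h k ≠ 0 := fun k h0 => by
    have := D.muh k
    rw [h0, map_zero] at this
    exact zero_ne_one this
  set d : ℕ → V := fun n => ((TopologicalSpace.denseSeq (DN B μ h) n : DN B μ h) : V) with hd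
  obtain ⟨e, he1, he2⟩ := gs B D.symm D.pos d
  have hed : ∀ n, e n ∈ DN B μ h := by
    intro n
    have h1 : e n ∈ Submodule.span ℝ (Set.range d) := by
      rw [← he2]; exact Submodule.subset_span ⟨n, rfl⟩
    refine Submodule.span_le.mpr ?_ h1
    rintro _ ⟨m, rfl⟩
    exact (TopologicalSpace.denseSeq (DN B μ h) m).2
  let ι : Type := {n : ℕ // e n ≠ 0} ⊕ ℕ
  haveI : Infinite ι := inferInstanceAs (Infinite ({n : ℕ // e n ≠ 0} ⊕ ℕ))
  haveI : Countable ι := inferInstanceAs (Countable ({n : ℕ // e n ≠ 0} ⊕ ℕ))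
  obtain ⟨hden⟩ := nonempty_denumerable ι
  let σ : ℕ ≃ ι := (Denumerable.eqv ι).symm
  let φ' : ι → V := Sum.elim (fun n : {n : ℕ // e n ≠ 0} => e n.1) h
  have horth : ∀ a b : ι, a ≠ b → B (φ' a) (φ' b) = 0 := by
    rintro (a | a) (b | b) hab
    · exact he1 _ _ (fun h1 => hab (by
        have : a = b := Subtype.ext h1
        rw [this]))
    · exact (hed a.1).2 b
    · change B (h a) (e b.1) = 0
      rw [D.symm]
      exact (hed b.1).2 a
    · exact D.hh _ _ (fun h1 => hab (by rw [h1]))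
  have hrange : Set.range (φ' ∘ σ) = Set.range φ' := σ.surjective.range_comp φ'
  have hspan_e : Submodule.span ℝ (Set.range e) ≤ Submodule.span ℝ (Set.range φ') := by
    refine Submodule.span_le.mpr ?_
    rintro _ ⟨n, rfl⟩
    by_cases hn : e n = 0
    · rw [hn]; exact Submodule.zero_mem _
    · exact Submodule.subset_span ⟨Sum.inl ⟨n, hn⟩, rfl⟩
  have hspan_h : Submodule.span ℝ (Set.range h) ≤ Submodule.span ℝ (Set.range φ') := by
    refine Submodule.span_mono ?_
    rintro _ ⟨n, rfl⟩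
    exact ⟨Sum.inr n, rfl⟩
  refine ⟨φ' ∘ σ, fun n => ?_, fun m n hmn => horth _ _ (fun h1 => hmn (σ.injective h1)), ?_, ?_⟩
  · change φ' (σ n) ≠ 0
    rcases σ n with a | a
    · exact a.2
    · exact hhne a
  · intro G ε hε
    rw [hrange]
    obtain ⟨g, hg, x, hx, hgx⟩ := D.dense G (half_pos hε)
    have hdr := TopologicalSpace.denseRange_denseSeq (DN B μ h)
    obtain ⟨n, hn⟩ := Metric.denseRange_iff.mp hdr ⟨g, hg⟩ (ε / 2) (half_pos hε)
    have hn' : ‖g - d n‖ < ε / 2 := by
      have : dist (⟨g, hg⟩ : DN B μ h) (TopologicalSpace.denseSeq (DN B μ h) n) = ‖g - d n‖ := by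
        rw [Subtype.dist_eq, dist_eq_norm]
      rwa [this] at hn
    refine ⟨d n + x, Submodule.add_mem _ (hspan_e ?_) (hspan_h hx), ?_⟩
    · rw [he2]; exact Submodule.subset_span ⟨n, rfl⟩
    · calc ‖G - (d n + x)‖ = ‖(G - (g + x)) + (g - d n)‖ := by congr 1; abel
        _ ≤ ‖G - (g + x)‖ + ‖g - d n‖ := norm_add_le _ _
        _ < ε := by linarith
  · set f : V := one - corr B h r one with hf
    have hμf : μ f = μ one := by rw [hf, map_sub, D.corr_mu, sub_zero]
    have hfh : ∀ k, B f (h k) = 0 := by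
      intro k
      rw [hf, map_sub, LinearMap.sub_apply, D.corr_B, sub_self]
    have hμne : μ ≠ 0 := fun h0 => hone (by rw [h0]; simp)
    have hμpos : 0 < ‖μ‖ := norm_pos_iff.mpr hμne
    refine ⟨f, |μ f| / ‖μ‖, div_pos (abs_pos.mpr (by rw [hμf]; exact hone)) hμpos, ?_⟩
    intro x hx
    have hμx : μ x = 0 := by
      have : Submodule.span ℝ {y | ∃ n, B f ((φ' ∘ σ) n) ≠ 0 ∧ (φ' ∘ σ) n = y}
          ≤ LinearMap.ker (μ : V →ₗ[ℝ] ℝ) := by
        refine Submodule.span_le.mpr ?_
        rintro _ ⟨n, hn, rfl⟩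
        change μ (φ' (σ n)) = 0
        change B f (φ' (σ n)) ≠ 0 at hn
        rcases hσ : σ n with a | a
        · exact (hed a.1).1
        · rw [hσ] at hn
          exact absurd (hfh a) hn
      exact this hx
    rw [div_le_iff₀ hμpos]
    have hfx : μ (f - x) = μ f := by
      have := map_sub μ f x
      rw [this, hμx, sub_zero]
    calc |μ f| = ‖μ (f - x)‖ := by rw [hfx, Real.norm_eq_abs]
      _ ≤ ‖μ‖ * ‖f - x‖ := μ.le_opNorm _
      _ = ‖f - x‖ * ‖μ‖ := mul_comm _ _

end main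

end Pool.Agent.Q198.Ortho
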