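import Mathlib

/-! Concrete estimates for spikes and sine bumps. -/

set_option autoImplicit false

namespace Pool.Agent.Q198.OrthoB

open Set Filter Topology intervalIntegral

noncomputable section

/-- sine bump supported in `[x/2, x]` -/
def rr (x t : ℝ) : ℝ := Real.sin ((4 * Real.pi / x) * max (x / 2) (min x t))

/-- spike at `3x/4` -/
def ss (x t : ℝ) : ℝ := max 0 (1 - |t - 3 * x / 4| * (1024 / x ^ 5))

def hh (x t : ℝ) : ℝ := x⁻¹ * ss x t + x * rr x t

lemma rr_cont (x : ℝ) : Continuous (rr x) := by unfold rr; fun_prop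
lemma ss_cont (x : ℝ) : Continuous (ss x) := by unfold ss; fun_prop
lemma hh_cont (x : ℝ) : Continuous (hh x) := by
  unfold hh
  exact (continuous_const.mul (ss_cont x)).add (continuous_const.mul (rr_cont x))

lemma rr_abs (x t : ℝ) : |rr x t| ≤ 1 := Real.abs_sin_le_one _

lemma ss_nonneg (x t : ℝ) : 0 ≤ ss x t := le_max_left _ _

lemma ss_le {x : ℝ} (hx : 0 < x) (t : ℝ) : ss x t ≤ 1 := by
  unfold ss
  have : 0 ≤ |t - 3 * x / 4| * (1024 / x ^ 5) := by positivity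
  exact max_le zero_le_one (by linarith)

lemma ss_abs {x : ℝ} (hx : 0 < x) (t : ℝ) : |ss x t| ≤ 1 := by
  rw [abs_of_nonneg (ss_nonneg x t)]; exact ss_le hx t

lemma rr_left {x : ℝ} (hx : 0 < x) {t : ℝ} (ht : t ≤ x / 2) : rr x t = 0 := by
  unfold rr
  have h1 : max (x / 2) (min x t) = x / 2 := max_eq_left ((min_le_right _ _).trans ht)
  rw [h1]
  have : 4 * Real.pi / x * (x / 2) = 2 * Real.pi := by field_simp; norm_num
  rw [this, Real.sin_two_pi]

lemma rr_right {x : ℝ} (hx : 0 < x) {t : ℝ} (ht : x ≤ t) : rr x t = 0 := by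
  unfold rr
  have h1 : max (x / 2) (min x t) = x := by
    rw [min_eq_left ht]; exact max_eq_right (by linarith)
  rw [h1]
  have : 4 * Real.pi / x * x = ((4 : ℕ) : ℝ) * Real.pi := by field_simp; norm_num
  rw [this, Real.sin_nat_mul_pi]

lemma rr_mid {x : ℝ} (hx : 0 < x) : rr x (3 * x / 4) = 0 := by
  unfold rr
  have h1 : max (x / 2) (min x (3 * x / 4)) = 3 * x / 4 := by
    rw [min_eq_right (by linarith)]; exact max_eq_right (by linarith)
  rw [h1]
  have : 4 * Real.pi / x * (3 * x / 4) = ((3 : ℕ) : ℝ) * Real.pi := by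
    field_simp; norm_num
  rw [this, Real.sin_nat_mul_pi]

lemma ss_mid (x : ℝ) : ss x (3 * x / 4) = 1 := by
  unfold ss
  simp

lemma ss_out {x : ℝ} (hx : 0 < x) {t : ℝ} (ht : x ^ 5 / 1024 ≤ |t - 3 * x / 4|) :
    ss x t = 0 := by
  unfold ss
  apply max_eq_left
  have : 1 ≤ |t - 3 * x / 4| * (1024 / x ^ 5) := by
    calc (1 : ℝ) = x ^ 5 / 1024 * (1024 / x ^ 5) := by field_simp
      _ ≤ _ := by gcongr
  linarith

lemma x5 {x : ℝ} (hx : 0 < x) (hx1 : x ≤ 1) : x ^ 5 ≤ x := by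
  calc x ^ 5 ≤ x ^ 1 := pow_le_pow_of_le_one hx.le hx1 (by norm_num)
    _ = x := pow_one x

lemma ss_left {x : ℝ} (hx : 0 < x) (hx1 : x ≤ 1) {t : ℝ} (ht : t ≤ x / 2) : ss x t = 0 := by
  apply ss_out hx
  have := x5 hx hx1
  rw [abs_of_neg (by linarith)]
  linarith

lemma ss_right {x : ℝ} (hx : 0 < x) (hx1 : x ≤ 1) {t : ℝ} (ht : x ≤ t) : ss x t = 0 := by
  apply ss_out hx
  have := x5 hx hx1
  rw [abs_of_pos (by linarith)]
  linarith

lemma hh_left {x : ℝ} (hx : 0 < x) (hx1 : x ≤ 1) {t : ℝ} (ht : t ≤ x / 2) : hh x t = 0 := by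
  simp [hh, ss_left hx hx1 ht, rr_left hx ht]

lemma hh_right {x : ℝ} (hx : 0 < x) (hx1 : x ≤ 1) {t : ℝ} (ht : x ≤ t) : hh x t = 0 := by
  simp [hh, ss_right hx hx1 ht, rr_right hx ht]

lemma hh_mid {x : ℝ} (hx : 0 < x) : hh x (3 * x / 4) = x⁻¹ := by
  simp [hh, ss_mid, rr_mid hx]

lemma loc {u : ℝ → ℝ} (hu : Continuous u) {a b : ℝ} (h0a : 0 ≤ a) (hb1 : b ≤ 1)
    (hz : ∀ t, t ≤ a → u t = 0) (hz' : ∀ t, b ≤ t → u t = 0) :
    ∫ t in (0:ℝ)..1, u t = ∫ t in a..b, u t := by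
  have hi : ∀ p q, IntervalIntegrable u MeasureTheory.volume p q :=
    fun p q => hu.intervalIntegrable p q
  have h1 := integral_add_adjacent_intervals (hi 0 a) (hi a b)
  have h2 := integral_add_adjacent_intervals (hi 0 b) (hi b 1)
  have e1 : ∫ t in (0:ℝ)..a, u t = 0 := by
    rw [integral_congr (g := fun _ => (0:ℝ))]
    · simp
    · intro t ht
      rw [uIcc_of_le h0a] at ht
      exact hz t ht.2
  have e2 : ∫ t in b..(1:ℝ), u t = 0 := by
    rw [integral_congr (g := fun _ => (0:ℝ))]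
    · simp
    · intro t ht
      rw [uIcc_of_le hb1] at ht
      exact hz' t ht.1
  linarith

lemma L1 {x : ℝ} (hx : 0 < x) (hx1 : x ≤ 1) {F : ℝ → ℝ} (hF : Continuous F) {C : ℝ}
    (hC : ∀ t, |F t| ≤ C) : |∫ t in (0:ℝ)..1, F t * ss x t| ≤ C * (x ^ 5 / 512) := by
  have h5 := x5 hx hx1
  have h5' : 0 < x ^ 5 := by positivity
  rw [loc (u := fun t => F t * ss x t) (hF.mul (ss_cont x)) (a := 3 * x / 4 - x ^ 5 / 1024) (b := 3 * x / 4 + x ^ 5 / 1024)
    (by linarith) (by linarith)]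
  · have := norm_integral_le_of_norm_le_const (a := 3 * x / 4 - x ^ 5 / 1024)
      (b := 3 * x / 4 + x ^ 5 / 1024) (f := fun t => F t * ss x t) (C := C) (fun t _ => by
        rw [Real.norm_eq_abs, abs_mul]
        calc |F t| * |ss x t| ≤ C * 1 :=
              mul_le_mul (hC t) (ss_abs hx t) (abs_nonneg _) ((abs_nonneg _).trans (hC t))
          _ = C := mul_one C)
    rw [Real.norm_eq_abs] at this
    refine this.trans (le_of_eq ?_)
    rw [abs_of_pos (by linarith)]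
    ring
  · intro t ht
    rw [ss_out hx, mul_zero]
    rw [abs_of_neg (by linarith)]
    linarith
  · intro t ht
    rw [ss_out hx, mul_zero]
    rw [abs_of_pos (by linarith)]
    linarith

lemma rr_in {x : ℝ} {t : ℝ} (ht : t ∈ Icc (x / 2) x) :
    rr x t = Real.sin ((4 * Real.pi / x) * t) := by
  unfold rr
  rw [min_eq_right ht.2, max_eq_right ht.1]

lemma int_rr {x : ℝ} (hx : 0 < x) : ∫ t in (x / 2)..x, rr x t = 0 := by
  have h1 : ∫ t in (x / 2)..x, rr x t = ∫ t in (x / 2)..x, Real.sin ((4 * Real.pi / x) * t) := by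
    refine integral_congr fun t ht => ?_
    rw [uIcc_of_le (by linarith)] at ht
    exact rr_in ht
  have hc : (4 * Real.pi / x) ≠ 0 := by positivity
  rw [h1, intervalIntegral.integral_comp_mul_left (fun u => Real.sin u) hc, integral_sin]
  have e1 : 4 * Real.pi / x * (x / 2) = 2 * Real.pi := by field_simp; norm_num
  have e2 : 4 * Real.pi / x * x = 2 * Real.pi + 2 * Real.pi := by field_simp; norm_num
  rw [e1, e2, Real.cos_add_two_pi, Real.cos_two_pi]
  simp

lemma int_rr_sq {x : ℝ} (hx : 0 < x) : ∫ t in (x / 2)..x, rr x t * rr x t = x / 4 := by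
  have h1 : ∫ t in (x / 2)..x, rr x t * rr x t
      = ∫ t in (x / 2)..x, Real.sin ((4 * Real.pi / x) * t) ^ 2 := by
    refine integral_congr fun t ht => ?_
    rw [uIcc_of_le (by linarith)] at ht
    rw [rr_in ht]; ring
  have hc : (4 * Real.pi / x) ≠ 0 := by positivity
  rw [h1, intervalIntegral.integral_comp_mul_left (fun u => Real.sin u ^ 2) hc, integral_sin_sq]
  have e1 : 4 * Real.pi / x * (x / 2) = 2 * Real.pi := by field_simp; norm_num
  have e2 : 4 * Real.pi / x * x = 2 * Real.pi + 2 * Real.pi := by field_simp; norm_num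
  rw [e1, e2, Real.sin_add_two_pi, Real.sin_two_pi]
  simp only [zero_mul, smul_eq_mul]
  field_simp
  ring

lemma L2 {x : ℝ} (hx : 0 < x) (hx1 : x ≤ 1) {F : ℝ → ℝ} (hF : Continuous F) {o : ℝ}
    (hC : ∀ t ∈ Icc (0:ℝ) x, |F t - F 0| ≤ o) :
    |∫ t in (0:ℝ)..1, F t * rr x t| ≤ o * (x / 2) := by
  rw [loc (u := fun t => F t * rr x t) (hF.mul (rr_cont x)) (a := x / 2) (b := x) (by linarith) (by linarith)
    (fun t ht => by simp [rr_left hx ht]) (fun t ht => by simp [rr_right hx ht])]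
  have h1 : ∫ t in (x / 2)..x, F t * rr x t = ∫ t in (x / 2)..x, (F t - F 0) * rr x t := by
    have : ∫ t in (x / 2)..x, (F t - F 0) * rr x t
        = (∫ t in (x / 2)..x, F t * rr x t) - ∫ t in (x / 2)..x, F 0 * rr x t := by
      rw [← intervalIntegral.integral_sub]
      · refine integral_congr fun t _ => ?_
        ring
      · exact (hF.mul (rr_cont x)).intervalIntegrable _ _
      · exact (continuous_const.mul (rr_cont x)).intervalIntegrable _ _
    rw [this, intervalIntegral.integral_const_mul, int_rr hx, mul_zero, sub_zero]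
  rw [h1]
  have ho : 0 ≤ o := (abs_nonneg _).trans (hC 0 ⟨le_rfl, hx.le⟩)
  have := norm_integral_le_of_norm_le_const (a := x / 2) (b := x)
    (f := fun t => (F t - F 0) * rr x t) (C := o) (fun t ht => by
      rw [uIoc_of_le (by linarith)] at ht
      rw [Real.norm_eq_abs, abs_mul]
      calc |F t - F 0| * |rr x t| ≤ o * 1 :=
            mul_le_mul (hC t ⟨by linarith [ht.1], ht.2⟩) (rr_abs x t) (abs_nonneg _) ho
        _ = o := mul_one o)
  rw [Real.norm_eq_abs] at this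
  refine this.trans (le_of_eq ?_)
  rw [abs_of_pos (by linarith)]
  ring

lemma L3 {x : ℝ} (hx : 0 < x) (hx1 : x ≤ 1) : ∫ t in (0:ℝ)..1, rr x t * rr x t = x / 4 := by
  rw [loc (u := fun t => rr x t * rr x t) ((rr_cont x).mul (rr_cont x)) (a := x / 2) (b := x) (by linarith) (by linarith)
    (fun t ht => by simp [rr_left hx ht]) (fun t ht => by simp [rr_right hx ht])]
  exact int_rr_sq hx

lemma split {x : ℝ} {F : ℝ → ℝ} (hF : Continuous F) :
    ∫ t in (0:ℝ)..1, F t * hh x t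
      = x⁻¹ * (∫ t in (0:ℝ)..1, F t * ss x t) + x * ∫ t in (0:ℝ)..1, F t * rr x t := by
  rw [← intervalIntegral.integral_const_mul, ← intervalIntegral.integral_const_mul,
    ← intervalIntegral.integral_add]
  · refine integral_congr fun t _ => ?_
    simp only [hh]; ring
  · exact (continuous_const.mul (hF.mul (ss_cont x))).intervalIntegrable _ _
  · exact (continuous_const.mul (hF.mul (rr_cont x))).intervalIntegrable _ _

/-- lower bound for `κ` -/
lemma kap_lb {x : ℝ} (hx : 0 < x) (hx1 : x ≤ 1) :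
    x ^ 2 / 8 ≤ ∫ t in (0:ℝ)..1, rr x t * hh x t := by
  rw [split (rr_cont x), L3 hx hx1]
  have h1 := L1 hx hx1 (rr_cont x) (C := 1) (rr_abs x)
  have h2 := (abs_le.mp h1).1
  have h3 : x⁻¹ * (-(1 * (x ^ 5 / 512))) ≤ x⁻¹ * ∫ t in (0:ℝ)..1, rr x t * ss x t :=
    mul_le_mul_of_nonneg_left h2 (by positivity)
  have h4 : x⁻¹ * (-(1 * (x ^ 5 / 512))) = - (x ^ 4 / 512) := by field_simp
  have h5 : x ^ 4 ≤ x ^ 2 := pow_le_pow_of_le_one hx.le hx1 (by norm_num)
  have h6 : 0 < x ^ 2 := by positivity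
  nlinarith

lemma F_ub {x : ℝ} (hx : 0 < x) (hx1 : x ≤ 1) {F : ℝ → ℝ} (hF : Continuous F) {C o : ℝ}
    (hC : ∀ t, |F t| ≤ C) (ho : ∀ t ∈ Icc (0:ℝ) x, |F t - F 0| ≤ o) :
    |∫ t in (0:ℝ)..1, F t * hh x t| ≤ C * x ^ 4 / 512 + o * x ^ 2 / 2 := by
  rw [split hF]
  have h1 := L1 hx hx1 hF hC
  have h2 := L2 hx hx1 hF ho
  calc _ ≤ |x⁻¹ * ∫ t in (0:ℝ)..1, F t * ss x t| + |x * ∫ t in (0:ℝ)..1, F t * rr x t| :=
        abs_add_le _ _
    _ = x⁻¹ * |∫ t in (0:ℝ)..1, F t * ss x t| + x * |∫ t in (0:ℝ)..1, F t * rr x t| := by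
        rw [abs_mul, abs_mul, abs_of_pos hx, abs_of_pos (inv_pos.mpr hx)]
    _ ≤ x⁻¹ * (C * (x ^ 5 / 512)) + x * (o * (x / 2)) := by gcongr
    _ = _ := by field_simp

lemma hh_ub {x : ℝ} (hx : 0 < x) (hx1 : x ≤ 1) :
    ∫ t in (0:ℝ)..1, hh x t * hh x t
      ≤ x ^ 3 / 256 + x * ∫ t in (0:ℝ)..1, rr x t * hh x t := by
  rw [split (hh_cont x)]
  have hb : ∀ t, |hh x t| ≤ x⁻¹ + x := by
    intro t
    unfold hh
    refine (abs_add_le _ _).trans ?_
    rw [abs_mul, abs_mul, abs_of_pos hx, abs_of_pos (inv_pos.mpr hx)]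
    have := ss_abs hx t
    have := rr_abs x t
    have h3 : 0 < x⁻¹ := inv_pos.mpr hx
    nlinarith
  have h1 := L1 hx hx1 (hh_cont x) hb
  have h2 := (abs_le.mp h1).2
  have h3 : x⁻¹ * ∫ t in (0:ℝ)..1, hh x t * ss x t ≤ x⁻¹ * ((x⁻¹ + x) * (x ^ 5 / 512)) :=
    mul_le_mul_of_nonneg_left h2 (by positivity)
  have h4 : x⁻¹ * ((x⁻¹ + x) * (x ^ 5 / 512)) = x ^ 3 / 512 + x ^ 5 / 512 := by
    field_simp
  have h5 : x ^ 5 ≤ x ^ 3 := pow_le_pow_of_le_one hx.le hx1 (by norm_num)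
  have h6 : ∫ t in (0:ℝ)..1, hh x t * rr x t = ∫ t in (0:ℝ)..1, rr x t * hh x t := by
    refine integral_congr fun t _ => ?_
    ring
  rw [h6]
  linarith

end

end Pool.Agent.Q198.OrthoB
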