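import Pool.Agent.Q198.OrthoA
import Pool.Agent.Q198.OrthoB

/-! Concrete data on `C[0,1]`. -/

set_option autoImplicit false

namespace Pool.Agent.Q198.OrthoC

open Set Filter Topology intervalIntegral
open Pool.Agent.Q198.Ortho Pool.Agent.Q198.OrthoB

noncomputable section

abbrev I01 := Set.Icc (0:ℝ) 1
abbrev V := C(Set.Icc (0:ℝ) 1, ℝ)

/-- constant extension -/
def ex (f : V) : ℝ → ℝ := Set.IccExtend (zero_le_one (α := ℝ)) f

lemma ex_cont (f : V) : Continuous (ex f) := f.continuous.Icc_extend'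

lemma ex_of_mem (f : V) {t : ℝ} (ht : t ∈ I01) : ex f t = f ⟨t, ht⟩ :=
  Set.IccExtend_of_mem _ _ ht

lemma ex_abs (f : V) (t : ℝ) : |ex f t| ≤ ‖f‖ := by
  unfold ex Set.IccExtend
  exact f.norm_coe_le_norm _

lemma ex_add (f g : V) (t : ℝ) : ex (f + g) t = ex f t + ex g t := rfl
lemma ex_smul (c : ℝ) (f : V) (t : ℝ) : ex (c • f) t = c * ex f t := rfl

lemma ii (f g : V) (a b : ℝ) :
    IntervalIntegrable (fun t => ex f t * ex g t) MeasureTheory.volume a b :=
  ((ex_cont f).mul (ex_cont g)).intervalIntegrable a b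

/-- the inner product -/
def BB : V →ₗ[ℝ] V →ₗ[ℝ] ℝ :=
  LinearMap.mk₂ ℝ (fun f g => ∫ t in (0:ℝ)..1, ex f t * ex g t)
    (fun f f' g => by
      rw [← intervalIntegral.integral_add (ii f g 0 1) (ii f' g 0 1)]
      refine integral_congr fun t _ => ?_
      simp only [ex_add]; ring)
    (fun c f g => by
      rw [smul_eq_mul, ← intervalIntegral.integral_const_mul]
      refine integral_congr fun t _ => ?_
      simp only [ex_smul]; ring)
    (fun f g g' => by
      rw [← intervalIntegral.integral_add (ii f g 0 1) (ii f g' 0 1)]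
      refine integral_congr fun t _ => ?_
      simp only [ex_add]; ring)
    (fun c f g => by
      rw [smul_eq_mul, ← intervalIntegral.integral_const_mul]
      refine integral_congr fun t _ => ?_
      simp only [ex_smul]; ring)

lemma BB_apply (f g : V) : BB f g = ∫ t in (0:ℝ)..1, ex f t * ex g t := rfl

lemma BB_symm (f g : V) : BB f g = BB g f := by
  rw [BB_apply, BB_apply]
  refine integral_congr fun t _ => ?_
  ring

lemma BB_pos (f : V) (hf : f ≠ 0) : 0 < BB f f := by
  rw [BB_apply]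
  obtain ⟨⟨c, hc⟩, hfc⟩ : ∃ c, f c ≠ 0 := by
    by_contra hcon
    push Not at hcon
    exact hf (ContinuousMap.ext hcon)
  refine intervalIntegral.integral_pos zero_lt_one
    ((ex_cont f).mul (ex_cont f)).continuousOn (fun t _ => mul_self_nonneg _) ⟨c, hc, ?_⟩
  rw [ex_of_mem f hc]
  exact mul_self_pos.mpr hfc

lemma BB_bound (f g : V) : |BB f g| ≤ ‖g‖ * ‖f‖ := by
  rw [BB_apply]
  have := norm_integral_le_of_norm_le_const (a := 0) (b := 1)
    (f := fun t => ex f t * ex g t) (C := ‖g‖ * ‖f‖) (fun t _ => by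
      rw [Real.norm_eq_abs, abs_mul, mul_comm]
      exact mul_le_mul (ex_abs g t) (ex_abs f t) (abs_nonneg _) (norm_nonneg _))
  simpa using this

lemma BB_cont (g : V) : Continuous fun F => BB F g := by
  have h : ∀ F, ‖BB.flip g F‖ ≤ ‖g‖ * ‖F‖ := fun F => BB_bound F g
  exact (LinearMap.mkContinuous (BB.flip g) ‖g‖ h).continuous

/-- restriction to `[0,1]` -/
def res (u : ℝ → ℝ) (hu : Continuous u) : V := ⟨fun t => u t, hu.comp continuous_subtype_val⟩

lemma BB_res (F : V) (u : ℝ → ℝ) (hu : Continuous u) :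
    BB F (res u hu) = ∫ t in (0:ℝ)..1, ex F t * u t := by
  rw [BB_apply]
  refine integral_congr fun t ht => ?_
  rw [uIcc_of_le zero_le_one] at ht
  rw [ex_of_mem (res u hu) ht]
  rfl

lemma BB_res_res (v u : ℝ → ℝ) (hv : Continuous v) (hu : Continuous u) :
    BB (res v hv) (res u hu) = ∫ t in (0:ℝ)..1, v t * u t := by
  rw [BB_res]
  refine integral_congr fun t ht => ?_
  rw [uIcc_of_le zero_le_one] at ht
  rw [ex_of_mem (res v hv) ht]
  rfl

/-- scales -/
def xx (k : ℕ) : ℝ := (1 / 2) ^ k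

lemma xx_pos (k : ℕ) : 0 < xx k := by unfold xx; positivity
lemma xx_le (k : ℕ) : xx k ≤ 1 := pow_le_one₀ (by norm_num) (by norm_num)
lemma xx_tendsto : Tendsto xx atTop (𝓝 0) :=
  tendsto_pow_atTop_nhds_zero_of_lt_one (by norm_num) (by norm_num)
lemma xx_sum : Summable xx := summable_geometric_of_lt_one (by norm_num) (by norm_num)

lemma xx_lt {j k : ℕ} (h : j < k) : xx k ≤ xx j / 2 := by
  have : xx k ≤ xx (j + 1) := pow_le_pow_of_le_one (by norm_num) (by norm_num) h
  refine this.trans (le_of_eq ?_)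
  unfold xx
  rw [pow_succ]; ring

def rk (k : ℕ) : V := res (rr (xx k)) (rr_cont _)
def hk (k : ℕ) : V := res (hh (xx k)) (hh_cont _)

/-- the midpoints -/
def mk (k : ℕ) : Set.Icc (0:ℝ) 1 := ⟨3 * xx k / 4, by
  have := xx_pos k
  have := xx_le k
  constructor <;> linarith⟩

lemma disj {j k : ℕ} (h : j ≠ k) (t : ℝ) :
    (rr (xx j) t = 0 ∧ hh (xx j) t = 0) ∨ (rr (xx k) t = 0 ∧ hh (xx k) t = 0) := by
  wlog hjk : j < k generalizing j k
  · exact (this (Ne.symm h) (lt_of_le_of_ne (not_lt.mp hjk) (Ne.symm h))).symm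
  rcases le_total t (xx j / 2) with ht | ht
  · exact Or.inl ⟨rr_left (xx_pos j) ht, hh_left (xx_pos j) (xx_le j) ht⟩
  · have := (xx_lt hjk).trans ht
    exact Or.inr ⟨rr_right (xx_pos k) this, hh_right (xx_pos k) (xx_le k) this⟩

lemma summable_mu : Summable fun k => xx k • (ContinuousMap.evalCLM ℝ (mk k) : V →L[ℝ] ℝ) := by
  refine Summable.of_norm_bounded (E := V →L[ℝ] ℝ) (g := xx) xx_sum fun k => ?_
  refine ContinuousLinearMap.opNorm_le_bound _ (xx_pos k).le fun f => ?_
  change ‖xx k * f (mk k)‖ ≤ _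
  rw [norm_mul, Real.norm_eq_abs (xx k), abs_of_pos (xx_pos k)]
  exact mul_le_mul_of_nonneg_left (f.norm_coe_le_norm _) (xx_pos k).le

/-- the functional -/
def mu : V →L[ℝ] ℝ := ∑' k, xx k • (ContinuousMap.evalCLM ℝ (mk k) : V →L[ℝ] ℝ)

lemma mu_apply (f : V) : mu f = ∑' k, xx k * f (mk k) := by
  have h := (ContinuousLinearMap.apply ℝ ℝ f : (V →L[ℝ] ℝ) →L[ℝ] ℝ).map_tsum summable_mu
  exact h

lemma rk_mk (k j : ℕ) : rk k (mk j) = 0 := by
  change rr (xx k) (3 * xx j / 4) = 0
  by_cases h : k = j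
  · subst h; exact rr_mid (xx_pos _)
  · rcases disj h (3 * xx j / 4) with h1 | h1
    · exact h1.1
    · exfalso
      have := h1.2
      rw [hh_mid (xx_pos j)] at this
      exact (inv_pos.mpr (xx_pos j)).ne' this

lemma hk_mk (k j : ℕ) : hk k (mk j) = if j = k then (xx k)⁻¹ else 0 := by
  change hh (xx k) (3 * xx j / 4) = _
  split_ifs with h
  · subst h; exact hh_mid (xx_pos _)
  · rcases disj h (3 * xx j / 4) with h1 | h1
    · exfalso
      have := h1.2
      rw [hh_mid (xx_pos j)] at this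
      exact (inv_pos.mpr (xx_pos j)).ne' this
    · exact h1.2

lemma mu_rk (k : ℕ) : mu (rk k) = 0 := by
  rw [mu_apply]
  simp [rk_mk]

lemma mu_hk (k : ℕ) : mu (hk k) = 1 := by
  rw [mu_apply, tsum_eq_single k]
  · rw [hk_mk, if_pos rfl]
    exact mul_inv_cancel₀ (xx_pos k).ne'
  · intro j hj
    rw [hk_mk, if_neg hj, mul_zero]

lemma mu_one : mu (1 : V) ≠ 0 := by
  rw [mu_apply]
  have : (∑' k, xx k * (1 : V) (mk k)) = 2 := by
    simp only [ContinuousMap.one_apply, mul_one]
    exact tsum_geometric_two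
  rw [this]
  norm_num

lemma kappa_lb (k : ℕ) : xx k ^ 2 / 8 ≤ BB (rk k) (hk k) := by
  rw [rk, hk, BB_res_res]
  exact kap_lb (xx_pos k) (xx_le k)

theorem data : Data BB mu hk rk where
  symm := BB_symm
  pos := BB_pos
  cont i := BB_cont _
  hh j k hjk := by
    rw [hk, hk, BB_res_res, integral_congr (g := fun _ => (0:ℝ))]
    · simp
    · intro t _
      rcases disj hjk t with h | h <;> simp [h.2]
  muh := mu_hk
  mur := mu_rk
  rh j k hjk := by
    rw [rk, hk, BB_res_res, integral_congr (g := fun _ => (0:ℝ))]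
    · simp
    · intro t _
      rcases disj hjk t with h | h
      · simp [h.1]
      · simp [h.2]
  kpos k := lt_of_lt_of_le (by have := xx_pos k; positivity) (kappa_lb k)
  tau F := by
    rw [Metric.tendsto_atTop]
    intro ε hε
    have hc : Tendsto (ex F) (𝓝 0) (𝓝 (ex F 0)) := (ex_cont F).tendsto 0
    obtain ⟨η, hη, hη'⟩ := Metric.tendsto_nhds_nhds.mp hc (ε / 16) (by positivity)
    have h1 : ∀ᶠ k in atTop, xx k < η := xx_tendsto.eventually (gt_mem_nhds hη)
    have h2 : Tendsto (fun k => ‖F‖ * (xx k * xx k) / 64) atTop (𝓝 0) := by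
      have := ((xx_tendsto.mul xx_tendsto).const_mul ‖F‖).div_const 64
      simpa using this
    have h3 : ∀ᶠ k in atTop, ‖F‖ * (xx k * xx k) / 64 < ε / 4 :=
      h2.eventually (gt_mem_nhds (by positivity))
    obtain ⟨N, hN⟩ := eventually_atTop.mp (h1.and h3)
    refine ⟨N, fun k hk' => ?_⟩
    obtain ⟨hk1, hk2⟩ := hN k hk'
    rw [dist_zero_right, Real.norm_eq_abs]
    have hx := xx_pos k
    have hkap := kappa_lb k
    have hkpos : 0 < BB (rk k) (hk k) := lt_of_lt_of_le (by positivity) hkap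
    have hub : |BB F (hk k)| ≤ ‖F‖ * xx k ^ 4 / 512 + (ε / 16) * xx k ^ 2 / 2 := by
      rw [hk, BB_res]
      refine F_ub (xx_pos k) (xx_le k) (ex_cont F) (ex_abs F) fun t ht => ?_
      have := hη' (x := t) (by
        rw [dist_zero_right, Real.norm_eq_abs, abs_of_nonneg ht.1]
        exact ht.2.trans_lt hk1)
      rw [Real.dist_eq] at this
      exact this.le
    rw [abs_div, abs_of_pos hkpos, div_lt_iff₀ hkpos]
    have hx2 : 0 < xx k ^ 2 := by positivity
    have e1 : ‖F‖ * xx k ^ 4 / 512 + (ε / 16) * xx k ^ 2 / 2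
        = (‖F‖ * (xx k * xx k) / 64 + ε / 4) * (xx k ^ 2 / 8) := by ring
    have e2 : (‖F‖ * (xx k * xx k) / 64 + ε / 4) * (xx k ^ 2 / 8) < ε * (xx k ^ 2 / 8) := by
      apply mul_lt_mul_of_pos_right _ (by positivity)
      linarith
    calc |BB F (hk k)| ≤ _ := hub
      _ = _ := e1
      _ < ε * (xx k ^ 2 / 8) := e2
      _ ≤ ε * BB (rk k) (hk k) := mul_le_mul_of_nonneg_left hkap hε.le
  kap := by
    refine squeeze_zero (g := fun k => 2 * xx k) (fun k => ?_) (fun k => ?_) ?_
    · have hx := xx_pos k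
      have hkpos : 0 < BB (rk k) (hk k) := lt_of_lt_of_le (by positivity) (kappa_lb k)
      refine div_nonneg ?_ hkpos.le
      by_cases h0 : hk k = 0
      · simp [h0]
      · exact (BB_pos _ h0).le
    · have hx := xx_pos k
      have hkap := kappa_lb k
      have hkpos : 0 < BB (rk k) (hk k) := lt_of_lt_of_le (by positivity) hkap
      rw [div_le_iff₀ hkpos]
      have h1 : BB (hk k) (hk k) ≤ xx k ^ 3 / 256 + xx k * BB (rk k) (hk k) := by
        rw [rk, hk, BB_res_res, BB_res_res]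
        exact hh_ub (xx_pos k) (xx_le k)
      have h2 : xx k ^ 3 / 256 ≤ xx k * (xx k ^ 2 / 8) := by
        have : 0 < xx k ^ 3 := by positivity
        nlinarith
      have h3 : xx k * (xx k ^ 2 / 8) ≤ xx k * BB (rk k) (hk k) :=
        mul_le_mul_of_nonneg_left hkap hx.le
      linarith
    · simpa using xx_tendsto.const_mul 2
  sum s τ M hM hτ := by
    rw [ContinuousMap.norm_le _ hM]
    intro t
    rw [ContinuousMap.sum_apply, Real.norm_eq_abs]
    simp only [ContinuousMap.smul_apply, smul_eq_mul]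
    by_cases h : ∃ k ∈ s, rk k t ≠ 0
    · obtain ⟨k, hks, hkt⟩ := h
      rw [Finset.sum_eq_single k]
      · rw [abs_mul]
        calc |τ k| * |rk k t| ≤ M * 1 :=
              mul_le_mul (hτ k hks) (rr_abs _ _) (abs_nonneg _) hM
          _ = M := mul_one M
      · intro j _ hjk
        rcases disj hjk (t : ℝ) with h1 | h1
        · have : rk j t = 0 := h1.1
          rw [this, mul_zero]
        · exact absurd h1.1 hkt
      · intro h2; exact absurd hks h2
    · push Not at h
      rw [Finset.sum_eq_zero fun k hks => by rw [h k hks, mul_zero]]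
      simpa using hM

end

end Pool.Agent.Q198.OrthoC
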