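import Mathlib

set_option autoImplicit false
set_option maxRecDepth 100000

namespace Pool.Agent.Q198.SP

open Finset

def EU : ℕ := 29459911824384416156921937340137412270112
def EV : ℕ := 920615754140939874148207867617024903361
def PIC : ℕ := 216345372241011057028699794841872
def INE : ℕ := 1045482011332652577244511807209472
def LKC : ℕ := 52704661372081194632

/-- endpoints of the 27 edges -/
def u (k : Fin 27) : Fin 22 := Fin.ofNat 22 (EU / 32 ^ (k : ℕ) % 32)
def v (k : Fin 27) : Fin 22 := Fin.ofNat 22 (EV / 32 ^ (k : ℕ) % 32)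
/-- the path containing the edge -/
def pth (k : Fin 27) : Fin 11 := Fin.ofNat 11 (PIC / 16 ^ (k : ℕ) % 16)
/-- the edge entering an internal vertex -/
def ine (w : Fin 22) : Fin 27 := Fin.ofNat 27 (INE / 32 ^ (w : ℕ) % 32)
/-- the link of a vertex -/
def lk (w : Fin 22) : ℕ := LKC / 8 ^ (w : ℕ) % 8

lemma u_ne_v : ∀ k : Fin 27, u k ≠ v k := by decide +kernel

def Gr (D : Finset (Fin 27)) : SimpleGraph (Fin 22) where
  Adj a b := ∃ k, k ∉ D ∧ ((a = u k ∧ b = v k) ∨ (a = v k ∧ b = u k))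
  symm := ⟨by
    rintro a b ⟨k, hk, h | h⟩
    · exact ⟨k, hk, Or.inr ⟨h.2, h.1⟩⟩
    · exact ⟨k, hk, Or.inl ⟨h.2, h.1⟩⟩⟩
  loopless := ⟨by
    rintro a ⟨k, hk, h | h⟩
    · exact u_ne_v k (h.1.symm.trans h.2)
    · exact u_ne_v k (h.2.symm.trans h.1)⟩

lemma edge_inj : ∀ k l : Fin 27,
    ((u k = u l ∧ v k = v l) ∨ (u k = v l ∧ v k = u l)) → k = l := by decide +kernel

lemma adj_iff (D : Finset (Fin 27)) (k : Fin 27) : (Gr D).Adj (u k) (v k) ↔ k ∉ D := by
  constructor
  · rintro ⟨l, hl, h⟩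
    have : k = l := edge_inj k l h
    rwa [this]
  · intro h
    exact ⟨k, h, Or.inl ⟨rfl, rfl⟩⟩

lemma Gr_injective : Function.Injective Gr := by
  intro D D' h
  ext k
  rw [← not_iff_not, ← adj_iff, ← adj_iff, h]

lemma Gr_mono {D D' : Finset (Fin 27)} : Gr D ≤ Gr D' ↔ D' ⊆ D := by
  constructor
  · intro h k hk
    by_contra hk'
    have := h ((adj_iff D k).mpr hk')
    exact (adj_iff D' k).mp this hk
  · rintro h a b ⟨k, hk, hab⟩
    exact ⟨k, fun hk' => hk (h hk'), hab⟩

open Classical in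
lemma eq_Gr (H : SimpleGraph (Fin 22)) (hH : H ≤ Gr ∅) :
    H = Gr (univ.filter fun k => ¬ H.Adj (u k) (v k)) := by
  ext a b
  constructor
  · intro h
    obtain ⟨k, -, hk⟩ := hH h
    refine ⟨k, ?_, hk⟩
    simp only [mem_filter, mem_univ, true_and, not_not]
    rcases hk with ⟨rfl, rfl⟩ | ⟨rfl, rfl⟩
    · exact h
    · exact h.symm
  · rintro ⟨k, hk, hab⟩
    simp only [mem_filter, mem_univ, true_and, not_not] at hk
    rcases hab with ⟨rfl, rfl⟩ | ⟨rfl, rfl⟩
    · exact hk
    · exact hk.symm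

lemma edgeSet_Gr (D : Finset (Fin 27)) :
    (Gr D).edgeSet = (fun k => s(u k, v k)) '' (↑(univ \ D) : Set (Fin 27)) := by
  ext e
  induction e using Sym2.ind with
  | _ a b =>
    simp only [SimpleGraph.mem_edgeSet, Set.mem_image]
    constructor
    · rintro ⟨k, hk, h | h⟩
      · exact ⟨k, by simpa using hk, by rw [h.1, h.2]⟩
      · exact ⟨k, by simpa using hk, by rw [h.1, h.2]; exact Sym2.eq_swap⟩
    · rintro ⟨k, hk, h⟩
      refine ⟨k, by simpa using hk, ?_⟩
      rw [Sym2.eq_iff] at h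
      rcases h with h | h
      · exact Or.inl ⟨h.1.symm, h.2.symm⟩
      · exact Or.inr ⟨h.2.symm, h.1.symm⟩

lemma card_edges (D : Finset (Fin 27)) : (Gr D).edgeSet.ncard = 27 - D.card := by
  rw [edgeSet_Gr, Set.ncard_image_of_injective]
  · rw [Set.ncard_coe_finset, card_sdiff_of_subset (subset_univ D)]
    simp
  · intro k l h
    simp only [Sym2.eq_iff] at h
    exact edge_inj k l h

/-! ### Disconnectedness -/

lemma not_connected (D : Finset (Fin 27)) (col : Fin 22 → Bool)
    (h : ∀ k, k ∉ D → col (u k) = col (v k)) (a b : Fin 22) (hab : col a ≠ col b) :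
    ¬ (Gr D).Connected := by
  intro hc
  apply hab
  have hr := hc.preconnected a b
  obtain ⟨w⟩ := hr
  induction w with
  | nil => rfl
  | cons hadj _ ih =>
    rename_i x y z p
    have hxy : col x = col y := by
      obtain ⟨k, hk, h' | h'⟩ := hadj
      · rw [h'.1, h'.2]; exact h k hk
      · rw [h'.1, h'.2]; exact (h k hk).symm
    by_cases hyz : col y = col z
    · exact hxy.trans hyz
    · exact hxy.trans (ih hyz)

/-- vertices strictly between the edges `e < f` of a path -/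
def btw (e f : Fin 27) (w : Fin 22) : Bool :=
  decide (6 ≤ (w : ℕ)) && decide (pth (ine w) = pth e) && decide (e ≤ ine w) && decide (ine w < f)

lemma btw_spec : ∀ e f : Fin 27, e < f → pth e = pth f →
    (∀ k, k ≠ e → k ≠ f → btw e f (u k) = btw e f (v k)) ∧ btw e f (v e) = true ∧
      btw e f 0 = false := by decide +kernel

lemma cut_path (D : Finset (Fin 27)) (e f : Fin 27) (he : e ∈ D) (hf : f ∈ D) (hlt : e < f)
    (hp : pth e = pth f) : ¬ (Gr D).Connected := by
  obtain ⟨h1, h2, h3⟩ := btw_spec e f hlt hp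
  refine not_connected D (btw e f) ?_ (v e) 0 (by rw [h2, h3]; decide)
  intro k hk
  exact h1 k (fun h => hk (h ▸ he)) (fun h => hk (h ▸ hf))

/-- the two paths of a link (equal for link 0) -/
def P₁ (i : Fin 6) : Fin 11 := Fin.ofNat 11 (2 * (i : ℕ) - 1)
def P₂ (i : Fin 6) : Fin 11 := Fin.ofNat 11 (2 * (i : ℕ))

/-- the list of edges of a path -/
def edgesOf (p : Fin 11) : List (Fin 27) := (List.finRange 27).filter (fun k => pth k = p)

def side (a b : Fin 27) (w : Fin 22) : Bool :=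
  decide (6 ≤ (w : ℕ)) && ((decide (pth (ine w) = pth a) && decide (a ≤ ine w)) ||
    (decide (pth (ine w) = pth b) && decide (b ≤ ine w)))

def col (i j : Fin 6) (a b a' b' : Fin 27) (w : Fin 22) : Bool :=
  if lk w = i then side a b w else if lk w = j then !(side a' b' w) else
    decide ((i : ℕ) < lk w) && decide (lk w < (j : ℕ))

lemma col_spec : ∀ i j : Fin 6, i < j → ∀ a ∈ edgesOf (P₁ i), ∀ b ∈ edgesOf (P₂ i),
    ∀ a' ∈ edgesOf (P₁ j), ∀ b' ∈ edgesOf (P₂ j),
    (∀ k, k ≠ a → k ≠ b → k ≠ a' → k ≠ b' →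
      col i j a b a' b' (u k) = col i j a b a' b' (v k)) ∧
    (col i j a b a' b' (Fin.castLE (by norm_num) i) = false) ∧
    (col i j a b a' b' (Fin.castLE (by norm_num) j) = true) := by decide +kernel

end Pool.Agent.Q198.SP
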