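import Pool.Agent.Q198.SPA

set_option autoImplicit false
set_option maxRecDepth 100000

namespace Pool.Agent.Q198.SP

open Finset

/-- link `i` is broken by a deletion set with support `T` (a set of paths) -/
def Br (i : Fin 6) (T : Finset (Fin 11)) : Prop := P₁ i ∈ T ∧ P₂ i ∈ T

instance (i : Fin 6) (T : Finset (Fin 11)) : Decidable (Br i T) := by unfold Br; infer_instance

/-- at most one link is broken -/
def Q (T : Finset (Fin 11)) : Prop := ∀ i j : Fin 6, i < j → ¬ (Br i T ∧ Br j T)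

instance (T : Finset (Fin 11)) : Decidable (Q T) := by unfold Q; infer_instance

lemma mem_edgesOf (k : Fin 27) : k ∈ edgesOf (pth k) := by
  unfold edgesOf
  rw [List.mem_filter]
  exact ⟨List.mem_finRange k, by simp⟩

lemma exists_edge {D : Finset (Fin 27)} {p : Fin 11} (h : p ∈ D.image pth) :
    ∃ k ∈ D, k ∈ edgesOf p := by
  obtain ⟨k, hk, rfl⟩ := mem_image.mp h
  exact ⟨k, hk, mem_edgesOf k⟩

lemma cut_links (D : Finset (Fin 27)) (i j : Fin 6) (hij : i < j)
    (hi : Br i (D.image pth)) (hj : Br j (D.image pth)) : ¬ (Gr D).Connected := by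
  obtain ⟨a, ha, ha'⟩ := exists_edge hi.1
  obtain ⟨b, hb, hb'⟩ := exists_edge hi.2
  obtain ⟨c, hc, hc'⟩ := exists_edge hj.1
  obtain ⟨d, hd, hd'⟩ := exists_edge hj.2
  obtain ⟨h1, h2, h3⟩ := col_spec i j hij a ha' b hb' c hc' d hd'
  refine not_connected D (col i j a b c d) ?_ (Fin.castLE (by norm_num) i)
    (Fin.castLE (by norm_num) j) (by rw [h2, h3]; decide)
  intro k hk
  exact h1 k (fun h => hk (h ▸ ha)) (fun h => hk (h ▸ hb)) (fun h => hk (h ▸ hc))
    (fun h => hk (h ▸ hd))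

/-- the condition for connectedness -/
def Cond (D : Finset (Fin 27)) : Prop := Set.InjOn pth (D : Set (Fin 27)) ∧ Q (D.image pth)

lemma cond_of_connected (D : Finset (Fin 27)) (h : (Gr D).Connected) : Cond D := by
  constructor
  · intro e he f hf hef
    by_contra hne
    rcases lt_or_gt_of_ne hne with hlt | hlt
    · exact cut_path D e f he hf hlt hef h
    · exact cut_path D f e hf he hlt hef.symm h
  · rintro i j hij ⟨hi, hj⟩
    exact cut_links D i j hij hi hj h

/-! ### Connectedness -/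

/-- path lemma: among consecutive edges `k` in a list at most one is deleted -/
lemma reach_edge (D : Finset (Fin 27)) (k : Fin 27) (hk : k ∉ D) :
    (Gr D).Reachable (u k) (v k) := ((adj_iff D k).mpr hk).reachable

section
variable {D : Finset (Fin 27)}

lemma path2 {W : Type*} {R : W → W → Prop} (symm : ∀ a b, R a b → R b a)
    (trans : ∀ a b c, R a b → R b c → R a c) {x0 x1 x2 : W} {d1 d2 : Prop}
    (h1 : ¬ d1 → R x0 x1) (h2 : ¬ d2 → R x1 x2) (h12 : ¬ (d1 ∧ d2)) :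
    (R x1 x0 ∨ R x1 x2) ∧ (¬ d1 → ¬ d2 → R x0 x2) := by
  constructor
  · by_cases hd : d1
    · exact Or.inr (h2 fun h => h12 ⟨hd, h⟩)
    · exact Or.inl (symm _ _ (h1 hd))
  · intro a b
    exact trans _ _ _ (h1 a) (h2 b)

lemma path3 {W : Type*} {R : W → W → Prop} (symm : ∀ a b, R a b → R b a)
    (trans : ∀ a b c, R a b → R b c → R a c) {x0 x1 x2 x3 : W} {d1 d2 d3 : Prop}
    (h1 : ¬ d1 → R x0 x1) (h2 : ¬ d2 → R x1 x2) (h3 : ¬ d3 → R x2 x3)
    (h12 : ¬ (d1 ∧ d2)) (h13 : ¬ (d1 ∧ d3)) (h23 : ¬ (d2 ∧ d3)) :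
    (R x1 x0 ∨ R x1 x3) ∧ (R x2 x0 ∨ R x2 x3) ∧ (¬ d1 → ¬ d2 → ¬ d3 → R x0 x3) := by
  refine ⟨?_, ?_, fun a b c => trans _ _ _ (trans _ _ _ (h1 a) (h2 b)) (h3 c)⟩
  · by_cases hd : d1
    · exact Or.inr (trans _ _ _ (h2 fun h => h12 ⟨hd, h⟩) (h3 fun h => h13 ⟨hd, h⟩))
    · exact Or.inl (symm _ _ (h1 hd))
  · by_cases hd : d3
    · exact Or.inl (symm _ _ (trans _ _ _ (h1 fun h => h13 ⟨h, hd⟩) (h2 fun h => h23 ⟨h, hd⟩)))
    · exact Or.inr (h3 hd)

lemma path4 {W : Type*} {R : W → W → Prop} (symm : ∀ a b, R a b → R b a)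
    (trans : ∀ a b c, R a b → R b c → R a c) {x0 x1 x2 x3 x4 : W} {d1 d2 d3 d4 : Prop}
    (h1 : ¬ d1 → R x0 x1) (h2 : ¬ d2 → R x1 x2) (h3 : ¬ d3 → R x2 x3) (h4 : ¬ d4 → R x3 x4)
    (h12 : ¬ (d1 ∧ d2)) (h13 : ¬ (d1 ∧ d3)) (h14 : ¬ (d1 ∧ d4)) (h23 : ¬ (d2 ∧ d3))
    (h24 : ¬ (d2 ∧ d4)) (h34 : ¬ (d3 ∧ d4)) :
    (R x1 x0 ∨ R x1 x4) ∧ (R x2 x0 ∨ R x2 x4) ∧ (R x3 x0 ∨ R x3 x4) ∧
      (¬ d1 → ¬ d2 → ¬ d3 → ¬ d4 → R x0 x4) := by
  refine ⟨?_, ?_, ?_, fun a b c d =>
    trans _ _ _ (trans _ _ _ (trans _ _ _ (h1 a) (h2 b)) (h3 c)) (h4 d)⟩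
  · by_cases hd : d1
    · exact Or.inr (trans _ _ _ (trans _ _ _ (h2 fun h => h12 ⟨hd, h⟩)
        (h3 fun h => h13 ⟨hd, h⟩)) (h4 fun h => h14 ⟨hd, h⟩))
    · exact Or.inl (symm _ _ (h1 hd))
  · by_cases hd : d1 ∨ d2
    · have n3 : ¬ d3 := fun h => hd.elim (fun h' => h13 ⟨h', h⟩) (fun h' => h23 ⟨h', h⟩)
      have n4 : ¬ d4 := fun h => hd.elim (fun h' => h14 ⟨h', h⟩) (fun h' => h24 ⟨h', h⟩)
      exact Or.inr (trans _ _ _ (h3 n3) (h4 n4))
    · rw [not_or] at hd
      exact Or.inl (symm _ _ (trans _ _ _ (h1 hd.1) (h2 hd.2)))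
  · by_cases hd : d4
    · exact Or.inl (symm _ _ (trans _ _ _ (trans _ _ _ (h1 fun h => h14 ⟨h, hd⟩)
        (h2 fun h => h24 ⟨h, hd⟩)) (h3 fun h => h34 ⟨h, hd⟩)))
    · exact Or.inr (h4 hd)

end

lemma connected_of_cond (D : Finset (Fin 27)) (h : Cond D) : (Gr D).Connected := by
  obtain ⟨hinj, hQ⟩ := h
  set R : Fin 22 → Fin 22 → Prop := (Gr D).Reachable with hR
  have symm : ∀ a b, R a b → R b a := fun a b h => SimpleGraph.Reachable.symm h
  have trans : ∀ a b c, R a b → R b c → R a c := fun a b c h h' => SimpleGraph.Reachable.trans h h'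
  have E : ∀ k : Fin 27, ¬ (k ∈ D) → R (u k) (v k) := fun k hk => reach_edge D k hk
  have N : ∀ k l : Fin 27, k ≠ l → pth k = pth l → ¬ (k ∈ D ∧ l ∈ D) := by
    rintro k l hkl hp ⟨hk, hl⟩
    exact hkl (hinj hk hl hp)
  have e0 : (0 : Fin 27) ∉ D → R 0 1 := E 0
  have p1 := path2 (R := R) symm trans (x0 := 1) (x1 := 6) (x2 := 2) (E 1) (E 2)
    (N 1 2 (by decide) (by decide +kernel))
  have p2 := path2 (R := R) symm trans (x0 := 1) (x1 := 7) (x2 := 2) (E 3) (E 4)
    (N 3 4 (by decide) (by decide +kernel))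
  have p3 := path2 (R := R) symm trans (x0 := 2) (x1 := 8) (x2 := 3) (E 5) (E 6)
    (N 5 6 (by decide) (by decide +kernel))
  have p4 := path2 (R := R) symm trans (x0 := 2) (x1 := 9) (x2 := 3) (E 7) (E 8)
    (N 7 8 (by decide) (by decide +kernel))
  have p5 := path2 (R := R) symm trans (x0 := 3) (x1 := 10) (x2 := 4) (E 9) (E 10)
    (N 9 10 (by decide) (by decide +kernel))
  have p6 := path2 (R := R) symm trans (x0 := 3) (x1 := 11) (x2 := 4) (E 11) (E 12)
    (N 11 12 (by decide) (by decide +kernel))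
  have p7 := path3 (R := R) symm trans (x0 := 4) (x1 := 12) (x2 := 13) (x3 := 5)
    (E 13) (E 14) (E 15) (N 13 14 (by decide) (by decide +kernel))
    (N 13 15 (by decide) (by decide +kernel)) (N 14 15 (by decide) (by decide +kernel))
  have p8 := path4 (R := R) symm trans (x0 := 4) (x1 := 14) (x2 := 15) (x3 := 16) (x4 := 5)
    (E 16) (E 17) (E 18) (E 19) (N 16 17 (by decide) (by decide +kernel))
    (N 16 18 (by decide) (by decide +kernel)) (N 16 19 (by decide) (by decide +kernel))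
    (N 17 18 (by decide) (by decide +kernel)) (N 17 19 (by decide) (by decide +kernel))
    (N 18 19 (by decide) (by decide +kernel))
  have p9 := path3 (R := R) symm trans (x0 := 5) (x1 := 17) (x2 := 18) (x3 := 0)
    (E 20) (E 21) (E 22) (N 20 21 (by decide) (by decide +kernel))
    (N 20 22 (by decide) (by decide +kernel)) (N 21 22 (by decide) (by decide +kernel))
  have p10 := path4 (R := R) symm trans (x0 := 5) (x1 := 19) (x2 := 20) (x3 := 21) (x4 := 0)
    (E 23) (E 24) (E 25) (E 26) (N 23 24 (by decide) (by decide +kernel))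
    (N 23 25 (by decide) (by decide +kernel)) (N 23 26 (by decide) (by decide +kernel))
    (N 24 25 (by decide) (by decide +kernel)) (N 24 26 (by decide) (by decide +kernel))
    (N 25 26 (by decide) (by decide +kernel))
  -- unbroken links
  have nm : ∀ (p : Fin 11) (k : Fin 27), pth k = p → p ∉ D.image pth → k ∉ D := by
    rintro p k rfl hp hk
    exact hp (mem_image_of_mem pth hk)
  have L0 : ¬ Br 0 (D.image pth) → R 0 1 := by
    intro hb
    have h0 : (0 : Fin 11) ∉ D.image pth := fun h => hb ⟨h, h⟩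
    exact e0 (nm 0 0 (by decide +kernel) h0)
  have L1 : ¬ Br 1 (D.image pth) → R 1 2 := by
    intro hb
    rcases not_and_or.mp hb with h | h
    · exact p1.2 (nm _ _ (by decide +kernel) h) (nm _ _ (by decide +kernel) h)
    · exact p2.2 (nm _ _ (by decide +kernel) h) (nm _ _ (by decide +kernel) h)
  have L2 : ¬ Br 2 (D.image pth) → R 2 3 := by
    intro hb
    rcases not_and_or.mp hb with h | h
    · exact p3.2 (nm _ _ (by decide +kernel) h) (nm _ _ (by decide +kernel) h)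
    · exact p4.2 (nm _ _ (by decide +kernel) h) (nm _ _ (by decide +kernel) h)
  have L3 : ¬ Br 3 (D.image pth) → R 3 4 := by
    intro hb
    rcases not_and_or.mp hb with h | h
    · exact p5.2 (nm _ _ (by decide +kernel) h) (nm _ _ (by decide +kernel) h)
    · exact p6.2 (nm _ _ (by decide +kernel) h) (nm _ _ (by decide +kernel) h)
  have L4 : ¬ Br 4 (D.image pth) → R 4 5 := by
    intro hb
    rcases not_and_or.mp hb with h | h
    · exact p7.2.2 (nm _ _ (by decide +kernel) h) (nm _ _ (by decide +kernel) h)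
        (nm _ _ (by decide +kernel) h)
    · exact p8.2.2.2 (nm _ _ (by decide +kernel) h) (nm _ _ (by decide +kernel) h)
        (nm _ _ (by decide +kernel) h) (nm _ _ (by decide +kernel) h)
  have L5 : ¬ Br 5 (D.image pth) → R 5 0 := by
    intro hb
    rcases not_and_or.mp hb with h | h
    · exact p9.2.2 (nm _ _ (by decide +kernel) h) (nm _ _ (by decide +kernel) h)
        (nm _ _ (by decide +kernel) h)
    · exact p10.2.2.2 (nm _ _ (by decide +kernel) h) (nm _ _ (by decide +kernel) h)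
        (nm _ _ (by decide +kernel) h) (nm _ _ (by decide +kernel) h)
  have q01 := hQ 0 1 (by decide)
  have q02 := hQ 0 2 (by decide)
  have q03 := hQ 0 3 (by decide)
  have q04 := hQ 0 4 (by decide)
  have q05 := hQ 0 5 (by decide)
  have q12 := hQ 1 2 (by decide)
  have q13 := hQ 1 3 (by decide)
  have q14 := hQ 1 4 (by decide)
  have q15 := hQ 1 5 (by decide)
  have q23 := hQ 2 3 (by decide)
  have q24 := hQ 2 4 (by decide)
  have q25 := hQ 2 5 (by decide)
  have q34 := hQ 3 4 (by decide)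
  have q35 := hQ 3 5 (by decide)
  have q45 := hQ 4 5 (by decide)
  have rfl' : R 0 0 := SimpleGraph.Reachable.refl _
  -- all ring vertices are reachable from 0
  have ring : R 1 0 ∧ R 2 0 ∧ R 3 0 ∧ R 4 0 ∧ R 5 0 := by
    by_cases b0 : Br 0 (D.image pth)
    · have r5 := L5 (fun h => q05 ⟨b0, h⟩)
      have r4 := trans _ _ _ (L4 (fun h => q04 ⟨b0, h⟩)) r5
      have r3 := trans _ _ _ (L3 (fun h => q03 ⟨b0, h⟩)) r4
      have r2 := trans _ _ _ (L2 (fun h => q02 ⟨b0, h⟩)) r3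
      have r1 := trans _ _ _ (L1 (fun h => q01 ⟨b0, h⟩)) r2
      exact ⟨r1, r2, r3, r4, r5⟩
    · have r1 := symm _ _ (L0 b0)
      by_cases b1 : Br 1 (D.image pth)
      · have r5 := L5 (fun h => q15 ⟨b1, h⟩)
        have r4 := trans _ _ _ (L4 (fun h => q14 ⟨b1, h⟩)) r5
        have r3 := trans _ _ _ (L3 (fun h => q13 ⟨b1, h⟩)) r4
        have r2 := trans _ _ _ (L2 (fun h => q12 ⟨b1, h⟩)) r3
        exact ⟨r1, r2, r3, r4, r5⟩
      · have r2 := trans _ _ _ (symm _ _ (L1 b1)) r1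
        by_cases b2 : Br 2 (D.image pth)
        · have r5 := L5 (fun h => q25 ⟨b2, h⟩)
          have r4 := trans _ _ _ (L4 (fun h => q24 ⟨b2, h⟩)) r5
          have r3 := trans _ _ _ (L3 (fun h => q23 ⟨b2, h⟩)) r4
          exact ⟨r1, r2, r3, r4, r5⟩
        · have r3 := trans _ _ _ (symm _ _ (L2 b2)) r2
          by_cases b3 : Br 3 (D.image pth)
          · have r5 := L5 (fun h => q35 ⟨b3, h⟩)
            have r4 := trans _ _ _ (L4 (fun h => q34 ⟨b3, h⟩)) r5
            exact ⟨r1, r2, r3, r4, r5⟩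
          · have r4 := trans _ _ _ (symm _ _ (L3 b3)) r3
            by_cases b4 : Br 4 (D.image pth)
            · exact ⟨r1, r2, r3, r4, L5 (fun h => q45 ⟨b4, h⟩)⟩
            · exact ⟨r1, r2, r3, r4, trans _ _ _ (symm _ _ (L4 b4)) r4⟩
  obtain ⟨r1, r2, r3, r4, r5⟩ := ring
  have comb : ∀ {x y z : Fin 22}, R y 0 → R z 0 → (R x y ∨ R x z) → R x 0 := by
    intro x y z hy hz h
    rcases h with h | h
    · exact trans _ _ _ h hy
    · exact trans _ _ _ h hz
  have all : ∀ x : Fin 22, R x 0 := by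
    intro x
    fin_cases x
    · exact rfl'
    · exact r1
    · exact r2
    · exact r3
    · exact r4
    · exact r5
    · exact comb r1 r2 p1.1
    · exact comb r1 r2 p2.1
    · exact comb r2 r3 p3.1
    · exact comb r2 r3 p4.1
    · exact comb r3 r4 p5.1
    · exact comb r3 r4 p6.1
    · exact comb r4 r5 p7.1
    · exact comb r4 r5 p7.2.1
    · exact comb r4 r5 p8.1
    · exact comb r4 r5 p8.2.1
    · exact comb r4 r5 p8.2.2.1
    · exact comb r5 rfl' p9.1
    · exact comb r5 rfl' p9.2.1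
    · exact comb r5 rfl' p10.1
    · exact comb r5 rfl' p10.2.1
    · exact comb r5 rfl' p10.2.2.1
  have : Nonempty (Fin 22) := ⟨0⟩
  refine SimpleGraph.Connected.mk ?_
  intro x y
  exact trans _ _ _ (all x) (symm _ _ (all y))

end Pool.Agent.Q198.SP
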