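import Pool.Agent.Q198.SPB

set_option autoImplicit false
set_option maxRecDepth 100000

namespace Pool.Agent.Q198.SP

open Finset

/-- number of edges of a path -/
def cnt (p : Fin 11) : ℕ := (univ.filter fun k : Fin 27 => pth k = p).card

def lens : List ℕ := [1, 2, 2, 2, 2, 2, 2, 3, 4, 3, 4]

lemma cnt_eq : ∀ p : Fin 11, cnt p = lens.getD p 0 := by decide +kernel

open Classical in
/-- the deletion sets with given support, at most one edge on each path -/
noncomputable def fib (T : Finset (Fin 11)) : Finset (Finset (Fin 27)) :=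
  univ.filter fun D => Set.InjOn pth (D : Set (Fin 27)) ∧ D.image pth = T

lemma card_fib (T : Finset (Fin 11)) : (fib T).card = ∏ p ∈ T, cnt p := by
  classical
  have h1 : (T.pi fun p => univ.filter fun k : Fin 27 => pth k = p).card = ∏ p ∈ T, cnt p := by
    rw [card_pi]
    rfl
  rw [← h1]
  symm
  refine Finset.card_bij (fun f _ => T.attach.image fun p => f p.1 p.2) ?_ ?_ ?_
  · intro f hf
    have hf' : ∀ p (hp : p ∈ T), pth (f p hp) = p := by
      intro p hp
      have := (mem_pi.mp hf) p hp
      simpa using this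
    simp only [fib, mem_filter, mem_univ, true_and]
    constructor
    · intro x hx y hy hxy
      simp only [coe_image, Set.mem_image, mem_coe] at hx hy
      obtain ⟨p, -, rfl⟩ := hx
      obtain ⟨q, -, rfl⟩ := hy
      rw [hf', hf'] at hxy
      have : p = q := Subtype.ext hxy
      rw [this]
    · ext p
      simp only [mem_image, mem_attach, true_and]
      constructor
      · rintro ⟨k, ⟨q, rfl⟩, rfl⟩
        rw [hf']
        exact q.2
      · intro hp
        exact ⟨_, ⟨⟨p, hp⟩, rfl⟩, hf' p hp⟩
  · intro f hf g hg hfg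
    have hf' : ∀ p (hp : p ∈ T), pth (f p hp) = p := by
      intro p hp
      have := (mem_pi.mp hf) p hp
      simpa using this
    have hg' : ∀ p (hp : p ∈ T), pth (g p hp) = p := by
      intro p hp
      have := (mem_pi.mp hg) p hp
      simpa using this
    funext p hp
    have : f p hp ∈ T.attach.image fun p => g p.1 p.2 := by
      rw [← hfg]
      exact mem_image.mpr ⟨⟨p, hp⟩, mem_attach _ _, rfl⟩
    obtain ⟨q, -, hq⟩ := mem_image.mp this
    have h2 : (q : Fin 11) = p := by
      rw [← hg' q.1 q.2, hq, hf']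
    obtain ⟨q, hq'⟩ := q
    simp only at h2
    subst h2
    exact hq.symm
  · intro D hD
    simp only [fib, mem_filter, mem_univ, true_and] at hD
    obtain ⟨hinj, himg⟩ := hD
    have hex : ∀ p ∈ T, ∃ k ∈ D, pth k = p := by
      intro p hp
      rw [← himg] at hp
      exact mem_image.mp hp
    choose! g hgD hgp using hex
    refine ⟨fun p _ => g p, ?_, ?_⟩
    · rw [mem_pi]
      intro p hp
      simpa using hgp p hp
    · ext k
      simp only [mem_image, mem_attach, true_and]
      constructor
      · rintro ⟨q, rfl⟩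
        exact hgD q.1 q.2
      · intro hk
        have hp : pth k ∈ T := by
          rw [← himg]
          exact mem_image_of_mem pth hk
        refine ⟨⟨pth k, hp⟩, ?_⟩
        exact hinj (hgD _ hp) hk (hgp _ hp)

lemma card_of_mem_fib {T : Finset (Fin 11)} {D : Finset (Fin 27)} (h : D ∈ fib T) :
    D.card = T.card := by
  classical
  simp only [fib, mem_filter, mem_univ, true_and] at h
  rw [← h.2, card_image_of_injOn h.1]

lemma fib_disjoint {T T' : Finset (Fin 11)} (h : T ≠ T') : Disjoint (fib T) (fib T') := by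
  classical
  rw [Finset.disjoint_left]
  intro D hD hD'
  simp only [fib, mem_filter, mem_univ, true_and] at hD hD'
  exact h (hD.2.symm.trans hD'.2)

lemma prod_cnt (T : Finset (Fin 11)) : ∏ p ∈ T, cnt p = ∏ p ∈ T, lens.getD p 0 :=
  prod_congr rfl fun p _ => cnt_eq p

/-- the sizes of the levels -/
lemma level_sum : ∀ j : Fin 12,
    ∑ T ∈ (powersetCard (j : ℕ) (univ : Finset (Fin 11))).filter Q, ∏ p ∈ T, lens.getD p 0
      ≤ 23376 := by decide +kernel

lemma anti_sum :
    ∑ T ∈ (powersetCard 5 (univ : Finset (Fin 11))).filter (fun T => Q T ∧ (0 : Fin 11) ∈ T),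
        ∏ p ∈ T, lens.getD p 0 +
      ∑ T ∈ (powersetCard 6 (univ : Finset (Fin 11))).filter (fun T => Q T ∧ (0 : Fin 11) ∉ T),
        ∏ p ∈ T, lens.getD p 0 = 23408 := by decide +kernel

end Pool.Agent.Q198.SP
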