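import Mathlib

set_option autoImplicit false

/-!
# The Schur property of `ℓ₁` and of spaces with an `ℓ₁` basis
-/

namespace Pool.Agent.Q198.Schur

open Filter Topology Set
open scoped ENNReal

/-- The Schur property: weakly convergent sequences are norm convergent. -/
def Schur (X : Type) [NormedAddCommGroup X] [NormedSpace ℝ X] : Prop :=
  ∀ (x : ℕ → X) (l : X), (∀ f : StrongDual ℝ X, Tendsto (fun n => f (x n)) atTop (𝓝 (f l))) →
    Tendsto x atTop (𝓝 l)

/-- The space `ℓ₁`. -/
abbrev L1 : Type := lp (fun _ : ℕ => ℝ) 1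

theorem hasSum_abs (a : L1) : HasSum (fun k => |a k|) ‖a‖ := by
  have h := lp.hasSum_norm (p := 1) (by simp) a
  simpa using h

theorem summable_abs (a : L1) : Summable (fun k => |a k|) := (hasSum_abs a).summable

/-- Sign. -/
def sg (b : Bool) : ℝ := if b then 1 else -1

theorem abs_sg (b : Bool) : |sg b| = 1 := by cases b <;> simp [sg]

theorem summable_sg (ε : ℕ → Bool) (a : L1) : Summable (fun k => sg (ε k) * a k) := by
  refine Summable.of_abs ?_
  simpa [abs_mul, abs_sg] using summable_abs a

/-- The sign functional. -/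
noncomputable def phi (ε : ℕ → Bool) : StrongDual ℝ L1 :=
  LinearMap.mkContinuous
    { toFun := fun a => ∑' k, sg (ε k) * a k
      map_add' := fun a b => by
        rw [← (summable_sg ε a).tsum_add (summable_sg ε b)]
        refine tsum_congr fun k => ?_
        have : (a + b) k = a k + b k := rfl
        rw [this]; ring
      map_smul' := fun c a => by
        rw [RingHom.id_apply, smul_eq_mul, ← tsum_mul_left]
        refine tsum_congr fun k => ?_
        have : (c • a) k = c * a k := rfl
        rw [this]; ring } 1 (fun a => by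
      rw [one_mul]
      refine (norm_tsum_le_tsum_norm ?_).trans ?_
      · simpa [abs_mul, abs_sg] using summable_abs a
      · simp only [Real.norm_eq_abs, abs_mul, abs_sg, one_mul]
        exact (hasSum_abs a).tsum_eq.le)

theorem phi_apply (ε : ℕ → Bool) (a : L1) : phi ε a = ∑' k, sg (ε k) * a k := rfl

theorem continuous_phi (a : L1) : Continuous fun ε : ℕ → Bool => phi ε a := by
  simp only [phi_apply]
  refine continuous_tsum (u := fun k => |a k|) (fun k => ?_) (summable_abs a) (fun k ε => ?_)
  · exact ((continuous_of_discreteTopology (f := sg)).comp (continuous_apply k)).mul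
      continuous_const
  · rw [Real.norm_eq_abs, abs_mul, abs_sg, one_mul]

/-- A weakly null sequence of `ℓ₁` is norm null. -/
theorem null_of_weak (a : ℕ → L1) (h : ∀ f : StrongDual ℝ L1, Tendsto (fun n => f (a n)) atTop (𝓝 0)) :
    Tendsto (fun n => ‖a n‖) atTop (𝓝 0) := by
  rw [Metric.tendsto_atTop]
  intro δ hδ
  let C : ℕ → Set (ℕ → Bool) := fun N => {ε | ∀ n, N ≤ n → |phi ε (a n)| ≤ δ / 4}
  have hC : ∀ N, IsClosed (C N) := by
    intro N
    have : C N = ⋂ n, ⋂ (_ : N ≤ n), {ε | |phi ε (a n)| ≤ δ / 4} := by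
      ext ε
      simp [C]
    rw [this]
    refine isClosed_iInter fun n => isClosed_iInter fun _ => ?_
    exact isClosed_le (continuous_phi (a n)).abs continuous_const
  have hU : ⋃ N, C N = univ := by
    rw [eq_univ_iff_forall]
    intro ε
    obtain ⟨N, hN⟩ := (Metric.tendsto_atTop.1 (h (phi ε))) (δ / 4) (by positivity)
    refine mem_iUnion.2 ⟨N, fun n hn => ?_⟩
    have := hN n hn
    rw [Real.dist_eq, sub_zero] at this
    exact this.le
  obtain ⟨N, ε₀, hε₀⟩ := nonempty_interior_of_iUnion_of_closed hC hU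
  obtain ⟨U, hUC, hUo, hUm⟩ := mem_interior.1 hε₀
  obtain ⟨F, u, hu, hFu⟩ := isOpen_pi_iff.1 hUo ε₀ hUm
  have hlim : Tendsto (fun n => ∑ k ∈ F, |a n k|) atTop (𝓝 0) := by
    rw [show (0 : ℝ) = ∑ k ∈ F, 0 by simp]
    refine tendsto_finsetSum _ fun k _ => ?_
    have := h (lp.evalCLM ℝ (fun _ : ℕ => ℝ) 1 k)
    have h2 : Tendsto (fun n => a n k) atTop (𝓝 0) := this
    simpa using h2.abs
  obtain ⟨M, hM⟩ := (Metric.tendsto_atTop.1 hlim) (δ / 4) (by positivity)
  refine ⟨max N M, fun n hn => ?_⟩
  have hn1 : N ≤ n := (le_max_left _ _).trans hn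
  have hn2 := hM n ((le_max_right _ _).trans hn)
  rw [Real.dist_eq, sub_zero, abs_of_nonneg (Finset.sum_nonneg fun _ _ => abs_nonneg _)] at hn2
  rw [Real.dist_eq, sub_zero, abs_of_nonneg (norm_nonneg _)]
  classical
  let ε : ℕ → Bool := fun k => if k ∈ F then ε₀ k else decide (0 ≤ a n k)
  have hεC : ε ∈ C N := by
    refine hUC (hFu ?_)
    intro k hk
    have : ε k = ε₀ k := if_pos hk
    rw [this]
    exact (hu k hk).2
  have h1 := hεC n hn1
  have h2 : ‖a n‖ - 2 * ∑ k ∈ F, |a n k| ≤ phi ε (a n) := by
    rw [phi_apply, ← (hasSum_abs (a n)).tsum_eq, sub_le_iff_le_add]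
    have e1 := (summable_abs (a n)).sum_add_tsum_compl (s := F)
    have e2 := (summable_sg ε (a n)).sum_add_tsum_compl (s := F)
    rw [← e1, ← e2]
    have e3 : ∀ k : ↥((F : Set ℕ)ᶜ), sg (ε k) * a n k = |a n k| := by
      rintro ⟨k, hk⟩
      have hk' : k ∉ F := hk
      have : ε k = decide (0 ≤ a n k) := if_neg hk'
      simp only [this]
      by_cases h0 : 0 ≤ a n k
      · simp [h0, sg, abs_of_nonneg h0]
      · push Not at h0
        simp [h0.not_ge, sg, abs_of_neg h0]
    rw [tsum_congr e3]
    have e4 : -∑ k ∈ F, |a n k| ≤ ∑ k ∈ F, sg (ε k) * a n k := by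
      rw [← Finset.sum_neg_distrib]
      refine Finset.sum_le_sum fun k _ => ?_
      have := neg_abs_le (sg (ε k) * a n k)
      rwa [abs_mul, abs_sg, one_mul] at this
    linarith
  have h3 := le_abs_self (phi ε (a n))
  linarith

theorem schur_l1 : Schur L1 := by
  intro x l h
  have := null_of_weak (fun n => x n - l) (fun f => by
    have := (h f).sub_const (f l)
    simpa using this)
  rw [tendsto_iff_norm_sub_tendsto_zero]
  exact this

theorem Schur.of_equiv {X Y : Type} [NormedAddCommGroup X] [NormedSpace ℝ X]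
    [NormedAddCommGroup Y] [NormedSpace ℝ Y] (T : X ≃L[ℝ] Y) (h : Schur X) : Schur Y := by
  intro y l hy
  have h1 := h (fun n => T.symm (y n)) (T.symm l) (fun f => by
    exact hy (f.comp (T.symm : Y →L[ℝ] X)))
  have h2 := (T.continuous.tendsto _).comp h1
  simpa [Function.comp_def] using h2

/-- A Banach space spanned by a sequence `e` equivalent to the basis of `ℓ₁` is Schur. -/
theorem schur_of_lower {X : Type} [NormedAddCommGroup X] [NormedSpace ℝ X] [CompleteSpace X]
    (e : ℕ → X) (hd : Dense (Submodule.span ℝ (Set.range e) : Set X)) (he : ∀ k, ‖e k‖ ≤ 1)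
    (c : ℝ) (hc : 0 < c) (h : ∀ a : ℕ →₀ ℝ, c * ∑ k ∈ a.support, |a k| ≤
      ‖Finsupp.linearCombination ℝ e a‖) : Schur X := by
  have hsum : ∀ a : L1, Summable fun k => a k • e k := fun a => by
    refine Summable.of_norm_bounded (g := fun k => |a k|) (summable_abs a) fun k => ?_
    rw [norm_smul, Real.norm_eq_abs]
    exact mul_le_of_le_one_right (abs_nonneg _) (he k)
  let T₀ : L1 →ₗ[ℝ] X :=
    { toFun := fun a => ∑' k, a k • e k
      map_add' := fun a b => by
        rw [← (hsum a).tsum_add (hsum b)]
        refine tsum_congr fun k => ?_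
        have : (a + b) k = a k + b k := rfl
        rw [this, add_smul]
      map_smul' := fun r a => by
        rw [RingHom.id_apply, ← (hsum a).tsum_const_smul]
        refine tsum_congr fun k => ?_
        have : (r • a) k = r * a k := rfl
        rw [this, mul_smul] }
  let T : L1 →L[ℝ] X := T₀.mkContinuous 1 (fun a => by
    rw [one_mul]
    refine (norm_tsum_le_tsum_norm ?_).trans ?_
    · refine Summable.of_nonneg_of_le (fun _ => norm_nonneg _) (fun k => ?_) (summable_abs a)
      rw [norm_smul, Real.norm_eq_abs]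
      exact mul_le_of_le_one_right (abs_nonneg _) (he k)
    · rw [← (hasSum_abs a).tsum_eq]
      refine Summable.tsum_le_tsum (fun k => ?_) ?_ (summable_abs a)
      · rw [norm_smul, Real.norm_eq_abs]
        exact mul_le_of_le_one_right (abs_nonneg _) (he k)
      · refine Summable.of_nonneg_of_le (fun _ => norm_nonneg _) (fun k => ?_) (summable_abs a)
        rw [norm_smul, Real.norm_eq_abs]
        exact mul_le_of_le_one_right (abs_nonneg _) (he k))
  have hT : ∀ a, T a = ∑' k, a k • e k := fun _ => rfl
  have hlow : ∀ a : L1, c * ‖a‖ ≤ ‖T a‖ := by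
    intro a
    have h1 : Tendsto (fun n => c * ∑ k ∈ Finset.range n, |a k|) atTop (𝓝 (c * ‖a‖)) :=
      ((hasSum_abs a).tendsto_sum_nat).const_mul c
    have h2 : Tendsto (fun n => ‖∑ k ∈ Finset.range n, a k • e k‖) atTop (𝓝 ‖T a‖) :=
      ((hsum a).hasSum.tendsto_sum_nat).norm
    refine le_of_tendsto_of_tendsto' h1 h2 fun n => ?_
    classical
    let b : ℕ →₀ ℝ := Finsupp.onFinset (Finset.range n)
      (fun k => if k ∈ Finset.range n then a k else 0) (fun k hk => by
        by_contra h'
        exact hk (if_neg h'))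
    have hb := h b
    have e1 : ∑ k ∈ b.support, |b k| = ∑ k ∈ Finset.range n, |a k| := by
      have : ∑ k ∈ b.support, |b k| = ∑ k ∈ Finset.range n, |b k| := by
        refine Finset.sum_subset Finsupp.support_onFinset_subset fun k _ hk => ?_
        rw [Finsupp.notMem_support_iff.1 hk, abs_zero]
      rw [this]
      refine Finset.sum_congr rfl fun k hk => ?_
      have : b k = a k := if_pos hk
      rw [this]
    have e2 : Finsupp.linearCombination ℝ e b = ∑ k ∈ Finset.range n, a k • e k := by
      rw [Finsupp.linearCombination_apply, Finsupp.sum_of_support_subset b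
        Finsupp.support_onFinset_subset _ (by simp)]
      refine Finset.sum_congr rfl fun k hk => ?_
      have : b k = a k := if_pos hk
      rw [this]
    rw [e1, e2] at hb
    exact hb
  have hanti : AntilipschitzWith (Real.toNNReal c⁻¹) T := by
    refine ContinuousLinearMap.antilipschitz_of_bound T fun a => ?_
    rw [Real.coe_toNNReal _ (by positivity)]
    have := hlow a
    rw [inv_mul_eq_div, le_div_iff₀ hc]
    linarith
  have hker : LinearMap.ker (T : L1 →ₗ[ℝ] X) = ⊥ := LinearMap.ker_eq_bot.2 hanti.injective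
  have hcl : IsClosed (Set.range T) := hanti.isClosed_range T.uniformContinuous
  have hran : LinearMap.range (T : L1 →ₗ[ℝ] X) = ⊤ := by
    rw [eq_top_iff]
    intro x _
    have hsub : (Submodule.span ℝ (Set.range e) : Set X) ⊆ Set.range T := by
      have h1 : Submodule.span ℝ (Set.range e) ≤ LinearMap.range (T : L1 →ₗ[ℝ] X) := by
        rw [Submodule.span_le]
        rintro _ ⟨k, rfl⟩
        refine ⟨lp.single 1 k 1, ?_⟩
        change ∑' j, (lp.single (E := fun _ : ℕ => ℝ) 1 k (1 : ℝ)) j • e j = e k
        rw [tsum_eq_single k]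
        · simp
        · intro j hj
          rw [lp.single_apply_ne _ _ _ hj, zero_smul]
      intro x hx
      obtain ⟨a, ha⟩ := h1 hx
      exact ⟨a, ha⟩
    have h2 : closure (Submodule.span ℝ (Set.range e) : Set X) ⊆ Set.range T :=
      closure_minimal hsub hcl
    rw [hd.closure_eq] at h2
    obtain ⟨a, ha⟩ := h2 (mem_univ x)
    exact ⟨a, ha⟩
  exact Schur.of_equiv (ContinuousLinearEquiv.ofBijective T hker hran) schur_l1

end Pool.Agent.Q198.Schur
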