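import Mathlib

set_option autoImplicit false

open Finset

namespace Pool.Agent.Q198.TP

/-- The sequence `a` is totally positive: all minors of the Toeplitz matrix `(a (i - j))`
(`a m = 0` for `m < 0`) are nonnegative. -/
def IsTP (a : ℕ → ℝ) : Prop :=
  ∀ (k : ℕ) (r c : Fin k → ℕ), StrictMono r → StrictMono c →
    0 ≤ (Matrix.of fun i j => if c j ≤ r i then a (r i - c j) else 0).det

/-- total positivity for sequences indexed by `ℤ` -/
def TPZ (a : ℤ → ℝ) : Prop :=
  ∀ (k : ℕ) (r c : Fin k → ℤ), StrictMono r → StrictMono c →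
    0 ≤ (Matrix.of fun i j => a (r i - c j)).det

/-- the coefficients, extended by zero -/
noncomputable def ext (f : PowerSeries ℝ) (m : ℤ) : ℝ :=
  if 0 ≤ m then PowerSeries.coeff m.toNat f else 0

def TPS (f : PowerSeries ℝ) : Prop := TPZ (ext f)

lemma TPS.isTP {f : PowerSeries ℝ} (h : TPS f) : IsTP fun k => PowerSeries.coeff k f := by
  intro k r c hr hc
  have h1 := h k (fun i => (r i : ℤ)) (fun j => (c j : ℤ))
    (fun a b hab => by have := hr hab; dsimp only; omega)
    (fun a b hab => by have := hc hab; dsimp only; omega)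
  convert h1 using 3
  ext i j
  simp only [Matrix.of_apply, ext]
  by_cases hij : c j ≤ r i
  · rw [if_pos hij, if_pos (by omega)]
    congr 2
    omega
  · rw [if_neg hij, if_neg (by omega)]

lemma ext_one (m : ℤ) : ext 1 m = if m = 0 then 1 else 0 := by
  rw [ext]
  by_cases h : 0 ≤ m
  · rw [if_pos h, PowerSeries.coeff_one]
    by_cases h' : m = 0
    · rw [if_pos h', if_pos (by omega)]
    · rw [if_neg h', if_neg (by omega)]
  · rw [if_neg h, if_neg (by omega)]

lemma tps_one : TPS 1 := by
  intro k r c hr hc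
  by_cases hrc : ∃ i, ∀ j, r i ≠ c j
  · obtain ⟨i, hi⟩ := hrc
    rw [Matrix.det_eq_zero_of_row_eq_zero i]
    intro j
    rw [Matrix.of_apply, ext_one, if_neg]
    have := hi j
    omega
  · push Not at hrc
    have h1 : (univ.image r : Finset ℤ) ⊆ univ.image c := by
      intro x hx
      obtain ⟨i, -, rfl⟩ := mem_image.1 hx
      obtain ⟨j, hj⟩ := hrc i
      exact mem_image.2 ⟨j, mem_univ _, hj.symm⟩
    have h2 : (univ.image r : Finset ℤ) = univ.image c := by
      apply eq_of_subset_of_card_le h1
      rw [card_image_of_injective _ hr.injective, card_image_of_injective _ hc.injective]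
    have h3 : r = c := by
      apply (hr.range_inj hc).1
      have := congrArg (fun s : Finset ℤ => (s : Set ℤ)) h2
      simpa using this
    subst h3
    have h4 : (Matrix.of fun i j => ext 1 (r i - r j)) = (1 : Matrix (Fin k) (Fin k) ℝ) := by
      ext i j
      rw [Matrix.of_apply, ext_one, Matrix.one_apply]
      by_cases hij : i = j
      · rw [if_pos hij, if_pos (by rw [hij, sub_self])]
      · rw [if_neg hij, if_neg]
        intro h
        exact hij (hr.injective (sub_eq_zero.1 h))
    rw [h4, Matrix.det_one]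
    exact zero_le_one

lemma tpz_weak {a : ℤ → ℝ} (h : TPZ a) (k : ℕ) (r c : Fin k → ℤ) (hr : Monotone r)
    (hc : StrictMono c) : 0 ≤ (Matrix.of fun i j => a (r i - c j)).det := by
  by_cases hs : StrictMono r
  · exact h k r c hs hc
  · rw [StrictMono] at hs
    push Not at hs
    obtain ⟨i, j, hij, hle⟩ := hs
    have he : r i = r j := le_antisymm (hr hij.le) hle
    rw [Matrix.det_zero_of_row_eq hij.ne]
    ext l
    rw [Matrix.of_apply, Matrix.of_apply, he]

lemma ext_lin (f : PowerSeries ℝ) (α : ℝ) (m : ℤ) :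
    ext ((PowerSeries.C α + PowerSeries.X) * f) m = α * ext f m + ext f (m - 1) := by
  rw [ext, ext, ext]
  rcases lt_trichotomy m 0 with h | h | h
  · rw [if_neg (by omega), if_neg (by omega), if_neg (by omega)]; ring
  · subst h
    rw [if_pos le_rfl, if_pos le_rfl, if_neg (by norm_num)]
    rw [add_mul, map_add]
    simp
  · rw [if_pos h.le, if_pos h.le, if_pos (by omega)]
    obtain ⟨n, rfl⟩ : ∃ n : ℕ, m = n + 1 := ⟨(m - 1).toNat, by omega⟩
    rw [show ((n : ℤ) + 1).toNat = n + 1 by omega, show ((n : ℤ) + 1 - 1).toNat = n by omega,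
      add_mul, map_add, PowerSeries.coeff_C_mul, PowerSeries.coeff_succ_X_mul]

lemma tps_lin {f : PowerSeries ℝ} (h : TPS f) {α : ℝ} (hα : 0 ≤ α) :
    TPS ((PowerSeries.C α + PowerSeries.X) * f) := by
  classical
  intro k r c hr hc
  have h1 : (Matrix.of fun i j => ext ((PowerSeries.C α + PowerSeries.X) * f) (r i - c j)).det
      = ∑ s : Finset (Fin k), (∏ i, (if i ∈ s then α else 1)) *
        (Matrix.of fun i j => ext f ((if i ∈ s then r i else r i - 1) - c j)).det := by
    have h2 : (Matrix.of fun i j => ext ((PowerSeries.C α + PowerSeries.X) * f) (r i - c j)).det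
        = Matrix.detRowAlternating.toMultilinearMap
          ((fun i j => α * ext f (r i - c j)) + (fun i j => ext f (r i - 1 - c j))) := by
      rw [Matrix.det]
      change Matrix.detRowAlternating _ = Matrix.detRowAlternating _
      congr 1
      ext i j
      rw [Matrix.of_apply, ext_lin, Pi.add_apply, Pi.add_apply]
      congr 2
      ring
    rw [h2, MultilinearMap.map_add_univ]
    refine sum_congr rfl fun s _ => ?_
    rw [← Matrix.det_mul_column]
    change Matrix.detRowAlternating _ = Matrix.detRowAlternating _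
    congr 1
    ext i j
    simp only [Finset.piecewise, Matrix.of_apply]
    split_ifs
    · rfl
    · rw [one_mul]
  rw [h1]
  refine sum_nonneg fun s _ => mul_nonneg (prod_nonneg fun i _ => by split_ifs <;> simp [hα]) ?_
  apply tpz_weak h k _ c _ hc
  intro i j hij
  rcases hij.eq_or_lt with rfl | hlt
  · exact le_rfl
  · have := hr hlt
    dsimp only
    split_ifs <;> omega

lemma tps_C {f : PowerSeries ℝ} (h : TPS f) {α : ℝ} (hα : 0 ≤ α) :
    TPS (PowerSeries.C α * f) := by
  intro k r c hr hc
  have h1 : (Matrix.of fun i j => ext (PowerSeries.C α * f) (r i - c j))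
      = Matrix.of fun i j => α * (Matrix.of fun i j => ext f (r i - c j)) i j := by
    ext i j
    simp only [Matrix.of_apply, ext]
    split_ifs
    · rw [PowerSeries.coeff_C_mul]
    · rw [mul_zero]
  rw [h1, Matrix.det_mul_column (fun _ => α)]
  exact mul_nonneg (prod_nonneg fun _ _ => hα) (h k r c hr hc)

lemma ext_diff (g : PowerSeries ℝ) (m : ℤ) :
    ext ((1 - PowerSeries.X) * g) m = ext g m - ext g (m - 1) := by
  rw [ext, ext, ext]
  rcases lt_trichotomy m 0 with h | h | h
  · rw [if_neg (by omega), if_neg (by omega), if_neg (by omega)]; ring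
  · subst h
    rw [if_pos le_rfl, if_pos le_rfl, if_neg (by norm_num)]
    rw [sub_mul, map_sub, one_mul]
    simp
  · rw [if_pos h.le, if_pos h.le, if_pos (by omega)]
    obtain ⟨n, rfl⟩ : ∃ n : ℕ, m = n + 1 := ⟨(m - 1).toNat, by omega⟩
    rw [show ((n : ℤ) + 1).toNat = n + 1 by omega, show ((n : ℤ) + 1 - 1).toNat = n by omega,
      sub_mul, map_sub, one_mul, PowerSeries.coeff_succ_X_mul]

lemma ext_neg (g : PowerSeries ℝ) (m : ℤ) (hm : m < 0) : ext g m = 0 := by
  rw [ext, if_neg (by omega)]

lemma telescope (a b : ℤ → ℝ) (hab : ∀ m, a m = b m - b (m - 1)) (c m n : ℤ) (hmn : m ≤ n) :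
    ∑ l ∈ Ioc m n, a (l - c) = b (n - c) - b (m - c) := by
  induction n, hmn using Int.leInduction with
  | base => simp
  | succ n hn ih =>
    have h1 : Ioc m (n + 1) = insert (n + 1) (Ioc m n) := by
      ext x
      simp only [mem_Ioc, mem_insert]
      omega
    rw [h1, sum_insert (by simp), ih, hab, show n + 1 - c - 1 = n - c by ring]
    ring

lemma tps_int {g : PowerSeries ℝ} (h : TPS ((1 - PowerSeries.X) * g)) : TPS g := by
  classical
  intro k r c hr hc
  rcases k with _ | k
  · rw [Matrix.det_isEmpty]; exact zero_le_one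
  set a := ext ((1 - PowerSeries.X) * g) with ha
  set b := ext g with hb
  have hab : ∀ m, a m = b m - b (m - 1) := ext_diff g
  let A : Fin (k + 1) → Finset ℤ :=
    Fin.cons (Ioc (c 0 - 1) (r 0)) fun i : Fin k => Ioc (r i.castSucc) (r i.succ)
  have hdet : (Matrix.of fun i j => b (r i - c j)).det
      = (Matrix.of fun i j => ∑ l ∈ A i, a (l - c j)).det := by
    refine Matrix.det_eq_of_forall_row_eq_smul_add_pred (fun _ => 1) (fun j => ?_) fun i j => ?_
    · simp only [Matrix.of_apply, A, Fin.cons_zero]
      have hcj : c 0 ≤ c j := hc.monotone (Fin.zero_le j)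
      rcases le_or_gt (c 0 - 1) (r 0) with h1 | h1
      · rw [telescope a b hab _ _ _ h1, hb, ext_neg g (c 0 - 1 - c j) (by omega), sub_zero]
      · rw [Ioc_eq_empty (by omega), sum_empty, hb, ext_neg g _ (by omega)]
    · simp only [Matrix.of_apply, A, Fin.cons_succ]
      rw [telescope a b hab _ _ _ (hr.monotone (Fin.castSucc_lt_succ).le)]
      ring
  rw [hdet]
  have h2 : (Matrix.of fun i j => ∑ l ∈ A i, a (l - c j)).det
      = ∑ l ∈ Fintype.piFinset A, (Matrix.of fun i j => a (l i - c j)).det := by
    have h3 := MultilinearMap.map_sum_finset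
      (Matrix.detRowAlternating (n := Fin (k + 1)) (R := ℝ)).toMultilinearMap
      (fun (i : Fin (k + 1)) (l : ℤ) => fun j => a (l - c j)) A
    have h4 : (Matrix.of fun i j => ∑ l ∈ A i, a (l - c j)).det
        = (Matrix.detRowAlternating (n := Fin (k + 1)) (R := ℝ)).toMultilinearMap
          (fun i => ∑ l ∈ A i, fun j => a (l - c j)) := by
      change Matrix.detRowAlternating _ = Matrix.detRowAlternating _
      congr 1
      ext i j
      rw [Matrix.of_apply, Finset.sum_apply]
    rw [h4, h3]
    rfl
  rw [h2]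
  refine sum_nonneg fun l hl => ?_
  rw [Fintype.mem_piFinset] at hl
  refine h (k + 1) l c ?_ hc
  rw [Fin.strictMono_iff_lt_succ]
  intro i
  have h5 : ∀ i, l i ≤ r i := by
    intro i
    have h6 := hl i
    revert h6
    refine Fin.cases (fun h6 => ?_) (fun j h6 => ?_) i
    · simp only [A, Fin.cons_zero, mem_Ioc] at h6; exact h6.2
    · simp only [A, Fin.cons_succ, mem_Ioc] at h6; exact h6.2
  have h7 := hl i.succ
  simp only [A, Fin.cons_succ, mem_Ioc] at h7
  exact lt_of_le_of_lt (h5 _) h7.1

lemma tps_int_pow (N : ℕ) : ∀ g : PowerSeries ℝ, TPS ((1 - PowerSeries.X) ^ N * g) → TPS g := by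
  induction N with
  | zero => intro g h; simpa using h
  | succ N ih =>
    intro g h
    rw [pow_succ, mul_assoc] at h
    exact tps_int (ih _ h)

lemma tps_prod (s : Multiset ℝ) (hs : ∀ a ∈ s, a < 0) :
    TPS (((s.map fun a => (Polynomial.X - Polynomial.C a : Polynomial ℝ)).prod :
      Polynomial ℝ) : PowerSeries ℝ) := by
  induction s using Multiset.induction_on with
  | empty => simpa using tps_one
  | cons a s ih =>
    have h1 := tps_lin (ih fun b hb => hs b (Multiset.mem_cons_of_mem hb))
      (α := -a) (by have := hs a (Multiset.mem_cons_self a s); linarith)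
    convert h1 using 1
    rw [Multiset.map_cons, Multiset.prod_cons, Polynomial.coe_mul]
    congr 1
    rw [Polynomial.coe_sub, Polynomial.coe_X, Polynomial.coe_C, map_neg]
    ring

/-- A polynomial with only negative zeros and positive constant term. -/
lemma tps_of_roots (Q : Polynomial ℝ) (D : ℕ) (hD : Q.natDegree ≤ D) (R : Finset ℝ)
    (hR : R.card = D) (hneg : ∀ a ∈ R, a < 0) (hroot : ∀ a ∈ R, Q.IsRoot a) (h0 : 0 < Q.eval 0) :
    TPS (Q : PowerSeries ℝ) := by
  have hQ0 : Q ≠ 0 := by rintro rfl; simp at h0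
  have h1 : R.val ≤ Q.roots := by
    rw [Multiset.le_iff_subset R.nodup]
    intro a ha
    exact (Polynomial.mem_roots hQ0).2 (hroot a ha)
  have h2 : Multiset.card Q.roots ≤ D := (Polynomial.card_roots' Q).trans hD
  have h3 : R.val = Q.roots := Multiset.eq_of_le_of_card_le h1 (by
    rw [Finset.card_val, hR]; exact h2)
  have h4 : Multiset.card Q.roots = Q.natDegree := by
    apply le_antisymm (Polynomial.card_roots' Q)
    rw [← h3, Finset.card_val, hR]
    exact hD
  have h5 := Polynomial.C_leadingCoeff_mul_prod_multiset_X_sub_C h4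
  have hroots : ∀ a ∈ Q.roots, a < 0 := by
    intro a ha
    rw [← h3] at ha
    exact hneg a ha
  have h6 : 0 < Q.leadingCoeff := by
    have h7 : Q.eval 0 = Q.leadingCoeff * (Q.roots.map fun a => -a).prod := by
      conv_lhs => rw [← h5]
      rw [Polynomial.eval_mul, Polynomial.eval_C, Polynomial.eval_multiset_prod, Multiset.map_map]
      congr 2
      refine Multiset.map_congr rfl fun a _ => ?_
      simp
    have h8 : 0 < (Q.roots.map fun a => -a).prod := by
      apply Multiset.prod_pos
      intro b hb
      obtain ⟨a, ha, rfl⟩ := Multiset.mem_map.1 hb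
      have := hroots a ha
      linarith
    rw [h7] at h0
    exact (pos_iff_pos_of_mul_pos h0).2 h8
  have h9 := tps_C (tps_prod Q.roots hroots) h6.le
  rw [← Polynomial.coe_C, ← Polynomial.coe_mul, h5] at h9
  exact h9

end Pool.Agent.Q198.TP
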