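import Mathlib

set_option autoImplicit false

open Finset Filter Topology Polynomial

namespace Pool.Agent.Q198.TP

/-- the recursion for the numerators -/
noncomputable def step (m : ℕ) (c : ℝ) (B : ℝ[X]) : ℝ[X] :=
  X * (1 - X) * derivative B + (C ((m : ℝ) + 1) * X - C c * (1 - X)) * B

lemma step_ps (m : ℕ) (c : ℝ) (B : ℝ[X]) (a : ℕ → ℝ)
    (h : (1 - PowerSeries.X) ^ (m + 1) * PowerSeries.mk a = (B : PowerSeries ℝ)) :
    (1 - PowerSeries.X) ^ (m + 2) * PowerSeries.mk (fun k => ((k : ℝ) - c) * a k)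
      = ((step m c B : ℝ[X]) : PowerSeries ℝ) := by
  set f : PowerSeries ℝ := PowerSeries.mk a with hf
  have h1 : PowerSeries.mk (fun k => ((k : ℝ) - c) * a k)
      = PowerSeries.X * PowerSeries.derivative ℝ f - PowerSeries.C c * f := by
    ext n
    rw [PowerSeries.coeff_mk, map_sub, PowerSeries.coeff_C_mul, hf, PowerSeries.coeff_mk]
    rcases n with _ | n
    · simp
    · rw [PowerSeries.coeff_succ_X_mul, PowerSeries.coeff_derivative, PowerSeries.coeff_mk]
      push_cast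
      ring
  have h2 : PowerSeries.derivative ℝ (B : PowerSeries ℝ)
      = (1 - PowerSeries.X) ^ (m + 1) * PowerSeries.derivative ℝ f
        - (PowerSeries.C ((m : ℝ) + 1)) * (1 - PowerSeries.X) ^ m * f := by
    rw [← h, Derivation.leibniz, PowerSeries.derivative_pow]
    simp only [map_sub, PowerSeries.derivative_one, PowerSeries.derivative_X, smul_eq_mul,
      Nat.add_sub_cancel]
    have h3 : (((m + 1 : ℕ) : PowerSeries ℝ)) = PowerSeries.C ((m : ℝ) + 1) := by
      rw [map_add, map_one]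
      push_cast
      congr 1
    rw [h3]
    ring
  have h4 : ((step m c B : ℝ[X]) : PowerSeries ℝ)
      = PowerSeries.X * (1 - PowerSeries.X) * PowerSeries.derivative ℝ (B : PowerSeries ℝ)
        + (PowerSeries.C ((m : ℝ) + 1) * PowerSeries.X - PowerSeries.C c * (1 - PowerSeries.X))
          * (B : PowerSeries ℝ) := by
    rw [PowerSeries.derivative_coe, step]
    simp only [Polynomial.coe_add, Polynomial.coe_mul, Polynomial.coe_sub, Polynomial.coe_X,
      Polynomial.coe_one, Polynomial.coe_C]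
  rw [h4, h1, h2, ← h]
  ring

lemma natDegree_step (m : ℕ) (c : ℝ) (B : ℝ[X]) (hB : B.natDegree ≤ m) :
    (step m c B).natDegree ≤ m + 1 := by
  rw [step]
  refine natDegree_add_le_of_degree_le ?_ ?_
  · rcases Nat.eq_zero_or_pos m with h | h
    · subst h
      have : derivative B = 0 := by
        rw [eq_C_of_natDegree_le_zero hB, derivative_C]
      rw [this, mul_zero]
      simp
    · refine natDegree_mul_le.trans ?_
      have h1 : (X * (1 - X) : ℝ[X]).natDegree ≤ 2 := by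
        refine natDegree_mul_le.trans ?_
        have h2 : (1 - X : ℝ[X]).natDegree ≤ 1 := by
          refine (natDegree_sub_le _ _).trans ?_
          simp
        have h3 : (X : ℝ[X]).natDegree ≤ 1 := natDegree_X_le
        omega
      have h4 : (derivative B).natDegree ≤ m - 1 := (natDegree_derivative_le B).trans (by omega)
      omega
  · refine natDegree_mul_le.trans ?_
    have h1 : (C ((m : ℝ) + 1) * X - C c * (1 - X) : ℝ[X]).natDegree ≤ 1 := by
      refine (natDegree_sub_le _ _).trans (max_le ?_ ?_)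
      · exact (natDegree_C_mul_le _ _).trans natDegree_X_le
      · refine (natDegree_C_mul_le _ _).trans ?_
        refine (natDegree_sub_le _ _).trans ?_
        simp
    omega

lemma eval_step (m : ℕ) (c : ℝ) (B : ℝ[X]) (u : ℝ) :
    (step m c B).eval (-u) = -u * (1 + u) * (derivative B).eval (-u)
      + (-((m : ℝ) + 1) * u - c * (1 + u)) * B.eval (-u) := by
  simp only [step, eval_add, eval_mul, eval_sub, eval_X, eval_one, eval_C]
  ring

lemma eval_step_zero (m : ℕ) (c : ℝ) (B : ℝ[X]) : (step m c B).eval 0 = -c * B.eval 0 := by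
  simp [step]

/-- the auxiliary function -/
noncomputable def G (m : ℕ) (c : ℝ) (B : ℝ[X]) (u : ℝ) : ℝ :=
  u ^ (-c) * (B.eval (-u) / (1 + u) ^ (m + 1))

lemma G_deriv (m : ℕ) (c : ℝ) (B : ℝ[X]) {u : ℝ} (hu : 0 < u) :
    HasDerivAt (G m c B) (u ^ (-c - 1) * ((step m c B).eval (-u) / (1 + u) ^ (m + 2))) u := by
  have h1 : HasDerivAt (fun x : ℝ => x ^ (-c)) (-c * u ^ (-c - 1)) u :=
    Real.hasDerivAt_rpow_const (Or.inl hu.ne')
  have h2 : HasDerivAt (fun x : ℝ => B.eval (-x)) ((derivative B).eval (-u) * -1) u :=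
    (B.hasDerivAt (-u)).comp u (hasDerivAt_neg u)
  have h3 : HasDerivAt (fun x : ℝ => (1 + x) ^ (m + 1)) (((m + 1 : ℕ) : ℝ) * (1 + u) ^ m * 1) u := by
    have h : HasDerivAt (fun x : ℝ => 1 + x) 1 u := (hasDerivAt_id u).const_add 1
    exact h.pow (m + 1)
  have hne : (1 + u) ^ (m + 1) ≠ 0 := by positivity
  have h4 := h1.mul (h2.div h3 hne)
  refine h4.congr_deriv ?_
  simp only [Pi.div_apply]
  have h5 : u ^ (-c) = u ^ (-c - 1) * u := by
    rw [Real.rpow_sub_one hu.ne']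
    field_simp
  rw [h5, eval_step]
  have hpos : (0 : ℝ) < 1 + u := by linarith
  push_cast
  field_simp
  ring

lemma mvt (m : ℕ) (c : ℝ) (B : ℝ[X]) {p q : ℝ} (hp : 0 < p) (hpq : p < q) (ε : ℝ)
    (h : ε * G m c B p < ε * G m c B q) :
    ∃ x, p < x ∧ x < q ∧ 0 < ε * (step m c B).eval (-x) := by
  obtain ⟨x, hx, hx'⟩ := exists_hasDerivAt_eq_slope (G m c B)
    (fun u => u ^ (-c - 1) * ((step m c B).eval (-u) / (1 + u) ^ (m + 2))) hpq
    (fun y hy => (G_deriv m c B (lt_of_lt_of_le hp hy.1)).continuousAt.continuousWithinAt)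
    (fun y hy => G_deriv m c B (lt_trans hp hy.1))
  refine ⟨x, hx.1, hx.2, ?_⟩
  have hx0 : 0 < x := lt_trans hp hx.1
  have h1 : 0 < ε * ((G m c B q - G m c B p) / (q - p)) := by
    rw [mul_div_assoc']
    exact div_pos (by linarith) (by linarith)
  rw [← hx'] at h1
  have h2 : 0 < x ^ (-c - 1) := Real.rpow_pos_of_pos hx0 _
  have h3 : (0 : ℝ) < (1 + x) ^ (m + 2) := by positivity
  have h4 : ε * (x ^ (-c - 1) * ((step m c B).eval (-x) / (1 + x) ^ (m + 2)))
      = (x ^ (-c - 1) / (1 + x) ^ (m + 2)) * (ε * (step m c B).eval (-x)) := by ring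
  rw [h4] at h1
  exact (pos_iff_pos_of_mul_pos h1).1 (by positivity)

lemma G_sign (m : ℕ) (c : ℝ) (B : ℝ[X]) {u : ℝ} (hu : 0 < u) (ε : ℝ) :
    0 < ε * B.eval (-u) ↔ 0 < ε * G m c B u := by
  have h2 : 0 < u ^ (-c) := Real.rpow_pos_of_pos hu _
  have h3 : (0 : ℝ) < (1 + u) ^ (m + 1) := by positivity
  have h4 : ε * G m c B u = (u ^ (-c) / (1 + u) ^ (m + 1)) * (ε * B.eval (-u)) := by
    rw [G]; ring
  rw [h4]
  constructor
  · intro h; positivity
  · intro h; exact (pos_iff_pos_of_mul_pos h).1 (by positivity)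

/-- between two alternation points -/
lemma mid (m : ℕ) (c : ℝ) (B : ℝ[X]) {p q : ℝ} (hp : 0 < p) (hpq : p < q) (ε : ℝ)
    (h1 : 0 < -ε * B.eval (-p)) (h2 : 0 < ε * B.eval (-q)) :
    ∃ x, p < x ∧ x < q ∧ 0 < ε * (step m c B).eval (-x) := by
  apply mvt m c B hp hpq
  have h3 := (G_sign m c B hp (-ε)).1 h1
  have h4 := (G_sign m c B (hp.trans hpq) ε).1 h2
  linarith

lemma eval_bound (m : ℕ) (B : ℝ[X]) (hB : B.natDegree ≤ m) :
    ∃ K : ℝ, 0 ≤ K ∧ ∀ u : ℝ, 1 ≤ u → |B.eval (-u)| ≤ K * u ^ m := by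
  refine ⟨∑ i ∈ range (m + 1), |B.coeff i|, sum_nonneg fun _ _ => abs_nonneg _, fun u hu => ?_⟩
  rw [eval_eq_sum_range' (Nat.lt_succ_of_le hB), sum_mul]
  refine (abs_sum_le_sum_abs _ _).trans (sum_le_sum fun i hi => ?_)
  rw [abs_mul, abs_pow, abs_neg, abs_of_pos (by linarith : (0 : ℝ) < u)]
  exact mul_le_mul_of_nonneg_left (pow_le_pow_right₀ hu (Nat.lt_succ_iff.1 (mem_range.1 hi)))
    (abs_nonneg _)

lemma G_top (m : ℕ) (c : ℝ) (hc : -1 < c) (B : ℝ[X]) (hB : B.natDegree ≤ m) :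
    Tendsto (G m c B) atTop (𝓝 0) := by
  obtain ⟨K, hK, hKb⟩ := eval_bound m B hB
  have h1 : Tendsto (fun u : ℝ => K * u ^ (-(c + 1))) atTop (𝓝 0) := by
    have := (tendsto_rpow_neg_atTop (by linarith : 0 < c + 1)).const_mul K
    simpa using this
  refine squeeze_zero_norm' ?_ h1
  filter_upwards [eventually_ge_atTop (1 : ℝ)] with u hu
  have hu0 : 0 < u := by linarith
  rw [G, norm_mul, norm_div, Real.norm_eq_abs, Real.norm_eq_abs, Real.norm_eq_abs,
    abs_of_pos (Real.rpow_pos_of_pos hu0 _), abs_of_pos (by positivity : (0 : ℝ) < (1 + u) ^ (m + 1))]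
  have h2 : u ^ (-(c + 1)) = u ^ (-c) * (1 / u) := by
    rw [show -(c + 1) = -c - 1 by ring, Real.rpow_sub_one hu0.ne']
    ring
  have h3 : |B.eval (-u)| / (1 + u) ^ (m + 1) ≤ K * (1 / u) := by
    rw [div_le_iff₀ (by positivity)]
    have h4 : u ^ (m + 1) ≤ (1 + u) ^ (m + 1) := pow_le_pow_left₀ hu0.le (by linarith) _
    calc |B.eval (-u)| ≤ K * u ^ m := hKb u hu
      _ = K * (1 / u) * u ^ (m + 1) := by rw [pow_succ]; field_simp
      _ ≤ K * (1 / u) * (1 + u) ^ (m + 1) := mul_le_mul_of_nonneg_left h4 (by positivity)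
  rw [h2]
  calc u ^ (-c) * (|B.eval (-u)| / (1 + u) ^ (m + 1)) ≤ u ^ (-c) * (K * (1 / u)) :=
        mul_le_mul_of_nonneg_left h3 (Real.rpow_pos_of_pos hu0 _).le
    _ = K * (u ^ (-c) * (1 / u)) := by ring

lemma right_end (m : ℕ) (c : ℝ) (hc : -1 < c) (B : ℝ[X]) (hB : B.natDegree ≤ m) {p : ℝ}
    (hp : 0 < p) (ε : ℝ) (h : 0 < -ε * B.eval (-p)) :
    ∃ x, p < x ∧ 0 < ε * (step m c B).eval (-x) := by
  have h1 := (G_sign m c B hp (-ε)).1 h
  have h2 : Tendsto (fun u => -ε * G m c B u) atTop (𝓝 0) := by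
    simpa using (G_top m c hc B hB).const_mul (-ε)
  obtain ⟨q, hq1, hq2⟩ := ((h2.eventually (gt_mem_nhds h1)).and (eventually_gt_atTop p)).exists
  obtain ⟨x, hx1, -, hx3⟩ := mvt m c B hp hq2 ε (by linarith)
  exact ⟨x, hx1, hx3⟩

lemma left_end (m : ℕ) (B : ℝ[X]) {p : ℝ}
    (hp : 0 < p) (ε : ℝ) (h : 0 < ε * B.eval (-p)) :
    ∃ x, 0 < x ∧ x < p ∧ 0 < ε * (step m (-1 / 2) B).eval (-x) := by
  have h1 := (G_sign m (-1 / 2) B hp ε).1 h
  have hcont : ContinuousAt (G m (-1 / 2) B) 0 := by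
    have h3 : ContinuousAt (fun u : ℝ => u ^ (-(-1 / 2 : ℝ))) 0 :=
      Real.continuousAt_rpow_const _ _ (Or.inr (by norm_num))
    have h4 : ContinuousAt (fun u : ℝ => B.eval (-u) / (1 + u) ^ (m + 1)) 0 := by
      refine ContinuousAt.div ?_ ?_ (by simp)
      · exact (B.continuous.comp continuous_neg).continuousAt
      · exact ((continuous_const.add continuous_id).pow _).continuousAt
    exact h3.mul h4
  have h0 : G m (-1 / 2) B 0 = 0 := by
    rw [G, Real.zero_rpow (by norm_num), zero_mul]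
  have h2 : Tendsto (fun u => ε * G m (-1 / 2) B u) (𝓝[>] 0) (𝓝 0) := by
    have h3 := (hcont.tendsto.const_mul ε)
    rw [h0, mul_zero] at h3
    exact h3.mono_left nhdsWithin_le_nhds
  obtain ⟨q, hq1, hq2⟩ := ((h2.eventually (gt_mem_nhds h1)).and
    (Ioo_mem_nhdsGT hp)).exists
  obtain ⟨x, hx1, hx2, hx3⟩ := mvt m (-1 / 2) B hq2.1 hq2.2 ε (by linarith)
  exact ⟨x, hq2.1.trans hx1, hx2, hx3⟩

/-- alternation: `N` sign changes of `u ↦ B(-u)` on `(0, ∞)`, the first sign being that of `ε` -/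
def Alt (B : ℝ[X]) (N : ℕ) (ε : ℝ) : Prop :=
  ∃ p : ℕ → ℝ, 0 < p 0 ∧ (∀ i < N, p i < p (i + 1)) ∧ ∀ i ≤ N, 0 < ε * (-1) ^ i * B.eval (-p i)

lemma pos_of_inc {p : ℕ → ℝ} {N : ℕ} (h0 : 0 < p 0) (h : ∀ i < N, p i < p (i + 1)) :
    ∀ i ≤ N, 0 < p i := by
  intro i
  induction i with
  | zero => intro _; exact h0
  | succ i ih => intro hi; exact (ih (by omega)).trans (h i (by omega))

lemma alt_half (m : ℕ) (B : ℝ[X]) (hB : B.natDegree ≤ m) (h : Alt B m 1) :
    Alt (step m (-1 / 2) B) (m + 1) 1 := by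
  obtain ⟨p, hp0, hinc, hs⟩ := h
  have hpos := pos_of_inc hp0 hinc
  have key : ∀ i, i ≤ m + 1 → ∃ x, (i = 0 → 0 < x) ∧ (∀ j, i = j + 1 → p j < x) ∧
      (i ≤ m → x < p i) ∧ 0 < (1 : ℝ) * (-1) ^ i * (step m (-1 / 2) B).eval (-x) := by
    intro i hi
    rcases i with _ | i
    · obtain ⟨x, h1, h2, h3⟩ := left_end m B hp0 ((1 : ℝ) * (-1) ^ 0) (hs 0 (Nat.zero_le _))
      exact ⟨x, fun _ => h1, fun j hj => absurd hj (by omega), fun _ => h2, h3⟩
    · rcases Nat.lt_or_ge i m with hlt | hge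
      · obtain ⟨x, h1, h2, h3⟩ := mid m (-1 / 2) B (hpos i hlt.le) (hinc i hlt)
          ((1 : ℝ) * (-1) ^ (i + 1)) (by
            have := hs i hlt.le
            rw [pow_succ]
            linarith) (hs (i + 1) hlt)
        exact ⟨x, fun h => absurd h (by omega), fun j hj => by
          obtain rfl : i = j := by omega
          exact h1, fun _ => h2, h3⟩
      · obtain rfl : i = m := by omega
        obtain ⟨x, h1, h2⟩ := right_end i (-1 / 2) (by norm_num) B hB (hpos i le_rfl)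
          ((1 : ℝ) * (-1) ^ (i + 1)) (by
            have := hs i le_rfl
            rw [pow_succ]
            linarith)
        exact ⟨x, fun h => absurd h (by omega), fun j hj => by
          obtain rfl : i = j := by omega
          exact h1, fun h => absurd h (by omega), h2⟩
  choose! q hq1 hq2 hq3 hq4 using key
  refine ⟨q, hq1 0 (by omega) rfl, fun i hi => ?_, hq4⟩
  exact (hq3 i (by omega) (by omega)).trans (hq2 (i + 1) (by omega) i rfl)

lemma alt_pos (m : ℕ) (c : ℝ) (hc : -1 < c) (B : ℝ[X]) (hB : B.natDegree ≤ m) (h : Alt B m 1) :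
    Alt (step m c B) m (-1) := by
  obtain ⟨p, hp0, hinc, hs⟩ := h
  have hpos := pos_of_inc hp0 hinc
  have key : ∀ i, i ≤ m → ∃ x, p i < x ∧ (i < m → x < p (i + 1)) ∧
      0 < (-1 : ℝ) * (-1) ^ i * (step m c B).eval (-x) := by
    intro i hi
    rcases Nat.lt_or_ge i m with hlt | hge
    · obtain ⟨x, h1, h2, h3⟩ := mid m c B (hpos i hlt.le) (hinc i hlt)
        ((-1 : ℝ) * (-1) ^ i) (by
          have := hs i hlt.le
          linarith) (by
          have := hs (i + 1) hlt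
          rw [pow_succ] at this
          linarith)
      exact ⟨x, h1, fun _ => h2, h3⟩
    · obtain rfl : i = m := by omega
      obtain ⟨x, h1, h2⟩ := right_end i c hc B hB (hpos i le_rfl)
        ((-1 : ℝ) * (-1) ^ i) (by
          have := hs i le_rfl
          linarith)
      exact ⟨x, h1, fun h => absurd h (by omega), h2⟩
  choose! q hq1 hq2 hq3 using key
  refine ⟨q, (hpos 0 (Nat.zero_le _)).trans (hq1 0 (Nat.zero_le _)), fun i hi => ?_, hq3⟩
  exact (hq2 i hi.le hi).trans (hq1 (i + 1) hi)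

end Pool.Agent.Q198.TP
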