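import Pool.Agent.Q198.TPB

set_option autoImplicit false

open Finset Filter Topology Polynomial

namespace Pool.Agent.Q198.TP

/-- alternation up to `x` -/
def Up (f : ℝ → ℝ) (a : ℕ) (x : ℝ) : Prop :=
  ∃ p : ℕ → ℝ, 0 < p 0 ∧ (∀ i < a, p i < p (i + 1)) ∧ p a = x ∧
    ∀ i ≤ a, 0 < -(-1 : ℝ) ^ i * f (p i)

/-- alternation from `x` on -/
def From (f : ℝ → ℝ) (b : ℕ) (x : ℝ) : Prop :=
  ∃ p : ℕ → ℝ, p 0 = x ∧ (∀ i < b, p i < p (i + 1)) ∧
    ∀ i ≤ b, 0 < (-1 : ℝ) ^ i * f x * f (p i)

lemma neg_one_sq (n : ℕ) : (-1 : ℝ) ^ n * (-1) ^ n = 1 := by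
  rw [← mul_pow]; norm_num

lemma up_of (f : ℝ → ℝ) (q : ℕ → ℝ) (hq0 : 0 < q 0) (a : ℕ) (x : ℝ) (hx : 0 < x)
    (hinc : ∀ i, i + 1 < a → q i < q (i + 1)) (hs : ∀ i < a, 0 < -(-1 : ℝ) ^ i * f (q i))
    (hlt : ∀ i < a, q i < x) (hsx : 0 < -(-1 : ℝ) ^ a * f x) : Up f a x := by
  refine ⟨fun j => if j < a then q j else x, ?_, fun i hi => ?_, ?_, fun i hi => ?_⟩
  · dsimp only
    split_ifs
    · exact hq0
    · exact hx
  · dsimp only
    rw [if_pos hi]
    split_ifs with h
    · exact hinc i h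
    · exact hlt i hi
  · simp
  · dsimp only
    split_ifs with h
    · exact hs i h
    · obtain rfl : i = a := by omega
      exact hsx

lemma from_of (f : ℝ → ℝ) (q : ℕ → ℝ) (n j0 : ℕ) (x : ℝ) (hfx : f x ≠ 0)
    (hinc : ∀ i < n, q i < q (i + 1)) (hs : ∀ i ≤ n, 0 < -(-1 : ℝ) ^ i * f (q i))
    (hlt : j0 ≤ n → x < q j0) (hsx : j0 ≤ n → 0 < (-1 : ℝ) ^ j0 * f x) :
    From f (n + 1 - j0) x := by
  refine ⟨fun t => if t = 0 then x else q (j0 + t - 1), by simp, fun i hi => ?_, fun i hi => ?_⟩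
  · dsimp only
    rw [if_neg (Nat.succ_ne_zero i)]
    split_ifs with h
    · subst h
      exact hlt (by omega)
    · have h1 := hinc (j0 + i - 1) (by omega)
      rw [show j0 + i - 1 + 1 = j0 + (i + 1) - 1 by omega] at h1
      exact h1
  · dsimp only
    split_ifs with h
    · subst h
      rw [pow_zero, one_mul]
      exact mul_self_pos.2 hfx
    · obtain ⟨t, rfl⟩ : ∃ t, i = t + 1 := ⟨i - 1, by omega⟩
      have h1 := hsx (by omega)
      have h2 := hs (j0 + (t + 1) - 1) (by omega)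
      have h3 := mul_pos h1 h2
      have h4 : (-1 : ℝ) ^ j0 * f x * (-(-1 : ℝ) ^ (j0 + (t + 1) - 1) * f (q (j0 + (t + 1) - 1)))
          = (-1 : ℝ) ^ (t + 1) * f x * f (q (j0 + (t + 1) - 1)) := by
        have h5 : (-1 : ℝ) ^ (j0 + (t + 1) - 1) = (-1) ^ j0 * (-1) ^ t := by
          rw [← pow_add]; congr 1
        have h6 := neg_one_sq j0
        rw [h5, pow_succ]
        linear_combination (-(-1 : ℝ) ^ t * f x * f (q (j0 + (t + 1) - 1))) * h6
      rw [h4] at h3
      exact h3

lemma split_at (f : ℝ → ℝ) (hneg : ∀ x, 0 < x → ∃ y, 0 < y ∧ y < x ∧ f y < 0) (q : ℕ → ℝ)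
    (n : ℕ) (hq0 : 0 < q 0) (hinc : ∀ i < n, q i < q (i + 1))
    (hs : ∀ i ≤ n, 0 < -(-1 : ℝ) ^ i * f (q i)) (x : ℝ) (hx : 0 < x) (hfx : f x ≠ 0) :
    ∃ a b, n ≤ a + b ∧ Up f a x ∧ From f b x := by
  classical
  have hi : ∃ i ≤ n + 1, (∀ j < i, q j < x) ∧ (i ≤ n → x ≤ q i) := by
    by_cases hex : ∃ j, j ≤ n ∧ x ≤ q j
    · refine ⟨Nat.find hex, (Nat.find_spec hex).1.trans (Nat.le_succ n), fun j hj => ?_,
        fun _ => (Nat.find_spec hex).2⟩
      have h1 := Nat.find_min hex hj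
      have h2 : j ≤ n := (hj.le).trans (Nat.find_spec hex).1
      push Not at h1
      exact h1 h2
    · push Not at hex
      exact ⟨n + 1, le_rfl, fun j hj => hex j (by omega), fun h => absurd h (by omega)⟩
  obtain ⟨i, hin, hi1, hi2⟩ := hi
  rcases lt_trichotomy (-(-1 : ℝ) ^ i * f x) 0 with hcase | hcase | hcase
  · -- opposite sign
    have hsx : 0 < (-1 : ℝ) ^ i * f x := by linarith
    have hF : From f (n + 1 - i) x := by
      refine from_of f q n i x hfx hinc hs (fun h => ?_) (fun _ => hsx)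
      refine lt_of_le_of_ne (hi2 h) fun he => ?_
      have := hs i h
      rw [← he] at this
      linarith
    rcases Nat.eq_zero_or_pos i with h0 | h0
    · subst h0
      refine ⟨1, n + 1 - 0, by omega, ?_, hF⟩
      obtain ⟨y, hy0, hyx, hfy⟩ := hneg x hx
      refine up_of f (fun _ => y) hy0 1 x hx (fun i hi => absurd hi (by omega)) (fun i hi => ?_)
        (fun _ _ => hyx) ?_
      · obtain rfl : i = 0 := by omega
        rw [pow_zero]; linarith
      · rw [pow_zero, one_mul] at hsx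
        rw [pow_one]; linarith
    · refine ⟨i - 1, n + 1 - i, by omega, ?_, hF⟩
      refine up_of f q hq0 (i - 1) x hx (fun j hj => hinc j (by omega))
        (fun j hj => hs j (by omega)) (fun j hj => hi1 j (by omega)) ?_
      have h1 : (-1 : ℝ) ^ i = (-1) ^ (i - 1) * (-1) := by
        rw [← pow_succ]; congr 1; omega
      rw [h1] at hsx
      linarith
  · exfalso
    rcases mul_eq_zero.1 hcase with h | h
    · exact (pow_ne_zero i (by norm_num : (-1 : ℝ) ≠ 0)) (neg_eq_zero.1 h)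
    · exact hfx h
  · refine ⟨i, n + 1 - (i + 1), by omega, ?_, ?_⟩
    · exact up_of f q hq0 i x hx (fun j hj => hinc j (by omega)) (fun j hj => hs j (by omega))
        hi1 hcase
    · refine from_of f q n (i + 1) x hfx hinc hs (fun h => ?_) (fun _ => ?_)
      · exact lt_of_le_of_lt (hi2 (by omega)) (hinc i (by omega))
      · rw [pow_succ]; linarith

lemma from_move (f : ℝ → ℝ) (b : ℕ) {σ σ' : ℝ} (hσ : σ ≤ σ')
    (hf : ∀ u, σ ≤ u → u ≤ σ' → 0 < f σ * f u) (h : From f b σ) : From f b σ' := by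
  obtain ⟨p, hp0, hinc, hs⟩ := h
  have h1 := hf σ' hσ le_rfl
  have hne : f σ ≠ 0 := by rintro h; rw [h, zero_mul] at h1; exact lt_irrefl _ h1
  refine ⟨fun i => if i = 0 then σ' else p i, by simp, fun i hi => ?_, fun i hi => ?_⟩
  · dsimp only
    rw [if_neg (Nat.succ_ne_zero i)]
    split_ifs with h
    · subst h
      by_contra hcon
      have h2 := hs 1 (by omega)
      have h3 := hinc 0 hi
      rw [hp0] at h3
      have h4 := hf (p 1) h3.le (not_lt.1 hcon)
      rw [pow_one] at h2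
      linarith
    · exact hinc i hi
  · dsimp only
    have key : ∀ y : ℝ, 0 < (-1 : ℝ) ^ i * f σ * f y → 0 < (-1 : ℝ) ^ i * f σ' * f y := by
      intro y hy
      have h2 := mul_pos h1 hy
      have h3 : f σ * f σ' * ((-1 : ℝ) ^ i * f σ * f y)
          = (f σ * f σ) * ((-1 : ℝ) ^ i * f σ' * f y) := by ring
      rw [h3] at h2
      exact (pos_iff_pos_of_mul_pos h2).1 (mul_self_pos.2 hne)
    split_ifs with h
    · subst h
      rw [pow_zero, one_mul]
      have hne' : f σ' ≠ 0 := by rintro h; rw [h, mul_zero] at h1; exact lt_irrefl _ h1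
      exact mul_self_pos.2 hne'
    · exact key _ (hs i hi)

/-- The insertion of two additional sign changes. -/
lemma assemble (m : ℕ) (c : ℝ) (hc : -1 < c) (B : ℝ[X]) (hB : B.natDegree ≤ m) (a b : ℕ)
    {σ σ' : ℝ} (hσ0 : 0 < σ) (hσ : σ < σ') (hup : Up (fun u => B.eval (-u)) a σ)
    (hfrom : From (fun u => B.eval (-u)) b σ') (hss : 0 < B.eval (-σ) * B.eval (-σ'))
    (h1 : 0 < (-1 : ℝ) ^ a * (step m c B).eval (-σ))
    (h2 : 0 < (-1 : ℝ) ^ (a + 1) * (step m c B).eval (-σ')) :
    Alt (step m c B) (a + b + 2) 1 := by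
  obtain ⟨p, hp0, hpinc, hpa, hps⟩ := hup
  obtain ⟨p', hp'0, hp'inc, hp's⟩ := hfrom
  have hppos := pos_of_inc hp0 hpinc
  have hp'pos := pos_of_inc (p := p') (N := b) (by rw [hp'0]; linarith) hp'inc
  have hsa : 0 < -(-1 : ℝ) ^ a * B.eval (-σ) := by
    have := hps a le_rfl
    rwa [hpa] at this
  have hsa' : 0 < -(-1 : ℝ) ^ a * B.eval (-σ') := by
    have h3 := mul_pos hsa hss
    have h4 : -(-1 : ℝ) ^ a * B.eval (-σ) * (B.eval (-σ) * B.eval (-σ'))
        = (B.eval (-σ) * B.eval (-σ)) * (-(-1 : ℝ) ^ a * B.eval (-σ')) := by ring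
    rw [h4] at h3
    refine (pos_iff_pos_of_mul_pos h3).1 (mul_self_pos.2 ?_)
    intro h
    rw [h, mul_zero] at hsa
    exact lt_irrefl _ hsa
  have hs' : ∀ j ≤ b, 0 < -(-1 : ℝ) ^ (a + j) * B.eval (-p' j) := by
    intro j hj
    have h3 := mul_pos hsa' (hp's j hj)
    have h4 : -(-1 : ℝ) ^ a * B.eval (-σ') * ((-1 : ℝ) ^ j * B.eval (-σ') * B.eval (-p' j))
        = (B.eval (-σ') * B.eval (-σ')) * (-(-1 : ℝ) ^ (a + j) * B.eval (-p' j)) := by
      rw [pow_add]; ring
    rw [h4] at h3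
    refine (pos_iff_pos_of_mul_pos h3).1 (mul_self_pos.2 ?_)
    intro h
    rw [h, mul_zero] at hsa'
    exact lt_irrefl _ hsa'
  have hl : ∀ i, i < a → ∃ x, p i < x ∧ x < p (i + 1) ∧
      0 < (-1 : ℝ) ^ i * (step m c B).eval (-x) := by
    intro i hi
    refine mid m c B (hppos i hi.le) (hpinc i hi) _ (hps i hi.le) ?_
    have := hps (i + 1) hi
    rw [pow_succ] at this
    linarith
  have hr : ∀ j, j ≤ b → ∃ x, p' j < x ∧ (j < b → x < p' (j + 1)) ∧
      0 < (-1 : ℝ) ^ (a + j) * (step m c B).eval (-x) := by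
    intro j hj
    rcases Nat.lt_or_ge j b with hlt | hge
    · obtain ⟨x, hx1, hx2, hx3⟩ := mid m c B (hp'pos j hj) (hp'inc j hlt) ((-1 : ℝ) ^ (a + j))
        (hs' j hj) (by
          have := hs' (j + 1) hlt
          rw [← add_assoc, pow_succ] at this
          linarith)
      exact ⟨x, hx1, fun _ => hx2, hx3⟩
    · obtain rfl : j = b := by omega
      obtain ⟨x, hx1, hx3⟩ := right_end m c hc B hB (hp'pos j hj) ((-1 : ℝ) ^ (a + j)) (hs' j hj)
      exact ⟨x, hx1, fun h => absurd h (by omega), hx3⟩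
  choose! rl hl1 hl2 hl3 using hl
  choose! rr hr1 hr2 hr3 using hr
  refine ⟨fun i => if i < a then rl i else if i = a then σ else if i = a + 1 then σ'
    else rr (i - a - 2), ?_, fun i hi => ?_, fun i hi => ?_⟩
  · dsimp only
    by_cases h : 0 < a
    · rw [if_pos h]; exact hp0.trans (hl1 0 h)
    · rw [if_neg h, if_pos (by omega)]; exact hσ0
  · dsimp only
    rcases Nat.lt_or_ge (i + 1) a with h | h
    · rw [if_pos (by omega), if_pos h]
      exact (hl2 i (by omega)).trans (hl1 (i + 1) h)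
    · rcases Nat.lt_or_ge i a with h' | h'
      · rw [if_pos h', if_neg (by omega), if_pos (by omega), ← hpa]
        have := hl2 i h'
        rwa [show i + 1 = a by omega] at this
      · rcases Nat.eq_or_lt_of_le h' with h'' | h''
        · subst h''
          rw [if_neg (by omega), if_pos rfl, if_neg (by omega), if_neg (by omega), if_pos rfl]
          exact hσ
        · rcases Nat.eq_or_lt_of_le h'' with h3 | h3
          · rw [if_neg (by omega), if_neg (by omega), if_pos (by omega), if_neg (by omega),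
              if_neg (by omega), if_neg (by omega), show i + 1 - a - 2 = 0 by omega, ← hp'0]
            exact hr1 0 (Nat.zero_le _)
          · rw [if_neg (by omega), if_neg (by omega), if_neg (by omega), if_neg (by omega),
              if_neg (by omega), if_neg (by omega), show i + 1 - a - 2 = (i - a - 2) + 1 by omega]
            exact (hr2 (i - a - 2) (by omega) (by omega)).trans (hr1 _ (by omega))
  · dsimp only
    rw [one_mul]
    split_ifs with h h' h''
    · exact hl3 i h
    · rw [h']; exact h1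
    · rw [h'']; exact h2
    · have h3 := hr3 (i - a - 2) (by omega)
      have h4 : (-1 : ℝ) ^ i = (-1) ^ (a + (i - a - 2)) := by
        conv_lhs => rw [show i = a + (i - a - 2) + 2 by omega]
        rw [pow_add _ _ 2]; norm_num
      rw [h4]
      exact h3

/-- Alternation gives negative roots. -/
lemma roots_of_alt (B : ℝ[X]) (N D : ℕ) (hD : D ≤ N) (h : Alt B N 1) :
    ∃ R : Finset ℝ, R.card = D ∧ (∀ a ∈ R, a < 0) ∧ ∀ a ∈ R, B.IsRoot a := by
  obtain ⟨p, hp0, hinc, hs⟩ := h
  have hpos := pos_of_inc hp0 hinc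
  have key : ∀ i, i < N → ∃ x, p i < x ∧ x < p (i + 1) ∧ B.eval (-x) = 0 := by
    intro i hi
    have h1 := hs i hi.le
    have h2 := hs (i + 1) hi
    rw [pow_succ] at h2
    have hcont : ContinuousOn (fun u : ℝ => (1 : ℝ) * (-1) ^ i * B.eval (-u))
        (Set.Icc (p i) (p (i + 1))) :=
      (continuous_const.mul (B.continuous.comp continuous_neg)).continuousOn
    have h3 := intermediate_value_Icc' (hinc i hi).le hcont
    obtain ⟨x, hx, hx'⟩ := h3 (show (0 : ℝ) ∈ Set.Icc _ _ from ⟨by linarith, h1.le⟩)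
    have h4 : B.eval (-x) = 0 := by
      rcases mul_eq_zero.1 hx' with h | h
      · exact absurd h (by
          rw [one_mul]; exact pow_ne_zero i (by norm_num))
      · exact h
    refine ⟨x, lt_of_le_of_ne hx.1 fun he => ?_, lt_of_le_of_ne hx.2 fun he => ?_, h4⟩
    · rw [he, h4, mul_zero] at h1; exact lt_irrefl _ h1
    · rw [← he, h4, mul_zero] at h2; exact lt_irrefl _ h2
  choose! z hz1 hz2 hz3 using key
  have hzinc : ∀ i j, i < j → j < N → z i < z j := by
    intro i j hij
    induction j, hij using Nat.le_induction with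
    | base => intro hj; exact (hz2 i (by omega)).trans (hz1 (i + 1) hj)
    | succ j hj ih =>
      intro hj'
      exact (ih (by omega)).trans ((hz2 j (by omega)).trans (hz1 (j + 1) hj'))
  refine ⟨(range D).image fun i => -z i, ?_, fun a ha => ?_, fun a ha => ?_⟩
  · rw [card_image_of_injOn, card_range]
    intro i hi j hj hij
    rw [coe_range, Set.mem_Iio] at hi hj
    have hij' : z i = z j := neg_injective hij
    rcases lt_trichotomy i j with h | h | h
    · exact absurd hij' (hzinc i j h (by omega)).ne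
    · exact h
    · exact absurd hij'.symm (hzinc j i h (by omega)).ne
  · obtain ⟨i, hi, rfl⟩ := mem_image.1 ha
    rw [mem_range] at hi
    have h1 := hz1 i (by omega)
    have h2 := hpos i (by omega)
    linarith
  · obtain ⟨i, hi, rfl⟩ := mem_image.1 ha
    rw [mem_range] at hi
    exact hz3 i (by omega)

end Pool.Agent.Q198.TP
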