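import Pool.Agent.Q198.TPA
import Pool.Agent.Q198.TPC

set_option autoImplicit false

open Finset Filter Topology Polynomial

namespace Pool.Agent.Q198.TP

/-- numerators for `(x + 1/2)^n` -/
noncomputable def Bh : ℕ → ℝ[X]
  | 0 => 1
  | n + 1 => step n (-1 / 2) (Bh n)

lemma Bh_ps (n : ℕ) : (1 - PowerSeries.X) ^ (n + 1) * PowerSeries.mk (fun k => ((k : ℝ) + 1 / 2) ^ n)
    = ((Bh n : ℝ[X]) : PowerSeries ℝ) := by
  induction n with
  | zero =>
    rw [Bh, Polynomial.coe_one, zero_add, pow_one, mul_comm]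
    have := PowerSeries.mk_one_mul_one_sub_eq_one ℝ
    convert this using 2
    ext k
    simp
  | succ n ih =>
    have h := step_ps n (-1 / 2) (Bh n) _ ih
    rw [Bh, ← h]
    congr 2
    ext k
    rw [pow_succ]; ring

lemma Bh_deg (n : ℕ) : (Bh n).natDegree ≤ n := by
  induction n with
  | zero => rw [Bh]; simp
  | succ n ih => exact natDegree_step n _ _ ih

lemma Bh_zero (n : ℕ) : (Bh n).eval 0 = (1 / 2) ^ n := by
  induction n with
  | zero => rw [Bh]; simp
  | succ n ih => rw [Bh, eval_step_zero, ih, pow_succ]; ring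

lemma Bh_alt (n : ℕ) : Alt (Bh n) n 1 := by
  induction n with
  | zero =>
    refine ⟨fun _ => 1, one_pos, fun i hi => absurd hi (by omega), fun i hi => ?_⟩
    obtain rfl : i = 0 := by omega
    rw [Bh]; simp
  | succ n ih => exact alt_half n _ (Bh_deg n) ih

/-- Evaluation of the series. -/
lemma series_eval (x : ℝ) (N : ℕ) : ∀ (a : ℕ → ℝ) (Q : ℝ[X]),
    (1 - PowerSeries.X) ^ N * PowerSeries.mk a = (Q : PowerSeries ℝ) →
    Summable (fun k => a k * x ^ k) → (1 - x) ^ N * ∑' k, a k * x ^ k = Q.eval x := by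
  induction N with
  | zero =>
    intro a Q h _
    rw [pow_zero, one_mul] at h
    rw [pow_zero, one_mul]
    have ha : ∀ k, a k = Q.coeff k := by
      intro k
      have := congrArg (PowerSeries.coeff k) h
      rwa [PowerSeries.coeff_mk, Polynomial.coeff_coe] at this
    rw [Polynomial.eval_eq_sum_range, tsum_eq_sum (s := range (Q.natDegree + 1))]
    · exact sum_congr rfl fun k _ => by rw [ha]
    · intro k hk
      rw [ha, Polynomial.coeff_eq_zero_of_natDegree_lt, zero_mul]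
      rw [mem_range] at hk
      omega
  | succ N ih =>
    intro a Q h hs
    set a' : ℕ → ℝ := fun k => PowerSeries.coeff k ((1 - PowerSeries.X) * PowerSeries.mk a)
      with ha'
    have h1 : PowerSeries.mk a' = (1 - PowerSeries.X) * PowerSeries.mk a := by
      ext k; rw [PowerSeries.coeff_mk]
    have h0 : a' 0 = a 0 := by
      rw [ha']; dsimp only
      rw [sub_mul, map_sub, one_mul]
      simp
    have hsucc : ∀ k, a' (k + 1) = a (k + 1) - a k := by
      intro k
      rw [ha']; dsimp only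
      rw [sub_mul, map_sub, one_mul, PowerSeries.coeff_succ_X_mul, PowerSeries.coeff_mk,
        PowerSeries.coeff_mk]
    set S := ∑' k, a k * x ^ k with hS
    have hsum := hs.hasSum
    have h2 : HasSum (fun k => a (k + 1) * x ^ (k + 1)) (S - a 0) := by
      have := (hasSum_nat_add_iff' 1).2 hsum
      simpa using this
    have h3 : HasSum (fun k => a' (k + 1) * x ^ (k + 1)) (S - a 0 - x * S) := by
      refine (h2.sub (hsum.mul_left x)).congr_fun fun k => ?_
      rw [hsucc]
      ring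
    have h4 : HasSum (fun k => a' k * x ^ k) ((1 - x) * S) := by
      have h5 := (hasSum_nat_add_iff (f := fun k => a' k * x ^ k) 1).1 h3
      have h6 : S - a 0 - x * S + ∑ i ∈ range 1, a' i * x ^ i = (1 - x) * S := by
        rw [sum_range_one, h0]
        ring
      rwa [h6] at h5
    have h6 := ih a' Q (by rw [h1, ← mul_assoc, ← pow_succ]; exact h) h4.summable
    rw [h4.tsum_eq] at h6
    rw [← h6, pow_succ]
    ring

lemma geo_aux (q : ℝ) (hq0 : 0 ≤ q) (hq1 : q < 1) (K : ℕ) :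
    ∑ i ∈ range K, q ^ (K - i) ≤ q / (1 - q) := by
  induction K with
  | zero => rw [sum_range_zero]; exact div_nonneg hq0 (by linarith)
  | succ K ih =>
    rw [sum_range_succ]
    have h1 : ∀ i ∈ range K, q ^ (K + 1 - i) = q * q ^ (K - i) := by
      intro i hi
      rw [mem_range] at hi
      rw [show K + 1 - i = (K - i) + 1 by omega, pow_succ]; ring
    rw [sum_congr rfl h1, ← mul_sum, show K + 1 - K = 1 by omega, pow_one]
    have h2 : q / (1 - q) = q * (q / (1 - q)) + q := by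
      have : 1 - q ≠ 0 := by linarith
      field_simp
      ring
    rw [h2]
    have := mul_le_mul_of_nonneg_left ih hq0
    linarith

/-- The domination estimate. -/
lemma dominate (x : ℕ → ℝ) (K : ℕ) (a b q : ℝ) (hb : 0 ≤ b) (ha : 0 ≤ a) (hq0 : 0 ≤ q)
    (hq1 : q < 1)
    (h1 : ∀ i < K, |x i| ≤ a * q ^ (K - i)) (h2 : ∀ j, |x (j + (K + 2))| ≤ b * q ^ (j + 1)) :
    Summable x ∧ |∑' k, x k - (x K + x (K + 1))| ≤ (a + b) * (q / (1 - q)) := by
  have hg : HasSum (fun j : ℕ => b * q ^ (j + 1)) (b * (q / (1 - q))) := by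
    have := (hasSum_geometric_of_lt_one hq0 hq1).mul_left (b * q)
    have e : b * q * (1 - q)⁻¹ = b * (q / (1 - q)) := by rw [div_eq_mul_inv]; ring
    rw [e] at this
    refine this.congr_fun fun j => ?_
    rw [pow_succ]; ring
  have hs1 : Summable fun j => x (j + (K + 2)) :=
    Summable.of_norm_bounded hg.summable h2
  have hs : Summable x := (summable_nat_add_iff (K + 2)).1 hs1
  refine ⟨hs, ?_⟩
  have h3 := hs.sum_add_tsum_nat_add (K + 2)
  have h4 : |∑' j, x (j + (K + 2))| ≤ b * (q / (1 - q)) := by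
    rw [← Real.norm_eq_abs]
    exact tsum_of_norm_bounded hg h2
  have h5 : |∑ i ∈ range K, x i| ≤ a * (q / (1 - q)) := by
    refine (abs_sum_le_sum_abs _ _).trans ((sum_le_sum fun i hi => h1 i (mem_range.1 hi)).trans ?_)
    rw [← mul_sum]
    exact mul_le_mul_of_nonneg_left (geo_aux q hq0 hq1 K) ha
  rw [← h3, sum_range_succ, sum_range_succ]
  have h6 : ∑ i ∈ range K, x i + x K + x (K + 1) + ∑' j, x (j + (K + 2)) - (x K + x (K + 1))
      = ∑ i ∈ range K, x i + ∑' j, x (j + (K + 2)) := by ring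
  rw [h6]
  refine (abs_add_le _ _).trans ?_
  linarith

/-- the absolute values of the terms -/
noncomputable def T (n : ℕ) (u : ℝ) (k : ℕ) : ℝ := ((k : ℝ) + 1 / 2) ^ n * u ^ k

lemma T_pos (n : ℕ) {u : ℝ} (hu : 0 < u) (k : ℕ) : 0 < T n u k := by
  rw [T]; positivity

lemma half_le (j : ℕ) (hj : 1 ≤ j) : ((j : ℝ) + 1 / 2) ^ 2 ≤ 4 ^ j := by
  induction j, hj using Nat.le_induction with
  | base => norm_num
  | succ j hj ih =>
    have h1 : (1 : ℝ) ≤ j := by exact_mod_cast hj
    rw [pow_succ (4 : ℝ)]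
    push_cast
    nlinarith

/-- hypotheses on `u` -/
structure Dom (n K : ℕ) (ρ u : ℝ) : Prop where
  u0 : 0 < u
  lo : ∀ i, i < K → T n u i ≤ ρ * T n u (i + 1)
  hi : ∀ k, K + 1 ≤ k → T n u (k + 1) ≤ ρ * T n u k

lemma Dom.low {n K : ℕ} {ρ u : ℝ} (h : Dom n K ρ u) (hρ : 0 ≤ ρ) (j : ℕ) :
    j ≤ K → T n u (K - j) ≤ ρ ^ j * T n u K := by
  induction j with
  | zero => intro _; simp
  | succ j ih =>
    intro hj
    have h1 := h.lo (K - (j + 1)) (by omega)
    rw [show K - (j + 1) + 1 = K - j by omega] at h1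
    have h2 := mul_le_mul_of_nonneg_left (ih (by omega)) hρ
    rw [pow_succ]
    linarith

lemma Dom.high {n K : ℕ} {ρ u : ℝ} (h : Dom n K ρ u) (hρ : 0 ≤ ρ) (j : ℕ) :
    T n u (K + 1 + j) ≤ ρ ^ j * T n u (K + 1) := by
  induction j with
  | zero => simp
  | succ j ih =>
    have h1 := h.hi (K + 1 + j) (by omega)
    have h2 := mul_le_mul_of_nonneg_left ih hρ
    rw [pow_succ]
    have h3 : K + 1 + (j + 1) = K + 1 + j + 1 := by ring
    rw [h3]
    linarith

/-- The estimate for the weighted sums. -/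
lemma weighted {n K : ℕ} {u : ℝ} (h : Dom n K (1 / 100) u) (w : ℕ → ℝ)
    (hw : ∀ k, |w k| ≤ ((k : ℝ) - (K + 1 / 2)) ^ 2 ∨ (k = K ∨ k = K + 1)) :
    Summable (fun k => w k * ((k : ℝ) + 1 / 2) ^ n * (-u) ^ k) ∧
    |∑' k, w k * ((k : ℝ) + 1 / 2) ^ n * (-u) ^ k
      - (-1) ^ K * (w K * T n u K - w (K + 1) * T n u (K + 1))|
      ≤ (T n u K + T n u (K + 1)) * (1 / 24) := by
  have habs : ∀ k, |w k * ((k : ℝ) + 1 / 2) ^ n * (-u) ^ k| = |w k| * T n u k := by
    intro k
    rw [abs_mul, abs_mul, abs_pow, abs_pow, abs_neg, abs_of_pos h.u0,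
      abs_of_pos (by positivity : (0 : ℝ) < (k : ℝ) + 1 / 2), T]
    ring
  have hTK := T_pos n h.u0 K
  have hTK1 := T_pos n h.u0 (K + 1)
  have h1 : ∀ i < K, |w i * ((i : ℝ) + 1 / 2) ^ n * (-u) ^ i| ≤ T n u K * (1 / 25) ^ (K - i) := by
    intro i hi
    rw [habs]
    have h2 := h.low (by norm_num) (K - i) (by omega)
    rw [show K - (K - i) = i by omega] at h2
    have h3 : |w i| ≤ 4 ^ (K - i) := by
      rcases hw i with hwi | hwi
      · refine hwi.trans ?_
        have h4 := half_le (K - i) (by omega)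
        rw [Nat.cast_sub hi.le] at h4
        refine le_trans (le_of_eq ?_) h4
        ring
      · omega
    calc |w i| * T n u i ≤ 4 ^ (K - i) * ((1 / 100) ^ (K - i) * T n u K) :=
          mul_le_mul h3 h2 (T_pos n h.u0 i).le (by positivity)
      _ = T n u K * (1 / 25) ^ (K - i) := by
          rw [← mul_assoc, ← mul_pow]; norm_num; ring
  have h2 : ∀ j, |w (j + (K + 2)) * (((j + (K + 2) : ℕ) : ℝ) + 1 / 2) ^ n * (-u) ^ (j + (K + 2))|
      ≤ T n u (K + 1) * (1 / 25) ^ (j + 1) := by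
    intro j
    rw [habs]
    have h2 := h.high (by norm_num) (j + 1)
    rw [show K + 1 + (j + 1) = j + (K + 2) by omega] at h2
    have h3 : |w (j + (K + 2))| ≤ 4 ^ (j + 1) := by
      rcases hw (j + (K + 2)) with hwi | hwi
      · refine hwi.trans ?_
        have h4 := half_le (j + 1) (by omega)
        refine le_trans (le_of_eq ?_) h4
        push_cast
        ring
      · omega
    calc |w (j + (K + 2))| * T n u (j + (K + 2))
        ≤ 4 ^ (j + 1) * ((1 / 100) ^ (j + 1) * T n u (K + 1)) :=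
          mul_le_mul h3 h2 (T_pos n h.u0 _).le (by positivity)
      _ = T n u (K + 1) * (1 / 25) ^ (j + 1) := by
          rw [← mul_assoc, ← mul_pow]; norm_num; ring
  obtain ⟨h3, h4⟩ := dominate (fun k => w k * ((k : ℝ) + 1 / 2) ^ n * (-u) ^ k) K
    (T n u K) (T n u (K + 1)) (1 / 25) hTK1.le hTK.le (by norm_num) (by norm_num) h1 h2
  refine ⟨h3, ?_⟩
  have h5 : (-1 : ℝ) ^ K * (w K * T n u K - w (K + 1) * T n u (K + 1))
      = w K * ((K : ℝ) + 1 / 2) ^ n * (-u) ^ K
        + w (K + 1) * (((K + 1 : ℕ) : ℝ) + 1 / 2) ^ n * (-u) ^ (K + 1) := by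
    rw [T, T, neg_pow u K, neg_pow u (K + 1), pow_succ (-1 : ℝ)]
    ring
  rw [h5]
  refine h4.trans (le_of_eq ?_)
  norm_num

end Pool.Agent.Q198.TP
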