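import Pool.Agent.Q198.TPD

set_option autoImplicit false

open Finset Filter Topology Polynomial

namespace Pool.Agent.Q198.TP

/-- the choice of `n`, `σ`, `σ'` -/
lemma choose_dom (K : ℕ) (hK : 1 ≤ K) : ∃ (n : ℕ) (σ σ' : ℝ), n ≠ 0 ∧ 0 < σ ∧ σ < σ' ∧
    (∀ u, σ ≤ u → u ≤ σ' → Dom n K (1 / 100) u) ∧
    T n σ (K + 1) ≤ (1 / 100) * T n σ K ∧ T n σ' K ≤ (1 / 100) * T n σ' (K + 1) := by
  have hKr : (1 : ℝ) ≤ K := by exact_mod_cast hK
  set A : ℝ := K - 1 / 2 with hA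
  set B : ℝ := K + 1 / 2 with hB
  set C' : ℝ := K + 3 / 2 with hC
  set D : ℝ := K + 5 / 2 with hD
  have hA0 : 0 < A := by rw [hA]; linarith
  have hB0 : 0 < B := by rw [hB]; linarith
  have hC0 : 0 < C' := by rw [hC]; linarith
  have hD0 : 0 < D := by rw [hD]; linarith
  have hr1 : 1 < B ^ 2 / (A * C') := by
    rw [lt_div_iff₀ (by positivity), hA, hB, hC]; nlinarith
  have hr2 : 1 < C' ^ 2 / (B * D) := by
    rw [lt_div_iff₀ (by positivity), hB, hC, hD]; nlinarith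
  obtain ⟨n, hn1, hn2⟩ := (((tendsto_pow_atTop_atTop_of_one_lt hr1).eventually_ge_atTop 10000).and
    ((tendsto_pow_atTop_atTop_of_one_lt hr2).eventually_ge_atTop 10000)).exists
  have hn0 : n ≠ 0 := by
    rintro rfl
    norm_num at hn1
  refine ⟨n, 1 / 100 * (B / C') ^ n, 1 / 100 * (C' / D) ^ n, hn0, by positivity, ?_, ?_, ?_, ?_⟩
  · have h1 : B / C' < C' / D := by
      rw [div_lt_div_iff₀ hC0 hD0, hB, hC, hD]; nlinarith
    have h2 : (B / C') ^ n < (C' / D) ^ n := pow_lt_pow_left₀ h1 (by positivity) hn0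
    linarith
  · intro u hu1 hu2
    have hu0 : 0 < u := lt_of_lt_of_le (by positivity) hu1
    refine ⟨hu0, fun i hi => ?_, fun k hk => ?_⟩
    · have hir : (i : ℝ) + 1 ≤ K := by exact_mod_cast hi
      have hi0 : (0 : ℝ) ≤ i := Nat.cast_nonneg i
      have h1 : ((i : ℝ) + 1 / 2) * (B ^ 2 / (A * C')) ≤ ((i : ℝ) + 3 / 2) * (B / C') := by
        have h2 : ((i : ℝ) + 1 / 2) * B ≤ ((i : ℝ) + 3 / 2) * A := by
          rw [hA, hB]; nlinarith
        rw [mul_div_assoc', mul_div_assoc', div_le_div_iff₀ (by positivity) hC0]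
        have h3 := mul_le_mul_of_nonneg_right h2 (by positivity : 0 ≤ B * C')
        calc ((i : ℝ) + 1 / 2) * B ^ 2 * C' = ((i : ℝ) + 1 / 2) * B * (B * C') := by ring
          _ ≤ ((i : ℝ) + 3 / 2) * A * (B * C') := h3
          _ = _ := by ring
      have h2 := pow_le_pow_left₀ (by positivity) h1 n
      rw [mul_pow, mul_pow] at h2
      have h3 : ((i : ℝ) + 1 / 2) ^ n * 10000 ≤ ((i : ℝ) + 3 / 2) ^ n * (B / C') ^ n :=
        (mul_le_mul_of_nonneg_left hn1 (by positivity)).trans h2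
      rw [T, T, pow_succ]
      push_cast
      have h4 : ((i : ℝ) + 1 / 2) ^ n ≤ 1 / 100 * ((i : ℝ) + 1 + 1 / 2) ^ n * u := by
        have h5 : 1 / 100 * ((i : ℝ) + 1 + 1 / 2) ^ n * (1 / 100 * (B / C') ^ n)
            ≤ 1 / 100 * ((i : ℝ) + 1 + 1 / 2) ^ n * u :=
          mul_le_mul_of_nonneg_left hu1 (by positivity)
        rw [show (i : ℝ) + 1 + 1 / 2 = i + 3 / 2 by ring] at h5 ⊢
        refine le_trans ?_ h5
        linarith
      calc ((i : ℝ) + 1 / 2) ^ n * u ^ i ≤ 1 / 100 * ((i : ℝ) + 1 + 1 / 2) ^ n * u * u ^ i :=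
            mul_le_mul_of_nonneg_right h4 (by positivity)
        _ = _ := by ring
    · have hkr : (K : ℝ) + 1 ≤ k := by exact_mod_cast hk
      have h1 : ((k : ℝ) + 3 / 2) * (C' / D) ≤ (k : ℝ) + 1 / 2 := by
        rw [mul_div_assoc', div_le_iff₀ hD0, hC, hD]; nlinarith
      have h2 := pow_le_pow_left₀ (by positivity) h1 n
      rw [mul_pow] at h2
      rw [T, T, pow_succ]
      push_cast
      have h4 : ((k : ℝ) + 1 + 1 / 2) ^ n * u ≤ 1 / 100 * ((k : ℝ) + 1 / 2) ^ n := by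
        have h5 : ((k : ℝ) + 1 + 1 / 2) ^ n * u
            ≤ ((k : ℝ) + 1 + 1 / 2) ^ n * (1 / 100 * (C' / D) ^ n) :=
          mul_le_mul_of_nonneg_left hu2 (by positivity)
        rw [show (k : ℝ) + 1 + 1 / 2 = k + 3 / 2 by ring] at h5 ⊢
        refine h5.trans ?_
        linarith
      calc ((k : ℝ) + 1 + 1 / 2) ^ n * (u ^ k * u) = ((k : ℝ) + 1 + 1 / 2) ^ n * u * u ^ k := by
            ring
        _ ≤ 1 / 100 * ((k : ℝ) + 1 / 2) ^ n * u ^ k :=
            mul_le_mul_of_nonneg_right h4 (by positivity)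
        _ = _ := by ring
  · rw [T, T, pow_succ]
    push_cast
    rw [show (K : ℝ) + 1 + 1 / 2 = C' by rw [hC]; ring, ← hB]
    set σ := 1 / 100 * (B / C') ^ n with hσ
    have h1 : C' ^ n * σ = 1 / 100 * B ^ n := by
      rw [hσ, div_pow]; field_simp
    refine le_of_eq ?_
    calc C' ^ n * (σ ^ K * σ) = C' ^ n * σ * σ ^ K := by ring
      _ = _ := by rw [h1]; ring
  · rw [T, T, pow_succ]
    push_cast
    rw [show (K : ℝ) + 1 + 1 / 2 = C' by rw [hC]; ring, ← hB]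
    set σ := 1 / 100 * (C' / D) ^ n with hσ
    have hσ0 : 0 < σ := by positivity
    have h2 : B ^ n * 10000 ≤ C' ^ n * (C' / D) ^ n := by
      have h3 := mul_le_mul_of_nonneg_left hn2 (by positivity : 0 ≤ B ^ n)
      refine h3.trans (le_of_eq ?_)
      rw [← mul_pow, ← mul_pow]
      congr 1
      field_simp
    have h1 : B ^ n ≤ 1 / 100 * (C' ^ n * σ) := by
      rw [hσ]; linarith
    calc B ^ n * σ ^ K ≤ 1 / 100 * (C' ^ n * σ) * σ ^ K :=
          mul_le_mul_of_nonneg_right h1 (by positivity)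
      _ = _ := by ring

theorem tp_main (K : ℕ) (hK : 1 ≤ K) : ∃ n : ℕ, n ≠ 0 ∧
    IsTP fun k => ((k : ℝ) - (K + 1 / 2)) * (((k : ℝ) - (K + 1 / 2)) * ((k : ℝ) + 1 / 2) ^ n) := by
  obtain ⟨n, σ, σ', hn0, hσ0, hσσ', hdom, hTσ, hTσ'⟩ := choose_dom K hK
  refine ⟨n, hn0, ?_⟩
  set s : ℝ := K + 1 / 2 with hs
  have hs0 : 0 < s := by positivity
  set Q1 : ℝ[X] := step n s (Bh n) with hQ1
  set Q2 : ℝ[X] := step (n + 1) s Q1 with hQ2
  have hps1 := step_ps n s (Bh n) _ (Bh_ps n)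
  have hps2 := step_ps (n + 1) s Q1 _ hps1
  have hdeg1 : Q1.natDegree ≤ n + 1 := natDegree_step n s _ (Bh_deg n)
  have hdeg2 : Q2.natDegree ≤ n + 2 := natDegree_step (n + 1) s _ hdeg1
  have hQ10 : Q1.eval 0 = -s * (1 / 2) ^ n := by rw [hQ1, eval_step_zero, Bh_zero]
  have hQ20 : Q2.eval 0 = s * s * (1 / 2) ^ n := by rw [hQ2, eval_step_zero, hQ10]; ring
  -- the sign of `Q1`
  have hsign1 : ∀ u, σ ≤ u → u ≤ σ' → 0 < (-1 : ℝ) ^ (K + 1) * Q1.eval (-u) := by
    intro u hu1 hu2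
    have hd := hdom u hu1 hu2
    obtain ⟨h1, h2⟩ := weighted hd (fun k => (k : ℝ) - s) (fun k => by
      by_cases hk : k = K ∨ k = K + 1
      · exact Or.inr hk
      · left
        push Not at hk
        have h3 : 1 ≤ |(k : ℝ) - s| := by
          rcases lt_or_gt_of_ne hk.1 with h | h
          · have : (k : ℝ) + 1 ≤ K := by exact_mod_cast h
            rw [abs_of_neg (by rw [hs]; linarith), hs]; linarith
          · have : (K : ℝ) + 2 ≤ k := by exact_mod_cast (by omega : K + 2 ≤ k)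
            rw [abs_of_pos (by rw [hs]; linarith), hs]; linarith
        have h4 : |(k : ℝ) - s| ≤ |(k : ℝ) - s| ^ 2 := by nlinarith
        rwa [sq_abs] at h4)
    have h3 := series_eval (-u) (n + 2) _ Q1 hps1 h1
    have h5 : ((K : ℝ) - s) = -(1 / 2) := by rw [hs]; ring
    have h6 : (((K + 1 : ℕ) : ℝ) - s) = 1 / 2 := by rw [hs]; push_cast; ring
    simp only [h5, h6] at h2
    rw [← h3]
    have hT1 := T_pos n hd.u0 K
    have hT2 := T_pos n hd.u0 (K + 1)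
    have h7 := abs_le.1 h2
    set Sm := ∑' k : ℕ, ((k : ℝ) - s) * ((k : ℝ) + 1 / 2) ^ n * (-u) ^ k with hSm
    have hpos : (0 : ℝ) < (1 - -u) ^ (n + 2) := by
      have := hd.u0
      have : (0 : ℝ) < 1 - -u := by linarith
      positivity
    have h8 : 0 < (-1 : ℝ) ^ (K + 1) * Sm := by
      rw [pow_succ]
      rcases neg_one_pow_eq_or ℝ K with h | h <;> rw [h] at h7 ⊢ <;> linarith [h7.1, h7.2]
    have h9 := mul_pos hpos h8
    linarith
  have hsign2 : ∀ u, Dom n K (1 / 100) u →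
      |Q2.eval (-u) / (1 - -u) ^ (n + 3) - (-1) ^ K * (1 / 4 * T n u K - 1 / 4 * T n u (K + 1))|
      ≤ (T n u K + T n u (K + 1)) * (1 / 24) := by
    intro u hd
    obtain ⟨h1, h2⟩ := weighted hd (fun k => ((k : ℝ) - s) ^ 2) (fun k => Or.inl (by
      rw [abs_of_nonneg (sq_nonneg _)]))
    have h3 := series_eval (-u) (n + 3) _ Q2 hps2 (h1.congr fun k => by ring)
    have h5 : ((K : ℝ) - s) ^ 2 = 1 / 4 := by rw [hs]; ring
    have h6 : (((K + 1 : ℕ) : ℝ) - s) ^ 2 = 1 / 4 := by rw [hs]; push_cast; ring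
    simp only [h5, h6] at h2
    have hpos : (0 : ℝ) < (1 - -u) ^ (n + 3) := by
      have := hd.u0
      have : (0 : ℝ) < 1 - -u := by linarith
      positivity
    rw [← h3, mul_div_assoc, mul_comm, div_mul_cancel₀ _ hpos.ne']
    convert h2 using 3
    refine tsum_congr fun k => ?_
    ring
  have hA : 0 < (-1 : ℝ) ^ K * Q2.eval (-σ) := by
    have hd := hdom σ le_rfl hσσ'.le
    have h1 := abs_le.1 (hsign2 σ hd)
    have hT1 := T_pos n hd.u0 K
    have hT2 := T_pos n hd.u0 (K + 1)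
    have hpos : (0 : ℝ) < (1 - -σ) ^ (n + 3) := by
      have : (0 : ℝ) < 1 - -σ := by linarith
      positivity
    set y := Q2.eval (-σ) / (1 - -σ) ^ (n + 3) with hy
    have h2 : 0 < (-1 : ℝ) ^ K * y := by
      rcases neg_one_pow_eq_or ℝ K with h | h <;> rw [h] at h1 ⊢ <;> linarith [h1.1, h1.2]
    have h3 : Q2.eval (-σ) = y * (1 - -σ) ^ (n + 3) := by
      rw [hy, div_mul_cancel₀ _ hpos.ne']
    rw [h3, ← mul_assoc]
    exact mul_pos h2 hpos
  have hB : 0 < (-1 : ℝ) ^ (K + 1) * Q2.eval (-σ') := by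
    have hd := hdom σ' hσσ'.le le_rfl
    have h1 := abs_le.1 (hsign2 σ' hd)
    have hT1 := T_pos n hd.u0 K
    have hT2 := T_pos n hd.u0 (K + 1)
    have hpos : (0 : ℝ) < (1 - -σ') ^ (n + 3) := by
      have : (0 : ℝ) < 1 - -σ' := by linarith
      positivity
    set y := Q2.eval (-σ') / (1 - -σ') ^ (n + 3) with hy
    have h2 : 0 < (-1 : ℝ) ^ (K + 1) * y := by
      rw [pow_succ]
      rcases neg_one_pow_eq_or ℝ K with h | h <;> rw [h] at h1 ⊢ <;> linarith [h1.1, h1.2]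
    have h3 : Q2.eval (-σ') = y * (1 - -σ') ^ (n + 3) := by
      rw [hy, div_mul_cancel₀ _ hpos.ne']
    rw [h3, ← mul_assoc]
    exact mul_pos h2 hpos
  -- alternation
  obtain ⟨p, hp0, hpinc, hps⟩ := alt_pos n s (by linarith) (Bh n) (Bh_deg n) (Bh_alt n)
  set f : ℝ → ℝ := fun u => Q1.eval (-u) with hf
  have hfs : ∀ u, σ ≤ u → u ≤ σ' → 0 < f σ * f u := by
    intro u hu1 hu2
    have h1 := hsign1 σ le_rfl hσσ'.le
    have h2 := hsign1 u hu1 hu2
    have h3 := mul_pos h1 h2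
    have h4 : (-1 : ℝ) ^ (K + 1) * Q1.eval (-σ) * ((-1) ^ (K + 1) * Q1.eval (-u))
        = ((-1 : ℝ) ^ (K + 1) * (-1) ^ (K + 1)) * (f σ * f u) := by rw [hf]; ring
    rw [h4, neg_one_sq, one_mul] at h3
    exact h3
  have hneg : ∀ x, 0 < x → ∃ y, 0 < y ∧ y < x ∧ f y < 0 := by
    intro x hx
    have hcont : Continuous f := Q1.continuous.comp continuous_neg
    have h0 : f 0 < 0 := by
      rw [hf]; dsimp only
      rw [neg_zero, hQ10]
      have : 0 < s * (1 / 2) ^ n := by positivity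
      linarith
    have h1 : ∀ᶠ y in 𝓝[>] (0 : ℝ), f y < 0 :=
      (hcont.tendsto 0).eventually (gt_mem_nhds h0) |>.filter_mono nhdsWithin_le_nhds
    obtain ⟨y, hy1, hy2⟩ := (h1.and (Ioo_mem_nhdsGT hx)).exists
    exact ⟨y, hy2.1, hy2.2, hy1⟩
  have hfσ : f σ ≠ 0 := by
    intro h
    have := hfs σ le_rfl hσσ'.le
    rw [h, zero_mul] at this
    exact lt_irrefl _ this
  obtain ⟨a, b, hab, hup, hfrom⟩ := split_at f hneg p n hp0 hpinc (fun i hi => by
    have := hps i hi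
    rw [hf]; dsimp only
    linarith) σ hσ0 hfσ
  have hfrom' := from_move f b hσσ'.le hfs hfrom
  have hpar : (-1 : ℝ) ^ a = (-1) ^ K := by
    obtain ⟨r, -, -, hra, hrs⟩ := hup
    have h1 := hrs a le_rfl
    rw [hra] at h1
    have h2 := hsign1 σ le_rfl hσσ'.le
    rw [pow_succ] at h2
    change 0 < -(-1 : ℝ) ^ a * Q1.eval (-σ) at h1
    rcases neg_one_pow_eq_or ℝ a with h | h <;> rcases neg_one_pow_eq_or ℝ K with h' | h' <;>
      rw [h] at h1 ⊢ <;> rw [h'] at h2 ⊢ <;> linarith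
  have halt := assemble (n + 1) s (by linarith) Q1 hdeg1 a b hσ0 hσσ' hup hfrom'
    (hfs σ' hσσ'.le le_rfl) (by rw [hpar]; exact hA)
    (by rw [pow_succ, hpar, ← pow_succ]; exact hB)
  obtain ⟨R, hR1, hR2, hR3⟩ := roots_of_alt Q2 (a + b + 2) (n + 2) (by omega) halt
  have h1 := tps_of_roots Q2 (n + 2) hdeg2 R hR1 hR2 hR3 (by rw [hQ20]; positivity)
  rw [hQ2, ← hps2] at h1
  have h2 := (tps_int_pow _ _ h1).isTP
  intro k r c hr hc
  have h3 := h2 k r c hr hc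
  simpa only [PowerSeries.coeff_mk] using h3

end Pool.Agent.Q198.TP
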