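import Mathlib

set_option autoImplicit false

/-!
# Helpers on the weak topology of a real normed space
-/

namespace Pool.Agent.Q198.Weak

open Filter Topology

/-- `W` is a relatively weakly open subset of the closed unit ball of `X`. -/
def RelWeaklyOpen {X : Type*} [NormedAddCommGroup X] [NormedSpace ℝ X] (W : Set X) : Prop :=
  ∃ U : Set (WeakSpace ℝ X), IsOpen U ∧ W = {y | ‖y‖ ≤ 1 ∧ toWeakSpace ℝ X y ∈ U}

variable {X : Type*} [NormedAddCommGroup X] [NormedSpace ℝ X]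

lemma continuous_eval (f : X →L[ℝ] ℝ) :
    Continuous fun y : WeakSpace ℝ X => f ((toWeakSpace ℝ X).symm y) :=
  WeakBilin.eval_continuous (topDualPairing ℝ X).flip f

lemma tendsto_weak {ι : Type*} {l : Filter ι} {y : ι → X} {y₀ : X}
    (h : ∀ f : X →L[ℝ] ℝ, Tendsto (fun n => f (y n)) l (𝓝 (f y₀))) :
    Tendsto (fun n => toWeakSpace ℝ X (y n)) l (𝓝 (toWeakSpace ℝ X y₀)) := by
  have hinj : Function.Injective (topDualPairing ℝ X).flip := by
    intro a b hab
    by_contra hne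
    obtain ⟨f, hf⟩ := exists_dual_vector ℝ (a - b) (by
      rw [norm_ne_zero_iff]; exact sub_ne_zero.2 hne)
    have h1 : f a = f b := by
      have := LinearMap.congr_fun hab f
      exact this
    have h2 : f (a - b) = 0 := by rw [map_sub, h1, sub_self]
    rw [hf.2] at h2
    exact hne (sub_eq_zero.1 (by simpa using h2))
  exact (WeakBilin.tendsto_iff_forall_eval_tendsto _ hinj).2 h

lemma eventually_mem {W : Set X} (hW : RelWeaklyOpen W) {ι : Type*} {l : Filter ι} {y : ι → X}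
    {y₀ : X} (hy₀ : y₀ ∈ W) (hy : ∀ᶠ n in l, ‖y n‖ ≤ 1)
    (h : ∀ f : X →L[ℝ] ℝ, Tendsto (fun n => f (y n)) l (𝓝 (f y₀))) :
    ∀ᶠ n in l, y n ∈ W := by
  obtain ⟨U, hU, rfl⟩ := hW
  filter_upwards [(tendsto_weak h).eventually (hU.mem_nhds hy₀.2), hy] with n h1 h2
  exact ⟨h2, h1⟩

/-- Weakly unconditionally Cauchy sequences: bounded signed sums make `f (E n)` summable. -/
lemma wuc_summable {E : ℕ → X} {C : ℝ}
    (h : ∀ (F : Finset ℕ) (ε : ℕ → ℝ), (∀ n, |ε n| ≤ 1) → ‖∑ n ∈ F, ε n • E n‖ ≤ C)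
    (f : X →L[ℝ] ℝ) : Summable fun n => |f (E n)| := by
  refine summable_of_sum_le (c := ‖f‖ * C) (fun n => abs_nonneg _) fun F => ?_
  let ε : ℕ → ℝ := fun n => SignType.sign (f (E n))
  have hε : ∀ n, |ε n| ≤ 1 := by
    intro n
    simp only [ε]
    rcases lt_trichotomy (f (E n)) 0 with h | h | h
    · rw [sign_neg h]; simp
    · rw [h, sign_zero]; simp
    · rw [sign_pos h]; simp
  have h1 : ∑ n ∈ F, |f (E n)| = f (∑ n ∈ F, ε n • E n) := by
    rw [map_sum]
    refine Finset.sum_congr rfl fun n _ => ?_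
    rw [map_smul, smul_eq_mul]
    exact (sign_mul_self (f (E n))).symm
  rw [h1]
  refine (Real.le_norm_self _).trans ((f.le_opNorm _).trans ?_)
  exact mul_le_mul_of_nonneg_left (h F ε hε) (norm_nonneg _)

lemma wuc_tendsto {E : ℕ → X} {C : ℝ}
    (h : ∀ (F : Finset ℕ) (ε : ℕ → ℝ), (∀ n, |ε n| ≤ 1) → ‖∑ n ∈ F, ε n • E n‖ ≤ C)
    (f : X →L[ℝ] ℝ) : Tendsto (fun n => f (E n)) atTop (𝓝 0) := by
  have h1 := (wuc_summable h f).tendsto_atTop_zero
  exact (tendsto_zero_iff_abs_tendsto_zero _).2 h1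

end Pool.Agent.Q198.Weak
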