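import Pool.Agent.Q198.Weak

set_option autoImplicit false

/-!
# Basic neighbourhoods for the weak topology
-/

namespace Pool.Agent.Q198.Weak

open Filter Topology

variable {X : Type*} [NormedAddCommGroup X] [NormedSpace ℝ X]

/-- Basic weak neighbourhoods. -/
lemma exists_basic {U : Set (WeakSpace ℝ X)} (hU : IsOpen U) {x₀ : X}
    (hx₀ : toWeakSpace ℝ X x₀ ∈ U) :
    ∃ (F : Finset (X →L[ℝ] ℝ)) (ε : ℝ), 0 < ε ∧
      ∀ x : X, (∀ f ∈ F, |f x - f x₀| < ε) → toWeakSpace ℝ X x ∈ U := by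
  classical
  have hind : ∃ V : Set ((X →L[ℝ] ℝ) → ℝ), IsOpen V ∧
      (fun (x : WeakSpace ℝ X) (f : X →L[ℝ] ℝ) => f ((toWeakSpace ℝ X).symm x)) ⁻¹' V = U :=
    isOpen_induced_iff.1 hU
  obtain ⟨V, hV, rfl⟩ := hind
  rw [isOpen_pi_iff] at hV
  obtain ⟨F, u, hu, hsub⟩ := hV _ hx₀
  have hball : ∀ f ∈ F, ∃ ε : ℝ, 0 < ε ∧ Metric.ball (f x₀) ε ⊆ u f := by
    intro f hf
    exact Metric.isOpen_iff.1 (hu f hf).1 _ (hu f hf).2
  choose! e he1 he2 using hball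
  by_cases hne : F.Nonempty
  · refine ⟨F, F.inf' hne e, (Finset.lt_inf'_iff _).2 fun f hf => he1 f hf, fun x hx => ?_⟩
    apply hsub
    intro f hf
    apply he2 f hf
    rw [Metric.mem_ball, Real.dist_eq]
    exact (hx f hf).trans_le (Finset.inf'_le _ hf)
  · rw [Finset.not_nonempty_iff_eq_empty] at hne
    subst hne
    refine ⟨∅, 1, one_pos, fun x _ => ?_⟩
    apply hsub
    intro f hf
    exact absurd hf (by simp)

end Pool.Agent.Q198.Weak
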